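import Pool.Agent.Lib.H44T.TDefs

/-!
# Chunk A1 (M): nice graphs

* `nice_mono`: directly from the definition.
* `nice_closable`: `H ≤ H'` gives `Closable H'` (`closable_mono`), then `exists_near` and `lat_closable`.
* `nice_step`: let `H ≤ H'`. If `H'.Adj a b` then `addG H a b ≤ H'`. Otherwise
  `addG H a b ≤ addG H' a b` (as in the proof of `closable_mono` in `H44O/D1`), so both properties hold for
  `addG H' a b`; `nb` is monotone, so `near_step` (with `u, v := a, b`) gives `NearP H'` and `lat_descend` gives
  `LatP H'` (a vector supported on `H'` is supported on `addG H' a b` and vanishes at `a b`).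
* `nice_of`: strong induction on the number of pairs `(u, v)` with `u ≠ v`, `¬ H.Adj u v`, as `closable_of` in
  `H44O/D1`.
-/

namespace Pool.Agent.H44T

open Finset Pool.Agent.H44O
open scoped Classical

variable {V : Type*} [Fintype V]

theorem nice_mono {H H' : SimpleGraph V} (h : H ≤ H') (hn : Nice H) : Nice H' := by
  exact fun H'' hH => hn H'' (h.trans hH)

theorem nice_closable (hV : Even (Fintype.card V)) {H : SimpleGraph V} (hc : Closable H) :
    Nice H := by
  intro H' hH
  have hc' : Closable H' := closable_mono hH hc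
  exact ⟨fun a b hab => exists_near hV hc' hab, fun y ρ hs h0 hH' => lat_closable hV hc' hs h0 hH'⟩

theorem nice_step {H : SimpleGraph V} {a b : V} (hab : a ≠ b) (hn : ¬ H.Adj a b)
    (hd : Fintype.card V + 1 ≤ nb H a + nb H b) (h : Nice (addG H a b)) : Nice H := by
  intro H' hH
  by_cases hadj : H'.Adj a b
  · refine h H' fun u v huv => ?_
    rcases huv with huv | ⟨-, ⟨rfl, rfl⟩ | ⟨rfl, rfl⟩⟩
    · exact hH huv
    · exact hadj
    · exact hadj.symm
  · have hle : addG H a b ≤ addG H' a b := by
      intro u v huv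
      rcases huv with huv | huv
      · exact Or.inl (hH huv)
      · exact Or.inr huv
    have hd' : Fintype.card V + 1 ≤ nb H' a + nb H' b :=
      hd.trans (add_le_add (nb_mono hH a) (nb_mono hH b))
    obtain ⟨h1, h2⟩ := h _ hle
    refine ⟨fun c e hce => ?_, fun y ρ hs h0 hy => ?_⟩
    · obtain ⟨τ, hτ⟩ := h1 c e hce
      exact near_step hce hab hadj hd' hτ
    · refine lat_descend hab hadj hd' (h2 y ρ hs h0 fun u v huv => Or.inl (hy u v huv)) ?_
      by_contra h3
      exact hadj (hy a b h3)

theorem nice_of (H : SimpleGraph V)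
    (h : ∀ H' : SimpleGraph V, H ≤ H' → Nice H' ∨
      ∃ a b, a ≠ b ∧ ¬ H'.Adj a b ∧ Fintype.card V + 1 ≤ nb H' a + nb H' b) : Nice H := by
  induction hn : (univ.filter (fun p : V × V => p.1 ≠ p.2 ∧ ¬ H.Adj p.1 p.2)).card using
    Nat.strong_induction_on generalizing H with
  | _ n ih =>
    rcases h H le_rfl with h0 | ⟨a, b, hab, hna, hd⟩
    · exact h0
    · refine nice_step hab hna hd (ih _ ?_ (addG H a b) ?_ rfl)
      · rw [← hn]
        refine card_lt_card ?_
        rw [Finset.ssubset_iff_of_subset]
        · refine ⟨(a, b), by simp [hab, hna], ?_⟩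
          rw [mem_filter]
          rintro ⟨-, -, h2⟩
          exact h2 (Or.inr ⟨hab, Or.inl ⟨rfl, rfl⟩⟩)
        · intro p hp
          rw [mem_filter] at hp ⊢
          exact ⟨hp.1, hp.2.1, fun h2 => hp.2.2 (Or.inl h2)⟩
      · intro H' hH'
        exact h H' ((le_addG H a b).trans hH')

end Pool.Agent.H44T
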