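import Pool.Agent.Lib.H44T.A1

/-!
# Chunk A2 (M): the decomposition theorem for nice graphs

Copy the files `H44O/E1`, `E2`, `E3`, `E4` (theorems `core_base`, `core`, `core_uniform`, `decomposition`) and
replace `Closable` by `Nice`: `lat_closable` by the second property of `Nice` (for `H' = H`), `exists_near` by the
first, `closable_mono` by `nice_mono`. The auxiliary lemmas of `E4` (`e4_rem`, `e4_heavy`, `e4_cut`, ...) do not
mention `Closable` and can be cited.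
-/

namespace Pool.Agent.H44T

open Finset Pool.Agent.H44O
open scoped Classical

variable {V : Type*} [Fintype V]

theorem a2_core_base (hV : Even (Fintype.card V)) {𝓜 : Finset (Equiv.Perm V)}
    (h𝓜 : ∀ τ ∈ 𝓜, IsPM τ)
    (hcut : ∀ U : Finset V, Odd U.card → 3 ≤ U.card → U.card + 3 ≤ Fintype.card V →
      (𝓜.card : ℤ) + 1 ≤ cutW (sig 𝓜) U)
    (hcl : Nice (heavy (sig 𝓜) 1)) {b : V → V → ℤ} {ρ : ℤ} (hb : IsW b)
    (hr : ∀ u, dg b u = ρ) (hs : ∀ u v, b u v ≠ 0 → (heavy (sig 𝓜) 1).Adj u v) :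
    ∃ T : ℕ, Dec (b + T • sig 𝓜) := by
  have key : ∀ y ∈ lat (heavy (sig 𝓜) 1), (∃ T : ℕ, Dec (y + T • sig 𝓜)) ∧
      ∃ T : ℕ, Dec (-y + T • sig 𝓜) := by
    intro y hy
    refine AddSubgroup.closure_induction (p := fun y _ => (∃ T : ℕ, Dec (y + T • sig 𝓜)) ∧
      ∃ T : ℕ, Dec (-y + T • sig 𝓜)) ?_ ?_ ?_ ?_ hy
    · rintro _ ⟨τ, hτ, hadj, rfl⟩
      refine ⟨⟨0, ?_⟩, ?_⟩
      · rw [zero_smul, add_zero]
        exact dec_chi hτ
      · obtain ⟨T, hT⟩ := exists_sub_dec hV h𝓜 hcut hτ hadj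
        refine ⟨T, ?_⟩
        rw [neg_add_eq_sub]
        exact hT
    · refine ⟨⟨0, ?_⟩, ⟨0, ?_⟩⟩
      · rw [zero_smul, add_zero]
        exact dec_zero
      · rw [zero_smul, add_zero, neg_zero]
        exact dec_zero
    · rintro y z - - ⟨⟨T1, h1⟩, ⟨S1, g1⟩⟩ ⟨⟨T2, h2⟩, ⟨S2, g2⟩⟩
      refine ⟨⟨T1 + T2, ?_⟩, ⟨S1 + S2, ?_⟩⟩
      · have e : y + z + (T1 + T2) • sig 𝓜 = (y + T1 • sig 𝓜) + (z + T2 • sig 𝓜) := by
          rw [add_smul]; abel
        rw [e]
        exact dec_add h1 h2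
      · have e : -(y + z) + (S1 + S2) • sig 𝓜 = (-y + S1 • sig 𝓜) + (-z + S2 • sig 𝓜) := by
          rw [add_smul]; abel
        rw [e]
        exact dec_add g1 g2
    · rintro y - ⟨h1, h2⟩
      exact ⟨h2, by rw [neg_neg]; exact h1⟩
  exact (key b ((hcl _ le_rfl).2 b ρ hb.symm hr hs)).1

theorem a2_core (hV : Even (Fintype.card V)) {𝓜 : Finset (Equiv.Perm V)}
    (h𝓜 : ∀ τ ∈ 𝓜, IsPM τ)
    (hcut : ∀ U : Finset V, Odd U.card → 3 ≤ U.card → U.card + 3 ≤ Fintype.card V →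
      (𝓜.card : ℤ) + 1 ≤ cutW (sig 𝓜) U)
    (hcl : Nice (heavy (sig 𝓜) 1)) {b : V → V → ℤ} {ρ : ℤ} (hb : IsW b)
    (hr : ∀ u, dg b u = ρ) : ∃ T : ℕ, Dec (b + T • sig 𝓜) := by
  have hσ : IsW (sig 𝓜) := isW_sig h𝓜
  have key : ∀ n : ℕ, ∀ (b : V → V → ℤ) (ρ : ℤ), IsW b → (∀ u, dg b u = ρ) →
      e2_out (heavy (sig 𝓜) 1) b < n → ∃ T : ℕ, Dec (b + T • sig 𝓜) := by
    intro n
    induction n with
    | zero => exact fun b ρ _ _ h => absurd h (Nat.not_lt_zero _)
    | succ n ih =>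
      intro b ρ hb hr hlt
      by_cases hex : ∃ u v, ¬ (heavy (sig 𝓜) 1).Adj u v ∧ 0 < b u v
      swap
      · refine a2_core_base hV h𝓜 hcut hcl hb hr fun u v huv => ?_
        by_contra hadj
        exact hex ⟨u, v, hadj, lt_of_le_of_ne (hb.nonneg u v) (Ne.symm huv)⟩
      obtain ⟨u, v, hadj, hpos⟩ := hex
      have huv : u ≠ v := fun h => by rw [h, hb.diag] at hpos; exact lt_irrefl _ hpos
      obtain ⟨τ, hτ⟩ := (hcl _ le_rfl).1 u v huv
      obtain ⟨π, hπ, hπu, hπv, hπH⟩ := exists_pm_of_near huv hτ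
      have hout : ∀ x y, ¬ (heavy (sig 𝓜) 1).Adj x y → sig 𝓜 x y = 0 := by
        intro x y h
        by_contra h0
        have h1 : 1 ≤ sig 𝓜 x y := by
          have := hσ.nonneg x y
          omega
        refine h ⟨fun hxy => h0 (by rw [hxy]; exact hσ.diag y), h1, ?_⟩
        rw [hσ.symm]; exact h1
      have hb' : IsW (b + sig 𝓜 - chi π) := by
        refine ⟨fun x y => ?_, fun x => ?_, fun x y => ?_⟩
        · simp only [Pi.sub_apply, Pi.add_apply]
          rw [hb.symm x y, hσ.symm x y, chi_symm hπ.1 x y]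
        · simp only [Pi.sub_apply, Pi.add_apply]
          rw [hb.diag, hσ.diag, chi_diag]
          rfl
        · simp only [Pi.sub_apply, Pi.add_apply]
          have h1 := hb.nonneg x y
          have h2 := hσ.nonneg x y
          rw [chi_pm hπ]
          by_cases hxy : π x = y
          · rw [if_pos hxy]
            by_cases hxu : x = u
            · have hy : y = v := by rw [← hxy, hxu, hπu]
              rw [hxu, hy] at h2 ⊢
              omega
            by_cases hxv : x = v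
            · have hy : y = u := by rw [← hxy, hxv, hπv]
              rw [hxv, hy] at h2 ⊢
              have := hb.symm u v
              omega
            have h3 := (hπH x hxu hxv).2.1
            rw [hxy] at h3
            omega
          · rw [if_neg hxy]
            omega
      have hr' : ∀ x, dg (b + sig 𝓜 - chi π) x = ρ + 𝓜.card - 1 := by
        intro x
        rw [dg_sub, dg_add, hr, dg_sig h𝓜, dg_chi hπ]
      have hterm : ∀ x y, (if (heavy (sig 𝓜) 1).Adj x y then (0 : ℤ)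
          else (b + sig 𝓜 - chi π) x y).toNat ≤
          (if (heavy (sig 𝓜) 1).Adj x y then (0 : ℤ) else b x y).toNat := by
        intro x y
        by_cases h : (heavy (sig 𝓜) 1).Adj x y
        · rw [if_pos h, if_pos h]
        · rw [if_neg h, if_neg h]
          simp only [Pi.sub_apply, Pi.add_apply]
          rw [hout x y h]
          have := chi_nonneg π x y
          omega
      have hlt2 : e2_out (heavy (sig 𝓜) 1) (b + sig 𝓜 - chi π) <
          e2_out (heavy (sig 𝓜) 1) b := by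
        unfold e2_out
        refine sum_lt_sum (fun x _ => sum_le_sum fun y _ => hterm x y) ⟨u, mem_univ _, ?_⟩
        refine sum_lt_sum (fun y _ => hterm u y) ⟨v, mem_univ _, ?_⟩
        rw [if_neg hadj, if_neg hadj]
        simp only [Pi.sub_apply, Pi.add_apply]
        rw [hout u v hadj, chi_pm hπ, if_pos hπu]
        omega
      obtain ⟨T, hT⟩ := ih _ _ hb' hr' (by omega)
      refine ⟨T + 1, ?_⟩
      have e : b + (T + 1) • sig 𝓜 = (b + sig 𝓜 - chi π + T • sig 𝓜) + chi π := by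
        rw [add_smul, one_smul]; abel
      rw [e]
      exact dec_add hT (dec_chi hπ)
  exact key _ b ρ hb hr (Nat.lt_succ_self _)

theorem a2_core_uniform (hV : Even (Fintype.card V)) (B : ℕ) :
    ∃ T : ℕ, 1 ≤ T ∧ ∀ (𝓜 : Finset (Equiv.Perm V)) (b : V → V → ℤ) (ρ : ℤ),
      (∀ τ ∈ 𝓜, IsPM τ) →
      (∀ U : Finset V, Odd U.card → 3 ≤ U.card → U.card + 3 ≤ Fintype.card V →
        (𝓜.card : ℤ) + 1 ≤ cutW (sig 𝓜) U) →
      Nice (heavy (sig 𝓜) 1) → IsW b → (∀ u, dg b u = ρ) → (∀ u v, b u v ≤ B) →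
      Dec (b + T • sig 𝓜) := by
  have hT0 : ∃ T0 : Finset (Equiv.Perm V) × (V → V → Fin (B + 1)) → ℕ,
      ∀ (p : Finset (Equiv.Perm V) × (V → V → Fin (B + 1))),
        (∃ T : ℕ, Dec ((fun u v => ((p.2 u v : ℕ) : ℤ)) + T • sig p.1)) →
        Dec ((fun u v => ((p.2 u v : ℕ) : ℤ)) + T0 p • sig p.1) := by
    refine ⟨fun p => if h : ∃ T : ℕ, Dec ((fun u v => ((p.2 u v : ℕ) : ℤ)) + T • sig p.1) then
      h.choose else 0, fun p h => ?_⟩
    simp only [dif_pos h]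
    exact h.choose_spec
  obtain ⟨T0, hT0⟩ := hT0
  refine ⟨univ.sup T0 + 1, Nat.le_add_left _ _, ?_⟩
  intro 𝓜 b ρ h𝓜 hcut hcl hb hr hB
  let f : V → V → Fin (B + 1) := fun u v => ⟨(b u v).toNat, by
    have := hB u v
    omega⟩
  have hf : (fun u v => (((𝓜, f) : Finset (Equiv.Perm V) × (V → V → Fin (B + 1))).2 u v : ℕ) :
      V → V → ℤ) = b := by
    funext u v
    exact Int.toNat_of_nonneg (hb.nonneg u v)
  have h1 := hT0 (𝓜, f) (by rw [hf]; exact a2_core hV h𝓜 hcut hcl hb hr)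
  rw [hf] at h1
  have hle : T0 (𝓜, f) ≤ univ.sup T0 := le_sup (f := T0) (mem_univ _)
  obtain ⟨k, hk⟩ : ∃ k, univ.sup T0 + 1 = T0 (𝓜, f) + k := ⟨univ.sup T0 + 1 - T0 (𝓜, f), by omega⟩
  have e : b + (univ.sup T0 + 1) • sig 𝓜 = (b + T0 (𝓜, f) • sig 𝓜) + k • sig 𝓜 := by
    rw [hk, add_smul]; abel
  rw [e]
  exact dec_add h1 (dec_nsmul (dec_sig h𝓜) k)

theorem nice_decomposition (hV : Even (Fintype.card V)) :
    ∃ L : ℕ, 1 ≤ L ∧ ∀ (x : V → V → ℤ) (r : ℤ), IsW x → (∀ u, dg x u = r) →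
      (∀ U : Finset V, Odd U.card → 3 ≤ U.card → U.card + 3 ≤ Fintype.card V →
        r + L ≤ cutW x U) →
      Nice (heavy x L) → Dec x := by
  obtain ⟨T, hT1, hT⟩ := a2_core_uniform hV (Fintype.card (Equiv.Perm V))
  refine ⟨T * Fintype.card (Equiv.Perm V) * (Fintype.card V + 1) + 1, by omega, ?_⟩
  intro x r hx hr hcut hcl
  have hLnn : (0 : ℤ) ≤ T * Fintype.card (Equiv.Perm V) * Fintype.card V := by positivity
  have hLnn2 : (0 : ℤ) ≤ T * Fintype.card (Equiv.Perm V) := by positivity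
  have hL : ((T * Fintype.card (Equiv.Perm V) * (Fintype.card V + 1) + 1 : ℕ) : ℤ) =
      T * Fintype.card (Equiv.Perm V) * Fintype.card V + T * Fintype.card (Equiv.Perm V) + 1 := by
    push_cast
    ring
  rw [hL] at hcut hcl
  have hodd := odd_cuts hV hx hr (fun U h1 h2 h3 => by
    have := hcut U h1 h2 h3
    linarith)
  obtain ⟨lam, hl0, hlpm, hlam⟩ := exists_real_dec hx hr hodd
  have hapm : ∀ τ, ⌊lam τ⌋₊ ≠ 0 → IsPM τ := by
    intro τ h
    apply hlpm τ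
    intro h2
    rw [h2] at h
    simp at h
  obtain ⟨b, hb⟩ : ∃ b : V → V → ℤ, ∀ u v, b u v =
      x u v - ∑ τ, ((⌊lam τ⌋₊ : ℕ) : ℤ) * chi τ u v := ⟨_, fun _ _ => rfl⟩
  obtain ⟨M, hM⟩ : ∃ M : Finset (Equiv.Perm V), ∀ τ, τ ∈ M ↔ T ≤ ⌊lam τ⌋₊ :=
    ⟨univ.filter (fun τ => T ≤ ⌊lam τ⌋₊), fun τ => by simp⟩
  have hMpm : ∀ τ ∈ M, IsPM τ := by
    intro τ h
    apply hapm
    have := (hM τ).1 h
    omega
  have hbW : IsW b := by
    refine ⟨?_, ?_, ?_⟩
    · intro u v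
      rw [hb, hb, hx.symm u v]
      congr 1
      refine sum_congr rfl fun τ _ => ?_
      by_cases hz : ⌊lam τ⌋₊ = 0
      · rw [hz]
        simp
      · rw [chi_symm (hapm τ hz).1]
    · intro v
      rw [hb, hx.diag]
      simp [chi_diag]
    · intro u v
      rw [hb]
      exact (e4_rem hl0 hlam u v).1
  have hbr : ∀ u, dg b u = r - ∑ τ, ((⌊lam τ⌋₊ : ℕ) : ℤ) := by
    intro u
    have h1 : dg b u = dg x u - ∑ v, ∑ τ, ((⌊lam τ⌋₊ : ℕ) : ℤ) * chi τ u v := by
      unfold dg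
      rw [← sum_sub_distrib]
      exact sum_congr rfl fun v _ => hb u v
    rw [h1, hr, sum_comm]
    congr 1
    refine sum_congr rfl fun τ _ => ?_
    rw [← mul_sum]
    by_cases hz : ⌊lam τ⌋₊ = 0
    · rw [hz]
      simp
    · have h2 := dg_chi (hapm τ hz) u
      unfold dg at h2
      rw [h2, mul_one]
  have hsig : ∀ u v, T * Fintype.card (Equiv.Perm V) < x u v → 1 ≤ sig M u v := by
    intro u v h
    obtain ⟨τ, h1, h2⟩ := e4_heavy hlam h
    unfold sig
    rw [← h2]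
    exact single_le_sum (fun τ' _ => chi_nonneg τ' u v) ((hM τ).2 h1)
  have hle : heavy x (T * Fintype.card (Equiv.Perm V) * Fintype.card V +
      T * Fintype.card (Equiv.Perm V) + 1) ≤ heavy (sig M) 1 := by
    intro u v huv
    exact ⟨huv.1, hsig u v (by linarith [huv.2.1]), hsig v u (by linarith [huv.2.2])⟩
  have hcl2 := nice_mono hle hcl
  have hcut2 : ∀ U : Finset V, Odd U.card → 3 ≤ U.card → U.card + 3 ≤ Fintype.card V →
      (M.card : ℤ) + 1 ≤ cutW (sig M) U := by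
    intro U h1 h2 h3
    obtain ⟨τ, h4, h5⟩ := e4_cut (T := T) hr hl0 hlpm hlam h1 (by
      have := hcut U h1 h2 h3
      linarith)
    rw [cut_sig]
    have h6 : ∑ _τ ∈ M, (1 : ℤ) < ∑ τ ∈ M, cutW (chi τ) U := by
      refine sum_lt_sum (fun τ' h => cut_chi_pos (hMpm τ' h) h1) ⟨τ, (hM τ).2 h4, ?_⟩
      omega
    rw [sum_const, nsmul_eq_mul, mul_one] at h6
    omega
  have hdec1 := hT M b _ hMpm hcut2 hcl2 hbW hbr (fun u v => by
    rw [hb]
    exact (e4_rem hl0 hlam u v).2)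
  have hdec2 : Dec (∑ τ : Equiv.Perm V,
      (⌊lam τ⌋₊ - (if τ ∈ M then T else 0)) • chi τ) := by
    refine dec_sum univ _ fun τ _ => ?_
    by_cases hz : ⌊lam τ⌋₊ = 0
    · rw [hz, Nat.zero_sub, zero_smul]
      exact dec_zero
    · exact dec_nsmul (dec_chi (hapm τ hz)) _
  have hdec := dec_add hdec1 hdec2
  have heq : x = b + T • sig M + ∑ τ : Equiv.Perm V,
      (⌊lam τ⌋₊ - (if τ ∈ M then T else 0)) • chi τ := by
    funext u v
    simp only [Pi.add_apply, Pi.smul_apply, Finset.sum_apply, sig]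
    simp only [nsmul_eq_mul]
    rw [hb]
    have h1 : ∀ τ : Equiv.Perm V, ((⌊lam τ⌋₊ - (if τ ∈ M then T else 0) : ℕ) : ℤ) * chi τ u v =
        ((⌊lam τ⌋₊ : ℕ) : ℤ) * chi τ u v - (if τ ∈ M then (T : ℤ) * chi τ u v else 0) := by
      intro τ
      by_cases h : τ ∈ M
      · rw [if_pos h, if_pos h, Nat.cast_sub ((hM τ).1 h)]
        ring
      · rw [if_neg h, if_neg h, Nat.sub_zero, sub_zero]
    rw [sum_congr rfl fun τ _ => h1 τ, sum_sub_distrib, sum_ite_mem, univ_inter, ← mul_sum]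
    ring
  rw [heq]
  exact hdec

end Pool.Agent.H44T
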