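import Pool.Agent.Lib.H44T.TDefs
import Pool.Agent.Lib.H44O.D2

/-!
# Chunk B1 (M): building matchings in two cliques

`W1 = C \ R \ range c`, `W2 = Cᶜ \ R \ range d`; both are even (`c`, `d` injective, values in `C \ R` and
`Cᶜ \ R`). `ρ1`, `ρ2` from `exists_invol`. Define `f v := v` on `R`; `c i ↦ d i`, `d i ↦ c i`; `ρ1` on `W1`, `ρ2` on
`W2`. It is an involution (`Function.Involutive.toPerm`). `ρ1` maps `W1` to itself without fixed points (if
`v ∈ W1` then `ρ1 v ≠ v`, and `ρ1 (ρ1 v) = v ≠ ρ1 v`, so `ρ1 v ∈ W1`).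
-/

namespace Pool.Agent.H44T

open Finset Pool.Agent.H44O
open scoped Classical

variable {V : Type*} [Fintype V]

theorem b1_move {W : Finset V} {ρ : Equiv.Perm V} (a1 : ∀ v, ρ (ρ v) = v)
    (a2 : ∀ v, ρ v ≠ v ↔ v ∈ W) {v : V} (hv : v ∈ W) : ρ v ∈ W := by
  refine (a2 (ρ v)).1 ?_
  rw [a1]
  exact ((a2 v).2 hv).symm

theorem b1_fix {W : Finset V} {ρ : Equiv.Perm V}
    (a2 : ∀ v, ρ v ≠ v ↔ v ∈ W) {v : V} (hv : v ∉ W) : ρ v = v := by
  by_contra h
  exact hv ((a2 v).1 h)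

theorem b1_zero {H : SimpleGraph V} {C R : Finset V} (hC : TwoC H C)
    (e1 : Even (C \ R).card) (e2 : Even (Cᶜ \ R).card) :
    ∃ τ : Equiv.Perm V, (∀ v, τ (τ v) = v) ∧ (∀ v, τ v = v ↔ v ∈ R) ∧
      (∀ v, v ∉ R → H.Adj v (τ v)) ∧ ∀ v, (v ∈ C ↔ τ v ∈ C) := by
  obtain ⟨ρ1, a1, a2⟩ := exists_invol (C \ R) e1
  obtain ⟨ρ2, b1, b2⟩ := exists_invol (Cᶜ \ R) e2
  have v1 : ∀ v, v ∈ C → v ∉ R → (ρ1 * ρ2) v = ρ1 v ∧ ρ1 v ∈ C ∧ ρ1 v ∉ R ∧ ρ1 v ≠ v := by
    intro v hv hR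
    have h1 : v ∈ C \ R := mem_sdiff.2 ⟨hv, hR⟩
    have h2 : ρ2 v = v := b1_fix b2 (by simp [hv])
    have h3 := mem_sdiff.1 (b1_move a1 a2 h1)
    exact ⟨by rw [Equiv.Perm.mul_apply, h2], h3.1, h3.2, (a2 v).2 h1⟩
  have v2 : ∀ v, v ∉ C → v ∉ R → (ρ1 * ρ2) v = ρ2 v ∧ ρ2 v ∉ C ∧ ρ2 v ∉ R ∧ ρ2 v ≠ v := by
    intro v hv hR
    have h1 : v ∈ Cᶜ \ R := mem_sdiff.2 ⟨mem_compl.2 hv, hR⟩
    have h3 := mem_sdiff.1 (b1_move b1 b2 h1)
    have h4 : ρ2 v ∉ C := mem_compl.1 h3.1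
    have h2 : ρ1 (ρ2 v) = ρ2 v := b1_fix a2 (by simp [h4])
    exact ⟨by rw [Equiv.Perm.mul_apply, h2], h4, h3.2, (b2 v).2 h1⟩
  have v3 : ∀ v, v ∈ R → (ρ1 * ρ2) v = v := by
    intro v hv
    have h2 : ρ2 v = v := b1_fix b2 (by simp [hv])
    have h3 : ρ1 v = v := b1_fix a2 (by simp [hv])
    rw [Equiv.Perm.mul_apply, h2, h3]
  refine ⟨ρ1 * ρ2, ?_, ?_, ?_, ?_⟩
  · intro v
    by_cases hR : v ∈ R
    · rw [v3 v hR, v3 v hR]
    · by_cases hv : v ∈ C
      · obtain ⟨g1, g2, g3, _⟩ := v1 v hv hR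
        rw [g1, (v1 _ g2 g3).1, a1]
      · obtain ⟨g1, g2, g3, _⟩ := v2 v hv hR
        rw [g1, (v2 _ g2 g3).1, b1]
  · intro v
    refine ⟨fun h => ?_, v3 v⟩
    by_contra hR
    by_cases hv : v ∈ C
    · obtain ⟨g1, _, _, g4⟩ := v1 v hv hR
      exact g4 (g1.symm.trans h)
    · obtain ⟨g1, _, _, g4⟩ := v2 v hv hR
      exact g4 (g1.symm.trans h)
  · intro v hR
    by_cases hv : v ∈ C
    · obtain ⟨g1, g2, _, g4⟩ := v1 v hv hR
      rw [g1]
      exact hC v _ (Ne.symm g4) (by simp [hv, g2])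
    · obtain ⟨g1, g2, _, g4⟩ := v2 v hv hR
      rw [g1]
      exact hC v _ (Ne.symm g4) (by simp [hv, g2])
  · intro v
    by_cases hR : v ∈ R
    · rw [v3 v hR]
    · by_cases hv : v ∈ C
      · obtain ⟨g1, g2, _, _⟩ := v1 v hv hR
        rw [g1]
        simp [hv, g2]
      · obtain ⟨g1, g2, _, _⟩ := v2 v hv hR
        rw [g1]
        simp [hv, g2]

theorem b1_swap_invol {τ : Equiv.Perm V} (h : ∀ v, τ (τ v) = v) {p q : V} (hp : τ p = p)
    (hq : τ q = q) : (∀ v, (τ * Equiv.swap p q) ((τ * Equiv.swap p q) v) = v) ∧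
    (∀ u, (τ * Equiv.swap p q) u = if u = p then q else if u = q then p else τ u) := by
  have val : ∀ u, (τ * Equiv.swap p q) u = if u = p then q else if u = q then p else τ u := by
    intro u
    rw [Equiv.Perm.mul_apply]
    by_cases h1 : u = p
    · subst h1
      rw [Equiv.swap_apply_left, if_pos rfl, hq]
    · by_cases h2 : u = q
      · subst h2
        rw [Equiv.swap_apply_right, if_neg h1, if_pos rfl, hp]
      · rw [Equiv.swap_apply_of_ne_of_ne h1 h2, if_neg h1, if_neg h2]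
  refine ⟨?_, val⟩
  intro v
  simp only [Equiv.Perm.mul_apply]
  by_cases h1 : v = p
  · subst h1
    rw [Equiv.swap_apply_left, hq, Equiv.swap_apply_right, hp]
  · by_cases h2 : v = q
    · subst h2
      rw [Equiv.swap_apply_right, hp, Equiv.swap_apply_left, hq]
    · rw [Equiv.swap_apply_of_ne_of_ne h1 h2, Equiv.swap_apply_of_ne_of_ne, h]
      · intro h3
        apply h1
        rw [← h v, h3, hp]
      · intro h3
        apply h2
        rw [← h v, h3, hq]

theorem build {k : ℕ} {H : SimpleGraph V} {C R : Finset V} (hC : TwoC H C) {c d : Fin k → V}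
    (ic : Function.Injective c) (id : Function.Injective d)
    (h : ∀ i, c i ∈ C ∧ c i ∉ R ∧ d i ∉ C ∧ d i ∉ R ∧ H.Adj (c i) (d i))
    (e1 : Even ((C \ R).card + k)) (e2 : Even ((Cᶜ \ R).card + k)) :
    ∃ τ : Equiv.Perm V, (∀ v, τ (τ v) = v) ∧ (∀ v, τ v = v ↔ v ∈ R) ∧ (∀ i, τ (c i) = d i) ∧
      (∀ v, v ∉ R → H.Adj v (τ v)) ∧
      ∀ v, (v ∈ C ↔ τ v ∈ C) ∨ ∃ i, v = c i ∨ v = d i := by
  induction k generalizing R with
  | zero =>
    obtain ⟨τ, h1, h2, h3, h4⟩ := b1_zero hC (R := R) (by simpa using e1) (by simpa using e2)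
    exact ⟨τ, h1, h2, fun i => i.elim0, h3, fun v => Or.inl (h4 v)⟩
  | succ k ih =>
    set p := c (Fin.last k) with hp
    set q := d (Fin.last k) with hq
    obtain ⟨hpC, hpR, hqC, hqR, hpq⟩ := h (Fin.last k)
    rw [← hp] at hpC hpR hpq
    rw [← hq] at hqC hqR hpq
    have hne : p ≠ q := fun hh => hqC (hh ▸ hpC)
    have c1 : (C \ R).card = (C \ insert p (insert q R)).card + 1 := by
      have e : C \ insert p (insert q R) = (C \ R).erase p := by
        ext v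
        simp only [mem_sdiff, mem_insert, mem_erase, not_or]
        constructor
        · rintro ⟨g1, g2, _, g4⟩
          exact ⟨g2, g1, g4⟩
        · rintro ⟨g2, g1, g4⟩
          exact ⟨g1, g2, fun hh => hqC (hh ▸ g1), g4⟩
      rw [e, card_erase_of_mem (mem_sdiff.2 ⟨hpC, hpR⟩)]
      have : 0 < (C \ R).card := card_pos.2 ⟨p, mem_sdiff.2 ⟨hpC, hpR⟩⟩
      omega
    have c2 : (Cᶜ \ R).card = (Cᶜ \ insert p (insert q R)).card + 1 := by
      have e : Cᶜ \ insert p (insert q R) = (Cᶜ \ R).erase q := by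
        ext v
        simp only [mem_sdiff, mem_insert, mem_erase, not_or, mem_compl]
        constructor
        · rintro ⟨g1, _, g3, g4⟩
          exact ⟨g3, g1, g4⟩
        · rintro ⟨g3, g1, g4⟩
          exact ⟨g1, fun hh => g1 (hh ▸ hpC), g3, g4⟩
      have hm : q ∈ Cᶜ \ R := mem_sdiff.2 ⟨mem_compl.2 hqC, hqR⟩
      rw [e, card_erase_of_mem hm]
      have : 0 < (Cᶜ \ R).card := card_pos.2 ⟨q, hm⟩
      omega
    obtain ⟨τ, t1, t2, t3, t4, t5⟩ := ih (R := insert p (insert q R))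
      (c := fun i => c i.castSucc) (d := fun i => d i.castSucc)
      (fun i j hij => Fin.castSucc_injective k (ic hij))
      (fun i j hij => Fin.castSucc_injective k (id hij))
      (fun i => by
        obtain ⟨g1, g2, g3, g4, g5⟩ := h i.castSucc
        have n1 : c i.castSucc ≠ p := fun hh => (Fin.castSucc_lt_last i).ne (ic hh)
        have n2 : d i.castSucc ≠ q := fun hh => (Fin.castSucc_lt_last i).ne (id hh)
        have n3 : c i.castSucc ≠ q := fun hh => hqC (hh ▸ g1)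
        have n4 : d i.castSucc ≠ p := fun hh => g3 (hh ▸ hpC)
        refine ⟨g1, ?_, g3, ?_, g5⟩
        · simp only [mem_insert, not_or]
          exact ⟨n1, n3, g2⟩
        · simp only [mem_insert, not_or]
          exact ⟨n4, n2, g4⟩)
      (by
        rw [c1] at e1
        obtain ⟨m, hm⟩ := e1
        exact ⟨m - 1, by omega⟩)
      (by
        rw [c2] at e2
        obtain ⟨m, hm⟩ := e2
        exact ⟨m - 1, by omega⟩)
    have tp : τ p = p := (t2 p).2 (by simp)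
    have tq : τ q = q := (t2 q).2 (by simp)
    obtain ⟨s1, s2⟩ := b1_swap_invol t1 tp tq
    refine ⟨τ * Equiv.swap p q, s1, ?_, ?_, ?_, ?_⟩
    · intro v
      rw [s2]
      by_cases g1 : v = p
      · rw [if_pos g1, g1]
        exact ⟨fun hh => absurd hh.symm hne, fun hh => absurd hh hpR⟩
      · by_cases g2 : v = q
        · rw [if_neg g1, if_pos g2, g2]
          exact ⟨fun hh => absurd hh hne, fun hh => absurd hh hqR⟩
        · rw [if_neg g1, if_neg g2, t2]
          simp [g1, g2]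
    · intro i
      rw [s2]
      rcases Fin.eq_castSucc_or_eq_last i with ⟨j, rfl⟩ | rfl
      · have g5 := h j.castSucc
        have n1 : c j.castSucc ≠ p := fun hh => (Fin.castSucc_lt_last j).ne (ic hh)
        have n3 : c j.castSucc ≠ q := fun hh => hqC (hh ▸ g5.1)
        rw [if_neg n1, if_neg n3]
        exact t3 j
      · rw [if_pos rfl]
    · intro v hv
      rw [s2]
      by_cases g1 : v = p
      · rw [if_pos g1, g1]
        exact hpq
      · by_cases g2 : v = q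
        · rw [if_neg g1, if_pos g2, g2]
          exact hpq.symm
        · rw [if_neg g1, if_neg g2]
          exact t4 v (by simp [g1, g2, hv])
    · intro v
      rw [s2]
      by_cases g1 : v = p
      · exact Or.inr ⟨Fin.last k, Or.inl g1⟩
      · by_cases g2 : v = q
        · exact Or.inr ⟨Fin.last k, Or.inr g2⟩
        · rw [if_neg g1, if_neg g2]
          rcases t5 v with g | ⟨i, g⟩
          · exact Or.inl g
          · exact Or.inr ⟨i.castSucc, g⟩

end Pool.Agent.H44T
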