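import Pool.Agent.Lib.H44T.B1

/-!
# Chunk B2 (M): removing two vertices from two cliques

`|C|` and `|Cᶜ|` have the same parity. Use `build` with `R = {p, q}`.
* If the parities of `|C \ R|` and `|Cᶜ \ R|` are even: `k = 0`.
* If both are odd: `k = 1` with a cross edge `a i, b i` that avoids `p` and `q` (each of `p`, `q` meets at most
  one of the three disjoint edges, so one of the three is left).
They have the same parity since the total number of vertices minus two is even.
-/

namespace Pool.Agent.H44T

open Finset Pool.Agent.H44O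
open scoped Classical

variable {V : Type*} [Fintype V]

/-- one of three disjoint edges avoids two given vertices -/
theorem three_avoid {H : SimpleGraph V} {C : Finset V} {a b : Fin 3 → V} (h : Three H C a b)
    (p q : V) : ∃ i, a i ≠ p ∧ a i ≠ q ∧ b i ≠ p ∧ b i ≠ q := by
  obtain ⟨ia, ib, h3⟩ := h
  have key : ∀ (x : V) (i j : Fin 3), (a i = x ∨ b i = x) → (a j = x ∨ b j = x) → i = j := by
    intro x i j h1 h2
    rcases h1 with h1 | h1 <;> rcases h2 with h2 | h2
    · exact ia (h1.trans h2.symm)
    · exfalso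
      apply (h3 j).2.1
      rw [h2, ← h1]
      exact (h3 i).1
    · exfalso
      apply (h3 i).2.1
      rw [h1, ← h2]
      exact (h3 j).1
    · exact ib (h1.trans h2.symm)
  by_contra hcon
  push Not at hcon
  have hbad : ∀ i, (a i = p ∨ b i = p) ∨ (a i = q ∨ b i = q) := by
    intro i
    by_cases g1 : a i = p
    · exact Or.inl (Or.inl g1)
    · by_cases g2 : a i = q
      · exact Or.inr (Or.inl g2)
      · by_cases g3 : b i = p
        · exact Or.inl (Or.inr g3)
        · exact Or.inr (Or.inr (hcon i g1 g2 g3))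
  rcases hbad 0 with g0 | g0 <;> rcases hbad 1 with g1 | g1 <;> rcases hbad 2 with g2 | g2
  · exact absurd (key p 0 1 g0 g1) (by decide)
  · exact absurd (key p 0 1 g0 g1) (by decide)
  · exact absurd (key p 0 2 g0 g2) (by decide)
  · exact absurd (key q 1 2 g1 g2) (by decide)
  · exact absurd (key p 1 2 g1 g2) (by decide)
  · exact absurd (key q 0 2 g0 g2) (by decide)
  · exact absurd (key q 0 1 g0 g1) (by decide)
  · exact absurd (key q 0 1 g0 g1) (by decide)

theorem b2_card (C R : Finset V) : (C \ R).card + (Cᶜ \ R).card + R.card = Fintype.card V := by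
  have h1 : (C \ R).card + (Cᶜ \ R).card = (univ \ R).card := by
    rw [← card_union_of_disjoint]
    · apply congrArg
      ext v
      simp only [mem_union, mem_sdiff, mem_compl, mem_univ, true_and]
      tauto
    · rw [disjoint_left]
      intro v h1 h2
      exact mem_compl.1 (mem_sdiff.1 h2).1 (mem_sdiff.1 h1).1
  rw [h1, card_sdiff_add_card_eq_card (subset_univ R), card_univ]

theorem two_near (hV : Even (Fintype.card V)) {H : SimpleGraph V} {C : Finset V} (hC : TwoC H C)
    {a b : Fin 3 → V} (h3 : Three H C a b) : NearP H := by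
  intro p q hpq
  have hc := b2_card C ({p, q} : Finset V)
  rw [card_pair hpq] at hc
  obtain ⟨m, hm⟩ := hV
  have fin : ∀ τ : Equiv.Perm V, (∀ v, τ (τ v) = v) → (∀ v, τ v = v ↔ v ∈ ({p, q} : Finset V)) →
      (∀ v, v ∉ ({p, q} : Finset V) → H.Adj v (τ v)) → ∃ τ : Equiv.Perm V, IsNear H p q τ := by
    intro τ t1 t2 t4
    refine ⟨τ, t1, (t2 p).2 (by simp), (t2 q).2 (by simp), fun v h1 h2 => t4 v ?_⟩
    simp only [mem_insert, mem_singleton, not_or]
    exact ⟨h1, h2⟩
  rcases Nat.even_or_odd (C \ ({p, q} : Finset V)).card with he | ho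
  · obtain ⟨τ, t1, t2, _, t4, _⟩ := build (k := 0) (R := {p, q}) hC (c := fun i => i.elim0)
      (d := fun i => i.elim0) (fun i => i.elim0) (fun i => i.elim0) (fun i => i.elim0)
      (by simpa using he) (by
        obtain ⟨l, hl⟩ := he
        exact ⟨m - 1 - l, by omega⟩)
    exact fin τ t1 t2 t4
  · obtain ⟨i, g1, g2, g3, g4⟩ := three_avoid h3 p q
    obtain ⟨n1, n2, n3⟩ := h3.2.2 i
    obtain ⟨τ, t1, t2, _, t4, _⟩ := build (k := 1) (R := {p, q}) hC (c := fun _ => a i)
      (d := fun _ => b i) (fun x y _ => Subsingleton.elim x y)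
      (fun x y _ => Subsingleton.elim x y)
      (fun _ => ⟨n1, by simp [g1, g2], n2, by simp [g3, g4], n3⟩)
      ho.add_one (by
        obtain ⟨l, hl⟩ := ho
        exact ⟨m - 1 - l, by omega⟩)
    exact fin τ t1 t2 t4

end Pool.Agent.H44T
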