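import Pool.Agent.Lib.H44T.B2
import Pool.Agent.Lib.H44O.D13

/-!
# Chunk B3 (M): four-cycles inside one of two cliques

`four_of`: if `τ` is an involution of `V` with fixed points exactly `p, q, s, t` and all its edges in `H`, and
the pairs `pq, st, qs, tp` are in `H`, then the four-cycle is in `lat H`: the proof of `four_cycle` in
`H44O/D13` (`d13_two`).
`four_in`: `p, q, s, t ∈ C` different. `R = {p, q, s, t}`.
* `|C|` even (so `|Cᶜ|` even): `build` with `k = 0`.
* `|C|` odd (so `|Cᶜ|` odd): if some `a i ∉ R` then `build` with `k = 1` and the edge `a i, b i`.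
  Otherwise all `a i ∈ R`; as `|C|` is odd there is `w ∈ C \ R`. With
  `C4 p q s t := ed p q + ed s t - ed q s - ed t p` one has `C4 p q s t = C4 p q w t + C4 w q s t`
  (`ed` is symmetric in its first two arguments) and `C4 p q s t = - C4 q s t p`. The `a i` are three
  of the four vertices, so `p, s` or `q, t` are both among them. If `p` and `s` are: `{p, q, w, t}` misses
  `s = a j` and `{w, q, s, t}` misses `p = a j'`, so both four-cycles are in `lat H` by the first case. The other
  case is the rotated one.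
-/

namespace Pool.Agent.H44T

open Finset Pool.Agent.H44O
open scoped Classical

variable {V : Type*} [Fintype V]

theorem b3_adj {H : SimpleGraph V} {p q s t : V} (hpq : p ≠ q) (hps : p ≠ s)
    (hpt : p ≠ t) (hqs : q ≠ s) (hqt : q ≠ t) (a1 : H.Adj p q) (a2 : H.Adj s t)
    {τ : Equiv.Perm V} (h1 : ∀ v, τ (τ v) = v) (tp : τ p = p) (tq : τ q = q) (ts : τ s = s)
    (tt : τ t = t) (h3 : ∀ v, v ≠ p → v ≠ q → v ≠ s → v ≠ t → H.Adj v (τ v)) :
    ∀ v, H.Adj v ((τ * Equiv.swap p q * Equiv.swap s t) v) := by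
  obtain ⟨i1, v1⟩ := b1_swap_invol h1 tp tq
  have f1 : (τ * Equiv.swap p q) s = s := by
    rw [v1, if_neg (Ne.symm hps), if_neg (Ne.symm hqs), ts]
  have f2 : (τ * Equiv.swap p q) t = t := by
    rw [v1, if_neg (Ne.symm hpt), if_neg (Ne.symm hqt), tt]
  obtain ⟨_, v2⟩ := b1_swap_invol i1 f1 f2
  intro v
  rw [v2]
  by_cases g1 : v = s
  · rw [if_pos g1, g1]
    exact a2
  · by_cases g2 : v = t
    · rw [if_neg g1, if_pos g2, g2]
      exact a2.symm
    · rw [if_neg g1, if_neg g2, v1]
      by_cases g3 : v = p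
      · rw [if_pos g3, g3]
        exact a1
      · by_cases g4 : v = q
        · rw [if_neg g3, if_pos g4, g4]
          exact a1.symm
        · rw [if_neg g3, if_neg g4]
          exact h3 v g3 g4 g1 g2

theorem four_of {H : SimpleGraph V} {p q s t : V} (hpq : p ≠ q) (hps : p ≠ s)
    (hpt : p ≠ t) (hqs : q ≠ s) (hqt : q ≠ t) (hst : s ≠ t) (a1 : H.Adj p q) (a2 : H.Adj s t)
    (a3 : H.Adj q s) (a4 : H.Adj t p) {τ : Equiv.Perm V} (h1 : ∀ v, τ (τ v) = v)
    (h2 : ∀ v, τ v = v ↔ v ∈ ({p, q, s, t} : Finset V))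
    (h3 : ∀ v, v ∉ ({p, q, s, t} : Finset V) → H.Adj v (τ v)) :
    ed p q + ed s t - ed q s - ed t p ∈ lat H := by
  have hp := (h2 p).2 (by simp)
  have hq := (h2 q).2 (by simp)
  have hs := (h2 s).2 (by simp)
  have ht := (h2 t).2 (by simp)
  have hmv : ∀ v, v ≠ p → v ≠ q → v ≠ s → v ≠ t → τ v ≠ v := by
    intro v a b c d h
    have := (h2 v).1 h
    simp [a, b, c, d] at this
  have hadj : ∀ v, v ≠ p → v ≠ q → v ≠ s → v ≠ t → H.Adj v (τ v) := by
    intro v a b c d
    exact h3 v (by simp [a, b, c, d])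
  obtain ⟨pm1, c1⟩ := d13_two h1 hpq hps hpt hqs hqt hst hp hq hs ht hmv
  obtain ⟨pm2, c2⟩ := d13_two h1 hqs hqt hpq.symm hst hps.symm hpt.symm hq hs ht hp
    (fun v a b c d => hmv v d a b c)
  have m1 : chi (τ * Equiv.swap p q * Equiv.swap s t) ∈ lat H :=
    AddSubgroup.subset_closure ⟨_, pm1, b3_adj hpq hps hpt hqs hqt a1 a2 h1 hp hq hs ht hadj, rfl⟩
  have m2 : chi (τ * Equiv.swap q s * Equiv.swap t p) ∈ lat H :=
    AddSubgroup.subset_closure ⟨_, pm2, b3_adj hqs hqt hpq.symm hst hps.symm a3 a4 h1 hq hs ht hp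
      (fun v a b c d => hadj v d a b c), rfl⟩
  have h3 := sub_mem m1 m2
  rw [c1, c2] at h3
  have h4 : ed p q + ed s t - ed q s - ed t p =
      chi τ + ed p q + ed s t - (chi τ + ed q s + ed t p) := by abel
  rw [h4]
  exact h3

theorem b3_ed_symm (p q : V) : ed p q = ed q p := by
  funext u v
  unfold ed
  apply if_congr _ rfl rfl
  tauto

/-- the direct cases -/
theorem b3_good (hV : Even (Fintype.card V)) {H : SimpleGraph V} {C : Finset V} (hC : TwoC H C)
    {a b : Fin 3 → V} (h3 : Three H C a b) {p q s t : V} (hp : p ∈ C) (hq : q ∈ C) (hs : s ∈ C)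
    (ht : t ∈ C) (hpq : p ≠ q) (hps : p ≠ s)
    (hpt : p ≠ t) (hqs : q ≠ s) (hqt : q ≠ t) (hst : s ≠ t)
    (hd : Even C.card ∨ ∃ i, a i ∉ ({p, q, s, t} : Finset V)) :
    ed p q + ed s t - ed q s - ed t p ∈ lat H := by
  have hcard : ({p, q, s, t} : Finset V).card = 4 := by
    rw [card_insert_of_notMem, card_insert_of_notMem, card_insert_of_notMem, card_singleton]
    · simpa using hst
    · simp [hqs, hqt]
    · simp [hpq, hps, hpt]
  have hsub : ({p, q, s, t} : Finset V) ⊆ C := by
    intro v hv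
    simp only [mem_insert, mem_singleton] at hv
    rcases hv with h | h | h | h <;> rw [h] <;> assumption
  have hc1 : (C \ ({p, q, s, t} : Finset V)).card + 4 = C.card := by
    have := card_sdiff_add_card_eq_card hsub
    rw [hcard] at this
    exact this
  have hc2 := b2_card C ({p, q, s, t} : Finset V)
  rw [hcard] at hc2
  obtain ⟨m, hm⟩ := hV
  have ad : ∀ x y, x ∈ C → y ∈ C → x ≠ y → H.Adj x y := fun x y hx hy hxy =>
    hC x y hxy (by simp [hx, hy])
  have fin : ∀ τ : Equiv.Perm V, (∀ v, τ (τ v) = v) →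
      (∀ v, τ v = v ↔ v ∈ ({p, q, s, t} : Finset V)) →
      (∀ v, v ∉ ({p, q, s, t} : Finset V) → H.Adj v (τ v)) →
      ed p q + ed s t - ed q s - ed t p ∈ lat H := fun τ t1 t2 t4 =>
    four_of hpq hps hpt hqs hqt hst (ad p q hp hq hpq) (ad s t hs ht hst) (ad q s hq hs hqs)
      (ad t p ht hp hpt.symm) t1 t2 t4
  rcases Nat.even_or_odd C.card with he | ho
  · obtain ⟨l, hl⟩ := he
    obtain ⟨τ, t1, t2, _, t4, _⟩ := build (k := 0) (R := {p, q, s, t}) hC
      (c := fun i => i.elim0) (d := fun i => i.elim0) (fun i => i.elim0) (fun i => i.elim0)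
      (fun i => i.elim0) ⟨l - 2, by omega⟩ ⟨m - l, by omega⟩
    exact fin τ t1 t2 t4
  · rcases hd with hd | ⟨i, hi⟩
    · exact absurd ho (Nat.not_odd_iff_even.2 hd)
    · obtain ⟨n1, n2, n3⟩ := h3.2.2 i
      obtain ⟨l, hl⟩ := ho
      obtain ⟨τ, t1, t2, _, t4, _⟩ := build (k := 1) (R := {p, q, s, t}) hC (c := fun _ => a i)
        (d := fun _ => b i) (fun x y _ => Subsingleton.elim x y)
        (fun x y _ => Subsingleton.elim x y)
        (fun _ => ⟨n1, hi, n2, fun hh => n2 (hsub hh), n3⟩)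
        ⟨l - 1, by omega⟩ ⟨m - l, by omega⟩
      exact fin τ t1 t2 t4

theorem b3_case (hV : Even (Fintype.card V)) {H : SimpleGraph V} {C : Finset V} (hC : TwoC H C)
    {a b : Fin 3 → V} (h3 : Three H C a b) {p q s t : V} (hp : p ∈ C) (hq : q ∈ C) (hs : s ∈ C)
    (ht : t ∈ C) (hpq : p ≠ q) (hps : p ≠ s)
    (hpt : p ≠ t) (hqs : q ≠ s) (hqt : q ≠ t) (hst : s ≠ t) {w : V} (hw : w ∈ C) (hwp : w ≠ p)
    (hwq : w ≠ q) (hws : w ≠ s) (hwt : w ≠ t) {i j : Fin 3} (hi : a i = p) (hj : a j = s) :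
    ed p q + ed s t - ed q s - ed t p ∈ lat H := by
  have m1 : ed p q + ed w t - ed q w - ed t p ∈ lat H :=
    b3_good hV hC h3 hp hq hw ht hpq hwp.symm hpt hwq.symm hqt hwt
      (Or.inr ⟨j, by rw [hj]; simp [hps.symm, hqs.symm, hws.symm, hst]⟩)
  have m2 : ed w q + ed s t - ed q s - ed t w ∈ lat H :=
    b3_good hV hC h3 hw hq hs ht hwq hws hwt hqs hqt hst
      (Or.inr ⟨i, by rw [hi]; simp [hwp.symm, hpq, hps, hpt]⟩)
  have m3 := add_mem m1 m2
  rw [b3_ed_symm w t, b3_ed_symm w q] at m3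
  have e : ed p q + ed t w - ed q w - ed t p + (ed q w + ed s t - ed q s - ed t w) =
      ed p q + ed s t - ed q s - ed t p := by abel
  rwa [e] at m3

theorem four_in (hV : Even (Fintype.card V)) {H : SimpleGraph V} {C : Finset V} (hC : TwoC H C)
    {a b : Fin 3 → V} (h3 : Three H C a b) {p q s t : V} (hp : p ∈ C) (hq : q ∈ C) (hs : s ∈ C)
    (ht : t ∈ C) (hpq : p ≠ q) (hps : p ≠ s)
    (hpt : p ≠ t) (hqs : q ≠ s) (hqt : q ≠ t) (hst : s ≠ t) :
    ed p q + ed s t - ed q s - ed t p ∈ lat H := by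
  by_cases hd : Even C.card ∨ ∃ i, a i ∉ ({p, q, s, t} : Finset V)
  · exact b3_good hV hC h3 hp hq hs ht hpq hps hpt hqs hqt hst hd
  · push Not at hd
    obtain ⟨hodd, hall⟩ := hd
    have hcard : ({p, q, s, t} : Finset V).card = 4 := by
      rw [card_insert_of_notMem, card_insert_of_notMem, card_insert_of_notMem, card_singleton]
      · simpa using hst
      · simp [hqs, hqt]
      · simp [hpq, hps, hpt]
    obtain ⟨w, hw, hwR⟩ : ∃ w ∈ C, w ∉ ({p, q, s, t} : Finset V) := by
      by_contra hcon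
      push Not at hcon
      have hsub : ({p, q, s, t} : Finset V) ⊆ C := by
        intro v hv
        simp only [mem_insert, mem_singleton] at hv
        rcases hv with h | h | h | h <;> rw [h] <;> assumption
      have heq : C = ({p, q, s, t} : Finset V) := Subset.antisymm hcon hsub
      apply hodd
      rw [heq, hcard]
      decide
    simp only [mem_insert, mem_singleton, not_or] at hwR
    obtain ⟨hwp, hwq, hws, hwt⟩ := hwR
    have hin : ∀ i, a i = p ∨ a i = q ∨ a i = s ∨ a i = t := by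
      intro i
      have := hall i
      simpa only [mem_insert, mem_singleton] using this
    have ia := h3.1
    have key : ((∃ i, a i = p) ∧ ∃ j, a j = s) ∨ ((∃ i, a i = q) ∧ ∃ j, a j = t) := by
      by_contra hcon
      rw [not_or, not_and_or, not_and_or] at hcon
      obtain ⟨hc1, hc2⟩ := hcon
      have hx : ∃ x, ∀ i, a i ≠ x ∧ True := by
        rcases hc1 with h | h
        · exact ⟨p, fun i => ⟨fun hh => h ⟨i, hh⟩, trivial⟩⟩
        · exact ⟨s, fun i => ⟨fun hh => h ⟨i, hh⟩, trivial⟩⟩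
      have himg : (univ.image a).card = 3 := by
        rw [card_image_of_injective _ ia, card_univ, Fintype.card_fin]
      have hle : ∃ x y, univ.image a ⊆ ({x, y} : Finset V) := by
        rcases hc1 with h | h <;> rcases hc2 with g | g
        · refine ⟨s, t, ?_⟩
          intro v hv
          obtain ⟨i, _, rfl⟩ := mem_image.1 hv
          rcases hin i with e | e | e | e
          · exact absurd ⟨i, e⟩ h
          · exact absurd ⟨i, e⟩ g
          · simp [e]
          · simp [e]
        · refine ⟨q, s, ?_⟩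
          intro v hv
          obtain ⟨i, _, rfl⟩ := mem_image.1 hv
          rcases hin i with e | e | e | e
          · exact absurd ⟨i, e⟩ h
          · simp [e]
          · simp [e]
          · exact absurd ⟨i, e⟩ g
        · refine ⟨p, t, ?_⟩
          intro v hv
          obtain ⟨i, _, rfl⟩ := mem_image.1 hv
          rcases hin i with e | e | e | e
          · simp [e]
          · exact absurd ⟨i, e⟩ g
          · exact absurd ⟨i, e⟩ h
          · simp [e]
        · refine ⟨p, q, ?_⟩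
          intro v hv
          obtain ⟨i, _, rfl⟩ := mem_image.1 hv
          rcases hin i with e | e | e | e
          · simp [e]
          · simp [e]
          · exact absurd ⟨i, e⟩ h
          · exact absurd ⟨i, e⟩ g
      obtain ⟨x, y, hxy⟩ := hle
      have h4 := card_le_card hxy
      have h5 : ({x, y} : Finset V).card ≤ 2 := card_le_two
      omega
    rcases key with ⟨⟨i, hi⟩, j, hj⟩ | ⟨⟨i, hi⟩, j, hj⟩
    · exact b3_case hV hC h3 hp hq hs ht hpq hps hpt hqs hqt hst hw hwp hwq hws hwt hi hj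
    · have m := b3_case hV hC h3 hq hs ht hp hqs hqt hpq.symm hst hps.symm hpt.symm hw hwq hws hwt
        hwp hi hj
      have m2 := neg_mem m
      have e : -(ed q s + ed t p - ed s t - ed p q) = ed p q + ed s t - ed q s - ed t p := by abel
      rwa [e] at m2

end Pool.Agent.H44T
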