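import Pool.Agent.Lib.H44T.B3

/-!
# Chunk B4 (M): vectors of degree zero

* `elim_gen`: the proof of `elim_mem` in `H44O/D13` with `lat ⊤` replaced by `Λ` and `four_cycle` by the
  hypothesis (`d13_small` can be cited).
* `zero_in`: let `y1 u v = y u v` if `u ∈ C`, `v ∈ C` and `0` otherwise, `y2` the same for the complement. `y = y1 + y2`,
  both are symmetric with zero diagonal (`H` has no loops) and degree zero (no cross entries). `elim_gen` for
  `W = C` with `four_in` and for `W = Cᶜ` with `four_in` for `Cᶜ` (`TwoC H Cᶜ`, `Three H Cᶜ b a`).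
-/

namespace Pool.Agent.H44T

open Finset Pool.Agent.H44O
open scoped Classical

variable {V : Type*} [Fintype V]

theorem elim_gen (Λ : AddSubgroup (V → V → ℤ)) (W : Finset V)
    (h4 : ∀ p q s t, p ∈ W → q ∈ W → s ∈ W → t ∈ W → p ≠ q → p ≠ s → p ≠ t → q ≠ s → q ≠ t →
      s ≠ t → ed p q + ed s t - ed q s - ed t p ∈ Λ) {y : V → V → ℤ}
    (hs : ∀ u v, y u v = y v u) (hd : ∀ v, y v v = 0) (h0 : ∀ u, dg y u = 0)
    (hW : ∀ u v, y u v ≠ 0 → u ∈ W) : y ∈ Λ := by
  induction hn : W.card using Nat.strong_induction_on generalizing W y with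
  | _ n ih =>
  by_cases h3 : W.card ≤ 3
  · rw [d13_small h3 hs hd h0 hW]
    exact zero_mem _
  push Not at h3
  obtain ⟨w, hw⟩ : W.Nonempty := card_pos.1 (by omega)
  induction hm : ∑ u, (y w u).natAbs using Nat.strong_induction_on generalizing y with
  | _ m ih2 =>
  by_cases hz : ∀ u, y w u = 0
  · refine ih (W.erase w).card ?_ (W.erase w) ?_ hs hd h0 ?_ rfl
    · rw [card_erase_of_mem hw]
      omega
    · intro p q s t hp hq hs ht
      exact h4 p q s t (mem_of_mem_erase hp) (mem_of_mem_erase hq) (mem_of_mem_erase hs)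
        (mem_of_mem_erase ht)
    · intro u v huv
      refine mem_erase.2 ⟨?_, hW u v huv⟩
      intro h
      subst h
      exact huv (hz v)
  · push Not at hz
    obtain ⟨u0, hu0⟩ := hz
    have hsum : ∑ u, y w u = 0 := h0 w
    obtain ⟨u, hu⟩ : ∃ u, 0 < y w u := by
      by_contra hcon
      push Not at hcon
      have := (sum_eq_zero_iff_of_nonpos (fun i _ => hcon i)).1 hsum u0 (mem_univ _)
      exact hu0 this
    obtain ⟨u', hu'⟩ : ∃ u, y w u < 0 := by
      by_contra hcon
      push Not at hcon
      have := (sum_eq_zero_iff_of_nonneg (fun i _ => hcon i)).1 hsum u0 (mem_univ _)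
      exact hu0 this
    have hwu : w ≠ u := by
      intro h
      subst h
      rw [hd] at hu
      exact lt_irrefl _ hu
    have hwu' : w ≠ u' := by
      intro h
      subst h
      rw [hd] at hu'
      exact lt_irrefl _ hu'
    have huu' : u ≠ u' := by
      intro h
      subst h
      omega
    have huW : u ∈ W := hW u w (by rw [hs u w]; exact hu.ne')
    have huW' : u' ∈ W := hW u' w (by rw [hs u' w]; exact hu'.ne)
    obtain ⟨t, htW, ht⟩ : ∃ t ∈ W, t ∉ ({w, u, u'} : Finset V) := by
      by_contra hcon
      push Not at hcon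
      have h4 : W.card ≤ ({w, u, u'} : Finset V).card := card_le_card hcon
      have h5 : ({w, u, u'} : Finset V).card ≤ 3 := card_le_three
      omega
    simp only [mem_insert, mem_singleton, not_or] at ht
    obtain ⟨htw, htu, htu'⟩ := ht
    have hF := h4 w u t u' hw huW htW huW' hwu (Ne.symm htw) hwu' (Ne.symm htu) huu' htu'
    set F : V → V → ℤ := ed w u + ed t u' - ed u t - ed u' w with hFdef
    have hFs : ∀ a b, F a b = F b a := by
      intro a b
      have he : ∀ p q : V, ed p q a b = ed p q b a := by
        intro p q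
        unfold ed
        apply if_congr _ rfl rfl
        exact ⟨fun h => h.elim (fun h => Or.inr ⟨h.2, h.1⟩) (fun h => Or.inl ⟨h.2, h.1⟩),
          fun h => h.elim (fun h => Or.inr ⟨h.2, h.1⟩) (fun h => Or.inl ⟨h.2, h.1⟩)⟩
      simp only [hFdef, Pi.add_apply, Pi.sub_apply, he]
    have hed : ∀ p q : V, p ≠ q → ∀ v, ed p q v v = 0 := by
      intro p q hpq v
      unfold ed
      rw [if_neg]
      rintro (⟨h, h'⟩ | ⟨h, h'⟩)
      · exact hpq (h.symm.trans h')
      · exact hpq (h'.symm.trans h)
    have hFd : ∀ v, F v v = 0 := by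
      intro v
      simp only [hFdef, Pi.add_apply, Pi.sub_apply, hed _ _ hwu, hed _ _ htu', hed _ _ (Ne.symm htu),
        hed _ _ (Ne.symm hwu')]
      ring
    have hFr : ∀ v, dg F v = 0 := by
      intro v
      rw [hFdef, dg_sub, dg_sub, dg_add, d13_dg_ed hwu, d13_dg_ed htu', d13_dg_ed (Ne.symm htu),
        d13_dg_ed (Ne.symm hwu')]
      ring
    have hFW : ∀ a b, F a b ≠ 0 → a ∈ W := by
      intro a b hab
      by_contra haW
      apply hab
      have h1 : a ≠ w := fun h => haW (h ▸ hw)
      have h2 : a ≠ u := fun h => haW (h ▸ huW)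
      have h4 : a ≠ u' := fun h => haW (h ▸ huW')
      have h5 : a ≠ t := fun h => haW (h ▸ htW)
      simp [hFdef, ed, h1, h2, h4, h5]
    have hFw : ∀ v, F w v = (if v = u then 1 else 0) - (if v = u' then 1 else 0) := by
      intro v
      simp only [hFdef, Pi.add_apply, Pi.sub_apply, ed, hwu, hwu', Ne.symm htw, true_and, false_and,
        or_false, false_or, if_false, add_zero, sub_zero]
    have key : y - F ∈ Λ := by
      refine ih2 (∑ a, ((y - F) w a).natAbs) ?_ (y := y - F) ?_ ?_ ?_ ?_ rfl
      · rw [← hm]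
        refine sum_lt_sum ?_ ⟨u, mem_univ _, ?_⟩
        · intro a _
          simp only [Pi.sub_apply, hFw]
          by_cases h1 : a = u
          · subst h1
            simp only [if_true, if_neg huu']
            omega
          · by_cases h2 : a = u'
            · subst h2
              simp only [if_true, if_neg h1]
              omega
            · simp only [if_neg h1, if_neg h2]
              simp
        · simp only [Pi.sub_apply, hFw, if_true, if_neg huu']
          omega
      · intro a b
        simp only [Pi.sub_apply]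
        rw [hs a b, hFs a b]
      · intro a
        simp only [Pi.sub_apply]
        rw [hd, hFd, sub_zero]
      · intro a
        rw [dg_sub, h0, hFr, sub_zero]
      · intro a b hab
        simp only [Pi.sub_apply] at hab
        by_contra haW
        have h1 : y a b = 0 := by
          by_contra h
          exact haW (hW a b h)
        have h2 : F a b = 0 := by
          by_contra h
          exact haW (hFW a b h)
        exact hab (by rw [h1, h2, sub_zero])
    have h6 := add_mem key hF
    rwa [sub_add_cancel] at h6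

theorem two_symm {H : SimpleGraph V} {C : Finset V} (hC : TwoC H C) {a b : Fin 3 → V}
    (h3 : Three H C a b) : TwoC H Cᶜ ∧ Three H Cᶜ b a := by
  constructor
  · intro u v huv hiff
    rw [mem_compl, mem_compl] at hiff
    exact hC u v huv (not_iff_not.1 hiff)
  · obtain ⟨h1, h2, h3⟩ := h3
    refine ⟨h2, h1, fun i => ?_⟩
    obtain ⟨g1, g2, g3⟩ := h3 i
    exact ⟨mem_compl.2 g2, fun h => mem_compl.1 h g1, g3.symm⟩

theorem zero_in (hV : Even (Fintype.card V)) {H : SimpleGraph V} {C : Finset V} (hC : TwoC H C)
    {a b : Fin 3 → V} (h3 : Three H C a b) {y : V → V → ℤ} (hs : ∀ u v, y u v = y v u)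
    (hd : ∀ v, y v v = 0) (h0 : ∀ u, dg y u = 0) (hc : ∀ u v, y u v ≠ 0 → (u ∈ C ↔ v ∈ C)) :
    y ∈ lat H := by
  have hpart : ∀ (W : Finset V), (∀ u v, y u v ≠ 0 → (u ∈ W ↔ v ∈ W)) →
      (∀ p q s t, p ∈ W → q ∈ W → s ∈ W → t ∈ W → p ≠ q → p ≠ s → p ≠ t → q ≠ s → q ≠ t →
      s ≠ t → ed p q + ed s t - ed q s - ed t p ∈ lat H) →
      (fun u v => if u ∈ W then y u v else 0) ∈ lat H := by
    intro W hcW h4
    refine elim_gen (lat H) W h4 ?_ ?_ ?_ ?_
    · intro u v
      by_cases hz : y u v = 0
      · have hz' : y v u = 0 := by rw [hs v u]; exact hz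
        simp only [hz, hz', ite_self]
      · have h1 := hcW u v hz
        by_cases hu : u ∈ W
        · rw [if_pos hu, if_pos (h1.1 hu), hs u v]
        · rw [if_neg hu, if_neg (fun h => hu (h1.2 h))]
    · intro v
      simp only [hd, ite_self]
    · intro u
      unfold dg
      by_cases hu : u ∈ W
      · simp only [if_pos hu]
        exact h0 u
      · simp only [if_neg hu, sum_const_zero]
    · intro u v huv
      by_contra hu
      exact huv (if_neg hu)
  obtain ⟨hC', h3'⟩ := two_symm hC h3
  have m1 := hpart C hc (fun p q s t hp hq hs ht => four_in hV hC h3 hp hq hs ht)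
  have m2 := hpart Cᶜ (fun u v huv => by
    rw [mem_compl, mem_compl]
    exact not_iff_not.2 (hc u v huv)) (fun p q s t hp hq hs ht => four_in hV hC' h3' hp hq hs ht)
  have m3 := add_mem m1 m2
  have e : (fun u v => if u ∈ C then y u v else 0) + (fun u v => if u ∈ Cᶜ then y u v else 0) =
      y := by
    funext u v
    simp only [Pi.add_apply, mem_compl]
    by_cases hu : u ∈ C
    · rw [if_pos hu, if_neg (not_not.2 hu), add_zero]
    · rw [if_neg hu, if_pos hu, zero_add]
  rwa [e] at m3

end Pool.Agent.H44T
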