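import Pool.Agent.Lib.H44T.B4

/-!
# Chunk B5 (M): perfect matchings with prescribed cross edges

`build` with `R = ∅` and the list of the prescribed cross edges; the perfect matching `π` has all edges in `H`, and
for `u ∈ C`, `v ∉ C`: `π u = v` iff `(u, v)` is one of the prescribed pairs. (If `π u = v` with `u ∈ C`, `v ∉ C` then by
the last statement of `build` `u` or `v` is one of the `c i`, `d i`, so `u = c i`, and `π u = d i`.)
-/

namespace Pool.Agent.H44T

open Finset Pool.Agent.H44O
open scoped Classical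

variable {V : Type*} [Fintype V]

theorem pm_cross {k : ℕ} (hV : Even (Fintype.card V)) {H : SimpleGraph V} {C : Finset V}
    (hC : TwoC H C) {c d : Fin k → V} (ic : Function.Injective c) (id : Function.Injective d)
    (h : ∀ i, c i ∈ C ∧ d i ∉ C ∧ H.Adj (c i) (d i)) (e1 : Even (C.card + k)) :
    ∃ π : Equiv.Perm V, IsPM π ∧ chi π ∈ lat H ∧
      ∀ u v, u ∈ C → v ∉ C → chi π u v = if ∃ i, u = c i ∧ v = d i then 1 else 0 := by
  have e2 : Even (Cᶜ.card + k) := by
    have h1 : C.card + Cᶜ.card = Fintype.card V := Finset.card_add_card_compl C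
    rw [← h1] at hV
    rw [Nat.even_add] at *
    tauto
  obtain ⟨τ, h1, h2, h3, h4, h5⟩ := build (R := ∅) hC ic id
    (fun i => ⟨(h i).1, notMem_empty _, (h i).2.1, notMem_empty _, (h i).2.2⟩)
    (by rwa [sdiff_empty]) (by rwa [sdiff_empty])
  have hpm : IsPM τ := ⟨h1, fun v hv => notMem_empty v ((h2 v).mp hv)⟩
  refine ⟨τ, hpm, AddSubgroup.subset_closure ⟨τ, hpm, fun v => h4 v (notMem_empty v), rfl⟩, ?_⟩
  intro u v hu hv
  have huv : u ≠ v := fun h => hv (h ▸ hu)
  have hiff : (τ u = v ∧ u ≠ v) ↔ ∃ i, u = c i ∧ v = d i := by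
    constructor
    · rintro ⟨rfl, -⟩
      rcases h5 u with h' | ⟨i, h' | h'⟩
      · exact absurd (h'.mp hu) hv
      · exact ⟨i, h', by rw [h', h3 i]⟩
      · rw [h'] at hu
        exact absurd hu (h i).2.1
    · rintro ⟨i, rfl, rfl⟩
      exact ⟨h3 i, huv⟩
  unfold chi
  simp only [hiff]

end Pool.Agent.H44T
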