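import Pool.Agent.Lib.H44T.B5

/-!
# Chunk B6 (M/L): the lattice of two cliques, odd sides

`|C|` odd. For a cross edge `e = (u, v)` of `H` (`u ∈ C`, `v ∉ C`) let `π_e` be the perfect matching with the single
cross edge `e` (`pm_cross` with `k = 1`). `y1 := y - ∑ e, y e • π_e` (sum over the pairs `(u, v)` in `C ×ˢ Cᶜ` with
`H.Adj u v`) has no cross entries and is regular of some degree `ρ1`; `ρ1 |C| = inW y1 C` is even (`y1` symmetric with
zero diagonal; the proof of `even_inW` needs only this), so `ρ1` is even. Let `κ := π* - π_1 - π_2 - π_3`, where `π*` has the three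
cross edges `a i, b i` (`k = 3`) and `π_i` only the `i`-th. It has no cross entries and degree `-2`. So
`y1 + (ρ1 / 2) • κ` has degree `0`, no cross entries: `zero_in`.
-/

namespace Pool.Agent.H44T

open Finset Pool.Agent.H44O
open scoped Classical

variable {V : Type*} [Fintype V]

/-- `inW` is even for a symmetric function with zero diagonal -/
theorem even_inW' {y : V → V → ℤ} (hs : ∀ u v, y u v = y v u) (hd : ∀ v, y v v = 0)
    (U : Finset V) : Even (inW y U) := by
  induction U using Finset.induction_on with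
  | empty => simp [inW]
  | insert a U ha ih =>
    have h1 : inW y (insert a U) = 2 * (∑ v ∈ U, y a v) + inW y U := by
      unfold inW
      rw [Finset.sum_insert ha, Finset.sum_insert ha, hd]
      have h2 : ∀ u ∈ U, ∑ v ∈ insert a U, y u v = y a u + ∑ v ∈ U, y u v := by
        intro u _
        rw [Finset.sum_insert ha, hs u a]
      rw [Finset.sum_congr rfl h2, Finset.sum_add_distrib]
      ring
    rw [h1]
    exact (even_two_mul _).add ih

/-- Symmetric, zero on the diagonal, regular of degree `ρ`. -/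
structure B6R (y : V → V → ℤ) (ρ : ℤ) : Prop where
  s : ∀ u v, y u v = y v u
  d : ∀ v, y v v = 0
  r : ∀ u, dg y u = ρ

theorem B6R.add {y z : V → V → ℤ} {ρ σ : ℤ} (hy : B6R y ρ) (hz : B6R z σ) :
    B6R (y + z) (ρ + σ) := by
  refine ⟨fun u v => ?_, fun v => ?_, fun u => ?_⟩
  · rw [Pi.add_apply, Pi.add_apply, Pi.add_apply, Pi.add_apply, hy.s, hz.s]
  · rw [Pi.add_apply, Pi.add_apply, hy.d, hz.d, add_zero]
  · rw [dg_add, hy.r, hz.r]

theorem B6R.neg {y : V → V → ℤ} {ρ : ℤ} (hy : B6R y ρ) : B6R (-y) (-ρ) := by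
  refine ⟨fun u v => ?_, fun v => ?_, fun u => ?_⟩
  · rw [Pi.neg_apply, Pi.neg_apply, Pi.neg_apply, Pi.neg_apply, hy.s]
  · rw [Pi.neg_apply, Pi.neg_apply, hy.d, neg_zero]
  · rw [← hy.r u]
    simp [dg]

theorem B6R.sub {y z : V → V → ℤ} {ρ σ : ℤ} (hy : B6R y ρ) (hz : B6R z σ) :
    B6R (y - z) (ρ - σ) := by
  rw [sub_eq_add_neg, sub_eq_add_neg]
  exact hy.add hz.neg

theorem B6R.zsmul {y : V → V → ℤ} {ρ : ℤ} (hy : B6R y ρ) (k : ℤ) : B6R (k • y) (k * ρ) := by
  refine ⟨fun u v => ?_, fun v => ?_, fun u => ?_⟩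
  · rw [Pi.smul_apply, Pi.smul_apply, Pi.smul_apply, Pi.smul_apply, hy.s]
  · rw [Pi.smul_apply, Pi.smul_apply, hy.d, smul_zero]
  · rw [← hy.r u]
    simp [dg, Finset.mul_sum]

theorem b6_chi {π : Equiv.Perm V} (hπ : IsPM π) : B6R (chi π) 1 := by
  refine ⟨chi_symm hπ.1, chi_diag π, fun u => ?_⟩
  unfold dg
  rw [Finset.sum_eq_single (π u)]
  · rw [chi, if_pos]
    exact ⟨rfl, fun h => hπ.2 u h.symm⟩
  · intro v _ hv
    rw [chi, if_neg]
    rintro ⟨h, -⟩
    exact hv h.symm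
  · intro h
    exact absurd (mem_univ _) h

theorem b6_lat {H : SimpleGraph V} {x : V → V → ℤ} (hx : x ∈ lat H) : ∃ ρ, B6R x ρ := by
  unfold lat at hx
  induction hx using AddSubgroup.closure_induction with
  | mem x h =>
    obtain ⟨τ, hτ, -, rfl⟩ := h
    exact ⟨1, b6_chi hτ⟩
  | zero => exact ⟨0, fun _ _ => rfl, fun _ => rfl, fun _ => by simp [dg]⟩
  | add x y _ _ h1 h2 =>
    obtain ⟨ρ, h1⟩ := h1
    obtain ⟨σ, h2⟩ := h2
    exact ⟨_, h1.add h2⟩
  | neg x _ h =>
    obtain ⟨ρ, h⟩ := h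
    exact ⟨_, h.neg⟩

/-- a regular function without cross entries whose degree is a multiple of the degree of such an element
of the lattice -/
theorem b6_final (hV : Even (Fintype.card V)) {H : SimpleGraph V} {C : Finset V} (hC : TwoC H C)
    {a b : Fin 3 → V} (h3 : Three H C a b) {y κ : V → V → ℤ} {ρ δ k : ℤ} (hy : B6R y ρ)
    (hyc : ∀ u v, u ∈ C → v ∉ C → y u v = 0) (hκ : κ ∈ lat H) (hκr : B6R κ δ)
    (hκc : ∀ u v, u ∈ C → v ∉ C → κ u v = 0) (hk : ρ = k * δ) : y ∈ lat H := by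
  have h1 : B6R (y - k • κ) (ρ - k * δ) := hy.sub (hκr.zsmul k)
  rw [hk, sub_self] at h1
  have hcr : ∀ u v, u ∈ C → v ∉ C → (y - k • κ) u v = 0 := by
    intro u v hu hv
    rw [Pi.sub_apply, Pi.sub_apply, Pi.smul_apply, Pi.smul_apply, hyc u v hu hv, hκc u v hu hv,
      smul_zero, sub_zero]
  have h2 : y - k • κ ∈ lat H := by
    apply zero_in hV hC h3 h1.s h1.d h1.r
    intro u v huv
    by_cases hu : u ∈ C <;> by_cases hv : v ∈ C
    · exact ⟨fun _ => hv, fun _ => hu⟩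
    · exact absurd (hcr u v hu hv) huv
    · rw [h1.s] at huv
      exact absurd (hcr v u hv hu) huv
    · exact ⟨fun h => absurd h hu, fun h => absurd h hv⟩
  have h3 : k • κ ∈ lat H := zsmul_mem hκ k
  have := add_mem h2 h3
  rwa [sub_add_cancel] at this

theorem two_lat_odd (hV : Even (Fintype.card V)) {H : SimpleGraph V} {C : Finset V}
    (hC : TwoC H C) (hodd : Odd C.card) {a b : Fin 3 → V} (h3 : Three H C a b) : LatP H := by
  intro y ρ hs hr hsup
  have hd : ∀ v, y v v = 0 := fun v => by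
    by_contra h
    exact H.loopless.irrefl v (hsup v v h)
  have hy : B6R y ρ := ⟨hs, hd, hr⟩
  have ho1 : Even (C.card + 1) := hodd.add_one
  -- one cross edge
  have hP : ∀ p : V × V, ∃ x ∈ lat H, (p.1 ∈ C → p.2 ∉ C → H.Adj p.1 p.2 → ∀ u v, u ∈ C → v ∉ C →
      x u v = if u = p.1 ∧ v = p.2 then 1 else 0) ∧
      (p.1 ∈ C → p.2 ∉ C → H.Adj p.1 p.2 → B6R x 1) := by
    intro p
    by_cases h : p.1 ∈ C ∧ p.2 ∉ C ∧ H.Adj p.1 p.2
    · obtain ⟨π, h1, h2, h3'⟩ := pm_cross (k := 1) hV hC (c := fun _ => p.1) (d := fun _ => p.2)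
        (fun i j _ => Subsingleton.elim i j) (fun i j _ => Subsingleton.elim i j) (fun _ => h) ho1
      refine ⟨chi π, h2, fun _ _ _ u v hu hv => ?_, fun _ _ _ => b6_chi h1⟩
      rw [h3' u v hu hv]
      simp
    · exact ⟨0, zero_mem _, fun h1 h2 h3 => absurd ⟨h1, h2, h3⟩ h,
        fun h1 h2 h3 => absurd ⟨h1, h2, h3⟩ h⟩
  choose P hPm hPc hPr using hP
  set S : Finset (V × V) := (C ×ˢ Cᶜ).filter (fun p => H.Adj p.1 p.2) with hS
  set z : V → V → ℤ := ∑ p ∈ S, y p.1 p.2 • P p with hz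
  have hzm : z ∈ lat H := sum_mem fun p _ => zsmul_mem (hPm p) _
  obtain ⟨σ, hzr⟩ := b6_lat hzm
  have hmem : ∀ p ∈ S, p.1 ∈ C ∧ p.2 ∉ C ∧ H.Adj p.1 p.2 := by
    intro p hp
    rw [hS, mem_filter, mem_product, mem_compl] at hp
    exact ⟨hp.1.1, hp.1.2, hp.2⟩
  have hzc : ∀ u v, u ∈ C → v ∉ C → z u v = y u v := by
    intro u v hu hv
    have e1 : z u v = ∑ p ∈ S, y p.1 p.2 * (if u = p.1 ∧ v = p.2 then 1 else 0) := by
      rw [hz, Finset.sum_apply, Finset.sum_apply]
      refine Finset.sum_congr rfl fun p hp => ?_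
      obtain ⟨h1, h2, h3⟩ := hmem p hp
      rw [Pi.smul_apply, Pi.smul_apply, hPc p h1 h2 h3 u v hu hv, smul_eq_mul]
    rw [e1]
    by_cases hadj : H.Adj u v
    · rw [Finset.sum_eq_single (u, v)]
      · simp
      · intro p _ hp
        rw [if_neg, mul_zero]
        rintro ⟨rfl, rfl⟩
        exact hp rfl
      · intro h
        exfalso
        apply h
        rw [hS, mem_filter, mem_product, mem_compl]
        exact ⟨⟨hu, hv⟩, hadj⟩
    · have hy0 : y u v = 0 := by
        by_contra h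
        exact hadj (hsup u v h)
      rw [hy0]
      refine Finset.sum_eq_zero fun p hp => ?_
      rw [if_neg, mul_zero]
      rintro ⟨rfl, rfl⟩
      exact hadj (hmem p hp).2.2
  have hy1 : B6R (y - z) (ρ - σ) := hy.sub hzr
  have hy1c : ∀ u v, u ∈ C → v ∉ C → (y - z) u v = 0 := by
    intro u v hu hv
    rw [Pi.sub_apply, Pi.sub_apply, hzc u v hu hv, sub_self]
  -- the degree is even
  have hev : Even (ρ - σ) := by
    have h1 := sum_dg (y - z) C
    have h2 : cutW (y - z) C = 0 := by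
      unfold cutW
      refine Finset.sum_eq_zero fun u hu => Finset.sum_eq_zero fun v hv => ?_
      exact hy1c u v hu (mem_compl.mp hv)
    rw [h2, add_zero, Finset.sum_congr rfl fun u _ => hy1.r u, sum_const, nsmul_eq_mul] at h1
    have h3 := even_inW' hy1.s hy1.d C
    rw [← h1, Int.even_mul] at h3
    rcases h3 with h3 | h3
    · exfalso
      have : Even C.card := by exact_mod_cast h3
      exact (Nat.not_even_iff_odd.mpr hodd) this
    · exact h3
  obtain ⟨m, hm⟩ := hev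
  -- the element kappa
  obtain ⟨ia, ib, hab⟩ := h3
  obtain ⟨π, hπ1, hπ2, hπ3⟩ := pm_cross (k := 3) hV hC ia ib hab (by
    have : C.card + 3 = C.card + 1 + 2 := by ring
    rw [this]
    exact ho1.add even_two)
  set κ : V → V → ℤ := chi π - P (a 0, b 0) - P (a 1, b 1) - P (a 2, b 2) with hκ
  have hκm : κ ∈ lat H := sub_mem (sub_mem (sub_mem hπ2 (hPm _)) (hPm _)) (hPm _)
  have hκr : B6R κ (-2) := by
    have := (((b6_chi hπ1).sub (hPr (a 0, b 0) (hab 0).1 (hab 0).2.1 (hab 0).2.2)).sub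
      (hPr (a 1, b 1) (hab 1).1 (hab 1).2.1 (hab 1).2.2)).sub
      (hPr (a 2, b 2) (hab 2).1 (hab 2).2.1 (hab 2).2.2)
    norm_num at this
    exact this
  have hκc : ∀ u v, u ∈ C → v ∉ C → κ u v = 0 := by
    intro u v hu hv
    have e : κ u v = chi π u v - P (a 0, b 0) u v - P (a 1, b 1) u v - P (a 2, b 2) u v := rfl
    rw [e, hπ3 u v hu hv, hPc (a 0, b 0) (hab 0).1 (hab 0).2.1 (hab 0).2.2 u v hu hv,
      hPc (a 1, b 1) (hab 1).1 (hab 1).2.1 (hab 1).2.2 u v hu hv,
      hPc (a 2, b 2) (hab 2).1 (hab 2).2.1 (hab 2).2.2 u v hu hv]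
    have n01 : a 0 ≠ a 1 := fun h => by simpa using ia h
    have n02 : a 0 ≠ a 2 := fun h => by simpa using ia h
    have n12 : a 1 ≠ a 2 := fun h => by simpa using ia h
    have hex : (∃ i, u = a i ∧ v = b i) ↔ (u = a 0 ∧ v = b 0) ∨ (u = a 1 ∧ v = b 1) ∨
        (u = a 2 ∧ v = b 2) := by
      constructor
      · rintro ⟨i, hi⟩
        fin_cases i
        · exact Or.inl hi
        · exact Or.inr (Or.inl hi)
        · exact Or.inr (Or.inr hi)
      · rintro (h | h | h)
        · exact ⟨0, h⟩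
        · exact ⟨1, h⟩
        · exact ⟨2, h⟩
    simp only [hex]
    by_cases h0 : u = a 0 ∧ v = b 0
    · simp [h0, n01, n02]
    · by_cases h1 : u = a 1 ∧ v = b 1
      · simp [h1, n01.symm, n12]
      · by_cases h2 : u = a 2 ∧ v = b 2
        · simp [h2, n02.symm, n12.symm]
        · simp [h0, h1, h2]
  have hfin : y - z ∈ lat H := b6_final hV hC ⟨ia, ib, hab⟩ hy1 hy1c hκm hκr hκc
    (k := -m) (by rw [hm]; ring)
  have := add_mem hfin hzm
  rwa [sub_add_cancel] at this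

end Pool.Agent.H44T
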