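import Pool.Agent.Lib.H44T.B6

/-!
# Chunk B7 (M/L): the lattice of two cliques, even sides

`|C|` even. For two disjoint cross edges `e, f` let `π_{e f}` be the perfect matching with exactly these cross edges
(`pm_cross` with `k = 2`). Let `e_i = (a i, b i)`. Every cross edge `e` of `H` different from the `e_i` is disjoint
from some `e_i` (`three_avoid`), call it `f(e)`. `y1 := y - ∑ e, y e • π_{e f(e)}` (sum over the cross edges of `H` different from
`e_1, e_2, e_3`) has cross entries only at the `e_i`, with values `α_i`. It is regular of degree `ρ1`, and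
`∑ i, α_i = cutW y1 C = ρ1 |C| - inW y1 C` is even. Subtract
`p • π_{e2 e3} + q • π_{e1 e3} + s • π_{e1 e2}` with `p = (α2 + α3 - α1) / 2`, `q = (α1 + α3 - α2) / 2`,
`s = (α1 + α2 - α3) / 2`: no cross entries. Finally subtract `ρ2 • π0` with `π0` without cross edges (`k = 0`): degree `0`,
and `zero_in` applies.
-/

namespace Pool.Agent.H44T

open Finset Pool.Agent.H44O
open scoped Classical

variable {V : Type*} [Fintype V]

theorem b7_two (hV : Even (Fintype.card V)) {H : SimpleGraph V} {C : Finset V}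
    (hC : TwoC H C) (heven : Even C.card) {u1 v1 u2 v2 : V} (hu1 : u1 ∈ C) (hv1 : v1 ∉ C)
    (h1 : H.Adj u1 v1) (hu2 : u2 ∈ C) (hv2 : v2 ∉ C) (h2 : H.Adj u2 v2) (hu : u1 ≠ u2)
    (hv : v1 ≠ v2) : ∃ x ∈ lat H, B6R x 1 ∧ ∀ u v, u ∈ C → v ∉ C →
      x u v = if (u = u1 ∧ v = v1) ∨ (u = u2 ∧ v = v2) then 1 else 0 := by
  obtain ⟨π, hπ1, hπ2, hπ3⟩ := pm_cross (k := 2) hV hC (c := ![u1, u2]) (d := ![v1, v2])
    (by
      intro i j hij
      fin_cases i <;> fin_cases j <;> simp_all)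
    (by
      intro i j hij
      fin_cases i <;> fin_cases j <;> simp_all)
    (by
      intro i
      fin_cases i
      · exact ⟨hu1, hv1, h1⟩
      · exact ⟨hu2, hv2, h2⟩) (heven.add even_two)
  refine ⟨chi π, hπ2, b6_chi hπ1, fun u v hu hv => ?_⟩
  rw [hπ3 u v hu hv]
  have : (∃ i : Fin 2, u = ![u1, u2] i ∧ v = ![v1, v2] i) ↔
      ((u = u1 ∧ v = v1) ∨ (u = u2 ∧ v = v2)) := by
    rw [Fin.exists_fin_two]
    rfl
  simp only [this]

theorem two_lat_even (hV : Even (Fintype.card V)) {H : SimpleGraph V} {C : Finset V}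
    (hC : TwoC H C) (heven : Even C.card) {a b : Fin 3 → V} (h3 : Three H C a b) : LatP H := by
  intro y ρ hs hr hsup
  have hd : ∀ v, y v v = 0 := fun v => by
    by_contra h
    exact H.loopless.irrefl v (hsup v v h)
  have hy : B6R y ρ := ⟨hs, hd, hr⟩
  obtain ⟨ia, ib, hab⟩ := id h3
  have n01 : a 0 ≠ a 1 := fun h => by simpa using ia h
  have n02 : a 0 ≠ a 2 := fun h => by simpa using ia h
  have n12 : a 1 ≠ a 2 := fun h => by simpa using ia h
  have m01 : b 0 ≠ b 1 := fun h => by simpa using ib h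
  have m02 : b 0 ≠ b 2 := fun h => by simpa using ib h
  have m12 : b 1 ≠ b 2 := fun h => by simpa using ib h
  -- one cross edge and one of the three
  have hP : ∀ p : V × V, ∃ x ∈ lat H, (p.1 ∈ C → p.2 ∉ C → H.Adj p.1 p.2 →
      ∃ i, ∀ u v, u ∈ C → v ∉ C →
      x u v = if (u = p.1 ∧ v = p.2) ∨ (u = a i ∧ v = b i) then 1 else 0) := by
    intro p
    by_cases h : p.1 ∈ C ∧ p.2 ∉ C ∧ H.Adj p.1 p.2
    · obtain ⟨i, h1, -, -, h4⟩ := three_avoid h3 p.1 p.2
      obtain ⟨x, hx, -, hx2⟩ := b7_two hV hC heven h.1 h.2.1 h.2.2 (hab i).1 (hab i).2.1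
        (hab i).2.2 (Ne.symm h1) (Ne.symm h4)
      exact ⟨x, hx, fun _ _ _ => ⟨i, hx2⟩⟩
    · exact ⟨0, zero_mem _, fun h1 h2 h3 => absurd ⟨h1, h2, h3⟩ h⟩
  choose P hPm hPc using hP
  set S : Finset (V × V) := (C ×ˢ Cᶜ).filter
    (fun p => H.Adj p.1 p.2 ∧ ¬ ∃ i, p.1 = a i ∧ p.2 = b i) with hS
  set z : V → V → ℤ := ∑ p ∈ S, y p.1 p.2 • P p with hz
  have hzm : z ∈ lat H := sum_mem fun p _ => zsmul_mem (hPm p) _
  obtain ⟨σ, hzr⟩ := b6_lat hzm
  have hmem : ∀ p ∈ S, p.1 ∈ C ∧ p.2 ∉ C ∧ H.Adj p.1 p.2 := by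
    intro p hp
    rw [hS, mem_filter, mem_product, mem_compl] at hp
    exact ⟨hp.1.1, hp.1.2, hp.2.1⟩
  have hzc : ∀ u v, u ∈ C → v ∉ C → (¬ ∃ i, u = a i ∧ v = b i) → z u v = y u v := by
    intro u v hu hv hno
    have e1 : z u v = ∑ p ∈ S, y p.1 p.2 * (if u = p.1 ∧ v = p.2 then 1 else 0) := by
      rw [hz, Finset.sum_apply, Finset.sum_apply]
      refine Finset.sum_congr rfl fun p hp => ?_
      obtain ⟨h1, h2, h3⟩ := hmem p hp
      obtain ⟨i, hi⟩ := hPc p h1 h2 h3
      have hn : ¬ (u = a i ∧ v = b i) := fun h => hno ⟨i, h⟩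
      rw [Pi.smul_apply, Pi.smul_apply, hi u v hu hv, smul_eq_mul]
      simp only [hn, or_false]
    rw [e1]
    by_cases hadj : H.Adj u v
    · rw [Finset.sum_eq_single (u, v)]
      · simp
      · intro p _ hp
        rw [if_neg, mul_zero]
        rintro ⟨rfl, rfl⟩
        exact hp rfl
      · intro h
        exfalso
        apply h
        rw [hS, mem_filter, mem_product, mem_compl]
        exact ⟨⟨hu, hv⟩, hadj, hno⟩
    · have hy0 : y u v = 0 := by
        by_contra h
        exact hadj (hsup u v h)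
      rw [hy0]
      refine Finset.sum_eq_zero fun p hp => ?_
      rw [if_neg, mul_zero]
      rintro ⟨rfl, rfl⟩
      exact hadj (hmem p hp).2.2
  have hy1 : B6R (y - z) (ρ - σ) := hy.sub hzr
  have hy1c : ∀ u v, u ∈ C → v ∉ C → (¬ ∃ i, u = a i ∧ v = b i) → (y - z) u v = 0 := by
    intro u v hu hv hno
    rw [Pi.sub_apply, Pi.sub_apply, hzc u v hu hv hno, sub_self]
  have hex : ∀ u v, (∃ i, u = a i ∧ v = b i) ↔ (u = a 0 ∧ v = b 0) ∨ (u = a 1 ∧ v = b 1) ∨
      (u = a 2 ∧ v = b 2) := by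
    intro u v
    constructor
    · rintro ⟨i, hi⟩
      fin_cases i
      · exact Or.inl hi
      · exact Or.inr (Or.inl hi)
      · exact Or.inr (Or.inr hi)
    · rintro (h | h | h)
      · exact ⟨0, h⟩
      · exact ⟨1, h⟩
      · exact ⟨2, h⟩
  set y1 := y - z with hy1def
  -- the sum of the three values is even
  have hsum : Even (y1 (a 0) (b 0) + y1 (a 1) (b 1) + y1 (a 2) (b 2)) := by
    have h1 := sum_dg y1 C
    have h2 : cutW y1 C = y1 (a 0) (b 0) + y1 (a 1) (b 1) + y1 (a 2) (b 2) := by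
      have e : cutW y1 C = ∑ p ∈ C ×ˢ Cᶜ, y1 p.1 p.2 := by
        rw [Finset.sum_product]
        rfl
      rw [e]
      have hsub : ({(a 0, b 0), (a 1, b 1), (a 2, b 2)} : Finset (V × V)) ⊆ C ×ˢ Cᶜ := by
        intro p hp
        simp only [mem_insert, mem_singleton] at hp
        rw [mem_product, mem_compl]
        rcases hp with rfl | rfl | rfl
        · exact ⟨(hab 0).1, (hab 0).2.1⟩
        · exact ⟨(hab 1).1, (hab 1).2.1⟩
        · exact ⟨(hab 2).1, (hab 2).2.1⟩
      rw [← Finset.sum_subset hsub]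
      · rw [sum_insert, sum_insert, sum_singleton, add_assoc]
        · simp [n12]
        · simp [n01, n02]
      · intro p hp hp'
        rw [mem_product, mem_compl] at hp
        apply hy1c p.1 p.2 hp.1 hp.2
        rw [hex]
        intro h
        apply hp'
        simp only [mem_insert, mem_singleton]
        rcases h with h | h | h
        · exact Or.inl (Prod.ext h.1 h.2)
        · exact Or.inr (Or.inl (Prod.ext h.1 h.2))
        · exact Or.inr (Or.inr (Prod.ext h.1 h.2))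
    rw [Finset.sum_congr rfl fun u _ => hy1.r u, sum_const, nsmul_eq_mul, h2] at h1
    have h3 := even_inW' hy1.s hy1.d C
    have h4 : Even ((C.card : ℤ) * (ρ - σ)) := by
      have : Even (C.card : ℤ) := by exact_mod_cast heven
      exact this.mul_right _
    have h5 : y1 (a 0) (b 0) + y1 (a 1) (b 1) + y1 (a 2) (b 2) =
        (C.card : ℤ) * (ρ - σ) - inW y1 C := by linarith
    rw [h5]
    exact h4.sub h3
  obtain ⟨t, ht⟩ := hsum
  obtain ⟨x12, l12, r12, c12⟩ := b7_two hV hC heven (hab 1).1 (hab 1).2.1 (hab 1).2.2 (hab 2).1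
    (hab 2).2.1 (hab 2).2.2 n12 m12
  obtain ⟨x02, l02, r02, c02⟩ := b7_two hV hC heven (hab 0).1 (hab 0).2.1 (hab 0).2.2 (hab 2).1
    (hab 2).2.1 (hab 2).2.2 n02 m02
  obtain ⟨x01, l01, r01, c01⟩ := b7_two hV hC heven (hab 0).1 (hab 0).2.1 (hab 0).2.2 (hab 1).1
    (hab 1).2.1 (hab 1).2.2 n01 m01
  set α0 := y1 (a 0) (b 0) with hα0
  set α1 := y1 (a 1) (b 1) with hα1
  set α2 := y1 (a 2) (b 2) with hα2
  set w : V → V → ℤ := (t - α0) • x12 + (t - α1) • x02 + (t - α2) • x01 with hw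
  have hwm : w ∈ lat H := add_mem (add_mem (zsmul_mem l12 _) (zsmul_mem l02 _)) (zsmul_mem l01 _)
  obtain ⟨τ, hwr⟩ := b6_lat hwm
  have hy2 : B6R (y1 - w) (ρ - σ - τ) := hy1.sub hwr
  have hy2c : ∀ u v, u ∈ C → v ∉ C → (y1 - w) u v = 0 := by
    intro u v hu hv
    have e : (y1 - w) u v = y1 u v - ((t - α0) * x12 u v + (t - α1) * x02 u v +
      (t - α2) * x01 u v) := rfl
    rw [e, c12 u v hu hv, c02 u v hu hv, c01 u v hu hv]
    by_cases h0 : u = a 0 ∧ v = b 0
    · obtain ⟨rfl, rfl⟩ := h0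
      simp only [n01, n02, false_and, or_self, if_false, true_and, and_self, true_or, if_true,
        ← hα0]
      linarith
    · by_cases h1 : u = a 1 ∧ v = b 1
      · obtain ⟨rfl, rfl⟩ := h1
        simp only [n01.symm, n12, false_and, or_self, if_false, true_and, and_self, true_or,
          or_true, if_true, ← hα1]
        linarith
      · by_cases h2 : u = a 2 ∧ v = b 2
        · obtain ⟨rfl, rfl⟩ := h2
          simp only [n02.symm, n12.symm, false_and, or_self, if_false, true_and, and_self,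
            true_or, or_true, if_true, ← hα2]
          linarith
        · rw [hy1c u v hu hv (by rw [hex]; tauto)]
          simp only [h0, h1, h2, or_self, if_false]
          ring
  obtain ⟨π, hπ1, hπ2, hπ3⟩ := pm_cross (k := 0) hV hC (c := Fin.elim0) (d := Fin.elim0)
    (fun i => i.elim0) (fun i => i.elim0) (fun i => i.elim0) (by simpa using heven)
  have hκc : ∀ u v, u ∈ C → v ∉ C → chi π u v = 0 := by
    intro u v hu hv
    rw [hπ3 u v hu hv, if_neg]
    rintro ⟨i, -⟩
    exact i.elim0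
  have hfin : y1 - w ∈ lat H := b6_final hV hC h3 hy2 hy2c hπ2 (b6_chi hπ1) hκc
    (k := ρ - σ - τ) (by ring)
  have h5 := add_mem (add_mem hfin hwm) hzm
  rwa [sub_add_cancel, hy1def, sub_add_cancel] at h5

end Pool.Agent.H44T
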