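import Pool.Agent.Lib.H44T.B7

/-!
# Chunk B8 (S): two cliques with three disjoint cross edges are nice

`TwoC` and `Three` pass to larger graphs; `two_near`, `two_lat_even`, `two_lat_odd`.
-/

namespace Pool.Agent.H44T

open Finset Pool.Agent.H44O
open scoped Classical

variable {V : Type*} [Fintype V]

theorem two_nice (hV : Even (Fintype.card V)) {H : SimpleGraph V} {C : Finset V}
    (hC : TwoC H C) {a b : Fin 3 → V} (h3 : Three H C a b) : Nice H := by
  intro H' hH'
  have hC' : TwoC H' C := fun u v huv h => hH' (hC u v huv h)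
  have h3' : Three H' C a b :=
    ⟨h3.1, h3.2.1, fun i => ⟨(h3.2.2 i).1, (h3.2.2 i).2.1, hH' (h3.2.2 i).2.2⟩⟩
  refine ⟨two_near hV hC' h3', ?_⟩
  rcases Nat.even_or_odd C.card with h | h
  · exact two_lat_even hV hC' h h3'
  · exact two_lat_odd hV hC' h h3'

end Pool.Agent.H44T
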