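import Pool.Agent.Lib.H44T.TDefs
import Pool.Agent.Lib.H44O.D13

/-!
# Chunk C1 (M): slack and cuts

* `slk_parity`: `|U|` odd, so `r (|U| - 1)` is even; `even_inW`.
* `slk_cut`: `sum_dg` with all degrees `r`.
* `slk_compl`: `slk_cut` for both sets (needs `U` and `Uᶜ`) and `cutW_compl`.
* `slk_one`: `|U| = 1`: `inW_singleton`. `slk_nonneg`: from `Ok`.
* `slk_last`: for a regular weight `slk y r {a}ᶜ = 0` (`slk_cut`, `cutW_singleton`).
* `inW_add`, `inW_sub`: linearity; `inW_ed`: `inW (ed p q) U = 2` if `p, q ∈ U` and `0` otherwise (`p ≠ q`).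
* `cut_cross`: as `cut_sub` in `H44S/C1` (submodularity of cuts), with the term for one pair `c ∈ U \ W`, `d ∈ W \ U`, which is
  counted twice on the right side and not on the left side.
* `cut_posi'`: the same as `cut_posi` in `H44S/C1` (may be copied from there).
-/

namespace Pool.Agent.H44T

open Finset Pool.Agent.H44O
open scoped Classical

variable {V : Type*} [Fintype V]

theorem slk_parity {x : V → V → ℤ} (hx : IsW x) (r : ℤ) {U : Finset V} (hU : Odd U.card) :
    Even (slk x r U) := by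
  obtain ⟨k, hk⟩ := hU
  obtain ⟨m, hm⟩ := even_inW hx U
  refine ⟨r * k - m, ?_⟩
  unfold slk
  rw [hk, hm]
  push_cast
  ring

theorem slk_cut {x : V → V → ℤ} {r : ℤ} (hr : ∀ u, dg x u = r) (U : Finset V) :
    slk x r U = cutW x U - r := by
  have h1 := sum_dg x U
  rw [Finset.sum_congr rfl (fun u _ => hr u), Finset.sum_const, nsmul_eq_mul] at h1
  unfold slk
  linear_combination h1

theorem slk_compl {x : V → V → ℤ} (hx : IsW x) {r : ℤ} (hr : ∀ u, dg x u = r) (U : Finset V) :
    slk x r Uᶜ = slk x r U := by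
  rw [slk_cut hr, slk_cut hr, cutW_compl hx]

theorem slk_nonneg {x : V → V → ℤ} {r : ℤ} (h : Ok x r) {U : Finset V} (hU : Odd U.card) :
    0 ≤ slk x r U := by
  have := h.2 U hU
  unfold slk
  linarith

theorem slk_last {x : V → V → ℤ} (hx : IsW x) {r : ℤ} (hr : ∀ u, dg x u = r) (a : V) :
    slk x r ({a} : Finset V)ᶜ = 0 := by
  rw [slk_compl hx hr, slk_cut hr, cutW_singleton hx, hr, sub_self]

theorem inW_add (x y : V → V → ℤ) (U : Finset V) : inW (x + y) U = inW x U + inW y U := by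
  simp only [inW, Pi.add_apply, Finset.sum_add_distrib]

theorem inW_sub (x y : V → V → ℤ) (U : Finset V) : inW (x - y) U = inW x U - inW y U := by
  simp only [inW, Pi.sub_apply, Finset.sum_sub_distrib]

theorem c1_one (U : Finset V) (p q : V) :
    (∑ u ∈ U, ∑ v ∈ U, if u = p ∧ v = q then (1 : ℤ) else 0) =
      if p ∈ U ∧ q ∈ U then 1 else 0 := by
  have h1 : ∀ u ∈ U, (∑ v ∈ U, if u = p ∧ v = q then (1 : ℤ) else 0) =
      if u = p then (if q ∈ U then 1 else 0) else 0 := by
    intro u _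
    by_cases hu : u = p
    · simp [hu]
    · simp [hu]
  rw [Finset.sum_congr rfl h1]
  by_cases hp : p ∈ U
  · simp [hp]
  · simp [hp]

theorem inW_ed {p q : V} (hpq : p ≠ q) (U : Finset V) :
    inW (ed p q) U = if p ∈ U ∧ q ∈ U then 2 else 0 := by
  have h1 : ∀ u v : V, ed p q u v =
      (if u = p ∧ v = q then (1 : ℤ) else 0) + (if u = q ∧ v = p then (1 : ℤ) else 0) := by
    intro u v
    unfold ed
    by_cases h2 : u = p ∧ v = q
    · have h3 : ¬ (u = q ∧ v = p) := fun h => hpq (h2.1.symm.trans h.1)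
      rw [if_pos (Or.inl h2), if_pos h2, if_neg h3, add_zero]
    · by_cases h3 : u = q ∧ v = p
      · rw [if_pos (Or.inr h3), if_neg h2, if_pos h3, zero_add]
      · rw [if_neg (not_or.2 ⟨h2, h3⟩), if_neg h2, if_neg h3, add_zero]
  have h4 : inW (ed p q) U = (∑ u ∈ U, ∑ v ∈ U, if u = p ∧ v = q then (1 : ℤ) else 0) +
      (∑ u ∈ U, ∑ v ∈ U, if u = q ∧ v = p then (1 : ℤ) else 0) := by
    unfold inW
    rw [← Finset.sum_add_distrib]
    refine Finset.sum_congr rfl fun u _ => ?_
    rw [← Finset.sum_add_distrib]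
    exact Finset.sum_congr rfl fun v _ => h1 u v
  rw [h4, c1_one, c1_one]
  by_cases hp : p ∈ U <;> by_cases hq : q ∈ U <;> simp [hp, hq]

theorem c1_cut (x : V → V → ℤ) (U : Finset V) :
    cutW x U = ∑ a, ∑ b, if a ∈ U then (if b ∈ U then 0 else x a b) else 0 := by
  have h1 : cutW x U = ∑ u ∈ U, dg x u - inW x U := by rw [sum_dg]; ring
  rw [h1, a2_dg, a2_inW, ← Finset.sum_sub_distrib]
  refine Finset.sum_congr rfl fun a _ => ?_
  rw [← Finset.sum_sub_distrib]
  refine Finset.sum_congr rfl fun b _ => ?_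
  by_cases h2 : a ∈ U <;> by_cases h3 : b ∈ U <;> simp [h2, h3]

theorem c1_cut' {x : V → V → ℤ} (hx : IsW x) (U : Finset V) :
    cutW x U = ∑ a, ∑ b, if b ∈ U then (if a ∈ U then 0 else x a b) else 0 := by
  rw [c1_cut, Finset.sum_comm]
  refine Finset.sum_congr rfl fun a _ => Finset.sum_congr rfl fun b _ => ?_
  rw [hx.symm b a]

theorem c1_posi {x : V → V → ℤ} (hx : IsW x) {U W : Finset V} {p u : V} (h1 : p ∈ U) (h2 : p ∈ W)
    (h3 : u ∉ U) (h4 : u ∉ W) :
    cutW x (U \ W) + cutW x (W \ U) + 2 * x p u ≤ cutW x U + cutW x W := by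
  have hs : ∀ c d : V, (∑ a, ∑ b, if a = c then (if b = d then x p u else 0) else 0) = x p u := by
    intro c d
    rw [Finset.sum_eq_single c, Finset.sum_eq_single d]
    · simp
    · intro b _ hb; simp [hb]
    · intro h; exact absurd (Finset.mem_univ _) h
    · intro b _ hb; simp [hb]
    · intro h; exact absurd (Finset.mem_univ _) h
  have key : (∑ a, ∑ b, if a ∈ U \ W then (if b ∈ U \ W then 0 else x a b) else 0) +
      (∑ a, ∑ b, if b ∈ U \ W then (if a ∈ U \ W then 0 else x a b) else 0) +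
      (∑ a, ∑ b, if a ∈ W \ U then (if b ∈ W \ U then 0 else x a b) else 0) +
      (∑ a, ∑ b, if b ∈ W \ U then (if a ∈ W \ U then 0 else x a b) else 0) +
      2 * (∑ a, ∑ b, if a = p then (if b = u then x p u else 0) else 0) +
      2 * (∑ a, ∑ b, if a = u then (if b = p then x p u else 0) else 0) ≤
      (∑ a, ∑ b, if a ∈ U then (if b ∈ U then 0 else x a b) else 0) +
      (∑ a, ∑ b, if b ∈ U then (if a ∈ U then 0 else x a b) else 0) +
      (∑ a, ∑ b, if a ∈ W then (if b ∈ W then 0 else x a b) else 0) +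
      (∑ a, ∑ b, if b ∈ W then (if a ∈ W then 0 else x a b) else 0) := by
    simp only [Finset.mul_sum, ← Finset.sum_add_distrib]
    refine Finset.sum_le_sum fun a _ => Finset.sum_le_sum fun b _ => ?_
    have h0 := hx.nonneg a b
    have e1 : (if a = p then (if b = u then x p u else 0) else 0) ≤
        if a ∈ U ∧ a ∈ W ∧ b ∉ U ∧ b ∉ W then x a b else 0 := by
      by_cases ha : a = p
      · by_cases hb : b = u
        · subst ha; subst hb
          simp [h1, h2, h3, h4]
        · rw [if_pos ha, if_neg hb]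
          split_ifs <;> simp [h0]
      · rw [if_neg ha]
        split_ifs <;> simp [h0]
    have e2 : (if a = u then (if b = p then x p u else 0) else 0) ≤
        if b ∈ U ∧ b ∈ W ∧ a ∉ U ∧ a ∉ W then x a b else 0 := by
      by_cases ha : a = u
      · by_cases hb : b = p
        · subst ha; subst hb
          simp only [h1, h2, h3, h4, not_false_eq_true, and_self, if_true]
          exact le_of_eq (hx.symm _ _)
        · rw [if_pos ha, if_neg hb]
          split_ifs <;> simp [h0]
      · rw [if_neg ha]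
        split_ifs <;> simp [h0]
    generalize (if a = p then (if b = u then x p u else 0) else 0) = E1 at *
    generalize (if a = u then (if b = p then x p u else 0) else 0) = E2 at *
    by_cases g1 : a ∈ U <;> by_cases g2 : a ∈ W <;> by_cases g3 : b ∈ U <;> by_cases g4 : b ∈ W <;>
      simp [g1, g2, g3, g4] at e1 e2 ⊢ <;> linarith
  rw [hs, hs, ← c1_cut, ← c1_cut, ← c1_cut, ← c1_cut, ← c1_cut' hx, ← c1_cut' hx, ← c1_cut' hx,
    ← c1_cut' hx] at key
  linarith

theorem cut_cross {x : V → V → ℤ} (hx : IsW x) {U W : Finset V} {c d : V} (h1 : c ∈ U)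
    (h2 : c ∉ W) (h3 : d ∈ W) (h4 : d ∉ U) :
    cutW x (U ∪ W) + cutW x (U ∩ W) + 2 * x c d ≤ cutW x U + cutW x W := by
  have h5 := c1_posi hx (U := U) (W := Wᶜ) (p := c) (u := d) h1 (Finset.mem_compl.2 h2) h4
    (fun h => (Finset.mem_compl.1 h) h3)
  have e1 : U \ Wᶜ = U ∩ W := by
    ext v; simp
  have e2 : Wᶜ \ U = (U ∪ W)ᶜ := by
    ext v; simp [and_comm]
  rw [e1, e2, cutW_compl hx, cutW_compl hx] at h5
  linarith

theorem cut_posi' {x : V → V → ℤ} (hx : IsW x) {U W : Finset V} {p u : V} (h1 : p ∈ U) (h2 : p ∈ W)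
    (h3 : u ∉ U) (h4 : u ∉ W) :
    cutW x (U \ W) + cutW x (W \ U) + 2 * x p u ≤ cutW x U + cutW x W :=
  c1_posi hx h1 h2 h3 h4

end Pool.Agent.H44T
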