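import Pool.Agent.Lib.H44T.C1

/-!
# Chunk C2 (M/L): one of the two switches is possible

`y` a completion, `z = y - x`; `a, b, c, d` different, `z a b > 0`, `z c d > 0`.
`y1 = y - ed a b - ed c d + ed a c + ed b d`, `y2 = y - ed a b - ed c d + ed a d + ed b c`. Both are weights (`y a b ≥ 1`,
`y c d ≥ 1`), contain `x`, and are regular of degree `r` (`d13_dg_ed`). Suppose `Ok` fails for both. For an odd set `Z`,
`inW y1 Z - inW y Z = 2 (α - δ) (γ - β)`, where `α, β, γ, δ` are `1` or `0` according to whether `a, b, c, d` is in `Z`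
(`inW_ed`). So if `inW y1 Z > r (|Z| - 1)` then (`slk y r Z` is even and nonnegative) `slk y r Z = 0` and
`(α - δ)(γ - β) = 1`: either `a, c ∈ Z`, `b, d ∉ Z` or `b, d ∈ Z`, `a, c ∉ Z`. Replacing `Z` by `Zᶜ` in the second case (`slk_compl`, `|Zᶜ|`
is odd) we have an odd `Z` with `slk y r Z = 0`, `a, c ∈ Z`, `b, d ∉ Z`; so `cutW y Z = r` (`slk_cut`). In the same way there is an odd
`Z'` with `cutW y Z' = r`, `a, d ∈ Z'`, `b, c ∉ Z'`. If `|Z ∩ Z'|` is odd, so is `|Z ∪ Z'|`, both cuts are at least `r`, and `cut_cross` with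
`c, d` gives `y c d ≤ 0`. If it is even, `Z \ Z'` and `Z' \ Z` are odd, and `cut_posi'` with `p = a`, `u = b` gives `y a b ≤ 0`. Both
are impossible.
-/

namespace Pool.Agent.H44T

open Finset Pool.Agent.H44O
open scoped Classical

variable {V : Type*} [Fintype V]

theorem c2_ed_nonneg (p q u v : V) : 0 ≤ ed p q u v := by
  unfold ed
  split_ifs <;> norm_num

theorem c2_ed_symm (p q u v : V) : ed p q u v = ed p q v u := by
  unfold ed
  apply if_congr _ rfl rfl
  tauto

theorem c2_ed_comm (p q : V) : ed p q = ed q p := by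
  funext u v
  unfold ed
  apply if_congr _ rfl rfl
  tauto

theorem c2_ed_diag {p q : V} (hpq : p ≠ q) (v : V) : ed p q v v = 0 := by
  unfold ed
  rw [if_neg]
  rintro (⟨h, h'⟩ | ⟨h, h'⟩)
  · exact hpq (h.symm.trans h')
  · exact hpq (h'.symm.trans h)

/-- if `v` decreases the pairs `ab`, `cd` only -/
theorem c2_le {x y : V → V → ℤ} (hx : IsW x) (hy : IsW y) (hle : ∀ u v, x u v ≤ y u v)
    {a b c d : V} (hac : a ≠ c) (had : a ≠ d)
    (h1 : x a b < y a b) (h2 : x c d < y c d) (u v : V) :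
    x u v ≤ y u v - ed a b u v - ed c d u v := by
  have h0 := hle u v
  have key : (ed a b u v = 0 ∧ ed c d u v = 0) ∨ (ed a b u v = 1 ∧ ed c d u v = 0 ∧
      x u v < y u v) ∨ (ed a b u v = 0 ∧ ed c d u v = 1 ∧ x u v < y u v) := by
    by_cases g1 : (u = a ∧ v = b) ∨ (u = b ∧ v = a)
    · right; left
      refine ⟨if_pos g1, ?_, ?_⟩
      · unfold ed
        rw [if_neg]
        rcases g1 with ⟨e1, e2⟩ | ⟨e1, e2⟩
        · rintro (⟨f1, f2⟩ | ⟨f1, f2⟩)
          · exact hac (e1.symm.trans f1)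
          · exact had (e1.symm.trans f1)
        · rintro (⟨f1, f2⟩ | ⟨f1, f2⟩)
          · exact had (e2.symm.trans f2)
          · exact hac (e2.symm.trans f2)
      · rcases g1 with ⟨e1, e2⟩ | ⟨e1, e2⟩
        · rw [e1, e2]
          exact h1
        · rw [e1, e2, hx.symm, hy.symm]
          exact h1
    · by_cases g2 : (u = c ∧ v = d) ∨ (u = d ∧ v = c)
      · right; right
        refine ⟨if_neg g1, if_pos g2, ?_⟩
        rcases g2 with ⟨e1, e2⟩ | ⟨e1, e2⟩
        · rw [e1, e2]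
          exact h2
        · rw [e1, e2, hx.symm, hy.symm]
          exact h2
      · left
        exact ⟨if_neg g1, if_neg g2⟩
  rcases key with ⟨k1, k2⟩ | ⟨k1, k2, k3⟩ | ⟨k1, k2, k3⟩ <;> rw [k1, k2] <;> omega

theorem c2_half (hV : Even (Fintype.card V)) {x y : V → V → ℤ} {r : ℤ} (hx : IsW x)
    (hc : Comp x y r) {a b c d : V}
    (hab : a ≠ b) (hcd : c ≠ d) (hac : a ≠ c) (had : a ≠ d) (hbd : b ≠ d)
    (h1 : x a b < y a b) (h2 : x c d < y c d)
    (hno : ∀ Z : Finset V, Odd Z.card → slk y r Z = 0 → a ∈ Z → c ∈ Z → b ∉ Z → d ∉ Z → False) :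
    Comp x (y - ed a b - ed c d + ed a c + ed b d) r := by
  have hle : ∀ u v, x u v ≤ (y - ed a b - ed c d + ed a c + ed b d) u v := by
    intro u v
    have h3 := c2_le hx hc.isW hc.le hac had h1 h2 u v
    have h4 := c2_ed_nonneg a c u v
    have h5 := c2_ed_nonneg b d u v
    simp only [Pi.add_apply, Pi.sub_apply]
    omega
  have hreg : ∀ u, dg (y - ed a b - ed c d + ed a c + ed b d) u = r := by
    intro u
    rw [dg_add, dg_add, dg_sub, dg_sub, hc.reg, d13_dg_ed hab, d13_dg_ed hcd, d13_dg_ed hac,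
      d13_dg_ed hbd]
    ring
  refine ⟨⟨?_, ?_, ?_⟩, hle, hreg, ?_⟩
  · intro u v
    simp only [Pi.add_apply, Pi.sub_apply]
    rw [hc.isW.symm u v, c2_ed_symm a b, c2_ed_symm c d, c2_ed_symm a c, c2_ed_symm b d]
  · intro v
    simp only [Pi.add_apply, Pi.sub_apply]
    rw [hc.isW.diag, c2_ed_diag hab, c2_ed_diag hcd, c2_ed_diag hac, c2_ed_diag hbd]
    ring
  · intro u v
    exact (hx.nonneg u v).trans (hle u v)
  · refine ⟨fun u => (hreg u).le, fun U hU => ?_⟩
    have e1 : inW (y - ed a b - ed c d + ed a c + ed b d) U =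
        inW y U - (if a ∈ U ∧ b ∈ U then 2 else 0) - (if c ∈ U ∧ d ∈ U then 2 else 0) +
          (if a ∈ U ∧ c ∈ U then 2 else 0) + (if b ∈ U ∧ d ∈ U then 2 else 0) := by
      rw [inW_add, inW_add, inW_sub, inW_sub, inW_ed hab, inW_ed hcd, inW_ed hac, inW_ed hbd]
    rw [e1]
    have s1 := slk_nonneg hc.ok hU
    obtain ⟨k, hk⟩ := slk_parity hc.isW r hU
    have hUc : Odd Uᶜ.card := by
      rw [card_compl]
      have h3 : U.card ≤ Fintype.card V := card_le_univ U
      obtain ⟨m, hm⟩ := hV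
      obtain ⟨l, hl⟩ := hU
      exact ⟨m - l - 1, by omega⟩
    have n1 := hno U hU
    have n2 := hno Uᶜ hUc
    rw [slk_compl hc.isW hc.reg] at n2
    simp only [mem_compl] at n2
    have hs : slk y r U = r * ((U.card : ℤ) - 1) - inW y U := rfl
    by_cases ha : a ∈ U <;> by_cases hb : b ∈ U <;> by_cases hc' : c ∈ U <;>
      by_cases hd : d ∈ U <;> simp only [ha, hb, hc', hd, and_self, and_true, and_false,
        if_true, if_false, not_true, not_false_iff, true_and, false_and, forall_true_left,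
        imp_false, forall_const] at n1 n2 ⊢ <;> omega

theorem switch (hV : Even (Fintype.card V)) {x y : V → V → ℤ} {r : ℤ} (hx : IsW x)
    (hc : Comp x y r) {a b c d : V}
    (hab : a ≠ b) (hcd : c ≠ d) (hac : a ≠ c) (had : a ≠ d) (hbc : b ≠ c) (hbd : b ≠ d)
    (h1 : x a b < y a b) (h2 : x c d < y c d) :
    Comp x (y - ed a b - ed c d + ed a c + ed b d) r ∨
      Comp x (y - ed a b - ed c d + ed a d + ed b c) r := by
  by_cases hZ : ∀ Z : Finset V, Odd Z.card → slk y r Z = 0 → a ∈ Z → c ∈ Z → b ∉ Z → d ∉ Z → False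
  · exact Or.inl (c2_half hV hx hc hab hcd hac had hbd h1 h2 hZ)
  · by_cases hZ' : ∀ Z : Finset V, Odd Z.card → slk y r Z = 0 → a ∈ Z → d ∈ Z → b ∉ Z → c ∉ Z →
        False
    · right
      have h3 := c2_half hV hx hc hab hcd.symm had hac hbc h1
        (by rw [hx.symm d c, hc.isW.symm d c]; exact h2) hZ'
      rw [c2_ed_comm d c] at h3
      exact h3
    · exfalso
      push Not at hZ hZ'
      obtain ⟨Z, z1, z2, z3, z4, z5, z6, -⟩ := hZ
      obtain ⟨W, w1, w2, w3, w4, w5, w6, -⟩ := hZ'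
      rw [slk_cut hc.reg] at z2 w2
      have hcar1 : (Z ∪ W).card + (Z ∩ W).card = Z.card + W.card := card_union_add_card_inter Z W
      have hcar2 : (Z \ W).card + (Z ∩ W).card = Z.card := card_sdiff_add_card_inter Z W
      have hcar3 : (W \ Z).card + (W ∩ Z).card = W.card := card_sdiff_add_card_inter W Z
      rw [inter_comm W Z] at hcar3
      obtain ⟨l, hl⟩ := z1
      obtain ⟨m, hm⟩ := w1
      have g1 := hx.nonneg c d
      have g2 := hx.nonneg a b
      rcases Nat.even_or_odd (Z ∩ W).card with he | ho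
      · obtain ⟨j, hj⟩ := he
        have o1 : Odd (Z \ W).card := ⟨l - j, by omega⟩
        have o2 : Odd (W \ Z).card := ⟨m - j, by omega⟩
        have p1 := slk_nonneg hc.ok o1
        have p2 := slk_nonneg hc.ok o2
        rw [slk_cut hc.reg] at p1 p2
        have p3 := cut_posi' hc.isW z3 w3 z5 w5
        omega
      · obtain ⟨j, hj⟩ := ho
        have o1 : Odd (Z ∪ W).card := ⟨l + m - j, by omega⟩
        have p1 := slk_nonneg hc.ok o1
        have p2 := slk_nonneg hc.ok (U := Z ∩ W) ⟨j, hj⟩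
        rw [slk_cut hc.reg] at p1 p2
        have p3 := cut_cross hc.isW z4 w6 w4 z6
        omega

end Pool.Agent.H44T
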