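import Pool.Agent.Lib.H44T.C2

/-!
# Chunk C3 (M): a completion with large slack at one given set

Start with a completion `y`: `complete_even` does not state `Ok`; use its proof (`saturate`: `Ok x' r` is known there), or
`complete_even_ok` of `H44S/G1` (copy). Strong induction on `(inW y U).toNat`. If there are `a ≠ b` in `U` with `x a b < y a b` and
`c ≠ d` outside `U` with `x c d < y c d`, then `switch` gives a completion `y'` with `inW y' U = inW y U - 2` (`inW_ed`). Otherwise
`y = x` on all pairs in `U` (then `inW y U = inW x U`, `slk y r U = slk x r U`) or on all pairs outside `U` (then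
`slk y r U = slk y r Uᶜ = slk x r Uᶜ`).
-/

namespace Pool.Agent.H44T

open Finset Pool.Agent.H44O
open scoped Classical

variable {V : Type*} [Fintype V]

theorem exists_comp (hV : Even (Fintype.card V)) {x : V → V → ℤ} {r : ℤ} (hx : IsW x)
    (hok : Ok x r) : ∃ y, Comp x y r := by
  obtain ⟨x', hx', hok', hle, hsat⟩ := saturate hx hok
  refine ⟨x', hx', hle, ?_, hok'⟩
  rcases f4_cases hx' hok' hsat with h | ⟨W, hW, hout, hsum⟩
  · exact h
  · have hc : Wᶜ.card = Fintype.card V - W.card := Finset.card_compl W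
    have hc2 : W.card ≤ Fintype.card V := Finset.card_le_univ W
    have hodd : Odd Wᶜ.card := by
      obtain ⟨k, hk⟩ := hW
      obtain ⟨l, hl⟩ := hV
      exact ⟨l - k - 1, by omega⟩
    have h1 := hok'.2 Wᶜ hodd
    have h2 := sum_dg x' Wᶜ
    have h3 : ∑ u ∈ Wᶜ, dg x' u = Wᶜ.card * r := by
      rw [Finset.sum_congr rfl fun u hu => hout u (Finset.mem_compl.1 hu), Finset.sum_const,
        nsmul_eq_mul]
    rw [h3, cutW_compl hx'] at h2
    have h4 : ∑ u, (r - dg x' u) ≤ 0 := by
      rw [hsum]
      linarith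
    have h5 : ∀ u ∈ (univ : Finset V), 0 ≤ r - dg x' u := fun u _ => sub_nonneg.2 (hok'.1 u)
    have h6 : ∑ u, (r - dg x' u) = 0 := le_antisymm h4 (Finset.sum_nonneg h5)
    intro u
    have h7 := (Finset.sum_eq_zero_iff_of_nonneg h5).1 h6 u (Finset.mem_univ u)
    linarith

theorem c3_inW {x y : V → V → ℤ} (hx : IsW x) (hy : IsW y) (hle : ∀ u v, x u v ≤ y u v)
    {U : Finset V} (h : ¬ ∃ a ∈ U, ∃ b ∈ U, a ≠ b ∧ x a b < y a b) : inW y U = inW x U := by
  unfold inW
  refine Finset.sum_congr rfl fun u hu => Finset.sum_congr rfl fun v hv => ?_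
  by_cases huv : u = v
  · rw [huv, hx.diag, hy.diag]
  · refine le_antisymm ?_ (hle u v)
    by_contra h1
    exact h ⟨u, hu, v, hv, huv, not_le.1 h1⟩

theorem c3_step {y : V → V → ℤ} {U : Finset V} {a b c d : V} (ha : a ∈ U) (hb : b ∈ U)
    (hc : c ∉ U) (hd : d ∉ U) (hab : a ≠ b) (hcd : c ≠ d) (hac : a ≠ c) (hbd : b ≠ d) :
    inW (y - ed a b - ed c d + ed a c + ed b d) U = inW y U - 2 := by
  rw [inW_add, inW_add, inW_sub, inW_sub, inW_ed hab, inW_ed hcd, inW_ed hac, inW_ed hbd]
  simp [ha, hb, hc, hd]

theorem comp_slack (hV : Even (Fintype.card V)) {x : V → V → ℤ} {r : ℤ} (hx : IsW x)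
    (hok : Ok x r) {U : Finset V} (hU : Odd U.card) :
    ∃ y, Comp x y r ∧ (slk x r U ≤ slk y r U ∨ slk x r Uᶜ ≤ slk y r U) := by
  have main : ∀ n : ℕ, ∀ y : V → V → ℤ, Comp x y r → (inW y U).toNat ≤ n →
      ∃ y, Comp x y r ∧ (slk x r U ≤ slk y r U ∨ slk x r Uᶜ ≤ slk y r U) := by
    intro n
    induction n with
    | zero =>
      intro y hy hn
      by_cases hA : ∃ a ∈ U, ∃ b ∈ U, a ≠ b ∧ x a b < y a b
      · exfalso
        obtain ⟨a, ha, b, hb, hab, hlt⟩ := hA
        have h1 : y a b ≤ inW y U := by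
          unfold inW
          calc y a b ≤ ∑ v ∈ U, y a v :=
                Finset.single_le_sum (f := fun v => y a v) (fun v _ => hy.isW.nonneg a v) hb
            _ ≤ _ := Finset.single_le_sum (f := fun u => ∑ v ∈ U, y u v)
                (fun u _ => Finset.sum_nonneg fun v _ => hy.isW.nonneg u v) ha
        have h2 := hx.nonneg a b
        omega
      · refine ⟨y, hy, Or.inl (le_of_eq ?_)⟩
        unfold slk
        rw [c3_inW hx hy.isW hy.le hA]
    | succ n ih =>
      intro y hy hn
      by_cases hA : ∃ a ∈ U, ∃ b ∈ U, a ≠ b ∧ x a b < y a b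
      · by_cases hB : ∃ a ∈ Uᶜ, ∃ b ∈ Uᶜ, a ≠ b ∧ x a b < y a b
        · obtain ⟨a, ha, b, hb, hab, hlt⟩ := hA
          obtain ⟨c, hc, d, hd, hcd, hlt'⟩ := hB
          rw [Finset.mem_compl] at hc hd
          have hac : a ≠ c := fun h => hc (h ▸ ha)
          have had : a ≠ d := fun h => hd (h ▸ ha)
          have hbc : b ≠ c := fun h => hc (h ▸ hb)
          have hbd : b ≠ d := fun h => hd (h ▸ hb)
          have hge : 1 ≤ inW y U := by
            have h1 : y a b ≤ inW y U := by
              unfold inW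
              calc y a b ≤ ∑ v ∈ U, y a v :=
                    Finset.single_le_sum (f := fun v => y a v) (fun v _ => hy.isW.nonneg a v) hb
                _ ≤ _ := Finset.single_le_sum (f := fun u => ∑ v ∈ U, y u v)
                    (fun u _ => Finset.sum_nonneg fun v _ => hy.isW.nonneg u v) ha
            have h2 := hx.nonneg a b
            omega
          rcases switch hV hx hy hab hcd hac had hbc hbd hlt hlt' with h | h
          · have h1 := c3_step (y := y) ha hb hc hd hab hcd hac hbd
            exact ih _ h (by omega)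
          · have h1 := c3_step (y := y) (c := d) (d := c) ha hb hd hc hab (Ne.symm hcd) had hbc
            have h2 : (ed d c : V → V → ℤ) = ed c d := by
              funext u v
              unfold ed
              simp only [Or.comm]
            rw [h2] at h1
            exact ih _ h (by omega)
        · refine ⟨y, hy, Or.inr (le_of_eq ?_)⟩
          rw [← slk_compl hy.isW hy.reg U]
          unfold slk
          rw [c3_inW hx hy.isW hy.le hB]
      · refine ⟨y, hy, Or.inl (le_of_eq ?_)⟩
        unfold slk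
        rw [c3_inW hx hy.isW hy.le hA]
  obtain ⟨y, hy⟩ := exists_comp hV hx hok
  exact main _ y hy le_rfl

end Pool.Agent.H44T
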