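import Pool.Agent.Lib.H44T.C3

/-!
# Chunk C4 (M): averaging completions

`c = card ι`, `G u v := (∑ i, y i u v) / c` (integer division, i.e. the floor). `G` is a weight, `x ≤ G` (every `y i ≥ x`),
`c * G u v ≤ ∑ i, y i u v < c * (G u v + 1)`. `Ok G r`: `c * dg G u ≤ ∑ i, dg (y i) u = c r`, and
`c * inW G U ≤ ∑ i, inW (y i) U ≤ c r (|U| - 1)`. Take a completion `z` of `G` (`exists_comp`). It is a completion of `x`.
`∑ i, y i u v ≤ c (G u v + 1) ≤ c (z u v + 1)`.
Slack: `dg (z - G) u = r - dg G u ≤ N` (`c (r - dg G u) = ∑ v (∑ i, y i u v - c G u v) ≤ N c`), so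
`inW z U ≤ inW G U + N ^ 2` (`inW (z - G) U ≤ ∑ u, dg (z - G) u`), `N = card V`, and
`c * slk z r U ≥ c * slk G r U - c N ^ 2 ≥ ∑ i, slk (y i) r U - c N ^ 2`.
-/

namespace Pool.Agent.H44T

open Finset Pool.Agent.H44O
open scoped Classical

variable {V : Type*} [Fintype V]

theorem average (hV : Even (Fintype.card V)) {x : V → V → ℤ} {r : ℤ} {ι : Type*}
    [Fintype ι] [Nonempty ι] (y : ι → V → V → ℤ) (hy : ∀ i, Comp x (y i) r) :
    ∃ z, Comp x z r ∧
      (∀ U : Finset V, ∑ i, slk (y i) r U ≤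
        (Fintype.card ι : ℤ) * (slk z r U + (Fintype.card V : ℤ) ^ 2)) ∧
      ∀ u v, ∑ i, y i u v ≤ (Fintype.card ι : ℤ) * (z u v + 1) := by
  obtain ⟨c, hcdef⟩ : ∃ c : ℤ, c = (Fintype.card ι : ℤ) := ⟨_, rfl⟩
  have hc : 0 < c := by
    rw [hcdef]
    exact_mod_cast Fintype.card_pos
  rw [← hcdef]
  obtain ⟨G, hGdef⟩ : ∃ G : V → V → ℤ, G = fun u v => (∑ i, y i u v) / c := ⟨_, rfl⟩
  have hG1 : ∀ u v, c * G u v ≤ ∑ i, y i u v := by
    intro u v
    rw [hGdef]
    exact Int.mul_ediv_self_le hc.ne'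
  have hG2 : ∀ u v, ∑ i, y i u v < c * G u v + c := by
    intro u v
    rw [hGdef]
    exact Int.lt_mul_ediv_self_add hc
  have hsumconst : ∀ a : ℤ, ∑ _i : ι, a = c * a := by
    intro a
    rw [Finset.sum_const, Finset.card_univ, nsmul_eq_mul, hcdef]
  have hxG : ∀ u v, x u v ≤ G u v := by
    intro u v
    rw [hGdef]
    show x u v ≤ (∑ i, y i u v) / c
    rw [Int.le_ediv_iff_mul_le hc, mul_comm, ← hsumconst]
    exact Finset.sum_le_sum fun i _ => (hy i).le u v
  have hGW : IsW G := by
    refine ⟨?_, ?_, ?_⟩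
    · intro u v
      rw [hGdef]
      show (∑ i, y i u v) / c = (∑ i, y i v u) / c
      congr 1
      exact Finset.sum_congr rfl fun i _ => (hy i).isW.symm u v
    · intro v
      rw [hGdef]
      show (∑ i, y i v v) / c = 0
      rw [Finset.sum_eq_zero fun i _ => (hy i).isW.diag v, Int.zero_ediv]
    · intro u v
      rw [hGdef]
      exact Int.ediv_nonneg (Finset.sum_nonneg fun i _ => (hy i).isW.nonneg u v) hc.le
  have hdgG : ∀ u, c * dg G u ≤ c * r := by
    intro u
    have h1 : c * dg G u = ∑ v, c * G u v := by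
      unfold dg
      rw [Finset.mul_sum]
    have h2 : ∑ v, ∑ i, y i u v = c * r := by
      rw [Finset.sum_comm, ← hsumconst]
      exact Finset.sum_congr rfl fun i _ => (hy i).reg u
    rw [h1, ← h2]
    exact Finset.sum_le_sum fun v _ => hG1 u v
  have hinG : ∀ U : Finset V, c * inW G U ≤ ∑ i, inW (y i) U := by
    intro U
    have h1 : ∑ i, inW (y i) U = ∑ u ∈ U, ∑ v ∈ U, ∑ i, y i u v := by
      unfold inW
      rw [Finset.sum_comm]
      exact Finset.sum_congr rfl fun u _ => Finset.sum_comm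
    rw [h1]
    unfold inW
    rw [Finset.mul_sum]
    refine Finset.sum_le_sum fun u _ => ?_
    rw [Finset.mul_sum]
    exact Finset.sum_le_sum fun v _ => hG1 u v
  have hGok : Ok G r := by
    refine ⟨fun u => le_of_mul_le_mul_left (hdgG u) hc, fun U hU => ?_⟩
    refine le_of_mul_le_mul_left ((hinG U).trans ?_) hc
    rw [← hsumconst]
    exact Finset.sum_le_sum fun i _ => (hy i).ok.2 U hU
  obtain ⟨z, hz⟩ := exists_comp hV hGW hGok
  refine ⟨z, ⟨hz.isW, fun u v => (hxG u v).trans (hz.le u v), hz.reg, hz.ok⟩, ?_, ?_⟩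
  · intro U
    have h1 : ∑ i, slk (y i) r U = c * (r * ((U.card : ℤ) - 1)) - ∑ i, inW (y i) U := by
      unfold slk
      rw [Finset.sum_sub_distrib, hsumconst]
    have h2 : inW z U - inW G U = ∑ u ∈ U, ∑ v ∈ U, (z u v - G u v) := by
      unfold inW
      rw [← Finset.sum_sub_distrib]
      exact Finset.sum_congr rfl fun u _ => (Finset.sum_sub_distrib _ _).symm
    have h3 : ∑ u ∈ U, ∑ v ∈ U, (z u v - G u v) ≤ ∑ u, ∑ v, (z u v - G u v) := by
      have hn : ∀ u v, 0 ≤ z u v - G u v := fun u v => sub_nonneg.mpr (hz.le u v)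
      refine (Finset.sum_le_sum fun u _ => Finset.sum_le_sum_of_subset_of_nonneg
        (Finset.subset_univ U) fun v _ _ => hn u v).trans ?_
      exact Finset.sum_le_sum_of_subset_of_nonneg (Finset.subset_univ U)
        fun u _ _ => Finset.sum_nonneg fun v _ => hn u v
    have h4 : ∀ u, ∑ v, (z u v - G u v) ≤ (Fintype.card V : ℤ) := by
      intro u
      have e1 : ∑ v, (z u v - G u v) = r - dg G u := by
        rw [Finset.sum_sub_distrib]
        have := hz.reg u
        unfold dg at this ⊢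
        rw [this]
      rw [e1]
      have e2 : c * (r - dg G u) ≤ c * (Fintype.card V : ℤ) := by
        have e3 : c * r = ∑ v, ∑ i, y i u v := by
          rw [Finset.sum_comm, ← hsumconst]
          exact Finset.sum_congr rfl fun i _ => ((hy i).reg u).symm
        have e4 : c * dg G u = ∑ v, c * G u v := by
          unfold dg
          rw [Finset.mul_sum]
        rw [mul_sub, e3, e4, ← Finset.sum_sub_distrib]
        have e5 : c * (Fintype.card V : ℤ) = ∑ _v : V, c := by
          rw [Finset.sum_const, Finset.card_univ, nsmul_eq_mul, mul_comm]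
        rw [e5]
        refine Finset.sum_le_sum fun v _ => ?_
        have := hG2 u v
        linarith
      exact le_of_mul_le_mul_left e2 hc
    have h5 : ∑ u, ∑ v, (z u v - G u v) ≤ (Fintype.card V : ℤ) ^ 2 := by
      refine (Finset.sum_le_sum fun u _ => h4 u).trans ?_
      rw [Finset.sum_const, Finset.card_univ, nsmul_eq_mul]
      exact le_of_eq (by ring)
    have h6 := hinG U
    have h7 : inW z U ≤ inW G U + (Fintype.card V : ℤ) ^ 2 := by linarith
    have h8 := mul_le_mul_of_nonneg_left h7 hc.le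
    rw [h1]
    unfold slk
    linarith
  · intro u v
    have h1 := hG2 u v
    have h2 := mul_le_mul_of_nonneg_left (hz.le u v) hc.le
    linarith

end Pool.Agent.H44T
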