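import Pool.Agent.Lib.H44T.C4

/-!
# Chunk C5 (S/M): a completion with large slack everywhere

`ι = Finset V`. For `U` odd, `3 ≤ |U| ≤ N - 3`, `y U` from `comp_slack`, so `slk (y U) r U ≥ M (S + N ^ 2)` (both `U` and `Uᶜ` satisfy the
hypothesis; `|Uᶜ|` is odd). For the other `U` any completion. `average` gives `z`; for such `U`:
`M (slk z r U + N ^ 2) ≥ ∑ i, slk (y i) r U ≥ slk (y U) r U ≥ M (S + N ^ 2)` (the other terms are nonnegative, `slk_nonneg`), where
`M = card (Finset V)`.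
-/

namespace Pool.Agent.H44T

open Finset Pool.Agent.H44O
open scoped Classical

variable {V : Type*} [Fintype V]

theorem spread_one (hV : Even (Fintype.card V)) {x : V → V → ℤ} {r : ℤ} (hx : IsW x)
    (hok : Ok x r) {S : ℤ}
    (hS : ∀ U : Finset V, Odd U.card → 3 ≤ U.card → U.card + 3 ≤ Fintype.card V →
      (Fintype.card (Finset V) : ℤ) * (S + (Fintype.card V : ℤ) ^ 2) ≤ slk x r U) :
    ∃ y, Comp x y r ∧ ∀ U : Finset V, Odd U.card → 3 ≤ U.card → U.card + 3 ≤ Fintype.card V →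
      S ≤ slk y r U := by
  set M : ℤ := (Fintype.card (Finset V) : ℤ) with hM
  set B : ℤ := S + (Fintype.card V : ℤ) ^ 2 with hB
  have hex : ∀ U : Finset V, ∃ y, Comp x y r ∧ (Odd U.card → 3 ≤ U.card →
      U.card + 3 ≤ Fintype.card V → M * B ≤ slk y r U) := by
    intro U
    by_cases hU : Odd U.card ∧ 3 ≤ U.card ∧ U.card + 3 ≤ Fintype.card V
    · obtain ⟨h1, h2, h3⟩ := hU
      obtain ⟨y, hy, hor⟩ := comp_slack hV hx hok h1
      refine ⟨y, hy, fun _ _ _ => ?_⟩
      rcases hor with h | h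
      · exact (hS U h1 h2 h3).trans h
      · refine le_trans (hS Uᶜ ?_ ?_ ?_) h
        · rw [card_compl]
          obtain ⟨m, hm⟩ := hV
          obtain ⟨l, hl⟩ := h1
          exact ⟨m - l - 1, by omega⟩
        · rw [card_compl]
          omega
        · rw [card_compl]
          omega
    · obtain ⟨y, hy⟩ := exists_comp hV hx hok
      exact ⟨y, hy, fun h1 h2 h3 => absurd ⟨h1, h2, h3⟩ hU⟩
  choose Y hY hYs using hex
  obtain ⟨z, hz, hzs, _⟩ := average hV Y hY
  refine ⟨z, hz, fun U h1 h2 h3 => ?_⟩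
  have g1 := hzs U
  have g2 : slk (Y U) r U ≤ ∑ i, slk (Y i) r U :=
    single_le_sum (f := fun i => slk (Y i) r U)
      (fun i _ => slk_nonneg (hY i).ok h1) (mem_univ U)
  have g3 := hYs U h1 h2 h3
  have hMpos : 0 < M := by
    rw [hM]
    exact_mod_cast Fintype.card_pos
  have g4 : M * B ≤ M * (slk z r U + (Fintype.card V : ℤ) ^ 2) := by
    refine le_trans g3 (le_trans g2 ?_)
    exact g1
  have g5 := le_of_mul_le_mul_left g4 hMpos
  rw [hB] at g5
  omega

end Pool.Agent.H44T
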