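import Pool.Agent.Lib.H44T.C1

/-!
# Chunk C6 (M): shifts

In both statements the new function `y'` is symmetric with zero diagonal, `y' ≥ x` (only the pairs with a hypothesis
decrease, by `t`), hence nonnegative, and regular of degree `r` (`d13_dg_ed`: the changes cancel at every
vertex). `Ok`: degrees are `r`. For an odd `U`: `|U| = 1`: `inW = 0`. `|U| = N - 1`: `slk y' r U = 0` (`slk_last`). Otherwise
`3 ≤ |U| ≤ N - 3` and `inW y' U ≤ inW y U + 6 t` (`inW_ed`, only the positive terms), so `slk y' r U ≥ 0`.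
-/

namespace Pool.Agent.H44T

open Finset Pool.Agent.H44O
open scoped Classical

variable {V : Type*} [Fintype V]

theorem c6_ed_nonneg (p q u v : V) : 0 ≤ ed p q u v := by
  unfold ed
  split_ifs <;> norm_num

theorem c6_ed_symm (p q u v : V) : ed p q u v = ed p q v u := by
  unfold ed
  apply if_congr _ rfl rfl
  tauto

theorem c6_ed_diag {p q : V} (hpq : p ≠ q) (v : V) : ed p q v v = 0 := by
  unfold ed
  rw [if_neg]
  rintro (⟨h, h'⟩ | ⟨h, h'⟩)
  · exact hpq (h.symm.trans h')
  · exact hpq (h'.symm.trans h)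

/-- value of `ed`, and consequences -/
theorem c6_ed_cases (p q u v : V) : ed p q u v = 0 ∨
    (ed p q u v = 1 ∧ ((u = p ∧ v = q) ∨ (u = q ∧ v = p))) := by
  by_cases h : (u = p ∧ v = q) ∨ (u = q ∧ v = p)
  · exact Or.inr ⟨if_pos h, h⟩
  · exact Or.inl (if_neg h)

theorem c6_add {y F : V → V → ℤ} (t : ℕ) (u v : V) : (y + t • F) u v = y u v + t * F u v := by
  simp

theorem c6_inW (y F : V → V → ℤ) (t : ℕ) (U : Finset V) :
    inW (y + t • F) U = inW y U + t * inW F U := by
  rw [inW_add]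
  congr 1
  unfold inW
  rw [mul_sum]
  refine sum_congr rfl fun u _ => ?_
  rw [mul_sum]
  refine sum_congr rfl fun v _ => ?_
  simp

theorem c6_main (hV : Even (Fintype.card V)) {x y F : V → V → ℤ} {r : ℤ} (hx : IsW x)
    (hc : Comp x y r) {t : ℕ}
    (hS : ∀ U : Finset V, Odd U.card → 3 ≤ U.card → U.card + 3 ≤ Fintype.card V →
      6 * (t : ℤ) ≤ slk y r U) (hFs : ∀ u v, F u v = F v u) (hFd : ∀ v, F v v = 0)
    (hF0 : ∀ u, dg F u = 0) (hFi : ∀ U, inW F U ≤ 6)
    (hle : ∀ u v, x u v ≤ y u v + t * F u v) : Comp x (y + t • F) r := by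
  have hle' : ∀ u v, x u v ≤ (y + t • F) u v := by
    intro u v
    rw [c6_add]
    exact hle u v
  have hw : IsW (y + t • F) := by
    refine ⟨?_, ?_, ?_⟩
    · intro u v
      rw [c6_add, c6_add, hc.isW.symm u v, hFs u v]
    · intro v
      rw [c6_add, hc.isW.diag, hFd, mul_zero, add_zero]
    · intro u v
      exact (hx.nonneg u v).trans (hle' u v)
  have hreg : ∀ u, dg (y + t • F) u = r := by
    intro u
    rw [dg_add, dg_nsmul, hF0, mul_zero, add_zero, hc.reg]
  refine ⟨hw, hle', hreg, fun u => (hreg u).le, fun U hU => ?_⟩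
  have h1 : 0 ≤ slk (y + t • F) r U := by
    have hcle : U.card ≤ Fintype.card V := card_le_univ U
    by_cases h3 : 3 ≤ U.card
    · by_cases h4 : U.card + 3 ≤ Fintype.card V
      · have g1 := hS U hU h3 h4
        unfold slk at g1 ⊢
        rw [c6_inW]
        have g2 := hFi U
        have g3 : (t : ℤ) * inW F U ≤ t * 6 := mul_le_mul_of_nonneg_left g2 (by positivity)
        omega
      · obtain ⟨m, hm⟩ := hV
        obtain ⟨l, hl⟩ := hU
        have g1 : Uᶜ.card = 1 := by
          rw [card_compl]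
          omega
        obtain ⟨a, ha⟩ := card_eq_one.1 g1
        have g2 : U = ({a} : Finset V)ᶜ := by
          rw [← ha, compl_compl]
        rw [g2]
        exact (slk_last hw hreg a).ge
    · obtain ⟨l, hl⟩ := hU
      have g1 : U.card = 1 := by omega
      obtain ⟨a, ha⟩ := card_eq_one.1 g1
      unfold slk
      rw [g1, ha]
      unfold inW
      rw [sum_singleton, sum_singleton, hw.diag]
      simp
  unfold slk at h1
  omega

theorem shift_one (hV : Even (Fintype.card V)) {x y : V → V → ℤ} {r : ℤ} (hx : IsW x)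
    (hc : Comp x y r) {t : ℕ}
    (hS : ∀ U : Finset V, Odd U.card → 3 ≤ U.card → U.card + 3 ≤ Fintype.card V →
      6 * (t : ℤ) ≤ slk y r U) {u v a b : V} (huv : u ≠ v) (hua : u ≠ a) (hub : u ≠ b)
    (hva : v ≠ a) (hvb : v ≠ b) (hab : a ≠ b) (h1 : x u a + t ≤ y u a) (h2 : x v b + t ≤ y v b) :
    Comp x (y + t • (ed u v + ed a b - ed u a - ed v b)) r := by
  refine c6_main hV hx hc hS ?_ ?_ ?_ ?_ ?_
  · intro w z
    simp only [Pi.add_apply, Pi.sub_apply]
    rw [c6_ed_symm u v, c6_ed_symm a b, c6_ed_symm u a, c6_ed_symm v b]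
  · intro w
    simp only [Pi.add_apply, Pi.sub_apply]
    rw [c6_ed_diag huv, c6_ed_diag hab, c6_ed_diag hua, c6_ed_diag hvb]
    ring
  · intro w
    rw [dg_sub, dg_sub, dg_add, d13_dg_ed huv, d13_dg_ed hab, d13_dg_ed hua, d13_dg_ed hvb]
    ring
  · intro U
    rw [inW_sub, inW_sub, inW_add, inW_ed huv, inW_ed hab, inW_ed hua, inW_ed hvb]
    split_ifs <;> norm_num
  · intro w z
    simp only [Pi.add_apply, Pi.sub_apply]
    have e1 := c6_ed_nonneg u v w z
    have e2 := c6_ed_nonneg a b w z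
    have h0 := hc.le w z
    have ht : (0 : ℤ) ≤ t := by positivity
    have key : (ed u a w z = 0 ∧ ed v b w z = 0) ∨
        (ed u a w z = 1 ∧ ed v b w z = 0 ∧ x w z + t ≤ y w z) ∨
        (ed u a w z = 0 ∧ ed v b w z = 1 ∧ x w z + t ≤ y w z) := by
      rcases c6_ed_cases u a w z with g1 | ⟨g1, g2⟩ <;>
        rcases c6_ed_cases v b w z with g3 | ⟨g3, g4⟩
      · exact Or.inl ⟨g1, g3⟩
      · refine Or.inr (Or.inr ⟨g1, g3, ?_⟩)
        rcases g4 with ⟨k1, k2⟩ | ⟨k1, k2⟩
        · rw [k1, k2]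
          exact h2
        · rw [k1, k2, hx.symm, hc.isW.symm]
          exact h2
      · refine Or.inr (Or.inl ⟨g1, g3, ?_⟩)
        rcases g2 with ⟨k1, k2⟩ | ⟨k1, k2⟩
        · rw [k1, k2]
          exact h1
        · rw [k1, k2, hx.symm, hc.isW.symm]
          exact h1
      · exfalso
        rcases g2 with ⟨k1, k2⟩ | ⟨k1, k2⟩ <;> rcases g4 with ⟨k3, k4⟩ | ⟨k3, k4⟩
        · exact huv (k1.symm.trans k3)
        · exact hub (k1.symm.trans k3)
        · exact hva (k3.symm.trans k1)
        · exact hab (k1.symm.trans k3)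
    have h5 : (0 : ℤ) ≤ t * (ed u v w z + ed a b w z) := mul_nonneg ht (by omega)
    have h6 : (t : ℤ) * (ed u v w z + ed a b w z - ed u a w z - ed v b w z) =
        t * (ed u v w z + ed a b w z) - t * (ed u a w z) - t * (ed v b w z) := by ring
    rw [h6]
    rcases key with ⟨k1, k2⟩ | ⟨k1, k2, k3⟩ | ⟨k1, k2, k3⟩ <;> rw [k1, k2] <;> omega

theorem shift_two (hV : Even (Fintype.card V)) {x y : V → V → ℤ} {r : ℤ} (hx : IsW x)
    (hc : Comp x y r) {t : ℕ}
    (hS : ∀ U : Finset V, Odd U.card → 3 ≤ U.card → U.card + 3 ≤ Fintype.card V →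
      6 * (t : ℤ) ≤ slk y r U) {u v a c d : V} (huv : u ≠ v) (hua : u ≠ a) (huc : u ≠ c)
    (hud : u ≠ d) (hva : v ≠ a) (hvc : v ≠ c) (hvd : v ≠ d) (hac : a ≠ c) (had : a ≠ d)
    (hcd : c ≠ d) (h1 : x u a + t ≤ y u a) (h2 : x v a + t ≤ y v a) (h3 : x c d + t ≤ y c d) :
    Comp x (y + t • (ed u v + ed a c + ed a d - ed u a - ed v a - ed c d)) r := by
  refine c6_main hV hx hc hS ?_ ?_ ?_ ?_ ?_
  · intro w z
    simp only [Pi.add_apply, Pi.sub_apply]
    rw [c6_ed_symm u v, c6_ed_symm a c, c6_ed_symm a d, c6_ed_symm u a, c6_ed_symm v a,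
      c6_ed_symm c d]
  · intro w
    simp only [Pi.add_apply, Pi.sub_apply]
    rw [c6_ed_diag huv, c6_ed_diag hac, c6_ed_diag had, c6_ed_diag hua, c6_ed_diag hva,
      c6_ed_diag hcd]
    ring
  · intro w
    rw [dg_sub, dg_sub, dg_sub, dg_add, dg_add, d13_dg_ed huv, d13_dg_ed hac, d13_dg_ed had,
      d13_dg_ed hua, d13_dg_ed hva, d13_dg_ed hcd]
    ring
  · intro U
    rw [inW_sub, inW_sub, inW_sub, inW_add, inW_add, inW_ed huv, inW_ed hac, inW_ed had,
      inW_ed hua, inW_ed hva, inW_ed hcd]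
    split_ifs <;> norm_num
  · intro w z
    simp only [Pi.add_apply, Pi.sub_apply]
    have e1 := c6_ed_nonneg u v w z
    have e2 := c6_ed_nonneg a c w z
    have e3 := c6_ed_nonneg a d w z
    have h0 := hc.le w z
    have ht : (0 : ℤ) ≤ t := by positivity
    have key : (ed u a w z = 0 ∧ ed v a w z = 0 ∧ ed c d w z = 0) ∨
        (ed u a w z + ed v a w z + ed c d w z = 1 ∧ x w z + t ≤ y w z) := by
      rcases c6_ed_cases u a w z with g1 | ⟨g1, g2⟩
      · rcases c6_ed_cases v a w z with g3 | ⟨g3, g4⟩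
        · rcases c6_ed_cases c d w z with g5 | ⟨g5, g6⟩
          · exact Or.inl ⟨g1, g3, g5⟩
          · refine Or.inr ⟨by omega, ?_⟩
            rcases g6 with ⟨k1, k2⟩ | ⟨k1, k2⟩
            · rw [k1, k2]
              exact h3
            · rw [k1, k2, hx.symm, hc.isW.symm]
              exact h3
        · rcases c6_ed_cases c d w z with g5 | ⟨g5, g6⟩
          · refine Or.inr ⟨by omega, ?_⟩
            rcases g4 with ⟨k1, k2⟩ | ⟨k1, k2⟩
            · rw [k1, k2]
              exact h2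
            · rw [k1, k2, hx.symm, hc.isW.symm]
              exact h2
          · exfalso
            rcases g4 with ⟨k1, k2⟩ | ⟨k1, k2⟩ <;> rcases g6 with ⟨k3, k4⟩ | ⟨k3, k4⟩
            · exact hvc (k1.symm.trans k3)
            · exact hvd (k1.symm.trans k3)
            · exact hac (k1.symm.trans k3)
            · exact had (k1.symm.trans k3)
      · have g3 : ed v a w z = 0 := by
          rcases c6_ed_cases v a w z with g3 | ⟨g3, g4⟩
          · exact g3
          · exfalso
            rcases g2 with ⟨k1, k2⟩ | ⟨k1, k2⟩ <;> rcases g4 with ⟨k3, k4⟩ | ⟨k3, k4⟩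
            · exact huv (k1.symm.trans k3)
            · exact hua (k1.symm.trans k3)
            · exact hva (k3.symm.trans k1)
            · exact huv (k2.symm.trans k4)
        have g5 : ed c d w z = 0 := by
          rcases c6_ed_cases c d w z with g5 | ⟨g5, g6⟩
          · exact g5
          · exfalso
            rcases g2 with ⟨k1, k2⟩ | ⟨k1, k2⟩ <;> rcases g6 with ⟨k3, k4⟩ | ⟨k3, k4⟩
            · exact huc (k1.symm.trans k3)
            · exact hud (k1.symm.trans k3)
            · exact hac (k1.symm.trans k3)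
            · exact had (k1.symm.trans k3)
        refine Or.inr ⟨by omega, ?_⟩
        rcases g2 with ⟨k1, k2⟩ | ⟨k1, k2⟩
        · rw [k1, k2]
          exact h1
        · rw [k1, k2, hx.symm, hc.isW.symm]
          exact h1
    have h5 : (0 : ℤ) ≤ t * (ed u v w z + ed a c w z + ed a d w z) := mul_nonneg ht (by omega)
    have h6 : (t : ℤ) * (ed u v w z + ed a c w z + ed a d w z - ed u a w z - ed v a w z -
        ed c d w z) =
        t * (ed u v w z + ed a c w z + ed a d w z) -
          t * (ed u a w z + ed v a w z + ed c d w z) := by ring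
    rw [h6]
    rcases key with ⟨k1, k2, k3⟩ | ⟨k1, k3⟩
    · rw [k1, k2, k3]
      omega
    · rw [k1]
      omega

end Pool.Agent.H44T
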