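import Pool.Agent.Lib.H44T.C6

/-!
# Chunk C7 (M): a completion in which a given deficient pair is heavy

`z = y - x ≥ 0`, `dg z u = r - dg x u ≥ KD`, the same for `v`. If `z u v ≥ t` take `y' = y` (`x ≥ 0`). Otherwise
`∑ a ≠ u, v, z u a ≥ KD - t ≥ N t`, so some `a ≠ u, v` has `z u a ≥ t` (pigeonhole; if `t = 0` take `y' = y` as well),
and some `b ≠ u, v` has `z v b ≥ t`. If these can be chosen different: `shift_one`, and the new
value at `u v` is at least `t`. If not, there is a single `a` with `z u a ≥ t`, `z v a ≥ t`, and `z u a', z v a' < t` for all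
`a' ≠ a` (`a' ≠ u, v` and also `z u v < t`). Now `inW z {a}ᶜ = inW y {a}ᶜ - inW x {a}ᶜ = slk x r {a}ᶜ - slk y r {a}ᶜ = slk x r {a}ᶜ ≥ N ^ 2 t`
(`slk_last`), so there are `c, d ≠ a` with `z c d ≥ t` (and `c ≠ d` since `t > 0`). Neither is `u` or `v`. `shift_two`.
-/

namespace Pool.Agent.H44T

open Finset Pool.Agent.H44O
open scoped Classical

variable {V : Type*} [Fintype V]

theorem heavy_pair (hV : Even (Fintype.card V)) {x y : V → V → ℤ} {r : ℤ} (hx : IsW x)
    (hc : Comp x y r) {t KD : ℕ}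
    (hS : ∀ U : Finset V, Odd U.card → 3 ≤ U.card → U.card + 3 ≤ Fintype.card V →
      6 * (t : ℤ) ≤ slk y r U)
    (hS1 : ∀ a, (Fintype.card V : ℤ) ^ 2 * t ≤ slk x r ({a} : Finset V)ᶜ)
    (hKD : (Fintype.card V + 1) * t ≤ KD) {u v : V} (huv : u ≠ v) (hu : dg x u + KD ≤ r)
    (hv : dg x v + KD ≤ r) : ∃ y', Comp x y' r ∧ (t : ℤ) ≤ y' u v := by
  by_cases huv0 : (t : ℤ) ≤ y u v
  · exact ⟨y, hc, huv0⟩
  push Not at huv0
  have hy0 : 0 ≤ y u v := hc.isW.nonneg u v
  have ht : (0 : ℤ) < t := by omega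
  have hN : (1 : ℤ) ≤ Fintype.card V := by
    exact_mod_cast Fintype.card_pos_iff.2 ⟨u⟩
  -- pigeonhole for one vertex
  have hpig : ∀ w : V, dg x w + KD ≤ r → ∃ a, x w a + t ≤ y w a := by
    intro w hw
    by_contra hcon
    push Not at hcon
    have h1 : dg y w - dg x w ≤ Fintype.card V * (t : ℤ) := by
      unfold dg
      rw [← sum_sub_distrib]
      calc ∑ v, (y w v - x w v) ≤ ∑ _v : V, (t : ℤ) :=
            sum_le_sum fun v _ => by
              have := hcon v
              omega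
        _ = Fintype.card V * (t : ℤ) := by
            rw [sum_const, card_univ, nsmul_eq_mul]
    rw [hc.reg] at h1
    have h2 : ((Fintype.card V : ℤ) + 1) * t ≤ KD := by exact_mod_cast hKD
    nlinarith
  have hself : ∀ w a, x w a + t ≤ y w a → w ≠ a := by
    intro w a h1 h2
    subst h2
    rw [hx.diag, hc.isW.diag] at h1
    omega
  have hxn : ∀ w z, 0 ≤ x w z := hx.nonneg
  have nuv : ¬ (x u v + t ≤ y u v) := by
    have := hxn u v
    omega
  have nvu : ¬ (x v u + t ≤ y v u) := by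
    rw [hx.symm v u, hc.isW.symm v u]
    exact nuv
  by_cases hdiff : ∃ a b, x u a + t ≤ y u a ∧ x v b + t ≤ y v b ∧ a ≠ b
  · obtain ⟨a, b, h1, h2, hab⟩ := hdiff
    have hua := hself u a h1
    have hvb := hself v b h2
    have hva : v ≠ a := fun h => nuv (by rw [h]; exact h1)
    have hub : u ≠ b := fun h => nvu (by rw [h]; exact h2)
    refine ⟨_, shift_one hV hx hc hS huv hua hub hva hvb hab h1 h2, ?_⟩
    rw [c6_add]
    simp only [Pi.add_apply, Pi.sub_apply]
    have e1 : ed u v u v = 1 := if_pos (Or.inl ⟨rfl, rfl⟩)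
    have e2 : 0 ≤ ed a b u v := c6_ed_nonneg _ _ _ _
    have e3 : ed u a u v = 0 := by
      unfold ed
      rw [if_neg]
      rintro (⟨_, g⟩ | ⟨g, _⟩)
      · exact hva g
      · exact hua g
    have e4 : ed v b u v = 0 := by
      unfold ed
      rw [if_neg]
      rintro (⟨g, _⟩ | ⟨g, _⟩)
      · exact huv g
      · exact hub g
    rw [e1, e3, e4]
    have e5 : (0 : ℤ) ≤ t * ed a b u v := mul_nonneg ht.le e2
    have e6 : (t : ℤ) * (1 + ed a b u v - 0 - 0) = t + t * ed a b u v := by ring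
    rw [e6]
    omega
  · push Not at hdiff
    obtain ⟨a, h1⟩ := hpig u hu
    obtain ⟨b, h2⟩ := hpig v hv
    have hab := hdiff a b h1 h2
    subst hab
    have hua := hself u a h1
    have hva := hself v a h2
    -- a heavy pair in the complement of `a`
    have hz : (Fintype.card V : ℤ) ^ 2 * t ≤ inW y ({a} : Finset V)ᶜ - inW x ({a} : Finset V)ᶜ := by
      have g1 := hS1 a
      have g2 := slk_last hc.isW hc.reg a
      unfold slk at g1 g2
      omega
    obtain ⟨c, hc1, d, hd1, h3⟩ : ∃ c ∈ ({a} : Finset V)ᶜ, ∃ d ∈ ({a} : Finset V)ᶜ,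
        x c d + t ≤ y c d := by
      by_contra hcon
      push Not at hcon
      have g1 : inW y ({a} : Finset V)ᶜ - inW x ({a} : Finset V)ᶜ ≤
          ∑ _c ∈ ({a} : Finset V)ᶜ, ∑ _d ∈ ({a} : Finset V)ᶜ, ((t : ℤ) - 1) := by
        unfold inW
        rw [← sum_sub_distrib]
        refine sum_le_sum fun c hc1 => ?_
        rw [← sum_sub_distrib]
        refine sum_le_sum fun d hd1 => ?_
        have := hcon c hc1 d hd1
        omega
      rw [sum_const, sum_const, nsmul_eq_mul, nsmul_eq_mul] at g1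
      have g2 : ((({a} : Finset V)ᶜ.card : ℕ) : ℤ) ≤ Fintype.card V := by
        exact_mod_cast card_le_univ _
      have g3 : (0 : ℤ) ≤ ((({a} : Finset V)ᶜ.card : ℕ) : ℤ) := by positivity
      set M : ℤ := ((({a} : Finset V)ᶜ.card : ℕ) : ℤ) with hM
      have g4 : M * (M * ((t : ℤ) - 1)) ≤ (Fintype.card V : ℤ) ^ 2 * ((t : ℤ) - 1) := by
        have h5 : M * M ≤ (Fintype.card V : ℤ) ^ 2 := by nlinarith
        have h6 : (0 : ℤ) ≤ (t : ℤ) - 1 := by omega
        have h7 := mul_le_mul_of_nonneg_right h5 h6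
        calc M * (M * ((t : ℤ) - 1)) = M * M * ((t : ℤ) - 1) := by ring
          _ ≤ _ := h7
      have g5 : (0 : ℤ) < (Fintype.card V : ℤ) ^ 2 := by positivity
      nlinarith
    have hca : c ≠ a := by simpa using hc1
    have hda : d ≠ a := by simpa using hd1
    have hcd := hself c d h3
    have h3' : x d c + t ≤ y d c := by
      rw [hx.symm d c, hc.isW.symm d c]
      exact h3
    have huc : u ≠ c := by
      intro h
      subst h
      exact hda (hdiff d a h3 h2)
    have hud : u ≠ d := by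
      intro h
      subst h
      exact hca (hdiff c a h3' h2)
    have hvc : v ≠ c := by
      intro h
      subst h
      exact hda (hdiff a d h1 h3).symm
    have hvd : v ≠ d := by
      intro h
      subst h
      exact hca (hdiff a c h1 h3').symm
    refine ⟨_, shift_two hV hx hc hS huv hua huc hud hva hvc hvd hca.symm hda.symm hcd h1 h2 h3, ?_⟩
    rw [c6_add]
    simp only [Pi.add_apply, Pi.sub_apply]
    have e1 : ed u v u v = 1 := if_pos (Or.inl ⟨rfl, rfl⟩)
    have e2 : 0 ≤ ed a c u v := c6_ed_nonneg _ _ _ _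
    have e2' : 0 ≤ ed a d u v := c6_ed_nonneg _ _ _ _
    have e3 : ed u a u v = 0 := by
      unfold ed
      rw [if_neg]
      rintro (⟨_, g⟩ | ⟨g, _⟩)
      · exact hva g
      · exact hua g
    have e4 : ed v a u v = 0 := by
      unfold ed
      rw [if_neg]
      rintro (⟨g, _⟩ | ⟨g, _⟩)
      · exact huv g
      · exact hua g
    have e5 : ed c d u v = 0 := by
      unfold ed
      rw [if_neg]
      rintro (⟨g, _⟩ | ⟨g, _⟩)
      · exact huc g
      · exact hud g
    rw [e1, e3, e4, e5]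
    have e6 : (0 : ℤ) ≤ t * (ed a c u v + ed a d u v) := mul_nonneg ht.le (by omega)
    have e7 : (t : ℤ) * (1 + ed a c u v + ed a d u v - 0 - 0 - 0) =
        t + t * (ed a c u v + ed a d u v) := by ring
    rw [e7]
    omega

end Pool.Agent.H44T
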