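import Pool.Agent.Lib.H44T.C5
import Pool.Agent.Lib.H44T.C7

/-!
# Chunk C8 (M): the final completion

`N = card V`, `M = 1 + N ^ 2`, `t' := M (t + 1)`, `S' := max (M (S + N ^ 2)) (6 t')`, `KD := (N + 1) t'`,
`LI := card (Finset V) * (S' + N ^ 2) + N ^ 2 * t'`. Let `x` be given. `y0` from `spread_one` with `S'`. For `u ≠ v` with both
deficiencies at least `KD` take `y (u, v)` from `heavy_pair` (`hS1`: `{a}ᶜ` is odd with `N - 1 ≥ 3` elements, so its slack is at least
`LI`; here `N ≥ 4`), otherwise `y (u, v) := y0`. `average` for `ι = Option (V × V)` (`none ↦ y0`), `card ι = M`.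
Slack: `M (slk z r U + N ^ 2) ≥ slk y0 r U ≥ M (S + N ^ 2)`; pairs: `M (z u v + 1) ≥ y (u, v) u v ≥ t' = M (t + 1)` (all other terms are
nonnegative).
-/

namespace Pool.Agent.H44T

open Finset Pool.Agent.H44O
open scoped Classical

variable {V : Type*} [Fintype V]

theorem spread_two (hV : Even (Fintype.card V)) (h4 : 4 ≤ Fintype.card V) (S t : ℕ) :
    ∃ LI KD : ℕ, ∀ (x : V → V → ℤ) (r : ℤ), IsW x → Ok x r →
      (∀ U : Finset V, Odd U.card → 3 ≤ U.card → (LI : ℤ) ≤ slk x r U) →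
      ∃ y, Comp x y r ∧
        (∀ U : Finset V, Odd U.card → 3 ≤ U.card → U.card + 3 ≤ Fintype.card V →
          (S : ℤ) ≤ slk y r U) ∧
        ∀ u v, u ≠ v → dg x u + KD ≤ r → dg x v + KD ≤ r → (t : ℤ) ≤ y u v := by
  set N : ℕ := Fintype.card V with hN
  set M : ℕ := 1 + N ^ 2 with hM
  set t' : ℕ := M * (t + 1) with ht'
  set S' : ℕ := max (M * (S + N ^ 2)) (6 * t') with hS'
  have hS1 : M * (S + N ^ 2) ≤ S' := le_max_left _ _
  have hS2 : 6 * t' ≤ S' := le_max_right _ _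
  refine ⟨Fintype.card (Finset V) * (S' + N ^ 2) + N ^ 2 * t', (N + 1) * t', ?_⟩
  intro x r hx hok hLI
  have hLI1 : ∀ U : Finset V, Odd U.card → 3 ≤ U.card → U.card + 3 ≤ Fintype.card V →
      (Fintype.card (Finset V) : ℤ) * ((S' : ℤ) + (Fintype.card V : ℤ) ^ 2) ≤ slk x r U := by
    intro U h1 h2 _
    refine le_trans ?_ (hLI U h1 h2)
    push_cast
    have : (0 : ℤ) ≤ (N : ℤ) ^ 2 * (t' : ℤ) := by positivity
    rw [← hN]
    linarith
  obtain ⟨y0, hc0, hy0⟩ := spread_one hV hx hok hLI1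
  have hS6 : ∀ U : Finset V, Odd U.card → 3 ≤ U.card → U.card + 3 ≤ Fintype.card V →
      6 * (t' : ℤ) ≤ slk y0 r U := by
    intro U h1 h2 h3
    refine le_trans ?_ (hy0 U h1 h2 h3)
    exact_mod_cast hS2
  have hS1' : ∀ a, (Fintype.card V : ℤ) ^ 2 * t' ≤ slk x r ({a} : Finset V)ᶜ := by
    intro a
    have hcard : (({a} : Finset V)ᶜ).card = N - 1 := by
      rw [Finset.card_compl, Finset.card_singleton]
    have hodd : Odd (({a} : Finset V)ᶜ).card := by
      rw [hcard]
      obtain ⟨k, hk⟩ := hV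
      exact ⟨k - 1, by omega⟩
    have h3 : 3 ≤ (({a} : Finset V)ᶜ).card := by rw [hcard]; omega
    refine le_trans ?_ (hLI _ hodd h3)
    push_cast
    have : (0 : ℤ) ≤ (Fintype.card (Finset V) : ℤ) * ((S' : ℤ) + (N : ℤ) ^ 2) := by positivity
    rw [← hN]
    linarith
  have hpair : ∀ q : V × V, ∃ y, Comp x y r ∧ (q.1 ≠ q.2 → dg x q.1 + ((N + 1) * t' : ℕ) ≤ r →
      dg x q.2 + ((N + 1) * t' : ℕ) ≤ r → (t' : ℤ) ≤ y q.1 q.2) := by
    intro q
    by_cases h : q.1 ≠ q.2 ∧ dg x q.1 + ((N + 1) * t' : ℕ) ≤ r ∧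
        dg x q.2 + ((N + 1) * t' : ℕ) ≤ r
    · obtain ⟨y', h1, h2⟩ := heavy_pair hV hx hc0 (t := t') (KD := (N + 1) * t') hS6 hS1'
        (by rw [← hN]) h.1 h.2.1 h.2.2
      exact ⟨y', h1, fun _ _ _ => h2⟩
    · exact ⟨y0, hc0, fun h1 h2 h3 => absurd ⟨h1, h2, h3⟩ h⟩
  choose yp hyp1 hyp2 using hpair
  obtain ⟨z, hz, hz1, hz2⟩ := average hV (ι := Option (V × V))
    (fun i => i.elim y0 yp) (by
      intro i
      cases i with
      | none => exact hc0
      | some q => exact hyp1 q)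
  have hcard : (Fintype.card (Option (V × V)) : ℤ) = (M : ℤ) := by
    rw [Fintype.card_option, Fintype.card_prod, ← hN, hM]
    push_cast
    ring
  have hMpos : (0 : ℤ) < (M : ℤ) := by
    rw [hM]; positivity
  refine ⟨z, hz, ?_, ?_⟩
  · intro U h1 h2 h3
    have h4 := hz1 U
    rw [hcard] at h4
    have h5 : slk y0 r U ≤ ∑ i : Option (V × V), slk (i.elim y0 yp) r U := by
      have h6 := Finset.single_le_sum (f := fun i : Option (V × V) => slk (i.elim y0 yp) r U)
        (s := Finset.univ) (fun i _ => by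
          cases i with
          | none => exact slk_nonneg hc0.ok h1
          | some q => exact slk_nonneg (hyp1 q).ok h1) (Finset.mem_univ none)
      exact h6
    have h7 : (M : ℤ) * ((S : ℤ) + (N : ℤ) ^ 2) ≤ slk y0 r U := by
      refine le_trans ?_ (hy0 U h1 h2 h3)
      exact_mod_cast hS1
    have h8 : (M : ℤ) * ((S : ℤ) + (N : ℤ) ^ 2) ≤ (M : ℤ) * (slk z r U + (N : ℤ) ^ 2) :=
      h7.trans (h5.trans h4)
    have h9 := le_of_mul_le_mul_left h8 hMpos
    linarith
  · intro u v huv hu hv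
    have h4 := hz2 u v
    rw [hcard] at h4
    have h5 : yp (u, v) u v ≤ ∑ i : Option (V × V), (i.elim y0 yp) u v := by
      have h6 := Finset.single_le_sum (f := fun i : Option (V × V) => (i.elim y0 yp) u v)
        (s := Finset.univ) (fun i _ => by
          cases i with
          | none => exact hc0.isW.nonneg u v
          | some q => exact (hyp1 q).isW.nonneg u v) (Finset.mem_univ (some (u, v)))
      exact h6
    have h7 : (t' : ℤ) ≤ yp (u, v) u v := hyp2 (u, v) huv (by exact_mod_cast hu)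
      (by exact_mod_cast hv)
    have h8 : (M : ℤ) * ((t : ℤ) + 1) ≤ (M : ℤ) * (z u v + 1) := by
      refine le_trans ?_ (h7.trans (h5.trans h4))
      rw [ht']
      push_cast
      exact le_rfl
    have h9 := le_of_mul_le_mul_left h8 hMpos
    linarith

end Pool.Agent.H44T
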