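import Pool.Agent.Lib.H44T.C1

/-!
# Chunk D1 (M): at least three deficient vertices; heavy degrees

* `slk_last_def`: `slk x r {a}ᶜ = ∑ v ∈ {a}ᶜ, (r - dg x v) - (r - dg x a)`: `sum_dg` for `{a}ᶜ`, `cutW_compl`,
  `cutW_singleton`, and `|{a}ᶜ| = N - 1`.
* `three_def`: suppose the set `D` of vertices with deficiency `r - dg x v ≥ KD` has at most two elements. Let `a` have the
  largest deficiency. If `D` has an element then `a ∈ D`, and the other elements (at most one, `b`) have deficiency at
  most that of `a`; the vertices outside `D` have deficiency less than `KD`. So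
  `slk x r {a}ᶜ ≤ (r - dg x b) + N KD - (r - dg x a) ≤ N KD`: contradiction. If `D` is empty: `slk x r {a}ᶜ ≤ N KD` too
  (deficiencies are nonnegative).
* `heavy_nb`: `r = dg y v = ∑ u, y v u`; neighbours in the heavy graph contribute at most `μ + KD` each, all the others less
  than `K`: `r ≤ nb * (μ + KD) + N K`. If `nb ≤ N / 2` then `2 r ≤ N (μ + KD) + 2 N K < (N + 1) μ`.
-/

namespace Pool.Agent.H44T

open Finset Pool.Agent.H44O
open scoped Classical

variable {V : Type*} [Fintype V]

theorem slk_last_def {x : V → V → ℤ} (hx : IsW x) (r : ℤ) (a : V) :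
    slk x r ({a} : Finset V)ᶜ = ∑ v ∈ ({a} : Finset V)ᶜ, (r - dg x v) - (r - dg x a) := by
  have h1 : cutW x ({a} : Finset V)ᶜ = dg x a := by
    rw [cutW_compl hx, cutW_singleton hx]
  rw [Finset.sum_sub_distrib, sum_dg, h1, Finset.sum_const, nsmul_eq_mul]
  unfold slk
  ring

theorem three_def [Nonempty V] {x : V → V → ℤ} (hx : IsW x) {r : ℤ} (hd : ∀ u, dg x u ≤ r)
    {KD : ℕ} (h : ∀ a, (Fintype.card V : ℤ) * KD < slk x r ({a} : Finset V)ᶜ) :
    3 ≤ (univ.filter (fun v => dg x v + KD ≤ r)).card := by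
  by_contra hcon
  obtain ⟨D, hD⟩ : ∃ D, D = univ.filter (fun v => dg x v + KD ≤ r) := ⟨_, rfl⟩
  rw [← hD] at hcon
  have hmem : ∀ v, v ∈ D ↔ dg x v + KD ≤ r := by
    intro v
    rw [hD, mem_filter]
    exact ⟨fun h => h.2, fun h => ⟨mem_univ v, h⟩⟩
  obtain ⟨a, -, ha⟩ := exists_min_image univ (dg x) univ_nonempty
  have hcard : (D.erase a).card ≤ 1 := by
    by_cases haD : a ∈ D
    · rw [card_erase_of_mem haD]
      omega
    · have h0 : D = ∅ := by
        rw [eq_empty_iff_forall_notMem]
        intro v hv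
        apply haD
        rw [hmem] at hv ⊢
        have := ha v (mem_univ v)
        linarith
      rw [h0, erase_empty, card_empty]
      exact Nat.zero_le _
  rw [card_le_one_iff_subset_singleton] at hcard
  obtain ⟨b, hb⟩ := hcard
  have h1 := h a
  rw [slk_last_def hx] at h1
  have h2 : ∀ v ∈ ({a} : Finset V)ᶜ, r - dg x v ≤ KD + (if v = b then r - dg x b else 0) := by
    intro v hv
    rw [mem_compl, mem_singleton] at hv
    by_cases hvb : v = b
    · rw [if_pos hvb, hvb]
      have : (0 : ℤ) ≤ KD := Int.natCast_nonneg _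
      linarith
    · rw [if_neg hvb, add_zero]
      by_contra hlt
      apply hvb
      have h3 : v ∈ D.erase a := by
        rw [mem_erase, hmem]
        exact ⟨hv, by linarith⟩
      exact mem_singleton.mp (hb h3)
  have h3 := sum_le_sum h2
  have h4 : ∑ v ∈ ({a} : Finset V)ᶜ, (if v = b then r - dg x b else 0) ≤ r - dg x a := by
    rw [sum_ite_eq']
    split_ifs
    · have := ha b (mem_univ b)
      linarith
    · have := hd a
      linarith
  have h5 : (({a} : Finset V)ᶜ.card : ℤ) ≤ Fintype.card V := by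
    exact_mod_cast card_le_univ _
  have h6 : (({a} : Finset V)ᶜ.card : ℤ) * KD ≤ Fintype.card V * KD :=
    mul_le_mul_of_nonneg_right h5 (Int.natCast_nonneg _)
  rw [sum_add_distrib, sum_const, nsmul_eq_mul] at h3
  linarith

theorem heavy_nb {y : V → V → ℤ} (hy : IsW y) {r : ℤ} {K KD μ : ℕ} {v : V} (hr : dg y v = r)
    (hμ : ∀ u, y v u ≤ μ + KD) (hr2 : ((Fintype.card V : ℤ) + 1) * μ ≤ 2 * r)
    (hbig : Fintype.card V * (KD + 2 * K) < μ) :
    Fintype.card V < 2 * nb (heavy y K) v := by
  by_contra hcon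
  push Not at hcon
  have h1 : ∀ u ∈ (univ : Finset V), y v u ≤ (if (heavy y K).Adj v u then ((μ : ℤ) + KD) else 0) + K := by
    intro u _
    by_cases hadj : (heavy y K).Adj v u
    · rw [if_pos hadj]
      have := hμ u
      have h0 : (0 : ℤ) ≤ K := Int.natCast_nonneg _
      linarith
    · rw [if_neg hadj, zero_add]
      by_cases huv : v = u
      · rw [← huv, hy.diag]
        exact Int.natCast_nonneg _
      · by_contra hlt
        push Not at hlt
        apply hadj
        refine ⟨huv, hlt.le, ?_⟩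
        rw [hy.symm]
        exact hlt.le
  have h2 := sum_le_sum h1
  rw [sum_add_distrib, ← sum_filter, sum_const, sum_const, nsmul_eq_mul, nsmul_eq_mul] at h2
  have h3 : ∑ u, y v u = r := hr
  rw [h3, card_univ] at h2
  have h4 : (2 * (univ.filter (fun u => (heavy y K).Adj v u)).card : ℤ) ≤ Fintype.card V := by
    exact_mod_cast hcon
  have h5 : (2 * (univ.filter (fun u => (heavy y K).Adj v u)).card : ℤ) * ((μ : ℤ) + KD) ≤
      Fintype.card V * ((μ : ℤ) + KD) := mul_le_mul_of_nonneg_right h4 (by positivity)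
  have h6 : (Fintype.card V : ℤ) * (KD + 2 * K) < μ := by exact_mod_cast hbig
  nlinarith

end Pool.Agent.H44T
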