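import Pool.Agent.Lib.H44T.TDefs

/-!
# Chunk D2 (M): three disjoint entries

A table `B` such that no two lines (rows or columns) meet all positive entries; then there are three positive entries in
different rows and different columns. (König's theorem for `3`.) Proof: take a positive entry `(a1, b1)`; by `hrc` one
`(a2, b2)` with `a2 ≠ a1`, `b2 ≠ b1`. By `hrr` for `a1, a2` an entry `(c, d)` with `c ∉ {a1, a2}`; if `d ∉ {b1, b2}` done. By symmetry (exchange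
the indices `1, 2`) let `d = b1`. By `hcc` for `b1, b2` an entry `(c', d')` with `d' ∉ {b1, b2}`; if `c' ∉ {a1, a2}` then
`(a1, b1), (a2, b2), (c', d')`. If `c' = a1`: `(c, b1), (a1, d'), (a2, b2)`. If `c' = a2`: by `hrc` for `a2, b1` an entry
`(e, f)` with `e ≠ a2`, `f ≠ b1`:
`e = a1, f = b2`: `(c, b1), (a1, b2), (a2, d')`; `e = a1`, `f ≠ b2`: `(c, b1), (a1, f), (a2, b2)`;
`e ≠ a1`, `f = b2`: `(e, b2), (a1, b1), (a2, d')`; `e ≠ a1`, `f ≠ b2`: `(e, f), (a1, b1), (a2, b2)`.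
-/

namespace Pool.Agent.H44T

open Finset Pool.Agent.H44O
open scoped Classical

theorem d2_aux {A B : Type*} (T : A → B → Prop)
    (hcc : ∀ p q, ∃ a b, T a b ∧ b ≠ p ∧ b ≠ q)
    (hrc : ∀ p q, ∃ a b, T a b ∧ a ≠ p ∧ b ≠ q) {a1 a2 c : A} {b1 b2 : B}
    (h1 : T a1 b1) (h2 : T a2 b2) (ha : a2 ≠ a1) (hb : b2 ≠ b1) (hc : T c b1) (hc1 : c ≠ a1)
    (hc2 : c ≠ a2) :
    ∃ a1 a2 a3 b1 b2 b3, a1 ≠ a2 ∧ a1 ≠ a3 ∧ a2 ≠ a3 ∧ b1 ≠ b2 ∧ b1 ≠ b3 ∧ b2 ≠ b3 ∧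
      T a1 b1 ∧ T a2 b2 ∧ T a3 b3 := by
  obtain ⟨c', d', h3, hd1, hd2⟩ := hcc b1 b2
  by_cases e1 : c' = a1
  · subst e1
    exact ⟨c, c', a2, b1, d', b2, hc1, hc2, ha.symm, hd1.symm, hb.symm, hd2, hc, h3, h2⟩
  by_cases e2 : c' = a2
  · subst e2
    obtain ⟨e, f, h4, he, hf⟩ := hrc c' b1
    by_cases e3 : e = a1
    · subst e3
      by_cases e4 : f = b2
      · subst e4
        exact ⟨c, e, c', b1, f, d', hc1, hc2, ha.symm, hf.symm, hd1.symm, hd2.symm, hc, h4, h3⟩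
      · exact ⟨c, e, c', b1, f, b2, hc1, hc2, ha.symm, hf.symm, hb.symm, e4, hc, h4, h2⟩
    · by_cases e4 : f = b2
      · subst e4
        exact ⟨e, a1, c', f, b1, d', e3, he, ha.symm, hf, hd2.symm, hd1.symm, h4, h1, h3⟩
      · exact ⟨e, a1, c', f, b1, b2, e3, he, ha.symm, hf, e4, hb.symm, h4, h1, h2⟩
  · exact ⟨a1, a2, c', b1, b2, d', ha.symm, fun h => e1 h.symm, fun h => e2 h.symm, hb.symm,
      hd1.symm, hd2.symm, h1, h2, h3⟩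

theorem konig_three {A B : Type*} (T : A → B → Prop) (h0 : ∃ a b, T a b)
    (hrr : ∀ p q, ∃ a b, T a b ∧ a ≠ p ∧ a ≠ q) (hcc : ∀ p q, ∃ a b, T a b ∧ b ≠ p ∧ b ≠ q)
    (hrc : ∀ p q, ∃ a b, T a b ∧ a ≠ p ∧ b ≠ q) :
    ∃ a1 a2 a3 b1 b2 b3, a1 ≠ a2 ∧ a1 ≠ a3 ∧ a2 ≠ a3 ∧ b1 ≠ b2 ∧ b1 ≠ b3 ∧ b2 ≠ b3 ∧
      T a1 b1 ∧ T a2 b2 ∧ T a3 b3 := by
  obtain ⟨a1, b1, h1⟩ := h0
  obtain ⟨a2, b2, h2, ha, hb⟩ := hrc a1 b1
  obtain ⟨c, d, h3, hc1, hc2⟩ := hrr a1 a2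
  by_cases e1 : d = b1
  · subst e1
    exact d2_aux T hcc hrc h1 h2 ha hb h3 hc1 hc2
  by_cases e2 : d = b2
  · subst e2
    exact d2_aux T hcc hrc h2 h1 ha.symm hb.symm h3 hc2 hc1
  exact ⟨a1, a2, c, b1, b2, d, ha.symm, hc1.symm, hc2.symm, hb.symm, fun h => e1 h.symm,
    fun h => e2 h.symm, h1, h2, h3⟩

end Pool.Agent.H44T
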