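import Pool.Agent.Lib.H44T.C1
import Pool.Agent.Lib.H44O.G1

/-!
# Chunk E1 (M): a smallest nearly full set, and its inequalities

* `select`: if the first alternative fails take a set with the smallest number of elements.
For the rest let `W` be odd, `m = |W|`, `inW x W = r (m - 1) - 2 k`. Compute `inW` of the sets obtained from `W` by adding or
removing vertices: `inW x (insert o U) = inW x U + 2 din x U o` for `o ∉ U`, and
`inW x (U.erase w) = inW x U - 2 din x U w` for `w ∈ U` (`inW_insert`, `inW_erase`; from the definition, symmetry, zero diagonal).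
* `sum_ends`: `∑ w ∈ W, ends = r m - inW x W`.
* `pair_out` (`W ∪ {o, o'}`, `m + 2` elements): `Ok` gives `inW ≤ r (m + 1)`.
* `row_col` (`(W \ {w}) ∪ {o}`, `m` elements).
* `pair_in` (`W \ {w, w'}`, `m - 2` elements): `slk ≥ Λ`.
* `size_ge`: `inW x W ≤ μ m (m - 1)` (`inW_le` in `H44O/G1`), so `(m - 1) (r - μ m) ≤ 2 k`, and `m ≥ 3`.
-/

namespace Pool.Agent.H44T

open Finset Pool.Agent.H44O
open scoped Classical

variable {V : Type*} [Fintype V]

theorem select (x : V → V → ℤ) (r : ℤ) (lam : ℕ → ℤ) :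
    (∀ U : Finset V, Odd U.card → 3 ≤ U.card → lam U.card ≤ slk x r U) ∨
    ∃ W : Finset V, Odd W.card ∧ 3 ≤ W.card ∧ slk x r W < lam W.card ∧
      ∀ Z : Finset V, Odd Z.card → 3 ≤ Z.card → Z.card < W.card → lam Z.card ≤ slk x r Z := by
  by_cases h : ∀ U : Finset V, Odd U.card → 3 ≤ U.card → lam U.card ≤ slk x r U
  · exact Or.inl h
  · right
    push Not at h
    obtain ⟨U, h1, h2, h3⟩ := h
    obtain ⟨W, hW, hmin⟩ := exists_min_image
      (univ.filter (fun U : Finset V => Odd U.card ∧ 3 ≤ U.card ∧ slk x r U < lam U.card)) card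
      ⟨U, mem_filter.mpr ⟨mem_univ _, h1, h2, h3⟩⟩
    obtain ⟨-, h4, h5, h6⟩ := mem_filter.mp hW
    refine ⟨W, h4, h5, h6, fun Z hZ1 hZ2 hZ3 => ?_⟩
    by_contra hlt
    push Not at hlt
    have := hmin Z (mem_filter.mpr ⟨mem_univ _, hZ1, hZ2, hlt⟩)
    omega

theorem inW_insert {x : V → V → ℤ} (hx : IsW x) {U : Finset V} {o : V} (ho : o ∉ U) :
    inW x (insert o U) = inW x U + 2 * din x U o := by
  unfold inW din
  rw [sum_insert ho, sum_insert ho, hx.diag, zero_add]
  have h1 : ∑ u ∈ U, ∑ v ∈ insert o U, x u v = ∑ u ∈ U, x o u + ∑ u ∈ U, ∑ v ∈ U, x u v := by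
    rw [← sum_add_distrib]
    apply sum_congr rfl
    intro u _
    rw [sum_insert ho, hx.symm u o]
  rw [h1]
  ring

theorem inW_erase {x : V → V → ℤ} (hx : IsW x) {U : Finset V} {w : V} (hw : w ∈ U) :
    inW x (U.erase w) = inW x U - 2 * din x U w := by
  have h1 := inW_insert hx (notMem_erase w U)
  rw [insert_erase hw] at h1
  have h2 : din x (U.erase w) w = din x U w := by
    unfold din
    rw [← add_sum_erase U (fun v => x w v) hw, hx.diag, zero_add]
  rw [h1, h2]
  ring

theorem sum_ends (x : V → V → ℤ) (r : ℤ) (W : Finset V) :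
    ∑ w ∈ W, ends x r W w = r * W.card - inW x W := by
  unfold ends din inW
  rw [sum_sub_distrib, sum_const, nsmul_eq_mul]
  ring

theorem e1_din_insert {x : V → V → ℤ} {U : Finset V} {o : V} (ho : o ∉ U) (v : V) :
    din x (insert o U) v = x v o + din x U v := by
  unfold din
  rw [sum_insert ho]

theorem e1_din_erase {x : V → V → ℤ} {U : Finset V} {w : V} (hw : w ∈ U) (v : V) :
    din x (U.erase w) v = din x U v - x v w := by
  unfold din
  rw [← add_sum_erase U (fun u => x v u) hw]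
  ring

theorem pair_out {x : V → V → ℤ} (hx : IsW x) {r : ℤ} (hok : Ok x r) {W : Finset V}
    (hW : Odd W.card) {k : ℤ} (hk : inW x W = r * ((W.card : ℤ) - 1) - 2 * k) {o o' : V}
    (ho : o ∉ W) (ho' : o' ∉ W) (hne : o ≠ o') :
    din x W o + din x W o' + x o o' ≤ r + k := by
  have h1 : o' ∉ insert o W := by
    rw [mem_insert]
    rintro (h | h)
    · exact hne h.symm
    · exact ho' h
  have h2 : (insert o' (insert o W)).card = W.card + 2 := by
    rw [card_insert_of_notMem h1, card_insert_of_notMem ho]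
  have h3 := hok.2 (insert o' (insert o W)) (by
    rw [h2]
    exact hW.add_even even_two)
  rw [inW_insert hx h1, inW_insert hx ho, e1_din_insert ho, h2, hk, hx.symm o' o] at h3
  push_cast at h3
  nlinarith

theorem row_col {x : V → V → ℤ} (hx : IsW x) {r : ℤ} (hok : Ok x r) {W : Finset V}
    (hW : Odd W.card) {k : ℤ} (hk : inW x W = r * ((W.card : ℤ) - 1) - 2 * k) {w o : V}
    (hw : w ∈ W) (ho : o ∉ W) : ends x r W w + din x W o - x w o ≤ r + k := by
  have h1 : o ∉ W.erase w := fun h => ho (mem_of_mem_erase h)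
  have hpos : 0 < W.card := card_pos.mpr ⟨w, hw⟩
  have h2 : (insert o (W.erase w)).card = W.card := by
    rw [card_insert_of_notMem h1, card_erase_of_mem hw]
    omega
  have h3 := hok.2 (insert o (W.erase w)) (by
    rw [h2]
    exact hW)
  rw [inW_insert hx h1, inW_erase hx hw, e1_din_erase hw, h2, hk, hx.symm o w] at h3
  unfold ends
  linarith

theorem pair_in {x : V → V → ℤ} (hx : IsW x) {r : ℤ} {W : Finset V}
    {k Λ : ℤ} (hk : inW x W = r * ((W.card : ℤ) - 1) - 2 * k) {w w' : V}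
    (hw : w ∈ W) (hw' : w' ∈ W) (hne : w ≠ w') (hΛ : Λ ≤ slk x r ((W.erase w).erase w')) :
    2 * (ends x r W w + ends x r W w' + x w w') ≤ 2 * r + 2 * k - Λ := by
  have h1 : w' ∈ W.erase w := mem_erase.mpr ⟨Ne.symm hne, hw'⟩
  have hpos : 0 < (W.erase w).card := card_pos.mpr ⟨w', h1⟩
  have h2 : ((W.erase w).erase w').card + 2 = W.card := by
    have h3 := card_erase_of_mem h1
    have h4 := card_erase_of_mem hw
    omega
  have h5 : (((W.erase w).erase w').card : ℤ) = W.card - 2 := by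
    have : ((((W.erase w).erase w').card + 2 : ℕ) : ℤ) = W.card := by rw [h2]
    push_cast at this
    linarith
  unfold slk at hΛ
  rw [inW_erase hx h1, inW_erase hx hw, e1_din_erase hw, h5, hk, hx.symm w' w] at hΛ
  unfold ends
  nlinarith

theorem size_ge {x : V → V → ℤ} (hx : IsW x) {r : ℤ} {μ : ℕ} (hμ : ∀ u v, x u v ≤ μ)
    {W : Finset V} (h3 : 3 ≤ W.card) {k : ℤ} (hk0 : 0 ≤ k)
    (hk : inW x W = r * ((W.card : ℤ) - 1) - 2 * k) : r ≤ μ * W.card + k := by
  have h1 := inW_le hx hμ W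
  rw [hk] at h1
  have h2 : (3 : ℤ) ≤ W.card := by exact_mod_cast h3
  by_contra hlt
  push Not at hlt
  nlinarith

end Pool.Agent.H44T
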