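import Pool.Agent.Lib.H44T.C1
import Pool.Agent.Lib.H44T.D2
import Pool.Agent.Lib.H44T.E1

/-!
# Chunk D3 (M/L): three disjoint heavy cross edges

`y` regular of even order `N`, all nontrivial odd sets have slack at least `S > 2 N ^ 2 K`; `3 ≤ |C|`, `3 ≤ |Cᶜ|`. Let `X = cutW y C` and for `p ∈ C`
let `c(p) = din y Cᶜ p` (edges from `p` to `Cᶜ`), for `q ∉ C` let `c(q) = din y C q`. Claim: for any two vertices `p, q` (equal or not)
the cross edges that avoid `p` and `q` have total weight at least `S / 2`, i.e.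
`2 (X - c(p) - c(q) + [p, q on different sides] y p q) ≥ S`. Then one of them is heavy (`≥ K`), as there are at most `N ^ 2` pairs. With
`T a b := a ∈ C ∧ b ∉ C ∧ K ≤ y a b`, `konig_three` gives the statement.
Claim, `|C|` even (so `|C|, |Cᶜ| ≥ 4`): for `p ∈ C` the set `Cᶜ ∪ {p}` is odd and nontrivial and has the cut `X - 2 c(p) + r`, so
`2 c(p) ≤ X - S`; the same for `q ∉ C` with `C ∪ {q}`. Add.
`|C|` odd: `slk y r C = X - r ≥ S`.
`p ≠ q` in `C`: the odd set `Cᶜ ∪ {p, q}` has cut `X + 2 r - 2 c(p) - 2 c(q) - 2 y p q ≥ r` (`Ok`), so `2 (c(p) + c(q)) ≤ X + r ≤ 2 X - S`. The same for `Cᶜ`.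
`p = q`: `c(p) ≤ r ≤ X - S`.
`p ∈ C`, `q ∉ C`: the set `(Cᶜ \ {q}) ∪ {p}` is odd with `|Cᶜ|` elements, so nontrivial, with cut
`X - 2 c(p) - 2 c(q) + 2 y p q + 2 r ≥ r + S`, so `2 (c(p) + c(q) - y p q) ≤ X + r - S ≤ 2 X - 2 S`.
(Use `slk y r U = cutW y U - r` and compute the cuts from `inW` and `sum_dg`, or directly.)
-/

namespace Pool.Agent.H44T

open Finset Pool.Agent.H44O
open scoped Classical

variable {V : Type*} [Fintype V]

theorem d3_dg (y : V → V → ℤ) (C : Finset V) (p : V) : dg y p = din y C p + din y Cᶜ p := by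
  unfold dg din
  exact (sum_add_sum_compl C _).symm

theorem d3_cut (y : V → V → ℤ) (C : Finset V) : cutW y C = ∑ a ∈ C, din y Cᶜ a := rfl

theorem d3_X {y : V → V → ℤ} {r : ℤ} (hr : ∀ u, dg y u = r) (C : Finset V) :
    cutW y C = r * C.card - inW y C := by
  have h1 := sum_dg y C
  rw [sum_congr rfl (fun u _ => hr u), sum_const, nsmul_eq_mul] at h1
  linarith

theorem d3_ineq (hV : Even (Fintype.card V)) {y : V → V → ℤ} (hy : IsW y) {r : ℤ}
    (hr : ∀ u, dg y u = r) (hok : Ok y r) {S : ℕ}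
    (hS : ∀ U : Finset V, Odd U.card → 3 ≤ U.card → U.card + 3 ≤ Fintype.card V →
      (S : ℤ) ≤ slk y r U) {C : Finset V} (hC : 3 ≤ C.card) (hC' : 3 ≤ Cᶜ.card) :
    (∀ p ∈ C, ∀ q ∈ C, p ≠ q → (S : ℤ) ≤ 2 * (cutW y C - din y Cᶜ p - din y Cᶜ q)) ∧
    (∀ p ∈ C, ∀ q ∉ C, (S : ℤ) ≤ 2 * (cutW y C - din y Cᶜ p - din y C q + y p q)) := by
  have hN : C.card + Cᶜ.card = Fintype.card V := card_add_card_compl C
  have hS0 : (0 : ℤ) ≤ S := Int.natCast_nonneg _
  have hX := d3_X hr C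
  have hinC : ∀ p, din y C p = r - din y Cᶜ p := by
    intro p
    have h1 := d3_dg y C p
    rw [hr] at h1
    linarith
  rcases Nat.even_or_odd C.card with hev | hodd
  · -- even case
    have hev' : Even Cᶜ.card := by
      rw [← hN] at hV
      exact (Nat.even_add.mp hV).mp hev
    have h4 : 4 ≤ C.card := by
      obtain ⟨m, hm⟩ := hev
      omega
    have h4' : 4 ≤ Cᶜ.card := by
      obtain ⟨m, hm⟩ := hev'
      omega
    have h1 : ∀ D : Finset V, Even D.card → 4 ≤ D.card → D.card + 2 ≤ Fintype.card V → ∀ p ∈ D,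
        2 * din y Dᶜ p ≤ cutW y D - S := by
      intro D hDe hD4 hDN p hp
      have hc : (D.erase p).card = D.card - 1 := card_erase_of_mem hp
      have hodd : Odd (D.erase p).card := by
        rw [hc]
        exact Nat.Even.sub_odd (by omega) hDe odd_one
      have h2 := hS (D.erase p) hodd (by omega) (by omega)
      unfold slk at h2
      have h3 : ((D.erase p).card : ℤ) = D.card - 1 := by
        rw [hc]
        have : 1 ≤ D.card := by omega
        push_cast [this]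
        ring
      rw [inW_erase hy hp, h3] at h2
      have h5 := d3_dg y D p
      have h6 := d3_X hr D
      rw [hr] at h5
      rw [h6]
      linarith
    have h2 := h1 C hev h4 (by omega)
    have h3 := h1 Cᶜ hev' h4' (by omega)
    rw [compl_compl, cutW_compl hy] at h3
    refine ⟨fun p hp q hq _ => ?_, fun p hp q hq => ?_⟩
    · have h5 := h2 p hp
      have h6 := h2 q hq
      linarith
    · have h5 := h2 p hp
      have h6 := h3 q (mem_compl.mpr hq)
      have h7 := hy.nonneg p q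
      linarith
  · -- odd case
    have h1 := hS C hodd hC (by omega)
    rw [slk_cut hr] at h1
    refine ⟨fun p hp q hq hne => ?_, fun p hp q hq => ?_⟩
    · have hq' : q ∈ C.erase p := mem_erase.mpr ⟨Ne.symm hne, hq⟩
      have hc : ((C.erase p).erase q).card + 2 = C.card := by
        have h2 := card_erase_of_mem hq'
        have h3 := card_erase_of_mem hp
        omega
      have hodd' : Odd ((C.erase p).erase q).card := by
        rw [← hc] at hodd
        exact (Nat.odd_add.mp hodd).mpr even_two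
      have h2 := hok.2 _ hodd'
      have h3 : (((C.erase p).erase q).card : ℤ) = C.card - 2 := by
        have : ((((C.erase p).erase q).card + 2 : ℕ) : ℤ) = C.card := by rw [hc]
        push_cast at this
        linarith
      rw [inW_erase hy hq', inW_erase hy hp, e1_din_erase hp, h3, hinC, hinC] at h2
      have h4 := hy.nonneg q p
      linarith
    · have hq' : q ∉ C.erase p := fun h => hq (mem_of_mem_erase h)
      have hc : (insert q (C.erase p)).card = C.card := by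
        rw [card_insert_of_notMem hq', card_erase_of_mem hp]
        omega
      have h2 := hS (insert q (C.erase p)) (by rw [hc]; exact hodd) (by rw [hc]; exact hC) (by omega)
      unfold slk at h2
      rw [inW_insert hy hq', inW_erase hy hp, e1_din_erase hp, hc, hinC p, hy.symm q p] at h2
      linarith

/-- if all entries are smaller than `K`, the sum is small -/
theorem d3_small {y : V → V → ℤ} {K : ℕ} {A B : Finset V} (h : ∀ a ∈ A, ∀ b ∈ B, y a b < K) :
    ∑ a ∈ A, din y B a ≤ Fintype.card V ^ 2 * K := by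
  have h1 : ∀ a ∈ A, din y B a ≤ Fintype.card V * K := by
    intro a ha
    unfold din
    have h2 : ∀ b ∈ B, y a b ≤ K := fun b hb => (h a ha b hb).le
    have h3 := sum_le_card_nsmul B _ _ h2
    rw [nsmul_eq_mul] at h3
    have h4 : (B.card : ℤ) ≤ Fintype.card V := by exact_mod_cast card_le_univ B
    exact h3.trans (mul_le_mul_of_nonneg_right h4 (Int.natCast_nonneg _))
  have h2 := sum_le_card_nsmul A _ _ h1
  rw [nsmul_eq_mul] at h2
  have h4 : (A.card : ℤ) ≤ Fintype.card V := by exact_mod_cast card_le_univ A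
  have h5 := h2.trans (mul_le_mul_of_nonneg_right h4 (by positivity))
  rw [sq, mul_assoc]
  exact h5

theorem d3_rr {y : V → V → ℤ} {S K : ℕ} (hSK : 2 * Fintype.card V ^ 2 * K < S) {C : Finset V}
    (h : ∀ p ∈ C, ∀ q ∈ C, p ≠ q → (S : ℤ) ≤ 2 * (cutW y C - din y Cᶜ p - din y Cᶜ q))
    (hC : 3 ≤ C.card) (p q : V) : ∃ a b, (a ∈ C ∧ b ∉ C ∧ (K : ℤ) ≤ y a b) ∧ a ≠ p ∧ a ≠ q := by
  obtain ⟨p', hp', hpp⟩ : ∃ p' ∈ C, ∀ a ∈ C, a ≠ p' → a ≠ p := by
    by_cases hp : p ∈ C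
    · exact ⟨p, hp, fun a _ h => h⟩
    · obtain ⟨p', hp'⟩ := card_pos.mp (show 0 < C.card by omega)
      exact ⟨p', hp', fun a ha _ h => hp (h ▸ ha)⟩
  obtain ⟨q', hq', hqne, hqq⟩ : ∃ q' ∈ C, p' ≠ q' ∧ ∀ a ∈ C, a ≠ p' → a ≠ q' → a ≠ q := by
    by_cases hq : q ∈ C ∧ q ≠ p'
    · exact ⟨q, hq.1, Ne.symm hq.2, fun a _ _ h => h⟩
    · obtain ⟨q', hq'⟩ := card_pos.mp (show 0 < (C.erase p').card by
        rw [card_erase_of_mem hp']
        omega)
      refine ⟨q', mem_of_mem_erase hq', (ne_of_mem_erase hq').symm, fun a ha hap _ h => hq ⟨h ▸ ha, ?_⟩⟩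
      rw [← h]
      exact hap
  by_contra hno
  have h1 : ∀ a ∈ (C.erase p').erase q', ∀ b ∈ Cᶜ, y a b < K := by
    intro a ha b hb
    rw [mem_erase, mem_erase] at ha
    by_contra hlt
    push Not at hlt
    exact hno ⟨a, b, ⟨ha.2.2, mem_compl.mp hb, hlt⟩, hpp a ha.2.2 ha.2.1, hqq a ha.2.2 ha.2.1 ha.1⟩
  have h2 := d3_small h1
  have h3 := h p' hp' q' hq' hqne
  have hq'' : q' ∈ C.erase p' := mem_erase.mpr ⟨Ne.symm hqne, hq'⟩
  rw [d3_cut, ← add_sum_erase C _ hp', ← add_sum_erase (C.erase p') _ hq''] at h3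
  have h4 : ((2 * Fintype.card V ^ 2 * K : ℕ) : ℤ) < S := by exact_mod_cast hSK
  push_cast at h4
  linarith

theorem d3_rc {y : V → V → ℤ} (hy : IsW y) {S K : ℕ} (hSK : 2 * Fintype.card V ^ 2 * K < S) {C : Finset V}
    (h : ∀ p ∈ C, ∀ q ∉ C, (S : ℤ) ≤ 2 * (cutW y C - din y Cᶜ p - din y C q + y p q))
    (hC : 3 ≤ C.card) (hC' : 3 ≤ Cᶜ.card) (p q : V) :
    ∃ a b, (a ∈ C ∧ b ∉ C ∧ (K : ℤ) ≤ y a b) ∧ a ≠ p ∧ b ≠ q := by
  obtain ⟨p', hp', hpp⟩ : ∃ p' ∈ C, ∀ a ∈ C, a ≠ p' → a ≠ p := by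
    by_cases hp : p ∈ C
    · exact ⟨p, hp, fun a _ h => h⟩
    · obtain ⟨p', hp'⟩ := card_pos.mp (show 0 < C.card by omega)
      exact ⟨p', hp', fun a ha _ h => hp (h ▸ ha)⟩
  obtain ⟨q', hq', hqq⟩ : ∃ q' ∈ Cᶜ, ∀ a ∈ Cᶜ, a ≠ q' → a ≠ q := by
    by_cases hq : q ∈ Cᶜ
    · exact ⟨q, hq, fun a _ h => h⟩
    · obtain ⟨q', hq'⟩ := card_pos.mp (show 0 < Cᶜ.card by omega)
      exact ⟨q', hq', fun a ha _ h => hq (h ▸ ha)⟩
  by_contra hno
  have h1 : ∀ a ∈ C.erase p', ∀ b ∈ Cᶜ.erase q', y a b < K := by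
    intro a ha b hb
    rw [mem_erase] at ha hb
    by_contra hlt
    push Not at hlt
    exact hno ⟨a, b, ⟨ha.2, mem_compl.mp hb.2, hlt⟩, hpp a ha.2 ha.1, hqq b hb.2 hb.1⟩
  have h2 := d3_small h1
  have h3 := h p' hp' q' (mem_compl.mp hq')
  have h5 : ∑ a ∈ C.erase p', din y (Cᶜ.erase q') a = (cutW y C - din y Cᶜ p') - (din y C q' - y p' q') := by
    have h6 : ∀ a ∈ C.erase p', din y (Cᶜ.erase q') a = din y Cᶜ a - y a q' := fun a _ => e1_din_erase hq' a
    rw [sum_congr rfl h6, sum_sub_distrib, d3_cut, ← add_sum_erase C (fun a => din y Cᶜ a) hp']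
    have h7 : din y C q' = y p' q' + ∑ a ∈ C.erase p', y a q' := by
      unfold din
      rw [← add_sum_erase C (fun a => y q' a) hp', hy.symm q' p']
      congr 1
      exact sum_congr rfl (fun a _ => hy.symm q' a)
    rw [h7]
    ring
  have h4 : ((2 * Fintype.card V ^ 2 * K : ℕ) : ℤ) < S := by exact_mod_cast hSK
  push_cast at h4
  linarith

omit [Fintype V] in
theorem d3_inj {u1 u2 u3 : V} (g1 : u1 ≠ u2) (g2 : u1 ≠ u3) (g3 : u2 ≠ u3) :
    Function.Injective ![u1, u2, u3] := by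
  intro i j hij
  fin_cases i <;> fin_cases j
  · rfl
  · exact absurd hij g1
  · exact absurd hij g2
  · exact absurd hij.symm g1
  · rfl
  · exact absurd hij g3
  · exact absurd hij.symm g2
  · exact absurd hij.symm g3
  · rfl

theorem cross_three (hV : Even (Fintype.card V)) {y : V → V → ℤ} (hy : IsW y) {r : ℤ}
    (hr : ∀ u, dg y u = r) (hok : Ok y r) {S K : ℕ}
    (hS : ∀ U : Finset V, Odd U.card → 3 ≤ U.card → U.card + 3 ≤ Fintype.card V →
      (S : ℤ) ≤ slk y r U) (hSK : 2 * Fintype.card V ^ 2 * K < S) {C : Finset V}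
    (hC : 3 ≤ C.card) (hC' : 3 ≤ Cᶜ.card) :
    ∃ a b : Fin 3 → V, Three (heavy y K) C a b := by
  obtain ⟨h1, h2⟩ := d3_ineq hV hy hr hok hS hC hC'
  obtain ⟨h3, -⟩ := d3_ineq hV hy hr hok hS hC' (by rw [compl_compl]; exact hC)
  obtain ⟨v0, -⟩ := card_pos.mp (show 0 < C.card by omega)
  have hrr := d3_rr hSK h1 hC
  have hcc : ∀ p q, ∃ a b, (a ∈ C ∧ b ∉ C ∧ (K : ℤ) ≤ y a b) ∧ b ≠ p ∧ b ≠ q := by
    intro p q
    obtain ⟨a, b, ⟨h4, h5, h6⟩, h7, h8⟩ := d3_rr hSK h3 hC' p q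
    refine ⟨b, a, ⟨?_, mem_compl.mp h4, ?_⟩, h7, h8⟩
    · by_contra hb
      exact h5 (mem_compl.mpr hb)
    · rw [hy.symm]
      exact h6
  have hrc := d3_rc hy hSK h2 hC hC'
  obtain ⟨a1, a2, a3, b1, b2, b3, e1, e2, e3, f1, f2, f3, t1, t2, t3⟩ :=
    konig_three (fun a b => a ∈ C ∧ b ∉ C ∧ (K : ℤ) ≤ y a b)
      (by obtain ⟨a, b, h, -⟩ := hrr v0 v0; exact ⟨a, b, h⟩) hrr hcc hrc
  have hadj : ∀ a b, (a ∈ C ∧ b ∉ C ∧ (K : ℤ) ≤ y a b) → a ∈ C ∧ b ∉ C ∧ (heavy y K).Adj a b := by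
    intro a b h
    refine ⟨h.1, h.2.1, ?_, h.2.2, ?_⟩
    · rintro rfl
      exact h.2.1 h.1
    · rw [hy.symm]
      exact h.2.2
  refine ⟨![a1, a2, a3], ![b1, b2, b3], d3_inj e1 e2 e3, d3_inj f1 f2 f3, ?_⟩
  intro i
  fin_cases i
  · exact hadj _ _ t1
  · exact hadj _ _ t2
  · exact hadj _ _ t3

end Pool.Agent.H44T
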