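import Pool.Agent.Lib.H44T.A1
import Pool.Agent.Lib.H44T.B8

/-!
# Chunk D4 (M): the closure of the heavy graph

`D` a clique of `H` with at least three elements, every vertex outside `D` has more than `N / 2` neighbours (so at least
`N / 2 + 1`, `N` even), `N ≥ 6`. `nice_of`: let `H ≤ H'`.
* If some `a ≠ b` outside `D` are not adjacent in `H'`: the sum of their degrees is at least `N + 2`.
* Otherwise `TwoC H' Dᶜ`. If `H' = ⊤`: `nice_closable Closable.top`. Otherwise some `a ∉ D`, `b ∈ D` are not adjacent.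
  If `|Dᶜ| ≤ 2`: `nb H' b ≥ |D| - 1 ≥ N - 3` and `nb H' a ≥ N / 2 + 1`: the sum is at least `N + 1` as `N ≥ 6`.
  If `|Dᶜ| ≥ 3`: `h3` gives `Three H Dᶜ a b`, so `Three H' Dᶜ a b` and `two_nice` applies.
-/

namespace Pool.Agent.H44T

open Finset Pool.Agent.H44O
open scoped Classical

variable {V : Type*} [Fintype V]

theorem two_closure (hV : Even (Fintype.card V)) (h6 : 6 ≤ Fintype.card V) {H : SimpleGraph V}
    {D : Finset V} (hD3 : 3 ≤ D.card) (hD : ∀ u ∈ D, ∀ v ∈ D, u ≠ v → H.Adj u v)
    (hnb : ∀ v, v ∉ D → Fintype.card V < 2 * nb H v)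
    (h3 : 3 ≤ Dᶜ.card → ∃ a b : Fin 3 → V, Three H Dᶜ a b) : Nice H := by
  refine nice_of H fun H' hle => ?_
  have hmono : ∀ v, nb H v ≤ nb H' v := by
    intro v
    unfold nb
    refine Finset.card_le_card fun w hw => ?_
    rw [Finset.mem_filter] at hw ⊢
    exact ⟨hw.1, hle hw.2⟩
  obtain ⟨k, hk⟩ := hV
  by_cases ht : ∃ a b, a ∉ D ∧ b ∉ D ∧ a ≠ b ∧ ¬ H'.Adj a b
  · obtain ⟨a, b, ha, hb, hab, hadj⟩ := ht
    refine Or.inr ⟨a, b, hab, hadj, ?_⟩
    have h1 := hnb a ha
    have h2 := hnb b hb
    have h4 := hmono a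
    have h5 := hmono b
    omega
  · push Not at ht
    have hTwo : TwoC H' Dᶜ := by
      intro u v huv hiff
      rw [Finset.mem_compl, Finset.mem_compl] at hiff
      by_cases hu : u ∈ D
      · have hv : v ∈ D := by
          by_contra hv
          exact (hiff.mpr hv) hu
        exact hle (hD u hu v hv huv)
      · exact ht u v hu (hiff.mp hu) huv
    by_cases htop : H' = ⊤
    · left
      rw [htop]
      exact nice_closable ⟨k, hk⟩ Closable.top
    by_cases hc3 : 3 ≤ Dᶜ.card
    · obtain ⟨a, b, hT⟩ := h3 hc3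
      left
      refine two_nice ⟨k, hk⟩ hTwo (a := a) (b := b) ⟨hT.1, hT.2.1, fun i => ?_⟩
      obtain ⟨h4, h5, h6⟩ := hT.2.2 i
      exact ⟨h4, h5, hle h6⟩
    · right
      have hex : ∃ a b, a ≠ b ∧ ¬ H'.Adj a b := by
        by_contra hcon
        push Not at hcon
        apply htop
        ext u v
        rw [SimpleGraph.top_adj]
        exact ⟨fun h => h.ne, fun h => hcon u v h⟩
      have main : ∀ a b, a ≠ b → ¬ H'.Adj a b → a ∉ D → b ∈ D →
          Fintype.card V + 1 ≤ nb H' a + nb H' b := by
        intro a b hab hadj ha hb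
        have h1 := hnb a ha
        have h4 := hmono a
        have h5 : (D.erase b).card ≤ nb H' b := by
          unfold nb
          refine Finset.card_le_card fun w hw => ?_
          rw [Finset.mem_erase] at hw
          rw [Finset.mem_filter]
          exact ⟨Finset.mem_univ _, hle (hD b hb w hw.2 hw.1.symm)⟩
        rw [Finset.card_erase_of_mem hb] at h5
        have h6 := Finset.card_add_card_compl D
        omega
      obtain ⟨a, b, hab, hadj⟩ := hex
      by_cases ha : a ∈ D
      · have hb : b ∉ D := fun hb => hadj (hTwo a b hab (by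
          rw [Finset.mem_compl, Finset.mem_compl]
          exact ⟨fun h => absurd ha h, fun h => absurd hb h⟩))
        exact ⟨b, a, hab.symm, fun h => hadj h.symm,
          main b a hab.symm (fun h => hadj h.symm) hb ha⟩
      · have hb : b ∈ D := by
          by_contra hb
          exact hadj (hTwo a b hab (by
            rw [Finset.mem_compl, Finset.mem_compl]
            exact ⟨fun _ => hb, fun _ => ha⟩))
        exact ⟨a, b, hab, hadj, main a b hab hadj ha hb⟩

end Pool.Agent.H44T
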