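import Pool.Agent.Lib.H44T.A2
import Pool.Agent.Lib.H44T.C8
import Pool.Agent.Lib.H44T.D1
import Pool.Agent.Lib.H44T.D3
import Pool.Agent.Lib.H44T.D4

/-!
# Chunk D5 (M): graphs without nearly full sets

`L` from `nice_decomposition`. `S := 2 N ^ 2 L + L + 1`, `t := L`. `LI'`, `KD` from `spread_two`. `LI := LI' + N KD + 1`,
`μ0 := N (KD + 2 L) + 1`. Given `x, r, μ`: `y` from `spread_two`; `D := {v | dg x v + KD ≤ r}`.
* `3 ≤ |D|`: `three_def` (`{a}ᶜ` is odd and has `N - 1 ≥ 3` elements).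
* pairs in `D` are heavy for `L` in `y` (`t = L`).
* `v ∉ D`: `y v u ≤ x v u + (r - dg x v) ≤ μ + KD` (`y - x ≥ 0` has degree `r - dg x v < KD` at `v`); `heavy_nb` with `K = L`.
* `cross_three` for `C = Dᶜ` if `3 ≤ |Dᶜ|`.
* `two_closure`: `Nice (heavy y L)`; cuts: `slk_cut`, `S ≥ L`. So `Dec y`.
-/

namespace Pool.Agent.H44T

open Finset Pool.Agent.H44O
open scoped Classical

variable {V : Type*} [Fintype V]

theorem d5_cut {y : V → V → ℤ} {r : ℤ} (hr : ∀ u, dg y u = r) (U : Finset V) :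
    cutW y U = r + slk y r U := by
  have h1 : inW y U + cutW y U = r * U.card := by
    unfold inW cutW
    rw [← Finset.sum_add_distrib]
    have : ∀ u ∈ U, (∑ v ∈ U, y u v) + ∑ v ∈ Uᶜ, y u v = r := by
      intro u _
      rw [Finset.sum_add_sum_compl]
      exact hr u
    rw [Finset.sum_congr rfl this, Finset.sum_const, nsmul_eq_mul, mul_comm]
  unfold slk
  linarith

theorem case_one (hV : Even (Fintype.card V)) (h6 : 6 ≤ Fintype.card V) :
    ∃ LI μ0 : ℕ, ∀ (x : V → V → ℤ) (r : ℤ) (μ : ℕ), μ0 ≤ μ → IsW x → Ok x r →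
      (∀ u v, x u v ≤ μ) → ((Fintype.card V : ℤ) + 1) * μ ≤ 2 * r →
      (∀ U : Finset V, Odd U.card → 3 ≤ U.card → (LI : ℤ) ≤ slk x r U) →
      ∃ y, Comp x y r ∧ Dec y := by
  obtain ⟨L, hL1, hL⟩ := nice_decomposition (V := V) hV
  set N := Fintype.card V with hN
  obtain ⟨LI', KD, hsp⟩ := spread_two (V := V) hV (by omega) (2 * N ^ 2 * L + L + 1) L
  refine ⟨LI' + N * KD + 1, N * (KD + 2 * L) + 1, ?_⟩
  intro x r μ hμ0 hW hOk hle hr2 hslk
  have hV0 : Nonempty V := by
    rw [← Fintype.card_pos_iff]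
    omega
  obtain ⟨y, hc, hS, ht⟩ := hsp x r hW hOk (fun U h1 h2 => by
    have := hslk U h1 h2
    push_cast at this
    have h0 : (0 : ℤ) ≤ (N : ℤ) * KD := by positivity
    linarith)
  set D : Finset V := univ.filter (fun v => dg x v + KD ≤ r) with hDdef
  have hD3 : 3 ≤ D.card := by
    refine three_def hW hOk.1 fun a => ?_
    have hca : (({a} : Finset V)ᶜ).card = N - 1 := by
      rw [Finset.card_compl, Finset.card_singleton]
    have h := hslk ({a} : Finset V)ᶜ (by
      rw [hca]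
      obtain ⟨m, hm⟩ := hV
      exact ⟨m - 1, by omega⟩) (by rw [hca]; omega)
    push_cast at h
    have h0 : (0 : ℤ) ≤ (LI' : ℤ) := Int.natCast_nonneg _
    rw [← hN]
    linarith
  have hD : ∀ u ∈ D, ∀ v ∈ D, u ≠ v → (heavy y L).Adj u v := by
    intro u hu v hv huv
    rw [hDdef, mem_filter] at hu hv
    exact ⟨huv, ht u v huv hu.2 hv.2, ht v u huv.symm hv.2 hu.2⟩
  have hnb : ∀ v, v ∉ D → N < 2 * nb (heavy y L) v := by
    intro v hv
    have hv' : r < dg x v + KD := by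
      by_contra hh
      exact hv (by rw [hDdef, mem_filter]; exact ⟨mem_univ _, not_lt.1 hh⟩)
    refine heavy_nb hc.isW (K := L) (KD := KD) (μ := μ) (hc.reg v) (fun u => ?_) ?_ ?_
    · have h1 : y v u - x v u ≤ ∑ w, (y v w - x v w) :=
        Finset.single_le_sum (f := fun w => y v w - x v w)
          (fun w _ => sub_nonneg.2 (hc.le v w)) (mem_univ u)
      rw [Finset.sum_sub_distrib] at h1
      have h2 : ∑ w, y v w = r := hc.reg v
      have h3 : ∑ w, x v w = dg x v := rfl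
      rw [h2, h3] at h1
      have h4 := hle v u
      linarith
    · exact hr2
    · rw [← hN]
      omega
  have h3 : 3 ≤ Dᶜ.card → ∃ a b : Fin 3 → V, Three (heavy y L) Dᶜ a b := by
    intro h
    refine cross_three hV hc.isW hc.reg hc.ok hS ?_ h (by rw [compl_compl]; exact hD3)
    rw [← hN]
    omega
  have hnice := two_closure hV h6 hD3 hD hnb h3
  refine ⟨y, hc, hL y r hc.isW hc.reg (fun U h1 h2 h3 => ?_) hnice⟩
  have h4 := hS U h1 h2 h3
  rw [d5_cut hc.reg U]
  push_cast at h4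
  have h5 : (0 : ℤ) ≤ 2 * (N : ℤ) ^ 2 * L := by positivity
  linarith

end Pool.Agent.H44T
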