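import Pool.Agent.Lib.H44T.TDefs

/-!
# Chunk E2 (M): the heavy graph on the inner side is closable

`y` is a weight on `A`, `z` a special vertex (the contracted outside), `N = |A|` even, `h a = nbi H {z}ᶜ a` (heavy neighbours
different from `z`), `H = heavy y K`. `weak a` means `a ≠ z` and `h a < 30`; at most one vertex is weak.
By `closable_of` (`H44O/D1`) it is enough to find in every `H' ≥ H`, `H' ≠ ⊤`, a non-adjacent pair `a ≠ b` with
`nb H' a + nb H' b ≥ N + 1`.
1. Two non-adjacent vertices of `G`: `hGdeg`.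
2. `G` is a clique of `H'`. If `v ≠ z` is not weak and not adjacent to some `a ∈ G`: `nb v ≥ 30`, `nb a ≥ |G| - 1 ≥ N - 11`.
3. All non-weak vertices `v ≠ z` are adjacent to all of `G`; if two of them (not both in `G`) are not adjacent, each has at least
   `|G| - 1 ≥ N - 11` neighbours, and `2 (N - 11) ≥ N + 1` as `N ≥ 40`.
4. So the set `W0` of all non-weak vertices different from `z` is a clique of `H'`.
 (a) no weak vertex: `W0 = {z}ᶜ`, some `a` is not adjacent to `z`, `nb a ≥ N - 2`; `nb z ≥ 3`: otherwise the heavy neighbours of `z` are among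
   `a, b` (two different vertices, different from `z`), so `y z a + y z b ≥ r + 2 k - K N`, and
   `cutW y {z, a, b} = 3 r + 2 k - 2 (y z a + y z b + y a b) ≤ r - 2 k + 2 K N`; but `cutW y {z, a, b} = cutW y {z, a, b}ᶜ ≥ r + Λ` (`hcut`, odd,
   `N - 3` elements).
 (b) one weak vertex `v`; `v` is adjacent to `z` in `H` (`hwz`). `P`, `Q` = the neighbours of `v`, `z` in `W0` (for `H'`). For `b ∈ W0`:
   `r + Λ ≤ cutW y {z, v, b} = 3 r + 2 k - 2 (y z v + y z b + y v b)`. This gives for the heavy neighbours (threshold `K`): `|P| ≥ 2`, `|Q| ≥ 2`, `|P ∪ Q| ≥ 3`: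
   if all heavy neighbours of `v` in `W0` are `b`: `y v b ≥ r - y z v - K N`, so the cut is at most `r + 2 k + 2 K N`; if all heavy neighbours of `z` in
   `W0` are `b`: `y z b ≥ r + 2 k - y z v - K N`, cut at most `r - 2 k + 2 K N`; if `P ∪ Q ⊆ {b1, b2}` the sum of the two cuts is at most
   `2 r + 4 K N`. All contradict `hΛ`.
   If some `a ∈ W0` is not adjacent to `z`: `nb z ≥ 1 + |Q|`, `nb a ≥ N - 3 + [a ∈ P]`. If `|Q| ≥ 3`: sum `≥ N + 1`. If `|Q| = 2` there is `a ∈ P \ Q`, sum
   `≥ 3 + N - 2`. Otherwise `z` is adjacent to all of `W0`, and some `a ∈ W0` is not adjacent to `v`: `nb v ≥ 1 + |P| ≥ 3`, `nb a ≥ N - 3 + 1`.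
-/

namespace Pool.Agent.H44T

open Finset Pool.Agent.H44O
open scoped Classical

variable {A : Type*} [Fintype A]

theorem e2_nb {H : SimpleGraph A} {a : A} {T : Finset A} (h : ∀ u ∈ T, H.Adj a u) : T.card ≤ nb H a := by
  unfold nb
  exact card_le_card (fun u hu => mem_filter.mpr ⟨mem_univ _, h u hu⟩)

theorem e2_le {y : A → A → ℤ} (hy : IsW y) {K : ℕ} {a u : A} (h : ¬ (heavy y K).Adj a u) : y a u ≤ K := by
  by_contra hlt
  push Not at hlt
  apply h
  refine ⟨?_, hlt.le, ?_⟩
  · rintro rfl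
    rw [hy.diag] at hlt
    exact absurd hlt (not_lt.mpr (Int.natCast_nonneg _))
  · rw [hy.symm]
    exact hlt.le

theorem e2_dg {y : A → A → ℤ} {K : ℕ} {a : A} {T : Finset A} (h : ∀ u, u ∉ T → y a u ≤ K) :
    dg y a ≤ ∑ u ∈ T, y a u + K * Fintype.card A := by
  unfold dg
  rw [← sum_add_sum_compl T]
  have h1 : ∑ u ∈ Tᶜ, y a u ≤ Tᶜ.card • (K : ℤ) :=
    sum_le_card_nsmul _ _ _ (fun u hu => h u (mem_compl.mp hu))
  rw [nsmul_eq_mul] at h1
  have h2 : (Tᶜ.card : ℤ) ≤ Fintype.card A := by exact_mod_cast card_le_univ _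
  have h3 : (Tᶜ.card : ℤ) * K ≤ Fintype.card A * K := mul_le_mul_of_nonneg_right h2 (Int.natCast_nonneg _)
  linarith

theorem e2_inW {y : A → A → ℤ} (hy : IsW y) {a b c : A} (hab : a ≠ b) (hac : a ≠ c) (hbc : b ≠ c) :
    inW y {a, b, c} = 2 * (y a b + y a c + y b c) := by
  have h1 : a ∉ ({b, c} : Finset A) := by simp [hab, hac]
  have h2 : b ∉ ({c} : Finset A) := by simp [hbc]
  unfold inW
  simp only [sum_insert h1, sum_insert h2, sum_singleton, hy.diag, hy.symm b a, hy.symm c a, hy.symm c b]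
  ring

theorem e2_cut (hA : Even (Fintype.card A)) (h40 : 40 ≤ Fintype.card A) {y : A → A → ℤ}
    (hy : IsW y) {z : A} {r : ℤ} {k Λ : ℕ} (hr : ∀ a, a ≠ z → dg y a = r)
    (hz : dg y z = r + 2 * k)
    (hcut : ∀ Z : Finset A, Odd Z.card → z ∉ Z → 3 ≤ Z.card → Z.card + 3 ≤ Fintype.card A →
      r + Λ ≤ cutW y Z) {a b : A} (ha : a ≠ z) (hb : b ≠ z) (hab : a ≠ b) :
    r + Λ ≤ 3 * r + 2 * k - 2 * (y z a + y z b + y a b) := by
  have h1 : z ∉ ({a, b} : Finset A) := by simp [ha.symm, hb.symm]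
  have h2 : a ∉ ({b} : Finset A) := by simp [hab]
  have hc3 : ({z, a, b} : Finset A).card = 3 := by
    rw [card_insert_of_notMem h1, card_insert_of_notMem h2, card_singleton]
  have h3 := sum_dg y ({z, a, b} : Finset A)
  rw [sum_insert h1, sum_insert h2, sum_singleton, hz, hr a ha, hr b hb, e2_inW hy ha.symm hb.symm hab] at h3
  have h4 : ({z, a, b} : Finset A)ᶜ.card + 3 = Fintype.card A := by
    have := card_add_card_compl ({z, a, b} : Finset A)
    omega
  have h5 := hcut ({z, a, b} : Finset A)ᶜ (by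
    rw [← h4] at hA
    by_contra hno
    rw [Nat.not_odd_iff_even] at hno
    exact (Nat.not_even_iff_odd.mpr (hno.add_odd (by decide : Odd 3))) hA) (by
    rw [mem_compl, not_not]
    exact mem_insert_self _ _) (by omega) (by omega)
  rw [cutW_compl hy] at h5
  linarith

/-- two different elements covering a small set -/
theorem e2_pair {T U : Finset A} (hT : T ⊆ U) (hT2 : T.card ≤ 2) (hU : 2 ≤ U.card) :
    ∃ a ∈ U, ∃ b ∈ U, a ≠ b ∧ T ⊆ {a, b} := by
  obtain ⟨T', h1, h2, h3⟩ := exists_subsuperset_card_eq hT hT2 hU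
  obtain ⟨a, b, hab, h4⟩ := card_eq_two.mp h3
  rw [h4] at h1 h2
  exact ⟨a, h2 (mem_insert_self _ _), b, h2 (mem_insert_of_mem (mem_singleton_self _)), hab, h1⟩

theorem inner_closable (hA : Even (Fintype.card A)) (h40 : 40 ≤ Fintype.card A) {y : A → A → ℤ}
    (hy : IsW y) {z : A} {r : ℤ} {k K Λ : ℕ} (hr : ∀ a, a ≠ z → dg y a = r)
    (hz : dg y z = r + 2 * k)
    (hcut : ∀ Z : Finset A, Odd Z.card → z ∉ Z → 3 ≤ Z.card → Z.card + 3 ≤ Fintype.card A →
      r + Λ ≤ cutW y Z)
    (hΛ : 2 * k + 2 * K * Fintype.card A < Λ) {G : Finset A} (hGz : z ∉ G)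
    (hGdeg : ∀ a ∈ G, ∀ b ∈ G, a ≠ b →
      Fintype.card A + 1 ≤ nb (heavy y K) a + nb (heavy y K) b)
    (hGc : Fintype.card A ≤ G.card + 10)
    (hweak : ∀ a b, a ≠ z → b ≠ z → nbi (heavy y K) ({z} : Finset A)ᶜ a < 30 →
      nbi (heavy y K) ({z} : Finset A)ᶜ b < 30 → a = b)
    (hwz : ∀ a, a ≠ z → nbi (heavy y K) ({z} : Finset A)ᶜ a < 30 → (K : ℤ) ≤ y a z) :
    Closable (heavy y K) := by
  have hN0 : 0 ≤ (K : ℤ) * Fintype.card A := by positivity
  have hΛ' : (2 * k + 2 * K * Fintype.card A : ℤ) < Λ := by exact_mod_cast hΛ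
  have hcut' : ∀ a b, a ≠ z → b ≠ z → a ≠ b → r + Λ ≤ 3 * r + 2 * k - 2 * (y z a + y z b + y a b) :=
    fun a b ha hb hab => e2_cut hA h40 hy hr hz hcut ha hb hab
  apply closable_of
  intro H' hH hne
  by_contra hcon
  have hcon' : ∀ a b, a ≠ b → ¬ H'.Adj a b → nb H' a + nb H' b ≤ Fintype.card A := by
    intro a b hab hadj
    by_contra hlt
    exact hcon ⟨a, b, hab, hadj, by omega⟩
  -- G is a clique
  have hG1 : ∀ a ∈ G, ∀ b ∈ G, a ≠ b → H'.Adj a b := by
    intro a ha b hb hab
    by_contra hadj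
    have h1 := hcon' a b hab hadj
    have h2 := hGdeg a ha b hb hab
    have h3 := nb_mono hH a
    have h4 := nb_mono hH b
    omega
  have hGnb : ∀ a ∈ G, G.card ≤ nb H' a + 1 := by
    intro a ha
    have h1 := e2_nb (H := H') (a := a) (T := G.erase a) (fun u hu =>
      hG1 a ha u (mem_of_mem_erase hu) (ne_of_mem_erase hu).symm)
    rw [card_erase_of_mem ha] at h1
    omega
  have hstrong : ∀ v, ¬ nbi (heavy y K) ({z} : Finset A)ᶜ v < 30 → 30 ≤ nb H' v := by
    intro v hv
    have h1 : nbi (heavy y K) ({z} : Finset A)ᶜ v ≤ nb H' v := by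
      unfold nbi
      exact e2_nb (fun u hu => hH (mem_filter.mp hu).2)
    omega
  have hG2 : ∀ v, v ≠ z → ¬ nbi (heavy y K) ({z} : Finset A)ᶜ v < 30 → ∀ a ∈ G, v ≠ a → H'.Adj v a := by
    intro v hvz hv a ha hva
    by_contra hadj
    have h1 := hcon' v a hva hadj
    have h2 := hstrong v hv
    have h3 := hGnb a ha
    omega
  have hG3 : ∀ v, v ≠ z → ¬ nbi (heavy y K) ({z} : Finset A)ᶜ v < 30 → Fintype.card A ≤ nb H' v + 11 := by
    intro v hvz hv
    have h1 := e2_nb (H := H') (a := v) (T := G.erase v) (fun u hu =>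
      hG2 v hvz hv u (mem_of_mem_erase hu) (ne_of_mem_erase hu).symm)
    have h2 : G.card ≤ (G.erase v).card + 1 := by
      have := pred_card_le_card_erase (s := G) (a := v)
      omega
    omega
  have hW : ∀ v, v ≠ z → ¬ nbi (heavy y K) ({z} : Finset A)ᶜ v < 30 → ∀ v', v' ≠ z →
      ¬ nbi (heavy y K) ({z} : Finset A)ᶜ v' < 30 → v ≠ v' → H'.Adj v v' := by
    intro v h1 h2 v' h1' h2' hvv
    by_contra hadj
    have h3 := hcon' v v' hvv hadj
    have h4 := hG3 v h1 h2
    have h5 := hG3 v' h1' h2'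
    omega
  have hexist : ∃ a b, a ≠ b ∧ ¬ H'.Adj a b := by
    by_contra hno
    push Not at hno
    apply hne
    ext a b
    rw [SimpleGraph.top_adj]
    exact ⟨fun h => h.ne, fun h => hno a b h⟩
  by_cases hwk : ∃ v, v ≠ z ∧ nbi (heavy y K) ({z} : Finset A)ᶜ v < 30
  · -- one weak vertex
    obtain ⟨v, hvz, hv⟩ := hwk
    have huni : ∀ u, u ≠ z → u ≠ v → ¬ nbi (heavy y K) ({z} : Finset A)ᶜ u < 30 := fun u hu hne' h =>
      hne' (hweak u v hu hvz h hv)
    have hvzadj : (heavy y K).Adj v z := by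
      refine ⟨hvz, hwz v hvz hv, ?_⟩
      rw [hy.symm]
      exact hwz v hvz hv
    obtain ⟨W, hWd⟩ : ∃ W : Finset A, W = (univ.erase z).erase v := ⟨_, rfl⟩
    have hWm : ∀ u, u ∈ W ↔ u ≠ v ∧ u ≠ z := by
      intro u
      rw [hWd, mem_erase, mem_erase]
      exact ⟨fun h => ⟨h.1, h.2.1⟩, fun h => ⟨h.1, h.2, mem_univ _⟩⟩
    have hWc : W.card + 2 = Fintype.card A := by
      rw [hWd, card_erase_of_mem (mem_erase.mpr ⟨hvz, mem_univ _⟩), card_erase_of_mem (mem_univ _), card_univ]
      omega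
    have hWadj : ∀ a ∈ W, ∀ b ∈ W, a ≠ b → H'.Adj a b := by
      intro a ha b hb hab
      rw [hWm] at ha hb
      exact hW a ha.2 (huni a ha.2 ha.1) b hb.2 (huni b hb.2 hb.1) hab
    obtain ⟨P, hP⟩ : ∃ P, P = W.filter (fun u => H'.Adj v u) := ⟨_, rfl⟩
    obtain ⟨Q, hQ⟩ : ∃ Q, Q = W.filter (fun u => H'.Adj z u) := ⟨_, rfl⟩
    have hPm : ∀ u, u ∈ P ↔ u ∈ W ∧ H'.Adj v u := by
      intro u
      rw [hP, mem_filter]
    have hQm : ∀ u, u ∈ Q ↔ u ∈ W ∧ H'.Adj z u := by
      intro u
      rw [hQ, mem_filter]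
    have hdv : ∀ T : Finset A, T ⊆ W → P ⊆ T → r ≤ y v z + ∑ u ∈ T, y v u + K * Fintype.card A := by
      intro T hTW hPT
      have hzT : z ∉ T := fun h => ((hWm z).mp (hTW h)).2 rfl
      have h1 := e2_dg (y := y) (K := K) (a := v) (T := insert z T) (fun u hu => by
        rw [mem_insert, not_or] at hu
        by_cases huv : u = v
        · rw [huv, hy.diag]
          exact Int.natCast_nonneg _
        · apply e2_le hy
          intro hadj
          exact hu.2 (hPT ((hPm u).mpr ⟨(hWm u).mpr ⟨huv, hu.1⟩, hH hadj⟩)))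
      rw [sum_insert hzT, hr v hvz] at h1
      exact h1
    have hdz : ∀ T : Finset A, T ⊆ W → Q ⊆ T → r + 2 * k ≤ y z v + ∑ u ∈ T, y z u + K * Fintype.card A := by
      intro T hTW hQT
      have hvT : v ∉ T := fun h => ((hWm v).mp (hTW h)).1 rfl
      have h1 := e2_dg (y := y) (K := K) (a := z) (T := insert v T) (fun u hu => by
        rw [mem_insert, not_or] at hu
        by_cases huz : u = z
        · rw [huz, hy.diag]
          exact Int.natCast_nonneg _
        · apply e2_le hy
          intro hadj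
          exact hu.2 (hQT ((hQm u).mpr ⟨(hWm u).mpr ⟨hu.1, huz⟩, hH hadj⟩)))
      rw [sum_insert hvT, hz] at h1
      exact h1
    have hPW : P ⊆ W := fun u hu => ((hPm u).mp hu).1
    have hQW : Q ⊆ W := fun u hu => ((hQm u).mp hu).1
    have hyvz : y v z = y z v := hy.symm v z
    have hone : ∀ T : Finset A, T ⊆ W → T.card ≤ 1 → ∃ b ∈ W, T ⊆ {b} := by
      intro T hT hTc
      obtain ⟨T', h1, h2, h3⟩ := exists_subsuperset_card_eq hT hTc (show 1 ≤ W.card by omega)
      obtain ⟨b, hb⟩ := card_eq_one.mp h3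
      rw [hb] at h1 h2
      exact ⟨b, h2 (mem_singleton_self _), h1⟩
    have hP2 : 2 ≤ P.card := by
      by_contra hlt
      obtain ⟨b, hb, hPb⟩ := hone P hPW (by omega)
      have h1 := hdv {b} (singleton_subset_iff.mpr hb) hPb
      rw [sum_singleton] at h1
      have h2 := hcut' v b hvz ((hWm b).mp hb).2 ((hWm b).mp hb).1.symm
      have h3 := hy.nonneg z b
      linarith
    have hQ2 : 2 ≤ Q.card := by
      by_contra hlt
      obtain ⟨b, hb, hQb⟩ := hone Q hQW (by omega)
      have h1 := hdz {b} (singleton_subset_iff.mpr hb) hQb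
      rw [sum_singleton] at h1
      have h2 := hcut' v b hvz ((hWm b).mp hb).2 ((hWm b).mp hb).1.symm
      have h3 := hy.nonneg v b
      have hk0 : (0 : ℤ) ≤ k := Int.natCast_nonneg _
      linarith
    have hPQ : 3 ≤ (P ∪ Q).card := by
      by_contra hlt
      obtain ⟨b1, hb1, b2, hb2, hb12, hPQb⟩ := e2_pair (union_subset hPW hQW) (show (P ∪ Q).card ≤ 2 by omega)
        (show 2 ≤ W.card by omega)
      have hsub : ({b1, b2} : Finset A) ⊆ W := by
        intro u hu
        rcases mem_insert.mp hu with h | h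
        · rw [h]
          exact hb1
        · rw [mem_singleton.mp h]
          exact hb2
      have hb12' : b1 ∉ ({b2} : Finset A) := by simp [hb12]
      have h1 := hdv {b1, b2} hsub (subset_union_left.trans hPQb)
      have h2 := hdz {b1, b2} hsub (subset_union_right.trans hPQb)
      rw [sum_insert hb12', sum_singleton] at h1 h2
      have h3 := hcut' v b1 hvz ((hWm b1).mp hb1).2 ((hWm b1).mp hb1).1.symm
      have h4 := hcut' v b2 hvz ((hWm b2).mp hb2).2 ((hWm b2).mp hb2).1.symm
      have hk0 : (0 : ℤ) ≤ k := Int.natCast_nonneg _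
      linarith
    have hnbz : Q.card + 1 ≤ nb H' z := by
      have hvQ : v ∉ Q := fun h => ((hWm v).mp (hQW h)).1 rfl
      have h1 := e2_nb (H := H') (a := z) (T := insert v Q) (fun u hu => by
        rcases mem_insert.mp hu with h | h
        · rw [h]
          exact (hH hvzadj).symm
        · exact ((hQm u).mp h).2)
      rw [card_insert_of_notMem hvQ] at h1
      exact h1
    have hnbv : P.card + 1 ≤ nb H' v := by
      have hzP : z ∉ P := fun h => ((hWm z).mp (hPW h)).2 rfl
      have h1 := e2_nb (H := H') (a := v) (T := insert z P) (fun u hu => by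
        rcases mem_insert.mp hu with h | h
        · rw [h]
          exact hH hvzadj
        · exact ((hPm u).mp h).2)
      rw [card_insert_of_notMem hzP] at h1
      exact h1
    have hnba : ∀ a ∈ W, Fintype.card A ≤ nb H' a + 3 := by
      intro a ha
      have h1 := e2_nb (H := H') (a := a) (T := W.erase a) (fun u hu =>
        hWadj a ha u (mem_of_mem_erase hu) (ne_of_mem_erase hu).symm)
      rw [card_erase_of_mem ha] at h1
      omega
    have hnba1 : ∀ a ∈ W, ∀ u, u ∉ W → H'.Adj a u → Fintype.card A ≤ nb H' a + 2 := by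
      intro a ha u hu hadj
      have hu' : u ∉ W.erase a := fun h => hu (mem_of_mem_erase h)
      have h1 := e2_nb (H := H') (a := a) (T := insert u (W.erase a)) (fun t ht => by
        rcases mem_insert.mp ht with h | h
        · rw [h]
          exact hadj
        · exact hWadj a ha t (mem_of_mem_erase h) (ne_of_mem_erase h).symm)
      rw [card_insert_of_notMem hu', card_erase_of_mem ha] at h1
      omega
    have hvW : v ∉ W := fun h => ((hWm v).mp h).1 rfl
    have hzW : z ∉ W := fun h => ((hWm z).mp h).2 rfl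
    by_cases haz : ∃ a ∈ W, ¬ H'.Adj z a
    · obtain ⟨a, ha, hadj⟩ := haz
      by_cases hQ3 : 3 ≤ Q.card
      · have h1 := hcon' z a ((hWm a).mp ha).2.symm hadj
        have h2 := hnba a ha
        omega
      · obtain ⟨a', ha', haQ⟩ : ∃ a' ∈ P, a' ∉ Q := by
          by_contra hno
          push Not at hno
          have h1 : P ∪ Q ⊆ Q := union_subset hno (Subset.refl _)
          have h2 := card_le_card h1
          omega
        have ha'W := hPW ha'
        have hadj' : ¬ H'.Adj z a' := fun h => haQ ((hQm a').mpr ⟨ha'W, h⟩)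
        have h1 := hcon' z a' ((hWm a').mp ha'W).2.symm hadj'
        have h2 := hnba1 a' ha'W v hvW ((hPm a').mp ha').2.symm
        omega
    · push Not at haz
      obtain ⟨a, b, hab, hadj⟩ := hexist
      have hkey : ∀ a ∈ W, ¬ H'.Adj v a → False := by
        intro a ha hadj
        have h1 := hcon' v a ((hWm a).mp ha).1.symm hadj
        have h2 := hnba1 a ha z hzW (haz a ha).symm
        omega
      by_cases haz' : a = z
      · by_cases hbv : b = v
        · rw [haz', hbv] at hadj
          exact hadj (hH hvzadj).symm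
        · rw [haz'] at hadj
          exact hadj (haz b ((hWm b).mpr ⟨hbv, fun h => hab (haz'.trans h.symm)⟩))
      · by_cases hbz : b = z
        · by_cases hav : a = v
          · rw [hbz, hav] at hadj
            exact hadj (hH hvzadj)
          · rw [hbz] at hadj
            exact hadj (haz a ((hWm a).mpr ⟨hav, haz'⟩)).symm
        · by_cases hav : a = v
          · rw [hav] at hadj
            exact hkey b ((hWm b).mpr ⟨fun h => hab (hav.trans h.symm), hbz⟩) hadj
          · by_cases hbv : b = v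
            · rw [hbv] at hadj
              exact hkey a ((hWm a).mpr ⟨hav, haz'⟩) (fun h => hadj h.symm)
            · exact hadj (hWadj a ((hWm a).mpr ⟨hav, haz'⟩) b ((hWm b).mpr ⟨hbv, hbz⟩) hab)
  · -- no weak vertex
    push Not at hwk
    have hstr : ∀ u, u ≠ z → ¬ nbi (heavy y K) ({z} : Finset A)ᶜ u < 30 := fun u hu =>
      not_lt.mpr (hwk u hu)
    have hadjW : ∀ a b, a ≠ z → b ≠ z → a ≠ b → H'.Adj a b := fun a b ha hb hab =>
      hW a ha (hstr a ha) b hb (hstr b hb) hab
    obtain ⟨a, haz, hadj⟩ : ∃ a, a ≠ z ∧ ¬ H'.Adj z a := by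
      obtain ⟨a, b, hab, hadj⟩ := hexist
      by_cases haz : a = z
      · exact ⟨b, fun h => hab (haz.trans h.symm), by rw [← haz]; exact hadj⟩
      · by_cases hbz : b = z
        · refine ⟨a, haz, fun h => hadj ?_⟩
          rw [hbz]
          exact h.symm
        · exact absurd (hadjW a b haz hbz hab) hadj
    have h1 := hcon' z a haz.symm hadj
    have h2 : Fintype.card A ≤ nb H' a + 2 := by
      have h3 := e2_nb (H := H') (a := a) (T := (univ.erase z).erase a) (fun u hu =>
        hadjW a u haz (ne_of_mem_erase (mem_of_mem_erase hu)) (ne_of_mem_erase hu).symm)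
      rw [card_erase_of_mem (mem_erase.mpr ⟨haz, mem_univ _⟩), card_erase_of_mem (mem_univ _), card_univ] at h3
      omega
    have h3 : nb H' z ≤ 2 := by omega
    obtain ⟨b1, hb1, b2, hb2, hb12, hQb⟩ := e2_pair (T := (univ.erase z).filter (fun u => (heavy y K).Adj z u))
      (U := univ.erase z) (filter_subset _ _) (by
        refine le_trans ?_ h3
        exact e2_nb (fun u hu => hH (mem_filter.mp hu).2)) (by
        rw [card_erase_of_mem (mem_univ _), card_univ]
        omega)
    have hb1z := ne_of_mem_erase hb1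
    have hb2z := ne_of_mem_erase hb2
    have hb12' : b1 ∉ ({b2} : Finset A) := by simp [hb12]
    have h4 := e2_dg (y := y) (K := K) (a := z) (T := {b1, b2}) (fun u hu => by
      by_cases huz : u = z
      · rw [huz, hy.diag]
        exact Int.natCast_nonneg _
      · apply e2_le hy
        intro h
        exact hu (hQb (mem_filter.mpr ⟨mem_erase.mpr ⟨huz, mem_univ _⟩, h⟩)))
    rw [sum_insert hb12', sum_singleton, hz] at h4
    have h5 := hcut' b1 b2 hb1z hb2z hb12
    have h6 := hy.nonneg b1 b2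
    have hk0 : (0 : ℤ) ≤ k := Int.natCast_nonneg _
    linarith

end Pool.Agent.H44T
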