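import Pool.Agent.Lib.H44T.TDefs

/-!
# Chunk E3 (M): counting heavy neighbours inside `W`

`m = |W|`, `H = heavy x K`, `h w = nbi H W w`. `n = card V`.
* `inside_nb`: `din x W w = ∑ v ∈ W, x w v`; heavy neighbours contribute at most `μ`, the others less than `K`:
  `din x W w ≤ μ h w + K n`, i.e. `r ≤ ends + μ h w + K n`.
* `good_nb`: `8 ends ≤ r`: `7 r ≤ 8 (μ h + K n)`, and `4 μ (n + 50) + 8 K n ≤ 7 r` gives `2 h ≥ n + 50` (`μ > 0`).
* `bad_card`: `∑ w ∈ W, ends = r + 2 k`; the bad ones (`r < 8 ends`, so `r + 1 ≤ 8 ends`) are at most `8`: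
  otherwise `9 (r + 1) ≤ 8 (r + 2 k)`. (The others are nonnegative.)
* `weak_ends`: `h w < 30`: `ends ≥ r - 30 μ - K n`.
* `weak_unique`: two weak vertices would have `ends` at least `2 r - 60 μ - 2 K n > r + 2 k` together.
-/

namespace Pool.Agent.H44T

open Finset Pool.Agent.H44O
open scoped Classical

variable {V : Type*} [Fintype V]

theorem inside_nb {x : V → V → ℤ} (hx : IsW x) (r : ℤ) {μ K : ℕ} (hμ : ∀ u v, x u v ≤ μ)
    (W : Finset V) (w : V) :
    r ≤ ends x r W w + μ * nbi (heavy x K) W w + K * Fintype.card V := by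
  have h1 : ∀ v ∈ W, x w v ≤ (if (heavy x K).Adj w v then (μ : ℤ) else 0) + K := by
    intro v _
    by_cases h : (heavy x K).Adj w v
    · rw [if_pos h]
      have := hμ w v
      have hK : (0 : ℤ) ≤ K := Int.natCast_nonneg K
      linarith
    · rw [if_neg h, zero_add]
      by_cases hwv : w = v
      · subst hwv
        rw [hx.diag]
        exact Int.natCast_nonneg K
      · by_contra hcon
        push Not at hcon
        apply h
        refine ⟨hwv, hcon.le, ?_⟩
        rw [hx.symm v w]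
        exact hcon.le
  have h2 : din x W w ≤ μ * nbi (heavy x K) W w + K * Fintype.card V := by
    unfold din nbi
    refine (Finset.sum_le_sum h1).trans ?_
    rw [Finset.sum_add_distrib, ← Finset.sum_filter, Finset.sum_const, Finset.sum_const,
      nsmul_eq_mul, nsmul_eq_mul]
    have h3 : (W.card : ℤ) * K ≤ K * Fintype.card V := by
      rw [mul_comm]
      refine mul_le_mul_of_nonneg_left ?_ (Int.natCast_nonneg K)
      exact_mod_cast Finset.card_le_univ W
    rw [mul_comm (μ : ℤ)]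
    linarith
  unfold ends
  linarith

theorem good_nb {x : V → V → ℤ} (hx : IsW x) {r : ℤ} {μ K : ℕ} (h0 : 0 < μ)
    (hμ : ∀ u v, x u v ≤ μ)
    (hr : 4 * (μ : ℤ) * (Fintype.card V + 50) + 8 * K * Fintype.card V ≤ 7 * r)
    {W : Finset V} {w : V} (hg : 8 * ends x r W w ≤ r) :
    Fintype.card V + 50 ≤ 2 * nbi (heavy x K) W w := by
  have h1 := inside_nb hx r (K := K) hμ W w
  have h2 : 4 * (μ : ℤ) * (Fintype.card V + 50) ≤ 4 * (μ : ℤ) * (2 * nbi (heavy x K) W w) := by
    nlinarith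
  have h3 : (0 : ℤ) < 4 * (μ : ℤ) := by positivity
  have h4 := le_of_mul_le_mul_left h2 h3
  exact_mod_cast h4

theorem bad_card {x : V → V → ℤ} {r : ℤ} {W : Finset V} {k : ℕ}
    (hs : ∑ w ∈ W, ends x r W w = r + 2 * k) (hn : ∀ w ∈ W, 0 ≤ ends x r W w)
    (hk : 16 * (k : ℤ) ≤ r) : (W.filter (fun w => r < 8 * ends x r W w)).card ≤ 8 := by
  by_contra hcon
  push Not at hcon
  set B := W.filter (fun w => r < 8 * ends x r W w) with hB
  have h1 : ∑ w ∈ B, ends x r W w ≤ ∑ w ∈ W, ends x r W w :=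
    Finset.sum_le_sum_of_subset_of_nonneg (Finset.filter_subset _ _) fun w hw _ => hn w hw
  have h2 : (B.card : ℤ) * (r + 1) ≤ 8 * ∑ w ∈ B, ends x r W w := by
    rw [Finset.mul_sum, ← nsmul_eq_mul, ← Finset.sum_const]
    refine Finset.sum_le_sum fun w hw => ?_
    have h3 := (Finset.mem_filter.1 hw).2
    linarith
  have h3 : (9 : ℤ) * (r + 1) ≤ (B.card : ℤ) * (r + 1) := by
    refine mul_le_mul_of_nonneg_right ?_ ?_
    · exact_mod_cast hcon
    · have : (0 : ℤ) ≤ k := Int.natCast_nonneg k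
      linarith
  linarith

theorem weak_ends {x : V → V → ℤ} (hx : IsW x) {r : ℤ} {μ K : ℕ} (hμ : ∀ u v, x u v ≤ μ)
    {W : Finset V} {w : V} (hw : nbi (heavy x K) W w < 30) :
    r ≤ ends x r W w + 30 * μ + K * Fintype.card V := by
  have h1 := inside_nb hx r (K := K) hμ W w
  have h2 : (μ : ℤ) * nbi (heavy x K) W w ≤ (μ : ℤ) * 30 := by
    refine mul_le_mul_of_nonneg_left ?_ (Int.natCast_nonneg μ)
    exact_mod_cast hw.le
  linarith

theorem weak_unique {x : V → V → ℤ} (hx : IsW x) {r : ℤ} {μ K k : ℕ} (hμ : ∀ u v, x u v ≤ μ)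
    {W : Finset V} (hs : ∑ w ∈ W, ends x r W w = r + 2 * k) (hn : ∀ w ∈ W, 0 ≤ ends x r W w)
    (hr : 60 * (μ : ℤ) + 2 * K * Fintype.card V + 2 * k < r) {w w' : V} (hw : w ∈ W)
    (hw' : w' ∈ W) (h1 : nbi (heavy x K) W w < 30) (h2 : nbi (heavy x K) W w' < 30) : w = w' := by
  by_contra hne
  have h3 := weak_ends hx (r := r) hμ h1
  have h4 := weak_ends hx (r := r) hμ h2
  have h5 : ∑ v ∈ ({w, w'} : Finset V), ends x r W v ≤ ∑ v ∈ W, ends x r W v := by
    refine Finset.sum_le_sum_of_subset_of_nonneg ?_ fun v hv _ => hn v hv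
    intro v hv
    rw [Finset.mem_insert, Finset.mem_singleton] at hv
    rcases hv with rfl | rfl
    · exact hw
    · exact hw'
  rw [Finset.sum_pair hne] at h5
  linarith

end Pool.Agent.H44T
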