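import Pool.Agent.Lib.H44T.E2
import Pool.Agent.Lib.H44T.E3

/-!
# Chunk E4 (M/L): the inner graph of a nearly full set

`A = Option {v // v ∈ W}`, `y = ext (fun u v => x u v) r` (restricted to `W`), `z = none`, `|A| = m + 1` even. Translation:
`dg (restriction) w = din x W w`, so `y none (some w) = ends x r W w ≥ 0`; `IsW y` (`isW_ext`). `dg y (some w) = r`,
`dg y none = ∑ ends = r + 2 k` (`sum_ends`-like, from `hk`). For `Z` without `none`, `Z` is the image of `Z' ⊆ W`, and
`cutW y Z = r |Z'| - inW x Z'` (all degrees are `r`, `sum_dg`) `= r + slk x r Z'`, so `hcut` from `hin` (`|Z'| ≤ m - 2 < m`).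
`nbi (heavy y K) {none}ᶜ (some w) = nbi (heavy x K) W w`, and `nb (heavy y K) (some w)` is at least this.
`G` = the `some w` with `8 ends ≤ r`. `hGdeg`: `good_nb`, `|A| + 1 ≤ n + 2`. `hGc`: `bad_card`. `hweak`: `weak_unique`. `hwz`: `weak_ends`,
`K ≤ r - 30 μ - K n`. Then `inner_closable`.
-/

namespace Pool.Agent.H44T

open Finset Pool.Agent.H44O
open scoped Classical

variable {V : Type*} [Fintype V]

/-- The weight inside `W` with one more vertex for the ends. -/
noncomputable def inn (x : V → V → ℤ) (r : ℤ) (W : Finset V) :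
    Option {v : V // v ∈ W} → Option {v : V // v ∈ W} → ℤ :=
  ext (fun u v : {v : V // v ∈ W} => x u v) r

theorem e4t_sum (W : Finset V) (f : V → ℤ) : ∑ v : {v : V // v ∈ W}, f v = ∑ v ∈ W, f v := by
  rw [Finset.univ_eq_attach, Finset.sum_attach W f]

theorem e4t_dg (x : V → V → ℤ) (W : Finset V) (w : {v : V // v ∈ W}) :
    dg (fun u v : {v : V // v ∈ W} => x u v) w = din x W w := by
  unfold dg din
  exact e4t_sum W (fun v => x w v)

theorem inn_isW {x : V → V → ℤ} (hx : IsW x) {r : ℤ} {W : Finset V}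
    (hn : ∀ w ∈ W, 0 ≤ ends x r W w) : IsW (inn x r W) := by
  unfold inn
  refine isW_ext ⟨fun u v => hx.symm _ _, fun v => hx.diag _, fun u v => hx.nonneg _ _⟩ fun u => ?_
  rw [e4t_dg]
  have h1 := hn u u.2
  unfold ends at h1
  linarith

theorem inn_none (x : V → V → ℤ) (r : ℤ) (W : Finset V) (w : {v : V // v ∈ W}) :
    inn x r W none (some w) = ends x r W w := by
  have h1 : inn x r W none (some w) = r - dg (fun u v : {v : V // v ∈ W} => x u v) w := rfl
  rw [h1, e4t_dg]
  rfl

theorem e4t_some (x : V → V → ℤ) (r : ℤ) (W : Finset V) (u v : {v : V // v ∈ W}) :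
    inn x r W (some u) (some v) = x u v := rfl

theorem e4t_some_none (x : V → V → ℤ) (r : ℤ) (W : Finset V) (w : {v : V // v ∈ W}) :
    inn x r W (some w) none = ends x r W w := by
  have h1 : inn x r W (some w) none = r - dg (fun u v : {v : V // v ∈ W} => x u v) w := rfl
  rw [h1, e4t_dg]
  rfl

theorem inn_dg_some (x : V → V → ℤ) (r : ℤ) (W : Finset V) (w : {v : V // v ∈ W}) :
    dg (inn x r W) (some w) = r := by
  have h1 : dg (inn x r W) (some w) = ∑ o, inn x r W (some w) o := rfl
  rw [h1, Fintype.sum_option, e4t_some_none]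
  simp only [e4t_some]
  rw [e4t_sum W (fun v => x w v)]
  unfold ends din
  ring

theorem inn_dg_none (x : V → V → ℤ) (r : ℤ) (W : Finset V) :
    dg (inn x r W) none = r * W.card - inW x W := by
  have h1 : dg (inn x r W) none = ∑ o, inn x r W none o := rfl
  have h2 : inn x r W none none = 0 := rfl
  rw [h1, Fintype.sum_option, h2, zero_add]
  simp only [inn_none]
  rw [e4t_sum W (fun v => ends x r W v)]
  unfold ends
  rw [Finset.sum_sub_distrib, Finset.sum_const, nsmul_eq_mul, mul_comm]
  rfl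

theorem inn_cut {x : V → V → ℤ} (hx : IsW x) {r : ℤ} {W : Finset V}
    {Z : Finset (Option {v : V // v ∈ W})} (hZ : none ∉ Z) :
    ∃ Z' : Finset V, Z' ⊆ W ∧ Z'.card = Z.card ∧ cutW (inn x r W) Z = r + slk x r Z' := by
  obtain ⟨A, rfl⟩ : ∃ A : Finset {v : V // v ∈ W}, Z = A.map Function.Embedding.some := by
    refine ⟨Finset.univ.filter (fun v => some v ∈ Z), ?_⟩
    ext o
    cases o with
    | none => simp [hZ]
    | some v => simp
  refine ⟨A.map (Function.Embedding.subtype _), ?_, by rw [card_map, card_map], ?_⟩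
  · intro v hv
    rw [mem_map] at hv
    obtain ⟨a, -, rfl⟩ := hv
    exact a.2
  · have h1 := sum_dg (inn x r W) (A.map Function.Embedding.some)
    have h2 : ∑ u ∈ A.map Function.Embedding.some, dg (inn x r W) u = r * A.card := by
      have h0 : ∀ u ∈ A, dg (inn x r W) (Function.Embedding.some u) = r :=
        fun u _ => inn_dg_some x r W u
      rw [sum_map, Finset.sum_congr rfl h0, Finset.sum_const, nsmul_eq_mul, mul_comm]
    have h3 : inW (inn x r W) (A.map Function.Embedding.some) =
        inW x (A.map (Function.Embedding.subtype _)) := by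
      unfold inW
      rw [sum_map, sum_map]
      refine Finset.sum_congr rfl fun u _ => ?_
      rw [sum_map, sum_map]
      rfl
    rw [h2, h3] at h1
    unfold slk
    rw [card_map]
    linarith

theorem e4t_adj {x : V → V → ℤ} {r : ℤ} {W : Finset V} {K : ℤ} (u v : {v : V // v ∈ W}) :
    (heavy (inn x r W) K).Adj (some u) (some v) ↔ (heavy x K).Adj u v := by
  have h1 : (some u ≠ some v) ↔ (u : V) ≠ v := by
    rw [Ne, Option.some_inj, Ne, Subtype.ext_iff]
  constructor
  · rintro ⟨h2, h3, h4⟩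
    exact ⟨h1.1 h2, h3, h4⟩
  · rintro ⟨h2, h3, h4⟩
    exact ⟨h1.2 h2, h3, h4⟩

theorem e4t_card (W : Finset V) (P : V → Prop) [DecidablePred P]
    [DecidablePred (fun w : {v : V // v ∈ W} => P w)] :
    (univ.filter (fun w : {v : V // v ∈ W} => P w)).card = (W.filter P).card := by
  rw [← card_map (Function.Embedding.subtype _)]
  congr 1
  ext v
  rw [mem_map, mem_filter]
  constructor
  · rintro ⟨a, ha, rfl⟩
    exact ⟨a.2, (mem_filter.1 ha).2⟩
  · rintro ⟨h1, h2⟩
    exact ⟨⟨v, h1⟩, mem_filter.2 ⟨mem_univ _, h2⟩, rfl⟩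

theorem e4t_nbi (x : V → V → ℤ) (r : ℤ) (W : Finset V) (K : ℤ) (w : {v : V // v ∈ W})
    {S : Finset (Option {v : V // v ∈ W})} (hS : ∀ o, o ∈ S ↔ o ≠ none) :
    nbi (heavy (inn x r W) K) S (some w) = nbi (heavy x K) W w := by
  have h1 : nbi (heavy x K) W w = (univ.filter (fun v : {v : V // v ∈ W} =>
      (heavy x K).Adj w v)).card := (e4t_card W (fun v => (heavy x K).Adj w v)).symm
  rw [h1, ← card_map Function.Embedding.some]
  unfold nbi
  congr 1
  ext o
  cases o with
  | none => simp [hS]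
  | some v =>
    rw [mem_filter, mem_map, hS]
    constructor
    · rintro ⟨-, h2⟩
      exact ⟨v, mem_filter.2 ⟨mem_univ _, (e4t_adj w v).1 h2⟩, rfl⟩
    · rintro ⟨v', h2, h3⟩
      have h4 : v' = v := Option.some_injective _ h3
      subst h4
      exact ⟨Option.some_ne_none _, (e4t_adj w v').2 (mem_filter.1 h2).2⟩

theorem e4t_nb (x : V → V → ℤ) (r : ℤ) (W : Finset V) (K : ℤ) (w : {v : V // v ∈ W}) :
    nbi (heavy x K) W w ≤ nb (heavy (inn x r W) K) (some w) := by
  rw [← e4t_nbi x r W K w (S := univ.filter (fun o => o ≠ none)) fun o => by simp]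
  unfold nbi nb
  exact card_le_card (filter_subset_filter _ (subset_univ _))

theorem inn_closable {x : V → V → ℤ} (hx : IsW x) {r : ℤ} {μ k K Λ : ℕ}
    (hμ : ∀ u v, x u v ≤ μ) {W : Finset V} (hW : Odd W.card) (hm : 40 ≤ W.card)
    (hk : inW x W = r * ((W.card : ℤ) - 1) - 2 * k) (hn : ∀ w ∈ W, 0 ≤ ends x r W w)
    (hin : ∀ Z : Finset V, Odd Z.card → 3 ≤ Z.card → Z.card < W.card → (Λ : ℤ) ≤ slk x r Z)
    (hΛ : 2 * k + 2 * K * (Fintype.card V + 1) < Λ) (h0 : 0 < μ)
    (hr1 : 4 * (μ : ℤ) * (Fintype.card V + 50) + 8 * K * Fintype.card V ≤ 7 * r)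
    (hr2 : 60 * (μ : ℤ) + 2 * K * Fintype.card V + 2 * k + K < r) (hk16 : 16 * (k : ℤ) ≤ r) :
    Closable (heavy (inn x r W) K) := by
  have hcard : Fintype.card (Option {v : V // v ∈ W}) = W.card + 1 := by
    rw [Fintype.card_option, Fintype.card_coe]
  have hWn : W.card ≤ Fintype.card V := card_le_univ W
  have hsum : ∑ w ∈ W, ends x r W w = r + 2 * k := by
    have h1 := inn_dg_none x r W
    unfold ends
    rw [Finset.sum_sub_distrib, Finset.sum_const, nsmul_eq_mul]
    have h2 : ∑ w ∈ W, din x W w = inW x W := rfl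
    rw [h2, hk]
    ring
  refine inner_closable (z := none) (r := r) (k := k) (Λ := Λ)
    (G := (univ.filter (fun w : {v : V // v ∈ W} => 8 * ends x r W w ≤ r)).map
      Function.Embedding.some) ?_ ?_ (inn_isW hx hn) ?_ ?_ ?_ ?_ ?_ ?_ ?_ ?_ ?_
  · rw [hcard]
    exact hW.add_one
  · rw [hcard]
    omega
  · intro a ha
    cases a with
    | none => exact absurd rfl ha
    | some w => exact inn_dg_some x r W w
  · rw [inn_dg_none, hk]
    ring
  · intro Z hZ hz h3 hc
    rw [hcard] at hc
    obtain ⟨Z', -, h4, h5⟩ := inn_cut hx (r := r) hz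
    rw [h5]
    have h6 := hin Z' (by rw [h4]; exact hZ) (by rw [h4]; exact h3) (by rw [h4]; omega)
    linarith
  · rw [hcard]
    have h1 : 2 * K * (W.card + 1) ≤ 2 * K * (Fintype.card V + 1) :=
      Nat.mul_le_mul_left _ (by omega)
    omega
  · intro h
    rw [mem_map] at h
    obtain ⟨a, -, ha⟩ := h
    exact Option.some_ne_none _ ha
  · intro a ha b hb _
    rw [mem_map] at ha hb
    obtain ⟨u, hu, rfl⟩ := ha
    obtain ⟨v, hv, rfl⟩ := hb
    have h1 := good_nb hx h0 hμ hr1 (mem_filter.1 hu).2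
    have h2 := good_nb hx h0 hμ hr1 (mem_filter.1 hv).2
    have h3 := e4t_nb x r W K u
    have h4 := e4t_nb x r W K v
    rw [hcard]
    show W.card + 1 + 1 ≤ nb (heavy (inn x r W) K) (some u) + nb (heavy (inn x r W) K) (some v)
    omega
  · have h9 : (univ.filter (fun w : {v : V // v ∈ W} => 8 * ends x r W w ≤ r)).card =
        (W.filter (fun w => 8 * ends x r W w ≤ r)).card :=
      e4t_card W (fun w => 8 * ends x r W w ≤ r)
    rw [hcard, card_map, h9]
    have h1 := bad_card hsum hn hk16
    have h2 := card_filter_add_card_filter_not (s := W) (fun w => 8 * ends x r W w ≤ r)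
    have h3 : W.filter (fun w => ¬ 8 * ends x r W w ≤ r) =
        W.filter (fun w => r < 8 * ends x r W w) := by
      refine filter_congr fun w _ => ?_
      rw [not_le]
    rw [h3] at h2
    omega
  · intro a b ha hb h1 h2
    cases a with
    | none => exact absurd rfl ha
    | some u =>
      cases b with
      | none => exact absurd rfl hb
      | some v =>
        rw [e4t_nbi x r W K _ fun o => (f5_mem_compl _ _ _).trans (not_congr mem_singleton)] at h1 h2
        have h3 := weak_unique hx hμ hsum hn (by linarith [Int.natCast_nonneg K]) u.2 v.2 h1 h2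
        rw [Subtype.ext h3]
  · intro a ha h1
    cases a with
    | none => exact absurd rfl ha
    | some u =>
      rw [e4t_nbi x r W K _ fun o => (f5_mem_compl _ _ _).trans (not_congr mem_singleton)] at h1
      rw [e4t_some_none]
      have h2 := weak_ends hx (r := r) hμ h1
      have h3 : (0 : ℤ) ≤ k := Int.natCast_nonneg k
      have h4 : (0 : ℤ) ≤ μ := Int.natCast_nonneg μ
      have h5 : (0 : ℤ) ≤ (K : ℤ) * Fintype.card V := by positivity
      linarith

end Pool.Agent.H44T
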