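import Pool.Agent.Lib.H44T.TDefs
import Pool.Agent.Lib.H44O.D4
import Pool.Agent.Lib.H44O.D1

/-!
# Chunk E5 (M): perfect matchings inside a dense set

`T ⊆ V` with an even number of elements, every vertex of `T` has at least `|T| / 2 + 1` neighbours in `T` (`2 nbi ≥ |T| + 2`), `T ≠ ∅`. On the
subtype `{v // v ∈ T}` the induced graph (`H.comap Subtype.val`) is closable (`closable_of`: any two vertices have degree sum at
least `|T| + 2`), so for an adjacent pair `a, b` (`exists_near`, `exists_pm_of_near`) it has a perfect matching. Extend it to `V` by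
the identity (`Equiv.Perm.ofSubtype`; `Equiv.Perm.ofSubtype_apply_of_mem`, `Equiv.Perm.ofSubtype_apply_of_not_mem`). For `T = ∅` take the identity.
-/

namespace Pool.Agent.H44T

open Finset Pool.Agent.H44O
open scoped Classical

variable {V : Type*} [Fintype V]

theorem e5_nb (H : SimpleGraph V) (T : Finset V) (v : {v // v ∈ T}) :
    nb (H.comap (Subtype.val : {v // v ∈ T} → V)) v = nbi H T v.1 := by
  unfold nb nbi
  refine Finset.card_bij (fun w _ => w.1) ?_ ?_ ?_
  · intro w hw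
    rw [mem_filter] at hw ⊢
    exact ⟨w.2, hw.2⟩
  · intro w _ w' _ h
    exact Subtype.ext h
  · intro w hw
    rw [mem_filter] at hw
    exact ⟨⟨w, hw.1⟩, by rw [mem_filter]; exact ⟨mem_univ _, hw.2⟩, rfl⟩

theorem dense_matching {H : SimpleGraph V} {T : Finset V} (hT : Even T.card)
    (h : ∀ v ∈ T, T.card + 2 ≤ 2 * nbi H T v) :
    ∃ ρ : Equiv.Perm V, (∀ v, ρ (ρ v) = v) ∧ (∀ v, ρ v ≠ v ↔ v ∈ T) ∧
      ∀ v ∈ T, H.Adj v (ρ v) := by
  rcases T.eq_empty_or_nonempty with rfl | ⟨a, ha⟩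
  · exact ⟨1, by simp, by simp, by simp⟩
  set H' : SimpleGraph {v // v ∈ T} := H.comap Subtype.val with hH'
  have hcard : Fintype.card {v // v ∈ T} = T.card := by simp
  have hc : Closable H' := by
    refine closable_of H' fun H'' hle hne => ?_
    have hex : ∃ x y : {v // v ∈ T}, x ≠ y ∧ ¬ H''.Adj x y := by
      by_contra hcon
      push Not at hcon
      apply hne
      ext x y
      exact ⟨fun hxy => hxy.ne, fun hxy => hcon x y hxy⟩
    obtain ⟨x, y, hxy, hna⟩ := hex
    refine ⟨x, y, hxy, hna, ?_⟩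
    have h1 : nb H' x ≤ nb H'' x := nb_mono hle x
    have h2 : nb H' y ≤ nb H'' y := nb_mono hle y
    have h3 := h x.1 x.2
    have h4 := h y.1 y.2
    have h5 := e5_nb H T x
    have h6 := e5_nb H T y
    rw [← hH'] at h5 h6
    omega
  have hpos : 0 < nbi H T a := by
    have := h a ha
    omega
  obtain ⟨b, hb⟩ := Finset.card_pos.1 hpos
  rw [mem_filter] at hb
  have hab : (⟨a, ha⟩ : {v // v ∈ T}) ≠ ⟨b, hb.1⟩ := fun hh => hb.2.ne (Subtype.ext_iff.1 hh)
  obtain ⟨τ, hτ⟩ := exists_near (by rw [hcard]; exact hT) hc hab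
  obtain ⟨π, ⟨hπ1, hπ2⟩, hπa, hπb, hπ3⟩ := exists_pm_of_near hab hτ
  have hadj : ∀ v : {v // v ∈ T}, H.Adj v.1 (π v).1 := by
    intro v
    by_cases h1 : v = ⟨a, ha⟩
    · rw [h1, hπa]
      exact hb.2
    · by_cases h2 : v = ⟨b, hb.1⟩
      · rw [h2, hπb]
        exact hb.2.symm
      · exact hπ3 v h1 h2
  have hin : ∀ v (hv : v ∈ T), (Equiv.Perm.ofSubtype π) v = (π ⟨v, hv⟩).1 := by
    intro v hv
    exact Equiv.Perm.ofSubtype_apply_of_mem π hv
  have hout : ∀ v, v ∉ T → (Equiv.Perm.ofSubtype π) v = v := by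
    intro v hv
    exact Equiv.Perm.ofSubtype_apply_of_not_mem π hv
  refine ⟨Equiv.Perm.ofSubtype π, ?_, ?_, ?_⟩
  · intro v
    by_cases hv : v ∈ T
    · rw [hin v hv, hin _ (π ⟨v, hv⟩).2]
      have := hπ1 ⟨v, hv⟩
      exact congrArg Subtype.val this
    · rw [hout v hv, hout v hv]
  · intro v
    constructor
    · intro hne
      by_contra hv
      exact hne (hout v hv)
    · intro hv hh
      rw [hin v hv] at hh
      exact hπ2 ⟨v, hv⟩ (Subtype.ext hh)
  · intro v hv
    rw [hin v hv]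
    exact hadj ⟨v, hv⟩

end Pool.Agent.H44T
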