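import Pool.Agent.Lib.H44T.E5

/-!
# Chunk E6 (M): perfect matchings of `W` without three given vertices

`B` = the vertices of `W` outside `G` and `F` (at most `8`). First match every `b ∈ B` to its own partner `p b ∈ G \ F` with `H.Adj b (p b)`, `p`
injective: greedily (induction on a subset of `B`): `b` has at least `30` neighbours in `W`, of which at most `8` are outside `G`, at most `3`
in `F`, at most `7` used before. Then `T := W \ F \ B \ p(B)` is contained in `G`, `|T| = m - 3 - 2 |B|` is even, and every `v ∈ T` has at least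
`(n + 50) / 2 - 3 - 8 - 8` neighbours in `T`; `2 (...) ≥ n + 12 ≥ |T| + 2`. `dense_matching` gives `ρ` on `T`; add the pairs `b, p b`.
-/

namespace Pool.Agent.H44T

open Finset Pool.Agent.H44O
open scoped Classical

variable {V : Type*} [Fintype V]

theorem e6_partners {H : SimpleGraph V} {W G F : Finset V}
    (hGc : (W \ G).card ≤ 8) (hF3 : F.card = 3) (hdeg : ∀ v ∈ W, v ∉ F → 30 ≤ nbi H W v)
    (S : Finset V) (hS : S ⊆ (W \ G) \ F) :
    ∃ p : V → V, (∀ b ∈ S, p b ∈ G \ F ∧ H.Adj b (p b)) ∧ Set.InjOn p (S : Set V) := by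
  induction S using Finset.induction_on with
  | empty => exact ⟨id, by simp, by simp⟩
  | insert b S hb ih =>
    obtain ⟨p, hp1, hp2⟩ := ih ((Finset.subset_insert _ _).trans hS)
    have hbB : b ∈ (W \ G) \ F := hS (Finset.mem_insert_self _ _)
    rw [Finset.mem_sdiff, Finset.mem_sdiff] at hbB
    have hcard : (insert b S).card ≤ 8 :=
      (Finset.card_le_card hS).trans ((Finset.card_le_card Finset.sdiff_subset).trans hGc)
    rw [Finset.card_insert_of_notMem hb] at hcard
    have h30 := hdeg b hbB.1.1 hbB.2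
    have hpos : 0 < (((((W.filter (fun v => H.Adj b v)) \ (W \ G)) \ F) \ S.image p)).card := by
      have h1 := Finset.le_card_sdiff (W \ G) (W.filter (fun v => H.Adj b v))
      have h2 := Finset.le_card_sdiff F ((W.filter (fun v => H.Adj b v)) \ (W \ G))
      have h3 := Finset.le_card_sdiff (S.image p)
        (((W.filter (fun v => H.Adj b v)) \ (W \ G)) \ F)
      have h4 : (S.image p).card ≤ S.card := Finset.card_image_le
      unfold nbi at h30
      omega
    obtain ⟨q, hq⟩ := Finset.card_pos.mp hpos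
    simp only [Finset.mem_sdiff, Finset.mem_filter, Finset.mem_image, not_exists, not_and,
      not_not] at hq
    obtain ⟨⟨⟨⟨hqW, hqadj⟩, hqG⟩, hqF⟩, hqS⟩ := hq
    refine ⟨Function.update p b q, ?_, ?_⟩
    · intro c hc
      by_cases hcb : c = b
      · rw [hcb, Function.update_self]
        exact ⟨Finset.mem_sdiff.mpr ⟨hqG hqW, hqF⟩, hqadj⟩
      · rw [Function.update_of_ne hcb]
        exact hp1 c ((Finset.mem_insert.mp hc).resolve_left hcb)
    · intro c hc d hd hcd
      rw [Finset.mem_coe, Finset.mem_insert] at hc hd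
      by_cases hcb : c = b
      · by_cases hdb : d = b
        · rw [hcb, hdb]
        · exfalso
          rw [hcb, Function.update_self, Function.update_of_ne hdb] at hcd
          exact hqS d (hd.resolve_left hdb) hcd.symm
      · by_cases hdb : d = b
        · exfalso
          rw [hdb, Function.update_self, Function.update_of_ne hcb] at hcd
          exact hqS c (hc.resolve_left hcb) hcd
        · rw [Function.update_of_ne hcb, Function.update_of_ne hdb] at hcd
          exact hp2 (Finset.mem_coe.mpr (hc.resolve_left hcb))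
            (Finset.mem_coe.mpr (hd.resolve_left hdb)) hcd

theorem three_out {H : SimpleGraph V} {W G F : Finset V} (hW : Odd W.card) (hG : G ⊆ W)
    (hGdeg : ∀ v ∈ G, Fintype.card V + 50 ≤ 2 * nbi H W v) (hGc : (W \ G).card ≤ 8)
    (hF : F ⊆ W) (hF3 : F.card = 3) (hdeg : ∀ v ∈ W, v ∉ F → 30 ≤ nbi H W v) :
    ∃ ρ : Equiv.Perm V, (∀ v, ρ (ρ v) = v) ∧ (∀ v, ρ v ≠ v ↔ v ∈ W \ F) ∧
      ∀ v ∈ W \ F, H.Adj v (ρ v) := by
  obtain ⟨B, hB⟩ : ∃ B, B = (W \ G) \ F := ⟨_, rfl⟩
  obtain ⟨p, hp1, hp2⟩ := e6_partners hGc hF3 hdeg B hB.le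
  have hBc : B.card ≤ 8 := by
    rw [hB]
    exact (Finset.card_le_card Finset.sdiff_subset).trans hGc
  have hPc : (B.image p).card = B.card := Finset.card_image_of_injOn hp2
  obtain ⟨T, hT⟩ : ∃ T, T = (G \ F) \ B.image p := ⟨_, rfl⟩
  have hPG : B.image p ⊆ G \ F := by
    intro v hv
    obtain ⟨b, hb, rfl⟩ := Finset.mem_image.mp hv
    exact (hp1 b hb).1
  have hWF : (W \ F).card = (G \ F).card + B.card := by
    have h1 : W \ F = (G \ F) ∪ B := by
      ext v
      rw [hB]
      simp only [Finset.mem_sdiff, Finset.mem_union]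
      constructor
      · rintro ⟨h1, h2⟩
        by_cases hv : v ∈ G
        · exact Or.inl ⟨hv, h2⟩
        · exact Or.inr ⟨⟨h1, hv⟩, h2⟩
      · rintro (⟨h1, h2⟩ | ⟨⟨h1, _⟩, h2⟩)
        · exact ⟨hG h1, h2⟩
        · exact ⟨h1, h2⟩
    rw [h1, Finset.card_union_of_disjoint]
    rw [Finset.disjoint_left]
    intro v hv hv'
    rw [hB, Finset.mem_sdiff, Finset.mem_sdiff] at hv'
    exact hv'.1.2 (Finset.mem_sdiff.mp hv).1
  have hWc : (W \ F).card = W.card - 3 := by
    rw [Finset.card_sdiff_of_subset hF, hF3]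
  have hW3 : 3 ≤ W.card := by
    rw [← hF3]
    exact Finset.card_le_card hF
  have hTc : T.card = (G \ F).card - B.card := by
    rw [hT, Finset.card_sdiff_of_subset hPG, hPc]
  have hPle : B.card ≤ (G \ F).card := by
    rw [← hPc]
    exact Finset.card_le_card hPG
  have hTe : Even T.card := by
    obtain ⟨k, hk⟩ := hW
    exact ⟨k - 1 - B.card, by omega⟩
  have hTN : T.card ≤ Fintype.card V := Finset.card_le_univ T
  have hTd : ∀ v ∈ T, T.card + 2 ≤ 2 * nbi H T v := by
    intro v hv
    have hvG : v ∈ G := by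
      rw [hT, Finset.mem_sdiff, Finset.mem_sdiff] at hv
      exact hv.1.1
    have h1 := hGdeg v hvG
    have h2 : nbi H W v ≤ nbi H T v + (F.card + B.card + (B.image p).card) := by
      unfold nbi
      have h3 : W.filter (fun w => H.Adj v w) ⊆
          T.filter (fun w => H.Adj v w) ∪ ((F ∪ B) ∪ B.image p) := by
        intro w hw
        rw [Finset.mem_filter] at hw
        rw [Finset.mem_union, Finset.mem_filter, Finset.mem_union, Finset.mem_union, hT,
          Finset.mem_sdiff, Finset.mem_sdiff, hB, Finset.mem_sdiff, Finset.mem_sdiff]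
        by_cases hF' : w ∈ F
        · exact Or.inr (Or.inl (Or.inl hF'))
        · by_cases hG' : w ∈ G
          · by_cases hP' : w ∈ Finset.image p ((W \ G) \ F)
            · exact Or.inr (Or.inr hP')
            · exact Or.inl ⟨⟨⟨hG', hF'⟩, hP'⟩, hw.2⟩
          · exact Or.inr (Or.inl (Or.inr ⟨⟨hw.1, hG'⟩, hF'⟩))
      refine (Finset.card_le_card h3).trans ((Finset.card_union_le _ _).trans ?_)
      have h4 := Finset.card_union_le (F ∪ B) (B.image p)
      have h5 := Finset.card_union_le F B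
      omega
    omega
  obtain ⟨ρ0, hr1, hr2, hr3⟩ := dense_matching hTe hTd
  -- the inverse of `p` on its image
  obtain ⟨q, hq⟩ : ∃ q : V → V, ∀ b ∈ B, q (p b) = b := by
    refine ⟨fun v => if h : ∃ b ∈ B, p b = v then h.choose else v, fun b hb => ?_⟩
    have hex : ∃ b' ∈ B, p b' = p b := ⟨b, hb, rfl⟩
    show (if h : ∃ b' ∈ B, p b' = p b then h.choose else p b) = b
    rw [dif_pos hex]
    exact hp2 (Finset.mem_coe.mpr hex.choose_spec.1) (Finset.mem_coe.mpr hb) hex.choose_spec.2
  have hBnG : ∀ v ∈ B, v ∉ G := by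
    intro v hv
    rw [hB, Finset.mem_sdiff, Finset.mem_sdiff] at hv
    exact hv.1.2
  have hpB : ∀ b ∈ B, p b ∉ B := fun b hb h => hBnG _ h (Finset.mem_sdiff.mp (hp1 b hb).1).1
  have hTB : ∀ v ∈ T, v ∉ B := by
    intro v hv h
    rw [hT, Finset.mem_sdiff, Finset.mem_sdiff] at hv
    exact hBnG v h hv.1.1
  have hTP : ∀ v ∈ T, v ∉ B.image p := by
    intro v hv
    rw [hT, Finset.mem_sdiff] at hv
    exact hv.2
  have hr4 : ∀ v ∈ T, ρ0 v ∈ T := by
    intro v hv
    rw [← hr2, hr1]
    exact fun h => ((hr2 v).mpr hv) h.symm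
  obtain ⟨f, hf⟩ : ∃ f : V → V, f = fun v => if v ∈ B then p v else
      if v ∈ B.image p then q v else ρ0 v := ⟨_, rfl⟩
  have hf1 : ∀ v ∈ B, f v = p v := by
    intro v hv
    rw [hf]
    simp only [if_pos hv]
  have hf2 : ∀ b ∈ B, f (p b) = b := by
    intro b hb
    rw [hf]
    simp only [if_neg (hpB b hb), if_pos (Finset.mem_image_of_mem p hb)]
    exact hq b hb
  have hf3 : ∀ v, v ∉ B → v ∉ B.image p → f v = ρ0 v := by
    intro v hv hv'
    rw [hf]
    simp only [if_neg hv, if_neg hv']
  have hinv : Function.Involutive f := by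
    intro v
    by_cases hv : v ∈ B
    · rw [hf1 v hv, hf2 v hv]
    · by_cases hv' : v ∈ B.image p
      · obtain ⟨b, hb, rfl⟩ := Finset.mem_image.mp hv'
        rw [hf2 b hb, hf1 b hb]
      · rw [hf3 v hv hv']
        by_cases hvT : v ∈ T
        · rw [hf3 _ (hTB _ (hr4 v hvT)) (hTP _ (hr4 v hvT)), hr1]
        · have : ρ0 v = v := by
            by_contra h
            exact hvT ((hr2 v).mp h)
          rw [this, hf3 v hv hv', this]
  refine ⟨hinv.toPerm f, fun v => hinv v, ?_, ?_⟩
  · intro v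
    show f v ≠ v ↔ v ∈ W \ F
    by_cases hv : v ∈ B
    · rw [hf1 v hv]
      constructor
      · intro _
        rw [hB, Finset.mem_sdiff, Finset.mem_sdiff] at hv
        exact Finset.mem_sdiff.mpr ⟨hv.1.1, hv.2⟩
      · intro _ h
        exact hpB v hv (by rw [h]; exact hv)
    · by_cases hv' : v ∈ B.image p
      · obtain ⟨b, hb, rfl⟩ := Finset.mem_image.mp hv'
        rw [hf2 b hb]
        constructor
        · intro _
          have := Finset.mem_sdiff.mp (hp1 b hb).1
          exact Finset.mem_sdiff.mpr ⟨hG this.1, this.2⟩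
        · intro _ h
          exact hv (by rw [← h]; exact hb)
      · rw [hf3 v hv hv', hr2, hT]
        rw [hB, Finset.mem_sdiff, Finset.mem_sdiff] at hv
        rw [Finset.mem_sdiff, Finset.mem_sdiff, Finset.mem_sdiff]
        constructor
        · rintro ⟨⟨h1, h2⟩, _⟩
          exact ⟨hG h1, h2⟩
        · rintro ⟨h1, h2⟩
          refine ⟨⟨?_, h2⟩, hv'⟩
          by_contra h3
          exact hv ⟨⟨h1, h3⟩, h2⟩
  · intro v hvW
    show H.Adj v (f v)
    by_cases hv : v ∈ B
    · rw [hf1 v hv]
      exact (hp1 v hv).2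
    · by_cases hv' : v ∈ B.image p
      · obtain ⟨b, hb, rfl⟩ := Finset.mem_image.mp hv'
        rw [hf2 b hb]
        exact (hp1 b hb).2.symm
      · rw [hf3 v hv hv']
        apply hr3
        rw [hT, Finset.mem_sdiff, Finset.mem_sdiff]
        rw [Finset.mem_sdiff] at hvW
        rw [hB, Finset.mem_sdiff, Finset.mem_sdiff] at hv
        refine ⟨⟨?_, hvW.2⟩, hv'⟩
        by_contra h3
        exact hv ⟨⟨hvW.1, h3⟩, hvW.2⟩

end Pool.Agent.H44T
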