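import Pool.Agent.Lib.H44T.TDefs

/-!
# Chunk F1 (M): two entries in different lines, few tight lines

`B` a table on `A × C` with entries `≥ 0`, row sums `R a`, column sums `S c`, total `T = D + 2 k`, `k ≥ 1`, `m c ≥ 0`, `∑ m ≤ D`;
`R a ≤ D + k`, `S c + m c ≤ D + k`. A row with `R a = D + k` or a column with `S c + m c = D + k` is called tight.
* `tight_rows`: three different tight rows are impossible (`3 (D + k) ≤ D + 2 k`); if `a ≠ a'` are tight then `D = 0`, all other rows are zero.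
* `tight_cols`: three different tight columns are impossible (`3 (D + k) - D ≤ D + 2 k`); if `c ≠ c'` are tight then `m c + m c' = D` and all other columns
  are zero, `S c = k + m c'`, `S c' = k + m c`.
* `one_row_zero` etc.: a positive entry exists outside every row (`T - R a ≥ k`) and outside every column (`T - S c ≥ k`).
-/

namespace Pool.Agent.H44T

open Finset Pool.Agent.H44O
open scoped Classical

variable {A C : Type*} [Fintype A] [Fintype C]

/-- The hypotheses on the table. -/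
structure Tab (B : A → C → ℤ) (m : C → ℤ) (D k : ℤ) : Prop where
  /-- entries -/
  nonneg : ∀ a c, 0 ≤ B a c
  /-- weights -/
  mnn : ∀ c, 0 ≤ m c
  /-- total weight -/
  msum : ∑ c, m c ≤ D
  /-- total -/
  total : ∑ a, ∑ c, B a c = D + 2 * k
  /-- rows -/
  row : ∀ a, ∑ c, B a c ≤ D + k
  /-- columns -/
  col : ∀ c, (∑ a, B a c) + m c ≤ D + k
  /-- at least one step is to be done -/
  kpos : 1 ≤ k

theorem f1_pair {ι : Type*} [Fintype ι] {f : ι → ℤ} (hf : ∀ i, 0 ≤ f i) {a b : ι} (h : a ≠ b) :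
    f a + f b ≤ ∑ i, f i := by
  rw [← Finset.sum_pair h]
  exact Finset.sum_le_sum_of_subset_of_nonneg (Finset.subset_univ _) (fun i _ _ => hf i)

theorem f1_triple {ι : Type*} [Fintype ι] {f : ι → ℤ} (hf : ∀ i, 0 ≤ f i) {a b c : ι} (h : a ≠ b)
    (h1 : c ≠ a) (h2 : c ≠ b) : f c + (f a + f b) ≤ ∑ i, f i := by
  have h3 : c ∉ ({a, b} : Finset ι) := by
    rw [Finset.mem_insert, Finset.mem_singleton]
    rintro (h | h)
    · exact h1 h
    · exact h2 h
  rw [← Finset.sum_pair h, ← Finset.sum_insert h3]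
  exact Finset.sum_le_sum_of_subset_of_nonneg (Finset.subset_univ _) (fun i _ _ => hf i)

theorem f1_Dnn {B : A → C → ℤ} {m : C → ℤ} {D k : ℤ} (h : Tab B m D k) : 0 ≤ D :=
  (Finset.sum_nonneg (fun c _ => h.mnn c)).trans h.msum

theorem f1_total' {B : A → C → ℤ} {m : C → ℤ} {D k : ℤ} (h : Tab B m D k) :
    ∑ c, ∑ a, B a c = D + 2 * k := by
  rw [Finset.sum_comm]
  exact h.total

theorem off_row {B : A → C → ℤ} {m : C → ℤ} {D k : ℤ} (h : Tab B m D k) (a : A) :
    ∃ a' c, a' ≠ a ∧ 1 ≤ B a' c := by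
  by_contra hcon
  have h0 : ∀ a' c, a' ≠ a → B a' c = 0 := by
    intro a' c hne
    by_contra h1
    exact hcon ⟨a', c, hne, by have := h.nonneg a' c; omega⟩
  have h1 : ∑ a', ∑ c, B a' c = ∑ c, B a c := by
    apply Finset.sum_eq_single a
    · intro a' _ hne
      exact Finset.sum_eq_zero (fun c _ => h0 a' c hne)
    · intro h; exact absurd (Finset.mem_univ _) h
  have h2 := h.row a
  have h3 := h.total
  have h4 := h.kpos
  rw [h1] at h3
  omega

theorem off_col {B : A → C → ℤ} {m : C → ℤ} {D k : ℤ} (h : Tab B m D k) (c : C) :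
    ∃ a c', c' ≠ c ∧ 1 ≤ B a c' := by
  by_contra hcon
  have h0 : ∀ a c', c' ≠ c → B a c' = 0 := by
    intro a c' hne
    by_contra h1
    exact hcon ⟨a, c', hne, by have := h.nonneg a c'; omega⟩
  have h1 : ∑ c', ∑ a, B a c' = ∑ a, B a c := by
    apply Finset.sum_eq_single c
    · intro c' _ hne
      exact Finset.sum_eq_zero (fun a _ => h0 a c' hne)
    · intro h; exact absurd (Finset.mem_univ _) h
  have h2 := h.col c
  have h3 := f1_total' h
  have h4 := h.kpos
  have h5 := h.mnn c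
  rw [h1] at h3
  omega

theorem tight_rows {B : A → C → ℤ} {m : C → ℤ} {D k : ℤ} (h : Tab B m D k) {a a' : A}
    (hne : a ≠ a') (h1 : ∑ c, B a c = D + k) (h2 : ∑ c, B a' c = D + k) :
    D = 0 ∧ ∀ a'' c, a'' ≠ a → a'' ≠ a' → B a'' c = 0 := by
  have hr : ∀ e, 0 ≤ ∑ c, B e c := fun e => Finset.sum_nonneg (fun c _ => h.nonneg e c)
  have h3 := f1_pair hr hne
  have h4 := h.total
  have hD := f1_Dnn h
  simp only [h1, h2, h4] at h3
  refine ⟨by omega, fun a'' c hn hn' => ?_⟩
  have h5 := f1_triple hr hne hn hn'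
  simp only [h1, h2, h4] at h5
  have h6 : B a'' c ≤ ∑ c, B a'' c :=
    Finset.single_le_sum (f := fun c => B a'' c) (fun c _ => h.nonneg a'' c) (Finset.mem_univ c)
  have h7 := h.nonneg a'' c
  omega

theorem tight_cols {B : A → C → ℤ} {m : C → ℤ} {D k : ℤ} (h : Tab B m D k) {c c' : C}
    (hne : c ≠ c') (h1 : (∑ a, B a c) + m c = D + k) (h2 : (∑ a, B a c') + m c' = D + k) :
    m c + m c' = D ∧ ∀ a c'', c'' ≠ c → c'' ≠ c' → B a c'' = 0 := by
  have hr : ∀ e, 0 ≤ ∑ a, B a e := fun e => Finset.sum_nonneg (fun a _ => h.nonneg a e)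
  have h3 := f1_pair hr hne
  have h4 := f1_total' h
  have h8 := f1_pair h.mnn hne
  have h9 := h.msum
  simp only [h4] at h3
  refine ⟨by omega, fun a c'' hn hn' => ?_⟩
  have h5 := f1_triple hr hne hn hn'
  simp only [h4] at h5
  have h6 : B a c'' ≤ ∑ a, B a c'' :=
    Finset.single_le_sum (f := fun a => B a c'') (fun a _ => h.nonneg a c'') (Finset.mem_univ a)
  have h7 := h.nonneg a c''
  omega

end Pool.Agent.H44T
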