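import Pool.Agent.Lib.H44T.F1

/-!
# Chunk F2 (M): at most one tight row and at most one tight column

The conclusion asks for positive entries `(a, c)`, `(a', c')`, `a ≠ a'`, `c ≠ c'`, such that every tight row is `a` or `a'` and every tight column is `c` or `c'`.
Under `h1`, `h2` (all tight rows are equal, all tight columns are equal):
* no tight line: any two positive entries in different rows and columns. Take `(a, c)` positive and, by `off_row`, `(a', c')` positive with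
  `a' ≠ a`. If `c' ≠ c` done; otherwise by `off_col` `(e, f)` positive with `f ≠ c`; `e ≠ a` or `e ≠ a'`: pair it with `(a, c)` or `(a', c)`.
* a tight row `a0` and no tight column: a positive entry `(a0, c)` exists (`D + k ≥ 1`), and `(a', c')` with `a' ≠ a0` (`off_row`). If `c ≠ c'` done. Otherwise by `off_col`
  `(e, f)` positive with `f ≠ c`: if `e = a0` take `(a0, f), (a', c)`, else `(a0, c), (e, f)`. Symmetric: a tight column and no tight row.
* tight row `a0` and tight column `c0`. (`S c0 = D + k - m c0 ≥ k ≥ 1`.) If there are positive entries `(a0, c)` with `c ≠ c0` and `(a', c0)` with `a' ≠ a0`: take them.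
  If all positive entries of row `a0` are in column `c0`: `(a0, c0)` is positive; by `off_col` there is `(e, f)` with `f ≠ c0`, and `e ≠ a0`. If all positive
  entries of column `c0` are in row `a0`: `(a0, c0)` is positive, by `off_row` `(e, f)` with `e ≠ a0`, and `f ≠ c0`.
-/

namespace Pool.Agent.H44T

open Finset Pool.Agent.H44O
open scoped Classical

variable {A C : Type*} [Fintype A] [Fintype C]

/-- two positive entries in different lines that meet all tight lines -/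
def TwoEntries (B : A → C → ℤ) (m : C → ℤ) (D k : ℤ) : Prop :=
  ∃ a a' c c', a ≠ a' ∧ c ≠ c' ∧ 1 ≤ B a c ∧ 1 ≤ B a' c' ∧
    (∀ e, ∑ f, B e f = D + k → e = a ∨ e = a') ∧
    ∀ f, (∑ e, B e f) + m f = D + k → f = c ∨ f = c'

omit [Fintype A] [Fintype C] in
theorem f2_p2 {P : A → C → Prop} (hrow : ∀ a, ∃ a' c, a' ≠ a ∧ P a' c)
    (hcol : ∀ c, ∃ a c', c' ≠ c ∧ P a c') {a0 : A} {c1 : C} (h0 : P a0 c1) :
    ∃ a' c c', a0 ≠ a' ∧ c ≠ c' ∧ P a0 c ∧ P a' c' := by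
  obtain ⟨a', c', h1, h2⟩ := hrow a0
  by_cases h3 : c1 = c'
  · obtain ⟨e, f, h4, h5⟩ := hcol c1
    by_cases h6 : e = a0
    · refine ⟨a', f, c', Ne.symm h1, ?_, h6 ▸ h5, h2⟩
      rw [← h3]; exact h4
    · exact ⟨e, c1, f, fun h => h6 h.symm, Ne.symm h4, h0, h5⟩
  · exact ⟨a', c1, c', Ne.symm h1, h3, h0, h2⟩

omit [Fintype A] [Fintype C] in
theorem f2_p4 {P : A → C → Prop} (hrow : ∀ a, ∃ a' c, a' ≠ a ∧ P a' c)
    (hcol : ∀ c, ∃ a c', c' ≠ c ∧ P a c') {a0 : A} {c1 : C} (h0 : P a0 c1) {a1 : A} {c0 : C}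
    (h1 : P a1 c0) :
    ∃ a a' c c', a ≠ a' ∧ c ≠ c' ∧ P a c ∧ P a' c' ∧ (a0 = a ∨ a0 = a') ∧
      (c0 = c ∨ c0 = c') := by
  by_cases h2 : ∃ c, c ≠ c0 ∧ P a0 c
  · obtain ⟨c, h3, h4⟩ := h2
    by_cases h5 : ∃ a', a' ≠ a0 ∧ P a' c0
    · obtain ⟨a', h6, h7⟩ := h5
      exact ⟨a0, a', c, c0, Ne.symm h6, h3, h4, h7, Or.inl rfl, Or.inr rfl⟩
    · have h6 : a1 = a0 := by
        by_contra h; exact h5 ⟨a1, h, h1⟩
      obtain ⟨e, f, h7, h8⟩ := hrow a0
      have h9 : f ≠ c0 := fun h => h5 ⟨e, h7, h ▸ h8⟩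
      exact ⟨a0, e, c0, f, Ne.symm h7, Ne.symm h9, h6 ▸ h1, h8, Or.inl rfl, Or.inl rfl⟩
  · have h3 : c1 = c0 := by
      by_contra h; exact h2 ⟨c1, h, h0⟩
    obtain ⟨e, f, h4, h5⟩ := hcol c0
    have h6 : e ≠ a0 := fun h => h2 ⟨f, h4, h ▸ h5⟩
    exact ⟨a0, e, c0, f, Ne.symm h6, Ne.symm h4, h3 ▸ h0, h5, Or.inl rfl, Or.inl rfl⟩

theorem f2_D {B : A → C → ℤ} {m : C → ℤ} {D k : ℤ} (h : Tab B m D k) : 0 ≤ D :=
  le_trans (Finset.sum_nonneg fun c _ => h.mnn c) h.msum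

theorem f2_row {B : A → C → ℤ} {m : C → ℤ} {D k : ℤ} (h : Tab B m D k) {a : A}
    (ha : ∑ c, B a c = D + k) : ∃ c, 1 ≤ B a c := by
  by_contra hc
  push Not at hc
  have h1 : ∑ c, B a c ≤ 0 := Finset.sum_nonpos fun c _ => by have := hc c; omega
  have h2 := f2_D h
  have h3 := h.kpos
  omega

theorem f2_col {B : A → C → ℤ} {m : C → ℤ} {D k : ℤ} (h : Tab B m D k) {c : C}
    (hc : (∑ a, B a c) + m c = D + k) : ∃ a, 1 ≤ B a c := by
  by_contra ha
  push Not at ha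
  have h1 : ∑ a, B a c ≤ 0 := Finset.sum_nonpos fun a _ => by have := ha a; omega
  have h2 : m c ≤ ∑ c, m c :=
    Finset.single_le_sum (f := m) (fun c _ => h.mnn c) (Finset.mem_univ c)
  have h3 := h.kpos
  have h4 := h.msum
  omega

theorem f2_any {B : A → C → ℤ} {m : C → ℤ} {D k : ℤ} (h : Tab B m D k) : ∃ a c, 1 ≤ B a c := by
  by_contra hc
  push Not at hc
  have h1 : ∑ a, ∑ c, B a c ≤ 0 :=
    Finset.sum_nonpos fun a _ => Finset.sum_nonpos fun c _ => by have := hc a c; omega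
  have h2 := f2_D h
  have h3 := h.kpos
  have h4 := h.total
  omega

theorem two_entries_one {B : A → C → ℤ} {m : C → ℤ} {D k : ℤ} (h : Tab B m D k)
    (h1 : ∀ e e', ∑ f, B e f = D + k → ∑ f, B e' f = D + k → e = e')
    (h2 : ∀ f f', (∑ e, B e f) + m f = D + k → (∑ e, B e f') + m f' = D + k → f = f') :
    TwoEntries B m D k := by
  have hrow : ∀ a, ∃ a' c, a' ≠ a ∧ 1 ≤ B a' c := off_row h
  have hcol : ∀ c, ∃ a c', c' ≠ c ∧ 1 ≤ B a c' := off_col h
  by_cases hR : ∃ a0, ∑ f, B a0 f = D + k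
  · obtain ⟨a0, ha0⟩ := hR
    obtain ⟨c1, hc1⟩ := f2_row h ha0
    by_cases hS : ∃ c0, (∑ e, B e c0) + m c0 = D + k
    · obtain ⟨c0, hc0⟩ := hS
      obtain ⟨a1, ha1⟩ := f2_col h hc0
      obtain ⟨a, a', c, c', g1, g2, g3, g4, g5, g6⟩ :=
        f2_p4 (P := fun a c => 1 ≤ B a c) hrow hcol hc1 ha1
      refine ⟨a, a', c, c', g1, g2, g3, g4, fun e he => ?_, fun f hf => ?_⟩
      · rw [h1 e a0 he ha0]; exact g5
      · rw [h2 f c0 hf hc0]; exact g6
    · obtain ⟨a', c, c', g1, g2, g3, g4⟩ := f2_p2 (P := fun a c => 1 ≤ B a c) hrow hcol hc1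
      exact ⟨a0, a', c, c', g1, g2, g3, g4, fun e he => Or.inl (h1 e a0 he ha0),
        fun f hf => absurd ⟨f, hf⟩ hS⟩
  · by_cases hS : ∃ c0, (∑ e, B e c0) + m c0 = D + k
    · obtain ⟨c0, hc0⟩ := hS
      obtain ⟨a1, ha1⟩ := f2_col h hc0
      obtain ⟨c', a, a', g1, g2, g3, g4⟩ := f2_p2 (P := fun c a => 1 ≤ B a c)
        (fun c => by obtain ⟨a, c', q1, q2⟩ := hcol c; exact ⟨c', a, q1, q2⟩)
        (fun a => by obtain ⟨a', c, q1, q2⟩ := hrow a; exact ⟨c, a', q1, q2⟩) ha1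
      exact ⟨a, a', c0, c', g2, g1, g3, g4, fun e he => absurd ⟨e, he⟩ hR,
        fun f hf => Or.inl (h2 f c0 hf hc0)⟩
    · obtain ⟨a0, c0, h0⟩ := f2_any h
      obtain ⟨a', c, c', g1, g2, g3, g4⟩ := f2_p2 (P := fun a c => 1 ≤ B a c) hrow hcol h0
      exact ⟨a0, a', c, c', g1, g2, g3, g4, fun e he => absurd ⟨e, he⟩ hR,
        fun f hf => absurd ⟨f, hf⟩ hS⟩

end Pool.Agent.H44T
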