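import Pool.Agent.Lib.H44T.F2

/-!
# Chunk F3 (M): two tight rows or two tight columns

* Two tight rows `a ≠ a'` (`tight_rows`: `D = 0`, all other rows zero; so `m = 0`, the sums of the rows `a`, `a'` and every tight column are `k`). Every tight row is `a` or `a'`.
  - two tight columns `c ≠ c'`: all other columns are zero (`tight_cols`), so `B a c + B a c' = k` and `B a c + B a' c = k`, `B a' c' = B a c`: if `B a c ≥ 1` take `(a, c), (a', c')`,
    otherwise `B a c' = B a' c = k`: take `(a, c'), (a', c)`.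
  - exactly one tight column `c0`: `B a c0 + B a' c0 = k`. If `B a c0 ≥ 1`: row `a'` has a positive entry outside `c0` (`k - B a' c0 = B a c0 ≥ 1`): take it with
    `(a, c0)`. If `B a c0 = 0`: `B a' c0 = k`, take `(a', c0)` and any positive entry of row `a` (not in column `c0`).
  - no tight column: positive `(a, c)`, `(a', c')`; if `c = c'` for all choices, all positive entries are in one column `c` and `S c = 2 k > k`: contradiction.
* At most one tight row and two tight columns `c ≠ c'` (all other columns zero, `m c + m c' = D`, `S c = k + m c'`, `S c' = k + m c`). Every tight column is `c` or `c'`. If there is no tight row: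
  positive `(a, c)`, `(a', c')` with `a ≠ a'` exist, otherwise all positive entries are in one row `a` and `R a = D + 2 k > D + k`. Let `a0` be the tight row, `α = B a0 c`, `B a0 c' = D + k - α`.
  If `α ≥ 1` and `S c' > B a0 c'`: take `(a0, c)` and `(a', c')` with `a' ≠ a0`. If `α ≥ 1` and `S c' = B a0 c'`: `k + m c = D + k - α`, so `α = D - m c = m c'`, `S c = k + α > α`, and
  `B a0 c' = S c' ≥ 1`: take `(a0, c')`, `(a', c)` with `a' ≠ a0`. If `α = 0`: `B a0 c' = D + k ≥ 1`, `S c ≥ 1`: take `(a0, c')` and any positive `(a', c)`.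
* Otherwise `two_entries_one`.
-/

namespace Pool.Agent.H44T

open Finset Pool.Agent.H44O
open scoped Classical

variable {A C : Type*} [Fintype A] [Fintype C]

theorem f3_ex {ι : Type*} [Fintype ι] {f : ι → ℤ} (hf : ∀ i, 0 ≤ f i) (a : ι)
    (h : f a < ∑ i, f i) : ∃ b, b ≠ a ∧ 1 ≤ f b := by
  by_contra hcon
  have h0 : ∀ b, b ≠ a → f b = 0 := by
    intro b hb
    by_contra h1
    exact hcon ⟨b, hb, by have := hf b; omega⟩
  have h1 : ∑ i, f i = f a := by
    apply Finset.sum_eq_single a
    · intro b _ hb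
      exact h0 b hb
    · intro h; exact absurd (Finset.mem_univ _) h
  omega

theorem f3_one {ι : Type*} [Fintype ι] {f : ι → ℤ} (a : ι)
    (h : ∀ b, b ≠ a → f b = 0) : ∑ i, f i = f a := by
  apply Finset.sum_eq_single a
  · intro b _ hb
    exact h b hb
  · intro h; exact absurd (Finset.mem_univ _) h

theorem f3_two {ι : Type*} [Fintype ι] {f : ι → ℤ} {a b : ι} (hab : a ≠ b)
    (h : ∀ c, c ≠ a → c ≠ b → f c = 0) : ∑ i, f i = f a + f b := by
  rw [← Finset.sum_pair hab]
  symm
  apply Finset.sum_subset (Finset.subset_univ _)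
  intro c _ hc
  rw [Finset.mem_insert, Finset.mem_singleton] at hc
  exact h c (fun h => hc (Or.inl h)) (fun h => hc (Or.inr h))

theorem f3_pos {ι : Type*} [Fintype ι] {f : ι → ℤ} (hf : ∀ i, 0 ≤ f i)
    (h : 0 < ∑ i, f i) : ∃ b, 1 ≤ f b := by
  by_contra hcon
  have h0 : ∀ b, f b = 0 := by
    intro b
    by_contra h1
    exact hcon ⟨b, by have := hf b; omega⟩
  rw [Finset.sum_eq_zero (fun b _ => h0 b)] at h
  exact lt_irrefl _ h

/-- two tight rows -/
theorem f3_rows {B : A → C → ℤ} {m : C → ℤ} {D k : ℤ} (h : Tab B m D k) {a a' : A}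
    (hne : a ≠ a') (t1 : ∑ c, B a c = D + k) (t2 : ∑ c, B a' c = D + k) :
    TwoEntries B m D k := by
  obtain ⟨hD, hz⟩ := tight_rows h hne t1 t2
  subst hD
  have hk := h.kpos
  have hm : ∀ c, m c = 0 := by
    intro c
    have h1 : m c ≤ ∑ c, m c := Finset.single_le_sum (fun c _ => h.mnn c) (Finset.mem_univ c)
    have h2 := h.mnn c
    have h3 := h.msum
    omega
  have hrows : ∀ e, ∑ f, B e f = 0 + k → e = a ∨ e = a' := by
    intro e he
    by_contra hcon
    have h1 : ∑ f, B e f = 0 := Finset.sum_eq_zero (fun f _ =>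
      hz e f (fun h => hcon (Or.inl h)) (fun h => hcon (Or.inr h)))
    omega
  have hS : ∀ c, ∑ e, B e c = B a c + B a' c := by
    intro c
    exact f3_two hne (fun e h1 h2 => hz e c h1 h2)
  have hcol : ∀ c, B a c + B a' c ≤ k := by
    intro c
    have h1 := h.col c
    rw [hS c, hm c] at h1
    omega
  rw [zero_add] at t1 t2
  by_cases hc2 : ∃ c c', c ≠ c' ∧ (∑ e, B e c) + m c = 0 + k ∧ (∑ e, B e c') + m c' = 0 + k
  · obtain ⟨c, c', hcc, s1, s2⟩ := hc2
    obtain ⟨_, hz'⟩ := tight_cols h hcc s1 s2
    have hcols : ∀ f, (∑ e, B e f) + m f = 0 + k → f = c ∨ f = c' := by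
      intro f hf
      by_contra hcon
      have h1 : ∑ e, B e f = 0 := Finset.sum_eq_zero (fun e _ =>
        hz' e f (fun h => hcon (Or.inl h)) (fun h => hcon (Or.inr h)))
      rw [h1, hm f] at hf
      omega
    have r1 : B a c + B a c' = k := by
      rw [← t1]
      exact (f3_two hcc (fun f h1 h2 => hz' a f h1 h2)).symm
    have r2 : B a' c + B a' c' = k := by
      rw [← t2]
      exact (f3_two hcc (fun f h1 h2 => hz' a' f h1 h2)).symm
    rw [hS, hm] at s1 s2
    by_cases hp : 1 ≤ B a c
    · exact ⟨a, a', c, c', hne, hcc, hp, by omega, hrows, hcols⟩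
    · have := h.nonneg a c
      exact ⟨a, a', c', c, hne, hcc.symm, by omega, by omega, hrows, fun f hf => (hcols f hf).symm⟩
  · have huniq : ∀ f f', (∑ e, B e f) + m f = 0 + k → (∑ e, B e f') + m f' = 0 + k → f = f' := by
      intro f f' h1 h2
      by_contra hcon
      exact hc2 ⟨f, f', hcon, h1, h2⟩
    by_cases hc1 : ∃ c0, (∑ e, B e c0) + m c0 = 0 + k
    · obtain ⟨c0, s0⟩ := hc1
      have hs : B a c0 + B a' c0 = k := by
        rw [← hS c0]
        rw [hm c0] at s0
        omega
      by_cases hp : 1 ≤ B a c0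
      · obtain ⟨f, hf, hpf⟩ := f3_ex (f := fun f => B a' f) (fun f => h.nonneg a' f) c0 (by
          simp only [t2]
          omega)
        exact ⟨a, a', c0, f, hne, hf.symm, hp, hpf, hrows, fun f' hf' => Or.inl (huniq f' c0 hf' s0)⟩
      · have h0 := h.nonneg a c0
        obtain ⟨f, hpf⟩ := f3_pos (f := fun f => B a f) (fun f => h.nonneg a f) (by
          simp only [t1]
          omega)
        have hf : f ≠ c0 := by
          intro he
          rw [he] at hpf
          exact hp hpf
        exact ⟨a, a', f, c0, hne, hf, hpf, by omega, hrows,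
          fun f' hf' => Or.inr (huniq f' c0 hf' s0)⟩
    · have hno : ∀ (P : C → Prop), ∀ f, (∑ e, B e f) + m f = 0 + k → P f :=
        fun P f hf => absurd ⟨f, hf⟩ hc1
      obtain ⟨c, hpc⟩ := f3_pos (f := fun f => B a f) (fun f => h.nonneg a f) (by
        simp only [t1]
        omega)
      by_cases h1 : ∃ c', c' ≠ c ∧ 1 ≤ B a' c'
      · obtain ⟨c', hcc, hpc'⟩ := h1
        exact ⟨a, a', c, c', hne, hcc.symm, hpc, hpc', hrows, hno _⟩
      · have h0 : ∀ f, f ≠ c → B a' f = 0 := by
          intro f hf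
          by_contra h2
          exact h1 ⟨f, hf, by have := h.nonneg a' f; omega⟩
        have h2 : B a' c = k := by
          rw [← t2]
          exact (f3_one (f := fun f => B a' f) c h0).symm
        by_cases h3 : ∃ f, f ≠ c ∧ 1 ≤ B a f
        · obtain ⟨f, hf, hpf⟩ := h3
          exact ⟨a, a', f, c, hne, hf, hpf, by omega, hrows, hno _⟩
        · exfalso
          have h4 : ∀ f, f ≠ c → B a f = 0 := by
            intro f hf
            by_contra h5
            exact h3 ⟨f, hf, by have := h.nonneg a f; omega⟩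
          have h5 : B a c = k := by
            rw [← t1]
            exact (f3_one (f := fun f => B a f) c h4).symm
          have h6 := hcol c
          omega

/-- two tight columns, at most one tight row -/
theorem f3_cols {B : A → C → ℤ} {m : C → ℤ} {D k : ℤ} (h : Tab B m D k)
    (huniq : ∀ e e', ∑ f, B e f = D + k → ∑ f, B e' f = D + k → e = e') {c c' : C}
    (hcc : c ≠ c') (s1 : (∑ e, B e c) + m c = D + k) (s2 : (∑ e, B e c') + m c' = D + k) :
    TwoEntries B m D k := by
  obtain ⟨hmm, hz'⟩ := tight_cols h hcc s1 s2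
  have hk := h.kpos
  have hD := f1_Dnn h
  have hm1 := h.mnn c
  have hm2 := h.mnn c'
  have hcols : ∀ f, (∑ e, B e f) + m f = D + k → f = c ∨ f = c' := by
    intro f hf
    by_contra hcon
    have hn1 : f ≠ c := fun h => hcon (Or.inl h)
    have hn2 : f ≠ c' := fun h => hcon (Or.inr h)
    have h1 : ∑ e, B e f = 0 := Finset.sum_eq_zero (fun e _ => hz' e f hn1 hn2)
    have h2 := f1_triple h.mnn hcc hn1 hn2
    have h3 := h.msum
    omega
  have hcols' : ∀ f, (∑ e, B e f) + m f = D + k → f = c' ∨ f = c := fun f hf => (hcols f hf).symm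
  have hrow : ∀ e, ∑ f, B e f = B e c + B e c' := fun e =>
    f3_two hcc (fun f h1 h2 => hz' e f h1 h2)
  have hS1 : ∑ e, B e c = k + m c' := by omega
  have hS2 : ∑ e, B e c' = k + m c := by omega
  by_cases hr : ∃ a0, ∑ f, B a0 f = D + k
  · obtain ⟨a0, t0⟩ := hr
    have hl : ∀ e', ∀ e, ∑ f, B e f = D + k → e = a0 ∨ e = e' := fun e' e he =>
      Or.inl (huniq e a0 he t0)
    have t1 := t0
    rw [hrow a0] at t1
    by_cases hp : 1 ≤ B a0 c
    · by_cases h1 : ∃ e, e ≠ a0 ∧ 1 ≤ B e c'
      · obtain ⟨e, he, hpe⟩ := h1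
        exact ⟨a0, e, c, c', he.symm, hcc, hp, hpe, hl e, hcols⟩
      · have h0 : ∀ e, e ≠ a0 → B e c' = 0 := by
          intro e he
          by_contra h2
          exact h1 ⟨e, he, by have := h.nonneg e c'; omega⟩
        have h2 : B a0 c' = k + m c := by
          rw [← hS2]
          exact (f3_one (f := fun e => B e c') a0 h0).symm
        obtain ⟨e, he, hpe⟩ := f3_ex (f := fun e => B e c) (fun e => h.nonneg e c) a0 (by
          simp only [hS1]
          omega)
        exact ⟨a0, e, c', c, he.symm, hcc.symm, by omega, hpe, hl e, hcols'⟩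
    · have h0 := h.nonneg a0 c
      obtain ⟨e, hpe⟩ := f3_pos (f := fun e => B e c) (fun e => h.nonneg e c) (by
        simp only [hS1]
        omega)
      have he : e ≠ a0 := by
        intro h
        rw [h] at hpe
        exact hp hpe
      exact ⟨a0, e, c', c, he.symm, hcc.symm, by omega, hpe, hl e, hcols'⟩
  · have hno : ∀ (P : A → Prop), ∀ e, ∑ f, B e f = D + k → P e := fun P e he => absurd ⟨e, he⟩ hr
    obtain ⟨e, hpe⟩ := f3_pos (f := fun e => B e c) (fun e => h.nonneg e c) (by
      simp only [hS1]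
      omega)
    by_cases h1 : ∃ e', e' ≠ e ∧ 1 ≤ B e' c'
    · obtain ⟨e', he, hpe'⟩ := h1
      exact ⟨e, e', c, c', he.symm, hcc, hpe, hpe', hno _, hcols⟩
    · have h0 : ∀ e', e' ≠ e → B e' c' = 0 := by
        intro e' he
        by_contra h2
        exact h1 ⟨e', he, by have := h.nonneg e' c'; omega⟩
      have h2 : B e c' = k + m c := by
        rw [← hS2]
        exact (f3_one (f := fun e => B e c') e h0).symm
      by_cases h3 : ∃ e', e' ≠ e ∧ 1 ≤ B e' c
      · obtain ⟨e', he, hpe'⟩ := h3
        exact ⟨e, e', c', c, he.symm, hcc.symm, by omega, hpe', hno _, hcols'⟩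
      · exfalso
        have h4 : ∀ e', e' ≠ e → B e' c = 0 := by
          intro e' he
          by_contra h5
          exact h3 ⟨e', he, by have := h.nonneg e' c; omega⟩
        have h5 : B e c = k + m c' := by
          rw [← hS1]
          exact (f3_one (f := fun e => B e c) e h4).symm
        have h6 := h.row e
        rw [hrow e] at h6
        omega

theorem two_entries {B : A → C → ℤ} {m : C → ℤ} {D k : ℤ} (h : Tab B m D k) :
    TwoEntries B m D k := by
  by_cases h1 : ∃ e e', e ≠ e' ∧ ∑ f, B e f = D + k ∧ ∑ f, B e' f = D + k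
  · obtain ⟨e, e', hne, t1, t2⟩ := h1
    exact f3_rows h hne t1 t2
  · have hu : ∀ e e', ∑ f, B e f = D + k → ∑ f, B e' f = D + k → e = e' := by
      intro e e' t1 t2
      by_contra hcon
      exact h1 ⟨e, e', hcon, t1, t2⟩
    by_cases h2 : ∃ f f', f ≠ f' ∧ (∑ e, B e f) + m f = D + k ∧ (∑ e, B e f') + m f' = D + k
    · obtain ⟨f, f', hne, s1, s2⟩ := h2
      exact f3_cols h hu hne s1 s2
    · apply two_entries_one h hu
      intro f f' s1 s2
      by_contra hcon
      exact h2 ⟨f, f', hcon, s1, s2⟩

end Pool.Agent.H44T
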