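import Pool.Agent.Lib.H44T.E1

/-!
# Chunk F4 (S/M): the table of the ends

* `Bm_nonneg`: `x ≥ 0` and `dg x w ≤ r`.
* `Bm_row`: `∑ c, Bm w c = (r - dg x w) + ∑ c ∉ W, x w c = r - din x W w = ends` for `w ∈ W`.
* `Bm_col`: for `c ∉ W`: `∑ w ∈ W, x w c = din x W c` (symmetry). `Bm_col_in`: for `c ∈ W` the only nonzero entry is `r - dg x c`.
* `Bm_out`: zero for `w ∉ W`.
* `Bm_total`: `∑ ends = r m - inW x W = r + 2 k`.
-/

namespace Pool.Agent.H44T

open Finset Pool.Agent.H44O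
open scoped Classical

variable {V : Type*} [Fintype V]

theorem Bm_nonneg {x : V → V → ℤ} (hx : IsW x) {r : ℤ} {W : Finset V}
    (hd : ∀ w ∈ W, dg x w ≤ r) (w c : V) : 0 ≤ Bm x r W w c := by
  unfold Bm
  split_ifs with h1 h2 h3
  · exact sub_nonneg.2 (hd w h1)
  · exact le_rfl
  · exact hx.nonneg w c
  · exact le_rfl

theorem Bm_row (x : V → V → ℤ) (r : ℤ) {W : Finset V} {w : V} (hw : w ∈ W) :
    ∑ c, Bm x r W w c = ends x r W w := by
  have h1 : ∑ c ∈ W, Bm x r W w c = r - dg x w := by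
    rw [Finset.sum_eq_single w]
    · unfold Bm
      rw [if_pos hw, if_pos hw, if_pos rfl]
    · intro c hc hcw
      unfold Bm
      rw [if_pos hw, if_pos hc, if_neg hcw]
    · intro h; exact absurd hw h
  have h2 : ∑ c ∈ Wᶜ, Bm x r W w c = ∑ c ∈ Wᶜ, x w c := by
    refine Finset.sum_congr rfl fun c hc => ?_
    unfold Bm
    rw [if_pos hw, if_neg (Finset.mem_compl.1 hc)]
  have h3 : dg x w = ∑ c ∈ W, x w c + ∑ c ∈ Wᶜ, x w c := by
    unfold dg
    rw [Finset.sum_add_sum_compl]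
  rw [← Finset.sum_add_sum_compl W, h1, h2, h3]
  unfold ends din
  ring

theorem Bm_col {x : V → V → ℤ} (hx : IsW x) (r : ℤ) {W : Finset V} {c : V} (hc : c ∉ W) :
    ∑ w, Bm x r W w c = din x W c := by
  have h1 : ∑ w ∈ W, Bm x r W w c = din x W c := by
    unfold din
    refine Finset.sum_congr rfl fun w hw => ?_
    unfold Bm
    rw [if_pos hw, if_neg hc, hx.symm]
  have h2 : ∑ w ∈ Wᶜ, Bm x r W w c = 0 := by
    refine Finset.sum_eq_zero fun w hw => ?_
    unfold Bm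
    rw [if_neg (Finset.mem_compl.1 hw)]
  rw [← Finset.sum_add_sum_compl W, h1, h2, add_zero]

theorem Bm_col_in (x : V → V → ℤ) (r : ℤ) {W : Finset V} {c : V} (hc : c ∈ W) :
    ∑ w, Bm x r W w c = r - dg x c := by
  rw [Finset.sum_eq_single c]
  · unfold Bm
    rw [if_pos hc, if_pos hc, if_pos rfl]
  · intro w _ hwc
    unfold Bm
    split_ifs with h1 h2
    · exact absurd h2.symm hwc
    · rfl
    · rfl
  · intro h; exact absurd (Finset.mem_univ _) h

theorem Bm_total {x : V → V → ℤ} {r k : ℤ} {W : Finset V}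
    (hk : inW x W = r * ((W.card : ℤ) - 1) - 2 * k) :
    ∑ w, ∑ c, Bm x r W w c = r + 2 * k := by
  have h1 : ∑ w ∈ W, ∑ c, Bm x r W w c = ∑ w ∈ W, ends x r W w :=
    Finset.sum_congr rfl fun w hw => Bm_row x r hw
  have h2 : ∑ w ∈ Wᶜ, ∑ c, Bm x r W w c = 0 := by
    refine Finset.sum_eq_zero fun w hw => Finset.sum_eq_zero fun c _ => ?_
    unfold Bm
    rw [if_neg (Finset.mem_compl.1 hw)]
  rw [← Finset.sum_add_sum_compl W, h1, h2, add_zero, sum_ends, hk]
  ring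

end Pool.Agent.H44T
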