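import Pool.Agent.Lib.H44T.F4

/-!
# Chunk F5 (M/L): removing one matching with three ends

`St x r W k H`: the state; `H` is a fixed graph (the heavy pairs of the initial weight). `F = {w1, w2, w3}`, `ρ` the given matching of `W \ F` in `H`.
Real ends: `c i ∉ W` (then `x (w i) (c i) ≥ 1`); the others have `c i = w i` (then `dg x (w i) < r`). Define `τ`: `ρ` on `W \ F`; `w i ↔ c i` for the real ends (the real `c i` are
different); every other vertex is fixed (in particular `w i` if `c i = w i`). An involution. `chi τ ≤ x`: edges of `ρ`: `x ≥ k ≥ 1` on `H`; real ends: `x ≥ 1`.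
`x' = x - chi τ`. Check for the new state (`r - 1`, `k - 1`): `dg (chi τ) v` is `1` if `τ v ≠ v` and `0` otherwise. For `w ∈ W`: covered: `dg x' w = dg x w - 1`; not covered: `c i = w i = w` and
`dg x' w = dg x w ≤ r - 1`. `inW (chi τ) W = |W| - 3` (the vertices of `W \ F`), so `inW x' W = r (m - 1) - 2 k - (m - 3) = (r - 1)(m - 1) - 2 (k - 1)`. `H`-pairs: `≥ k - 1`.
`Bm x' (r - 1) W u c = Bm x r W u c - [(u, c) = (w i, c i) for some i]`: for `c ∉ W`: `chi τ u c` for `u ∈ W`; for `c = u ∈ W`: `(r - 1) - dg x' u`.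
Pairs outside `W` are not changed (`τ` maps `v ∉ W` to `W` or to itself).
-/

namespace Pool.Agent.H44T

open Finset Pool.Agent.H44O
open scoped Classical

variable {V : Type*} [Fintype V]

/-- The state during the peeling. -/
structure St (x : V → V → ℤ) (r : ℤ) (W : Finset V) (k : ℕ) (H : SimpleGraph V) : Prop where
  /-- weight -/
  isW : IsW x
  /-- degrees in `W` -/
  degW : ∀ w ∈ W, dg x w ≤ r
  /-- inside `W` -/
  ins : inW x W = r * ((W.card : ℤ) - 1) - 2 * k
  /-- heavy pairs -/
  hv : ∀ u v, H.Adj u v → (k : ℤ) ≤ x u v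

/-- `x'` is obtained from `x` by removing matchings (`l` of them), and the pairs outside `W` are not changed. -/
structure Peeled (x x' : V → V → ℤ) (r : ℤ) (W : Finset V) (l : ℕ) : Prop where
  /-- the matchings -/
  mats : ∃ M : List (Equiv.Perm V), M.length = l ∧ (∀ τ ∈ M, ∀ v, τ (τ v) = v) ∧
    ∀ u v, x u v = x' u v + (M.map (fun τ => chi τ u v)).sum
  /-- pairs outside -/
  out : ∀ u v, u ∉ W → v ∉ W → x' u v = x u v
  /-- the table of the ends -/
  tab : ∀ u c, Bm x' (r - l) W u c ≤ Bm x r W u c ∧ Bm x r W u c ≤ Bm x' (r - l) W u c + l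

theorem f5_tau {W : Finset V} {w c : Fin 3 → V} (iw : Function.Injective w)
    (ic : Function.Injective c) (hw : ∀ i, w i ∈ W) (hc : ∀ i, c i ∈ W → c i = w i)
    {ρ : Equiv.Perm V} (h1 : ∀ v, ρ (ρ v) = v) (h2 : ∀ v, ρ v ≠ v ↔ v ∈ W ∧ ∀ i, v ≠ w i) :
    ∃ τ : Equiv.Perm V, (∀ v, τ (τ v) = v) ∧ (∀ i, τ (w i) = c i) ∧ (∀ i, τ (c i) = w i) ∧
      (∀ v ∈ W, (∀ i, v ≠ w i) → τ v = ρ v) ∧ ∀ v, v ∉ W → (∀ i, v ≠ c i) → τ v = v := by
  let t : V → V := fun v => if v ∈ W then (if h : ∃ i, v = w i then c h.choose else ρ v)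
    else (if h : ∃ i, v = c i then w h.choose else v)
  have tw : ∀ i, t (w i) = c i := by
    intro i
    have h : ∃ j, w i = w j := ⟨i, rfl⟩
    show (if w i ∈ W then (if h : ∃ j, w i = w j then c h.choose else ρ (w i))
      else (if h : ∃ j, w i = c j then w h.choose else w i)) = c i
    rw [if_pos (hw i), dif_pos h]
    exact congrArg c (iw h.choose_spec).symm
  have tc : ∀ i, t (c i) = w i := by
    intro i
    by_cases hi : c i ∈ W
    · have e := hc i hi
      rw [e, tw, e]
    · have h : ∃ j, c i = c j := ⟨i, rfl⟩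
      show (if c i ∈ W then (if h : ∃ j, c i = w j then c h.choose else ρ (c i))
        else (if h : ∃ j, c i = c j then w h.choose else c i)) = w i
      rw [if_neg hi, dif_pos h]
      exact congrArg w (ic h.choose_spec).symm
  have tr : ∀ v ∈ W, (∀ i, v ≠ w i) → t v = ρ v := by
    intro v hv h
    show (if v ∈ W then (if h : ∃ j, v = w j then c h.choose else ρ v)
        else (if h : ∃ j, v = c j then w h.choose else v)) = ρ v
    rw [if_pos hv, dif_neg (fun h' => h'.elim fun i hi => h i hi)]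
  have tf : ∀ v, v ∉ W → (∀ i, v ≠ c i) → t v = v := by
    intro v hv h
    show (if v ∈ W then (if h : ∃ j, v = w j then c h.choose else ρ v)
        else (if h : ∃ j, v = c j then w h.choose else v)) = v
    rw [if_neg hv, dif_neg (fun h' => h'.elim fun i hi => h i hi)]
  have tt : Function.Involutive t := by
    intro v
    by_cases hv : v ∈ W
    · by_cases hi : ∃ i, v = w i
      · obtain ⟨i, rfl⟩ := hi
        rw [tw, tc]
      · have hi' : ∀ i, v ≠ w i := fun i h => hi ⟨i, h⟩
        have h3 : ρ v ≠ v := (h2 v).2 ⟨hv, hi'⟩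
        have h4 : ρ (ρ v) ≠ ρ v := by
          rw [h1]
          exact h3.symm
        have h5 := (h2 (ρ v)).1 h4
        rw [tr v hv hi', tr _ h5.1 h5.2, h1]
    · by_cases hi : ∃ i, v = c i
      · obtain ⟨i, rfl⟩ := hi
        rw [tc, tw]
      · have hi' : ∀ i, v ≠ c i := fun i h => hi ⟨i, h⟩
        rw [tf v hv hi', tf v hv hi']
  exact ⟨tt.toPerm, tt, tw, tc, tr, tf⟩

theorem f5_dg (τ : Equiv.Perm V) (v : V) : dg (chi τ) v = if τ v = v then 0 else 1 := by
  unfold dg chi
  by_cases h : τ v = v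
  · rw [if_pos h]
    refine Finset.sum_eq_zero fun u _ => ?_
    rw [if_neg]
    rintro ⟨h3, h4⟩
    exact h4 (h.symm.trans h3)
  · rw [if_neg h]
    have e : ∀ u, (if τ v = u ∧ v ≠ u then (1 : ℤ) else 0) = if τ v = u then 1 else 0 := by
      intro u
      by_cases h3 : τ v = u
      · rw [if_pos h3, if_pos ⟨h3, fun h4 => h (h3.trans h4.symm)⟩]
      · rw [if_neg h3, if_neg fun h4 => h3 h4.1]
    rw [Finset.sum_congr rfl fun u _ => e u, Finset.sum_ite_eq, if_pos (Finset.mem_univ _)]

theorem f5_row (τ : Equiv.Perm V) (W : Finset V) (v : V) :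
    ∑ u ∈ W, chi τ v u = if τ v ∈ W ∧ τ v ≠ v then 1 else 0 := by
  unfold chi
  by_cases h : τ v ∈ W ∧ τ v ≠ v
  · rw [if_pos h]
    have e : ∀ u, (if τ v = u ∧ v ≠ u then (1 : ℤ) else 0) = if τ v = u then 1 else 0 := by
      intro u
      by_cases h3 : τ v = u
      · rw [if_pos h3, if_pos ⟨h3, fun h4 => h.2 (h3.trans h4.symm)⟩]
      · rw [if_neg h3, if_neg fun h4 => h3 h4.1]
    rw [Finset.sum_congr rfl fun u _ => e u, Finset.sum_ite_eq, if_pos h.1]
  · rw [if_neg h]
    refine Finset.sum_eq_zero fun u hu => ?_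
    rw [if_neg]
    rintro ⟨h3, h4⟩
    refine h ⟨h3 ▸ hu, fun h5 => h4 ?_⟩
    rw [← h3, h5]

theorem f5_inW {W : Finset V} {w c : Fin 3 → V} (iw : Function.Injective w)
    (hw : ∀ i, w i ∈ W) (hc : ∀ i, c i ∈ W → c i = w i)
    {ρ τ : Equiv.Perm V} (h1 : ∀ v, ρ (ρ v) = v) (h2 : ∀ v, ρ v ≠ v ↔ v ∈ W ∧ ∀ i, v ≠ w i)
    (tw : ∀ i, τ (w i) = c i) (tr : ∀ v ∈ W, (∀ i, v ≠ w i) → τ v = ρ v) :
    inW (chi τ) W = W.card - 3 := by
  have e : ∀ v ∈ W, ∑ u ∈ W, chi τ v u = 1 - if v ∈ Finset.univ.image w then 1 else 0 := by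
    intro v hv
    rw [f5_row]
    by_cases hi : ∃ i, v = w i
    · obtain ⟨i, rfl⟩ := hi
      rw [if_pos (Finset.mem_image_of_mem w (Finset.mem_univ i)), if_neg, sub_self]
      rintro ⟨h3, h4⟩
      rw [tw] at h3 h4
      exact h4 (hc i h3)
    · have hi' : ∀ i, v ≠ w i := fun i h => hi ⟨i, h⟩
      have h3 : ρ v ≠ v := (h2 v).2 ⟨hv, hi'⟩
      have h4 : ρ (ρ v) ≠ ρ v := by
        rw [h1]
        exact h3.symm
      have h5 := (h2 (ρ v)).1 h4
      rw [tr v hv hi', if_pos ⟨h5.1, h3⟩, if_neg, sub_zero]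
      intro h6
      obtain ⟨i, _, h7⟩ := Finset.mem_image.1 h6
      exact hi ⟨i, h7.symm⟩
  unfold inW
  rw [Finset.sum_congr rfl e, Finset.sum_sub_distrib, Finset.sum_const, nsmul_eq_mul, mul_one,
    ← Finset.sum_filter, Finset.sum_const, nsmul_eq_mul, mul_one]
  have e2 : W.filter (fun v => v ∈ Finset.univ.image w) = Finset.univ.image w := by
    ext v
    rw [Finset.mem_filter]
    refine ⟨fun h => h.2, fun h => ⟨?_, h⟩⟩
    obtain ⟨i, _, rfl⟩ := Finset.mem_image.1 h
    exact hw i
  rw [e2, Finset.card_image_of_injective _ iw, Finset.card_univ, Fintype.card_fin]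
  norm_num

theorem f5_inW_sub (x y : V → V → ℤ) (W : Finset V) :
    inW (fun u v => x u v - y u v) W = inW x W - inW y W := by
  unfold inW
  rw [← Finset.sum_sub_distrib]
  refine Finset.sum_congr rfl fun u _ => ?_
  rw [Finset.sum_sub_distrib]

theorem f5_dg_sub (x y : V → V → ℤ) (u : V) :
    dg (fun u v => x u v - y u v) u = dg x u - dg y u := by
  unfold dg
  rw [Finset.sum_sub_distrib]

theorem triple {x : V → V → ℤ} {r : ℤ} {W : Finset V} {k : ℕ} {H : SimpleGraph V}
    (hs : St x r W (k + 1) H) {w c : Fin 3 → V} (iw : Function.Injective w)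
    (ic : Function.Injective c) (hB : ∀ i, 1 ≤ Bm x r W (w i) (c i)) {ρ : Equiv.Perm V}
    (h1 : ∀ v, ρ (ρ v) = v) (h2 : ∀ v, ρ v ≠ v ↔ v ∈ W ∧ ∀ i, v ≠ w i)
    (h3 : ∀ v ∈ W, (∀ i, v ≠ w i) → H.Adj v (ρ v)) :
    ∃ x', St x' (r - 1) W k H ∧ Peeled x x' r W 1 ∧
      ∀ u v, Bm x' (r - 1) W u v = Bm x r W u v - if ∃ i, u = w i ∧ v = c i then 1 else 0 := by
  have hw : ∀ i, w i ∈ W := by
    intro i
    by_contra h
    have := hB i
    rw [Bm, if_neg h] at this
    omega
  have hc : ∀ i, c i ∈ W → c i = w i := by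
    intro i hi
    by_contra h
    have := hB i
    rw [Bm, if_pos (hw i), if_pos hi, if_neg h] at this
    omega
  have hd : ∀ i, c i = w i → dg x (w i) + 1 ≤ r := by
    intro i hi
    have := hB i
    rw [Bm, if_pos (hw i), if_pos (hi ▸ hw i), if_pos hi] at this
    omega
  have hx1 : ∀ i, c i ∉ W → 1 ≤ x (w i) (c i) := by
    intro i hi
    have := hB i
    rwa [Bm, if_pos (hw i), if_neg hi] at this
  obtain ⟨τ, tt, tw, tc, tr, tf⟩ := f5_tau iw ic hw hc h1 h2
  have hρ : ∀ v ∈ W, (∀ i, v ≠ w i) → ρ v ∈ W ∧ ρ v ≠ v := by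
    intro v hv hi
    have h4 : ρ v ≠ v := (h2 v).2 ⟨hv, hi⟩
    have h5 : ρ (ρ v) ≠ ρ v := by
      rw [h1]
      exact h4.symm
    exact ⟨((h2 (ρ v)).1 h5).1, h4⟩
  -- chi τ ≤ x
  have hle : ∀ u v, chi τ u v ≤ x u v := by
    intro u v
    by_cases h : τ u = v ∧ u ≠ v
    · have e : chi τ u v = 1 := by rw [chi, if_pos h]
      rw [e]
      obtain ⟨h4, h5⟩ := h
      by_cases hu : u ∈ W
      · by_cases hi : ∃ i, u = w i
        · obtain ⟨i, rfl⟩ := hi
          rw [tw] at h4
          subst h4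
          exact hx1 i fun h6 => h5 (hc i h6).symm
        · have hi' : ∀ i, u ≠ w i := fun i h => hi ⟨i, h⟩
          rw [tr u hu hi'] at h4
          subst h4
          have h6 := hs.hv _ _ (h3 u hu hi')
          have h7 : (0 : ℤ) ≤ k := Int.natCast_nonneg k
          push_cast at h6
          omega
      · by_cases hi : ∃ i, u = c i
        · obtain ⟨i, rfl⟩ := hi
          rw [tc] at h4
          subst h4
          rw [hs.isW.symm]
          exact hx1 i hu
        · have hi' : ∀ i, u ≠ c i := fun i h => hi ⟨i, h⟩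
          exact absurd (tf u hu hi').symm (fun h6 => h5 (h6.trans h4))
    · have e : chi τ u v = 0 := by rw [chi, if_neg h]
      rw [e]
      exact hs.isW.nonneg u v
  have hBm : ∀ u v, Bm (fun u v => x u v - chi τ u v) (r - 1) W u v =
      Bm x r W u v - if ∃ i, u = w i ∧ v = c i then 1 else 0 := by
    intro u v
    by_cases hu : u ∈ W
    · by_cases hv : v ∈ W
      · by_cases huv : v = u
        · rw [Bm, Bm, if_pos hu, if_pos hv, if_pos huv, if_pos hu, if_pos hv, if_pos huv,
            f5_dg_sub, f5_dg]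
          subst huv
          by_cases hi : ∃ i, v = w i
          · obtain ⟨i, rfl⟩ := hi
            have e1 : (τ (w i) = w i) ↔ ∃ j, w i = w j ∧ w i = c j := by
              rw [tw]
              constructor
              · intro h
                exact ⟨i, rfl, h.symm⟩
              · rintro ⟨j, h4, h5⟩
                rw [iw h4, ← h5, h4]
            by_cases h4 : τ (w i) = w i
            · rw [if_pos h4, if_pos (e1.1 h4)]
              ring
            · rw [if_neg h4, if_neg fun h => h4 (e1.2 h)]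
              ring
          · have hi' : ∀ i, v ≠ w i := fun i h => hi ⟨i, h⟩
            rw [tr v hv hi', if_neg (hρ v hv hi').2, if_neg]
            · ring
            · rintro ⟨i, h4, _⟩
              exact hi' i h4
        · rw [Bm, Bm, if_pos hu, if_pos hv, if_neg huv, if_pos hu, if_pos hv, if_neg huv, if_neg]
          · ring
          · rintro ⟨i, h4, h5⟩
            apply huv
            rw [h4, h5]
            exact hc i (h5 ▸ hv)
      · rw [Bm, Bm, if_pos hu, if_neg hv, if_pos hu, if_neg hv]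
        have e1 : chi τ u v = if ∃ i, u = w i ∧ v = c i then 1 else 0 := by
          by_cases h : ∃ i, u = w i ∧ v = c i
          · rw [if_pos h]
            obtain ⟨i, rfl, rfl⟩ := h
            rw [chi, if_pos ⟨tw i, fun h6 => hv (h6 ▸ hu)⟩]
          · rw [if_neg h, chi, if_neg]
            rintro ⟨h4, h5⟩
            by_cases hi : ∃ i, u = w i
            · obtain ⟨i, rfl⟩ := hi
              rw [tw] at h4
              exact h ⟨i, rfl, h4.symm⟩
            · have hi' : ∀ i, u ≠ w i := fun i h => hi ⟨i, h⟩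
              rw [tr u hu hi'] at h4
              exact hv (h4 ▸ (hρ u hu hi').1)
        rw [e1]
    · rw [Bm, Bm, if_neg hu, if_neg hu, if_neg, sub_zero]
      rintro ⟨i, rfl, _⟩
      exact hu (hw i)
  refine ⟨fun u v => x u v - chi τ u v, ⟨⟨?_, ?_, ?_⟩, ?_, ?_, ?_⟩, ⟨⟨[τ], rfl, ?_, ?_⟩, ?_, ?_⟩,
    hBm⟩
  · intro u v
    show x u v - chi τ u v = x v u - chi τ v u
    rw [hs.isW.symm u v, chi_symm tt u v]
  · intro v
    show x v v - chi τ v v = 0
    rw [hs.isW.diag, chi_diag, sub_zero]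
  · intro u v
    exact sub_nonneg.2 (hle u v)
  · intro v hv
    rw [f5_dg_sub, f5_dg]
    have h4 := hs.degW v hv
    by_cases h : τ v = v
    · rw [if_pos h]
      by_cases hi : ∃ i, v = w i
      · obtain ⟨i, rfl⟩ := hi
        rw [tw] at h
        have := hd i h
        omega
      · have hi' : ∀ i, v ≠ w i := fun i h => hi ⟨i, h⟩
        rw [tr v hv hi'] at h
        exact absurd h (hρ v hv hi').2
    · rw [if_neg h]
      omega
  · rw [f5_inW_sub, f5_inW iw hw hc h1 h2 tw tr, hs.ins]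
    push_cast
    ring
  · intro u v h
    have h4 := hs.hv u v h
    have h5 := chi_le_one τ u v
    push_cast at h4
    show (k : ℤ) ≤ x u v - chi τ u v
    omega
  · intro σ hσ v
    rw [List.mem_singleton] at hσ
    rw [hσ]
    exact tt v
  · intro u v
    show x u v = x u v - chi τ u v + ([τ].map (fun τ => chi τ u v)).sum
    simp
  · intro u v hu hv
    show x u v - chi τ u v = x u v
    have : chi τ u v = 0 := by
      rw [chi, if_neg]
      rintro ⟨h4, h5⟩
      by_cases hi : ∃ i, u = c i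
      · obtain ⟨i, rfl⟩ := hi
        rw [tc] at h4
        exact hv (h4 ▸ hw i)
      · have hi' : ∀ i, u ≠ c i := fun i h => hi ⟨i, h⟩
        rw [tf u hu hi'] at h4
        exact h5 h4
    rw [this, sub_zero]
  · intro u v
    have e := hBm u v
    have e' : (r - ((1 : ℕ) : ℤ)) = r - 1 := by norm_num
    rw [e', e]
    split_ifs
    · constructor
      · omega
      · push_cast
        omega
    · constructor
      · omega
      · push_cast
        omega

end Pool.Agent.H44T
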