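import Pool.Agent.Lib.H44T.F5

/-!
# Chunk F6 (S/M): composing peelings

* `peeled_refl`: the empty list.
* `peeled_trans`: concatenate the lists; `r - (l + l') = r - l - l'`.
-/

namespace Pool.Agent.H44T

open Finset Pool.Agent.H44O
open scoped Classical

variable {V : Type*} [Fintype V]

theorem peeled_refl (x : V → V → ℤ) (r : ℤ) (W : Finset V) : Peeled x x r W 0 := by
  refine ⟨⟨[], rfl, ?_, ?_⟩, fun _ _ _ _ => rfl, ?_⟩
  · intro τ hτ
    simp at hτ
  · intro u v
    simp
  · intro u c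
    have h : r - ((0 : ℕ) : ℤ) = r := by simp
    rw [h]
    exact ⟨le_rfl, by simp⟩

theorem peeled_trans {x x' x'' : V → V → ℤ} {r : ℤ} {W : Finset V} {l l' : ℕ}
    (h : Peeled x x' r W l) (h' : Peeled x' x'' (r - l) W l') : Peeled x x'' r W (l + l') := by
  obtain ⟨⟨M, hl, hinv, hM⟩, hout, htab⟩ := h
  obtain ⟨⟨M', hl', hinv', hM'⟩, hout', htab'⟩ := h'
  refine ⟨⟨M ++ M', ?_, ?_, ?_⟩, ?_, ?_⟩
  · rw [List.length_append, hl, hl']
  · intro τ hτ
    rcases List.mem_append.1 hτ with h | h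
    · exact hinv τ h
    · exact hinv' τ h
  · intro u v
    rw [List.map_append, List.sum_append, hM u v, hM' u v]
    ring
  · intro u v hu hv
    rw [hout' u v hu hv, hout u v hu hv]
  · intro u c
    have h1 : r - ((l + l' : ℕ) : ℤ) = r - (l : ℤ) - (l' : ℤ) := by push_cast; ring
    have h2 := htab u c
    have h3 := htab' u c
    rw [h1]
    push_cast
    constructor
    · exact h3.1.trans h2.1
    · linarith [h2.2, h3.2]

end Pool.Agent.H44T
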