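import Pool.Agent.Lib.H44T.D2
import Pool.Agent.Lib.H44T.F6

/-!
# Chunk F7 (M/L): peeling without dominant lines

Induction on `k`, with `x, r` generalised. `k = 0`: `peeled_refl`. Step `k + 1`: `T u c := 1 ≤ Bm x r W u c`. Total `= r + 2 (k + 1)` (`Bm_total`), entries `≥ 0`. The hypotheses say that two
lines contain together at most `r` (hypotheses with `r + k + 1` in the step, at most `r + (k + 1) < r + 2 (k + 1)`), so there is a positive entry that avoids any two
given lines: a column `c ∈ W` is contained in the row `c` as far as nonzero entries are concerned (`Bm` is zero at `(u, c)` with `c ∈ W`, `u ≠ c`); rows `u ∉ W` are zero. So `konig_three`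
gives three positive entries in different lines; `w i ∈ W`. `hM` gives `ρ` for `F = {w1, w2, w3}`. `triple` gives `x'`; the hypotheses for `x'`, `r - 1`, `k`: `Bm x' ≤ Bm x`, so
`ends` and `din` (row and column sums, `Bm_row`, `Bm_col`) do not grow. That is why the hypotheses are stated with a fixed number `q` and `q ≤ r` at the end: `r - k ≥ q` is what
is needed in every step. Conclude with `peeled_trans`.
-/

namespace Pool.Agent.H44T

open Finset Pool.Agent.H44O
open scoped Classical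

variable {V : Type*} [Fintype V]

theorem f7_two {f : V → ℤ} {p p' : V} {q : ℤ} (h0 : ∀ u, u ≠ p → u ≠ p' → f u = 0)
    (h1 : p ≠ p' → f p + f p' ≤ q) (h2 : f p ≤ q) : ∑ u, f u ≤ q := by
  by_cases h : p = p'
  · subst h
    rw [Finset.sum_eq_single p (fun u _ hu => h0 u hu hu)
      (fun h => absurd (Finset.mem_univ _) h)]
    exact h2
  · rw [Finset.sum_eq_add p p' h (fun u _ hu => h0 u hu.1 hu.2)
      (fun h => absurd (Finset.mem_univ _) h) (fun h => absurd (Finset.mem_univ _) h)]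
    exact h1 h

theorem f7_rc {B : V → V → ℤ} {p c0 : V} (hB : ∀ u c, 0 ≤ B u c)
    (h0 : ∀ u c, u ≠ p → c ≠ c0 → B u c = 0) :
    ∑ u, ∑ c, B u c ≤ ∑ c, B p c + ∑ u, B u c0 := by
  have h1 : ∑ u, ∑ c, B u c ≤
      ∑ u, ∑ c, ((if u = p then B u c else 0) + (if c = c0 then B u c else 0)) := by
    refine Finset.sum_le_sum fun u _ => Finset.sum_le_sum fun c _ => ?_
    have h2 := hB u c
    by_cases hu : u = p <;> by_cases hc : c = c0
    · rw [if_pos hu, if_pos hc]; linarith
    · rw [if_pos hu, if_neg hc]; linarith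
    · rw [if_neg hu, if_pos hc]; linarith
    · rw [if_neg hu, if_neg hc, h0 u c hu hc]; simp
  refine h1.trans (le_of_eq ?_)
  simp only [Finset.sum_add_distrib]
  congr 1
  · rw [Finset.sum_eq_single p]
    · simp
    · intro u _ hu; simp [hu]
    · intro h; exact absurd (Finset.mem_univ _) h
  · refine Finset.sum_congr rfl fun u _ => ?_
    simp

theorem f7_konig {x : V → V → ℤ} {r q t : ℤ} {W : Finset V} (hx : IsW x)
    (hd : ∀ w ∈ W, dg x w ≤ r) (hq0 : 0 ≤ q) (hqt : q < t)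
    (htot : ∑ w, ∑ c, Bm x r W w c = t)
    (hrr : ∀ w ∈ W, ∀ w' ∈ W, w ≠ w' → ends x r W w + ends x r W w' ≤ q)
    (hr1 : ∀ w ∈ W, ends x r W w ≤ q)
    (hcc : ∀ c, c ∉ W → ∀ c', c' ∉ W → din x W c + din x W c' ≤ q)
    (hrc : ∀ w ∈ W, ∀ c, c ∉ W → ends x r W w + din x W c ≤ q) :
    ∃ a1 a2 a3 b1 b2 b3, a1 ≠ a2 ∧ a1 ≠ a3 ∧ a2 ≠ a3 ∧ b1 ≠ b2 ∧ b1 ≠ b3 ∧ b2 ≠ b3 ∧
      1 ≤ Bm x r W a1 b1 ∧ 1 ≤ Bm x r W a2 b2 ∧ 1 ≤ Bm x r W a3 b3 := by
  have hB : ∀ u c, 0 ≤ Bm x r W u c := Bm_nonneg hx hd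
  have hout : ∀ u c, u ∉ W → Bm x r W u c = 0 := by
    intro u c hu
    unfold Bm
    rw [if_neg hu]
  have hcol : ∀ u c, c ∈ W → u ≠ c → Bm x r W u c = 0 := by
    intro u c hc hu
    unfold Bm
    by_cases h1 : u ∈ W
    · rw [if_pos h1, if_pos hc, if_neg (Ne.symm hu)]
    · rw [if_neg h1]
  have hrow0 : ∀ u, u ∉ W → ∑ c, Bm x r W u c = 0 := fun u hu =>
    Finset.sum_eq_zero fun c _ => hout u c hu
  have hrowle : ∀ u, ∑ c, Bm x r W u c ≤ q := by
    intro u
    by_cases hu : u ∈ W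
    · rw [Bm_row x r hu]; exact hr1 u hu
    · rw [hrow0 u hu]; exact hq0
  have hcolle : ∀ c, c ∉ W → ∑ u, Bm x r W u c ≤ q := by
    intro c hc
    have h1 : 0 ≤ ∑ u, Bm x r W u c := Finset.sum_nonneg fun u _ => hB u c
    rw [Bm_col hx r hc] at h1 ⊢
    have := hcc c hc c hc
    linarith
  have kRR : ∀ p p', ∃ a b, 1 ≤ Bm x r W a b ∧ a ≠ p ∧ a ≠ p' := by
    intro p p'
    by_contra hno
    push Not at hno
    have h0 : ∀ u, u ≠ p → u ≠ p' → ∑ c, Bm x r W u c = 0 := by
      intro u h1 h2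
      refine Finset.sum_eq_zero fun c _ => ?_
      have h3 := hB u c
      by_contra h4
      exact h2 (hno u c (by omega) h1)
    have h5 := f7_two (f := fun u => ∑ c, Bm x r W u c) (q := q) h0 (by
      intro hne
      by_cases h6 : p ∈ W
      · by_cases h7 : p' ∈ W
        · rw [Bm_row x r h6, Bm_row x r h7]
          exact hrr p h6 p' h7 hne
        · rw [hrow0 p' h7, add_zero]; exact hrowle p
      · rw [hrow0 p h6, zero_add]; exact hrowle p') (hrowle p)
    rw [htot] at h5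
    omega
  have kRC : ∀ p c0, ∃ a b, 1 ≤ Bm x r W a b ∧ a ≠ p ∧ b ≠ c0 := by
    intro p c0
    by_cases hc0 : c0 ∈ W
    · obtain ⟨a, b, h1, h2, h3⟩ := kRR p c0
      refine ⟨a, b, h1, h2, fun h => ?_⟩
      subst h
      rw [hcol a b hc0 h3] at h1
      omega
    · by_contra hno
      push Not at hno
      have h0 : ∀ u c, u ≠ p → c ≠ c0 → Bm x r W u c = 0 := by
        intro u c h1 h2
        have h3 := hB u c
        by_contra h4
        exact h2 (hno u c (by omega) h1)
      have h5 := f7_rc hB h0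
      rw [htot] at h5
      by_cases hp : p ∈ W
      · rw [Bm_row x r hp, Bm_col hx r hc0] at h5
        have := hrc p hp c0 hc0
        omega
      · rw [hrow0 p hp] at h5
        have := hcolle c0 hc0
        omega
  have kCC : ∀ p p', ∃ a b, 1 ≤ Bm x r W a b ∧ b ≠ p ∧ b ≠ p' := by
    intro p p'
    by_cases hp : p ∈ W
    · obtain ⟨a, b, h1, h2, h3⟩ := kRC p p'
      refine ⟨a, b, h1, fun h => ?_, h3⟩
      subst h
      rw [hcol a b hp h2] at h1
      omega
    · by_cases hp' : p' ∈ W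
      · obtain ⟨a, b, h1, h2, h3⟩ := kRC p' p
        refine ⟨a, b, h1, h3, fun h => ?_⟩
        subst h
        rw [hcol a b hp' h2] at h1
        omega
      · by_contra hno
        push Not at hno
        have h0 : ∀ c, c ≠ p → c ≠ p' → ∑ u, Bm x r W u c = 0 := by
          intro c h1 h2
          refine Finset.sum_eq_zero fun u _ => ?_
          have h3 := hB u c
          by_contra h4
          exact h2 (hno u c (by omega) h1)
        have h5 := f7_two (f := fun c => ∑ u, Bm x r W u c) (q := q) h0 (by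
          intro _
          rw [Bm_col hx r hp, Bm_col hx r hp']
          exact hcc p hp p' hp') (hcolle p hp)
        rw [Finset.sum_comm, htot] at h5
        omega
  have kany : ∃ a b, 1 ≤ Bm x r W a b := by
    by_contra hno
    push Not at hno
    have h1 : ∑ w, ∑ c, Bm x r W w c ≤ 0 :=
      Finset.sum_nonpos fun u _ => Finset.sum_nonpos fun c _ => by have := hno u c; omega
    omega
  exact konig_three (fun u c => 1 ≤ Bm x r W u c) kany kRR kCC kRC

theorem f7_main {W : Finset V} {H : SimpleGraph V}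
    (hM : ∀ F : Finset V, F ⊆ W → F.card = 3 →
      ∃ ρ : Equiv.Perm V, (∀ v, ρ (ρ v) = v) ∧ (∀ v, ρ v ≠ v ↔ v ∈ W \ F) ∧
        ∀ v ∈ W \ F, H.Adj v (ρ v)) {q : ℤ} (hq0 : 0 ≤ q) (k : ℕ) : ∀ {x : V → V → ℤ} {r : ℤ}
    (_ : St x r W k H) (_ : q + k ≤ r)
    (_ : ∀ w ∈ W, ∀ w' ∈ W, w ≠ w' → ends x r W w + ends x r W w' ≤ q)
    (_ : ∀ w ∈ W, ends x r W w ≤ q)
    (_ : ∀ c, c ∉ W → ∀ c', c' ∉ W → din x W c + din x W c' ≤ q)
    (_ : ∀ w ∈ W, ∀ c, c ∉ W → ends x r W w + din x W c ≤ q),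
    ∃ x', St x' (r - k) W 0 H ∧ Peeled x x' r W k := by
  induction k with
  | zero =>
    intro x r hs hq hrr hr1 hcc hrc
    refine ⟨x, ?_, peeled_refl x r W⟩
    simpa using hs
  | succ k ih =>
    intro x r hs hq hrr hr1 hcc hrc
    have htot : ∑ w, ∑ c, Bm x r W w c = r + 2 * ((k + 1 : ℕ) : ℤ) := Bm_total hs.ins
    obtain ⟨a1, a2, a3, b1, b2, b3, n1, n2, n3, m1, m2, m3, t1, t2, t3⟩ :=
      f7_konig (t := r + 2 * ((k + 1 : ℕ) : ℤ)) hs.isW hs.degW hq0 (by push_cast at hq ⊢; omega)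
        htot hrr hr1 hcc hrc
    have hmem : ∀ u c, 1 ≤ Bm x r W u c → u ∈ W := by
      intro u c h
      by_contra hu
      unfold Bm at h
      rw [if_neg hu] at h
      omega
    have e1 := hmem _ _ t1
    have e2 := hmem _ _ t2
    have e3 := hmem _ _ t3
    have hF : ({a1, a2, a3} : Finset V) ⊆ W := by
      intro v hv
      simp only [Finset.mem_insert, Finset.mem_singleton] at hv
      rcases hv with rfl | rfl | rfl
      · exact e1
      · exact e2
      · exact e3
    have hF3 : ({a1, a2, a3} : Finset V).card = 3 := Finset.card_eq_three.2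
      ⟨a1, a2, a3, n1, n2, n3, rfl⟩
    obtain ⟨ρ, g1, g2, g3⟩ := hM _ hF hF3
    have hiff : ∀ v, v ∈ W \ ({a1, a2, a3} : Finset V) ↔
        v ∈ W ∧ ∀ i : Fin 3, v ≠ (![a1, a2, a3] : Fin 3 → V) i := by
      intro v
      rw [Finset.mem_sdiff, Fin.forall_fin_succ, Fin.forall_fin_succ, Fin.forall_fin_succ]
      simp [not_or]
    have inj3 : ∀ {a b c : V}, a ≠ b → a ≠ c → b ≠ c →
        Function.Injective (![a, b, c] : Fin 3 → V) := by
      intro a b c h1 h2 h3 i j hij
      fin_cases i <;> fin_cases j <;> simp at hij ⊢ <;> first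
        | exact absurd hij h1
        | exact absurd hij h2
        | exact absurd hij h3
        | exact absurd hij.symm h1
        | exact absurd hij.symm h2
        | exact absurd hij.symm h3
    obtain ⟨x', s1, s2, s3⟩ := triple (W := W) (H := H) (k := k) hs
      (w := ![a1, a2, a3]) (c := ![b1, b2, b3]) (inj3 n1 n2 n3) (inj3 m1 m2 m3)
      (by intro i; fin_cases i <;> simpa) g1
      (fun v => (g2 v).trans (hiff v)) (fun v hv hi => g3 v ((hiff v).2 ⟨hv, hi⟩))
    have hle : ∀ u c, Bm x' (r - 1) W u c ≤ Bm x r W u c := by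
      intro u c
      rw [s3]
      split_ifs <;> omega
    have hends : ∀ w ∈ W, ends x' (r - 1) W w ≤ ends x r W w := by
      intro w hw
      rw [← Bm_row x' (r - 1) hw, ← Bm_row x r hw]
      exact Finset.sum_le_sum fun c _ => hle w c
    have hdin : ∀ c, c ∉ W → din x' W c ≤ din x W c := by
      intro c hc
      rw [← Bm_col s1.isW (r - 1) hc, ← Bm_col hs.isW r hc]
      exact Finset.sum_le_sum fun u _ => hle u c
    obtain ⟨x'', u1, u2⟩ := ih (x := x') (r := r - 1) s1 (by push_cast at hq; omega)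
      (fun w hw w' hw' hne => by
        have := hrr w hw w' hw' hne; have := hends w hw; have := hends w' hw'; omega)
      (fun w hw => (hends w hw).trans (hr1 w hw))
      (fun c hc c' hc' => by
        have := hcc c hc c' hc'; have := hdin c hc; have := hdin c' hc'; omega)
      (fun w hw c hc => by
        have := hrc w hw c hc; have := hends w hw; have := hdin c hc; omega)
    have hr' : r - ((1 : ℕ) : ℤ) = r - 1 := by norm_num
    have h7 := peeled_trans s2 (by rw [hr']; exact u2)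
    refine ⟨x'', ?_, ?_⟩
    · have h8 : r - ((k + 1 : ℕ) : ℤ) = r - 1 - (k : ℤ) := by push_cast; ring
      rw [h8]; exact u1
    · rw [Nat.add_comm] at h7
      exact h7

theorem peel_none {W : Finset V} {H : SimpleGraph V}
    (hM : ∀ F : Finset V, F ⊆ W → F.card = 3 →
      ∃ ρ : Equiv.Perm V, (∀ v, ρ (ρ v) = v) ∧ (∀ v, ρ v ≠ v ↔ v ∈ W \ F) ∧
        ∀ v ∈ W \ F, H.Adj v (ρ v)) (hne : W.Nonempty) {q : ℤ} (k : ℕ) {x : V → V → ℤ} {r : ℤ}
    (hs : St x r W k H) (hq : q + k ≤ r)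
    (hrr : ∀ w ∈ W, ∀ w' ∈ W, w ≠ w' → ends x r W w + ends x r W w' ≤ q)
    (hr1 : ∀ w ∈ W, ends x r W w ≤ q)
    (hcc : ∀ c, c ∉ W → ∀ c', c' ∉ W → din x W c + din x W c' ≤ q)
    (hrc : ∀ w ∈ W, ∀ c, c ∉ W → ends x r W w + din x W c ≤ q) :
    ∃ x', St x' (r - k) W 0 H ∧ Peeled x x' r W k := by
  obtain ⟨w, hw⟩ := hne
  have hq0 : 0 ≤ q := by
    refine le_trans ?_ (hr1 w hw)
    rw [← Bm_row x r hw]
    exact Finset.sum_nonneg fun c _ => Bm_nonneg hs.isW hs.degW w c
  exact f7_main hM hq0 k hs hq hrr hr1 hcc hrc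

end Pool.Agent.H44T
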