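import Pool.Agent.Lib.H44T.F3
import Pool.Agent.Lib.H44T.F6

/-!
# Chunk F8 (M/L): peeling with a dominant column

`o ∉ W` is the dominant column, `D = r - din x W o` (it does not change: `r` and `din x W o` both decrease by one in every step), `m c = x o c` for `c ∉ W`, and `0` for
`c ∈ W` (not changed). Induction on `k`, with `x, r` generalised (`D` fixed). `k = 0`: `peeled_refl`, and `row`, `col` are not needed; the conclusions are `h_deg` and `h_col`.
Step `k + 1`: the table `B u c := if c = o then 0 else Bm x r W u c`; it satisfies `Tab B m D (k + 1)`: total `= (r + 2 (k + 1)) - din x W o = D + 2 (k + 1)`; rows: `ends - x w o ≤ D + (k + 1)`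
(`h_row`); columns `c ∉ W`, `c ≠ o`: `din x W c + x o c ≤ D + (k + 1)` (`h_col`); column `o`: `0 + x o o = 0`; columns `c ∈ W`: `r - dg x c ≤ ends x r W c - x c o` (the deficiency is part of the row) `≤ D + k + 1`;
`∑ m ≤ D`: `h_deg`.
`two_entries` gives `(a, c), (a', c')` with `a ≠ a'`, `c ≠ c'`, both different from `o`. Third entry `(w3, o)` with `w3 ≠ a, a'`, `x w3 o ≥ 1`: exists because
`din x W o > x a o + x a' o` (`h_big`: `din x W o ≥ 2 μ + k + 1`, `x ≤ μ`). `hM` gives `ρ` for `F = {a, a', w3}`, `triple` gives `x'`. New hypotheses (`r - 1`, `k`):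
rows: `ends` decreases by one at `a, a', w3`, and `x w3 o` decreases by one; so `ends - x w o` decreases exactly at `a` and `a'`; tight rows are among them. Columns: `din x W c` decreases by one at the
columns `c, c'` (if they are real), tight ones are among them. `x ≤ μ` stays true (`x' ≤ x`: `Peeled.mats`, `chi ≥ 0`). `h_big` with `k`: `din` decreases by one.
-/

namespace Pool.Agent.H44T

open Finset Pool.Agent.H44O
open scoped Classical

variable {V : Type*} [Fintype V]

omit [Fintype V] in
private theorem f8_inj {a b c : V} (h1 : a ≠ b) (h2 : a ≠ c) (h3 : b ≠ c) :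
    Function.Injective (![a, b, c] : Fin 3 → V) := by
  intro i j hij
  fin_cases i <;> fin_cases j
  · rfl
  · exact absurd hij h1
  · exact absurd hij h2
  · exact absurd hij.symm h1
  · rfl
  · exact absurd hij h3
  · exact absurd hij.symm h2
  · exact absurd hij.symm h3
  · rfl

theorem peel_col {W : Finset V} {H : SimpleGraph V}
    (hM : ∀ F : Finset V, F ⊆ W → F.card = 3 →
      ∃ ρ : Equiv.Perm V, (∀ v, ρ (ρ v) = v) ∧ (∀ v, ρ v ≠ v ↔ v ∈ W \ F) ∧
        ∀ v ∈ W \ F, H.Adj v (ρ v)) {o : V} (ho : o ∉ W) {μ : ℤ} (k : ℕ) {x : V → V → ℤ} {r : ℤ}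
    (hs : St x r W k H) (hμ : ∀ u v, x u v ≤ μ) (h_big : 2 * μ + k ≤ din x W o)
    (h_deg : ∑ c ∈ Wᶜ, x o c + din x W o ≤ r)
    (h_row : ∀ w ∈ W, ends x r W w + din x W o - x w o ≤ r + k)
    (h_col : ∀ c, c ∉ W → c ≠ o → din x W c + x o c + din x W o ≤ r + k) :
    ∃ x', St x' (r - k) W 0 H ∧ Peeled x x' r W k ∧
      ∑ c ∈ Wᶜ, x' o c + din x' W o ≤ r - k ∧
      ∀ c, c ∉ W → c ≠ o → din x' W c + x' o c + din x' W o ≤ r - k := by
  classical
  induction k generalizing x r with
  | zero =>
    refine ⟨x, ?_, peeled_refl x r W, ?_, ?_⟩
    · simpa using hs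
    · simpa using h_deg
    · intro c hc hco
      simpa using h_col c hc hco
  | succ k ih =>
    have hx := hs.isW
    have hBnn : ∀ u c, 0 ≤ Bm x r W u c := fun u c => Bm_nonneg hx hs.degW u c
    set D : ℤ := r - din x W o with hD
    have hsum0 : 0 ≤ ∑ c ∈ Wᶜ, x o c := Finset.sum_nonneg fun c _ => hx.nonneg o c
    have hD0 : 0 ≤ D := by rw [hD]; linarith
    have hk' : ((k + 1 : ℕ) : ℤ) = (k : ℤ) + 1 := by push_cast; ring
    rw [hk'] at h_big h_row h_col
    have hins := hs.ins
    have hBo : ∑ w, Bm x r W w o = din x W o := Bm_col hx r ho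
    -- row and column sums of the table
    have hrow : ∀ u ∈ W, ∑ c, (if c = o then 0 else Bm x r W u c) =
        ends x r W u - x u o := by
      intro u hu
      have h1 : ∀ c, (if c = o then 0 else Bm x r W u c) =
          Bm x r W u c - (if c = o then Bm x r W u c else 0) := by
        intro c; split_ifs <;> ring
      rw [Finset.sum_congr rfl fun c _ => h1 c, Finset.sum_sub_distrib, Bm_row x r hu,
        Finset.sum_ite_eq' Finset.univ o, if_pos (Finset.mem_univ _)]
      congr 1
      simp [Bm, hu, ho]
    have hrow0 : ∀ u, u ∉ W → ∑ c, (if c = o then 0 else Bm x r W u c) = 0 := by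
      intro u hu
      refine Finset.sum_eq_zero fun c _ => ?_
      simp [Bm, hu]
    have hcol : ∀ c, c ∉ W → c ≠ o → ∑ u, (if c = o then 0 else Bm x r W u c) =
        din x W c := by
      intro c hc hco
      simp only [if_neg hco]
      exact Bm_col hx r hc
    have htab : Tab (fun u c => if c = o then 0 else Bm x r W u c)
        (fun c => if c ∈ W then 0 else x o c) D ((k : ℤ) + 1) := by
      have hrowle : ∀ u, ∑ c, (if c = o then 0 else Bm x r W u c) ≤ D + ((k : ℤ) + 1) := by
        intro u
        by_cases hu : u ∈ W
        · rw [hrow u hu]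
          have := h_row u hu
          rw [hD]; linarith
        · rw [hrow0 u hu]; positivity
      refine ⟨?_, ?_, ?_, ?_, hrowle, ?_, ?_⟩
      · intro u c
        show 0 ≤ (if c = o then 0 else Bm x r W u c)
        split_ifs
        · exact le_rfl
        · exact hBnn u c
      · intro c
        show 0 ≤ (if c ∈ W then 0 else x o c)
        split_ifs
        · exact le_rfl
        · exact hx.nonneg o c
      · have e : ∑ c, (if c ∈ W then (0 : ℤ) else x o c) = ∑ c ∈ Wᶜ, x o c := by
          rw [← Finset.sum_filter_add_sum_filter_not Finset.univ (fun c => c ∈ W)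
            (fun c => if c ∈ W then (0 : ℤ) else x o c)]
          have e1 : ∑ c ∈ Finset.univ.filter (fun c => c ∈ W),
              (if c ∈ W then (0 : ℤ) else x o c) = 0 := by
            refine Finset.sum_eq_zero fun c hc => ?_
            rw [if_pos (Finset.mem_filter.1 hc).2]
          rw [e1, zero_add]
          have e2 : Finset.univ.filter (fun c => c ∉ W) = Wᶜ := by
            ext c; simp
          rw [e2]
          refine Finset.sum_congr rfl fun c hc => ?_
          rw [if_neg (Finset.mem_compl.1 hc)]
        show ∑ c, (if c ∈ W then (0 : ℤ) else x o c) ≤ D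
        rw [e, hD]
        linarith
      · show ∑ u, ∑ c, (if c = o then 0 else Bm x r W u c) = D + 2 * ((k : ℤ) + 1)
        have h1 : ∀ u c, (if c = o then 0 else Bm x r W u c) =
            Bm x r W u c - (if c = o then Bm x r W u c else 0) := by
          intro u c; split_ifs <;> ring
        have h2 : ∀ u, ∑ c, (if c = o then 0 else Bm x r W u c) =
            ∑ c, Bm x r W u c - Bm x r W u o := by
          intro u
          rw [Finset.sum_congr rfl fun c _ => h1 u c, Finset.sum_sub_distrib,
            Finset.sum_ite_eq' Finset.univ o, if_pos (Finset.mem_univ _)]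
        rw [Finset.sum_congr rfl fun u _ => h2 u, Finset.sum_sub_distrib, hBo,
          Bm_total (x := x) (r := r) (k := (k : ℤ) + 1) (by rw [hins]; push_cast; ring), hD]
        ring
      · intro c
        show ∑ u, (if c = o then 0 else Bm x r W u c) + (if c ∈ W then 0 else x o c) ≤
          D + ((k : ℤ) + 1)
        by_cases hco : c = o
        · subst hco
          simp only [if_true, Finset.sum_const_zero, if_neg ho, hx.diag]
          positivity
        · by_cases hc : c ∈ W
          · simp only [if_neg hco, if_pos hc, add_zero]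
            rw [Bm_col_in x r hc]
            have h3 := hrowle c
            have h4 : (if c = o then 0 else Bm x r W c c) ≤
                ∑ c', (if c' = o then 0 else Bm x r W c c') :=
              Finset.single_le_sum (f := fun c' => if c' = o then 0 else Bm x r W c c')
                (fun c' _ => by
                  show 0 ≤ (if c' = o then 0 else Bm x r W c c')
                  split_ifs
                  · exact le_rfl
                  · exact hBnn c c') (Finset.mem_univ c)
            have h5 : (if c = o then 0 else Bm x r W c c) = r - dg x c := by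
              rw [if_neg hco]; simp [Bm, hc]
            linarith
          · rw [hcol c hc hco, if_neg hc]
            have := h_col c hc hco
            rw [hD]; linarith
      · have : (0 : ℤ) ≤ (k : ℤ) := Int.natCast_nonneg k
        linarith
    obtain ⟨a, a', c, c', haa, hcc, h1, h1', htr, htc⟩ := two_entries htab
    have hco : c ≠ o := by
      rintro rfl
      simp at h1
    have hco' : c' ≠ o := by
      rintro rfl
      simp at h1'
    simp only [if_neg hco] at h1
    simp only [if_neg hco'] at h1'
    have haW : a ∈ W := by
      by_contra h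
      simp [Bm, h] at h1
    have haW' : a' ∈ W := by
      by_contra h
      simp [Bm, h] at h1'
    obtain ⟨w3, hw3W, hw3a, hw3a', hw3⟩ : ∃ w3 ∈ W, w3 ≠ a ∧ w3 ≠ a' ∧ 1 ≤ x w3 o := by
      by_contra hcon
      push Not at hcon
      have h2 : din x W o ≤ x o a + x o a' := by
        have h3 : din x W o = ∑ w ∈ W, x o w := rfl
        rw [h3, ← Finset.sum_subset (s₁ := {a, a'}) (by
          intro v hv
          simp only [Finset.mem_insert, Finset.mem_singleton] at hv
          rcases hv with rfl | rfl
          · exact haW
          · exact haW') (by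
          intro w hw hw'
          simp only [Finset.mem_insert, Finset.mem_singleton, not_or] at hw'
          have h4 := hcon w hw hw'.1 hw'.2
          have h5 := hx.nonneg w o
          rw [hx.symm o w]
          omega), Finset.sum_pair haa]
      have h3 := hμ o a
      have h4 := hμ o a'
      have : (0 : ℤ) ≤ (k : ℤ) := Int.natCast_nonneg k
      linarith
    -- the matching
    obtain ⟨ρ, hρ1, hρ2, hρ3⟩ := hM {a, a', w3} (by
      intro v hv
      simp only [Finset.mem_insert, Finset.mem_singleton] at hv
      rcases hv with rfl | rfl | rfl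
      · exact haW
      · exact haW'
      · exact hw3W) (by
      rw [Finset.card_insert_of_notMem, Finset.card_insert_of_notMem, Finset.card_singleton]
      · simp [hw3a'.symm]
      · simp [haa, hw3a.symm])
    have hFmem : ∀ v, (∀ i, v ≠ (![a, a', w3] : Fin 3 → V) i) ↔ v ∉ ({a, a', w3} : Finset V) := by
      intro v
      simp [Fin.forall_fin_succ]
    obtain ⟨x', hst, hpl, hBx⟩ := triple hs (w := ![a, a', w3]) (c := ![c, c', o])
      (f8_inj haa hw3a.symm hw3a'.symm) (f8_inj hcc hco hco') (by
      intro i
      fin_cases i
      · exact h1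
      · exact h1'
      · show 1 ≤ Bm x r W w3 o
        simpa [Bm, hw3W, ho] using hw3) hρ1 (by
      intro v
      rw [hρ2 v, Finset.mem_sdiff, hFmem]) (by
      intro v hv hv'
      exact hρ3 v (Finset.mem_sdiff.2 ⟨hv, (hFmem v).1 hv'⟩))
    -- entries of the new table
    have hx' := hst.isW
    have hle : ∀ u v, x' u v ≤ x u v := by
      intro u v
      obtain ⟨M, _, _, hM'⟩ := hpl.mats
      rw [hM' u v]
      have : 0 ≤ (M.map (fun τ => chi τ u v)).sum := by
        refine List.sum_nonneg fun z hz => ?_
        obtain ⟨τ, _, rfl⟩ := List.mem_map.1 hz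
        exact chi_nonneg τ u v
      linarith
    have hex : ∀ u v, (∃ i : Fin 3, u = (![a, a', w3] : Fin 3 → V) i ∧
        v = (![c, c', o] : Fin 3 → V) i) ↔
        (u = a ∧ v = c) ∨ (u = a' ∧ v = c') ∨ (u = w3 ∧ v = o) := by
      intro u v
      simp [Fin.exists_fin_succ]
    have hrowsum : ∀ u, ∑ v, (if ∃ i : Fin 3, u = (![a, a', w3] : Fin 3 → V) i ∧
        v = (![c, c', o] : Fin 3 → V) i then (1 : ℤ) else 0) =
        if u = a ∨ u = a' ∨ u = w3 then 1 else 0 := by
      intro u
      simp only [hex]
      by_cases hu1 : u = a
      · subst hu1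
        simp [haa, hw3a.symm]
      · by_cases hu2 : u = a'
        · subst hu2
          simp [hu1, hw3a'.symm]
        · by_cases hu3 : u = w3
          · subst hu3
            simp [hu1, hu2]
          · simp [hu1, hu2, hu3]
    have hcolsum : ∀ v, ∑ u, (if ∃ i : Fin 3, u = (![a, a', w3] : Fin 3 → V) i ∧
        v = (![c, c', o] : Fin 3 → V) i then (1 : ℤ) else 0) =
        if v = c ∨ v = c' ∨ v = o then 1 else 0 := by
      intro v
      simp only [hex]
      by_cases hv1 : v = c
      · subst hv1
        simp [hcc, hco]
      · by_cases hv2 : v = c'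
        · subst hv2
          simp [hv1, hco']
        · by_cases hv3 : v = o
          · subst hv3
            simp [hv1, hv2]
          · simp [hv1, hv2, hv3]
    have hdin : ∀ v, v ∉ W → din x' W v = din x W v - if v = c ∨ v = c' ∨ v = o then 1 else 0 := by
      intro v hv
      rw [← Bm_col hx' (r - 1) hv, ← Bm_col hx r hv, ← hcolsum v, ← Finset.sum_sub_distrib]
      exact Finset.sum_congr rfl fun u _ => hBx u v
    have hdino : din x' W o = din x W o - 1 := by
      rw [hdin o ho]
      simp
    have hends : ∀ u ∈ W, ends x' (r - 1) W u = ends x r W u -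
        if u = a ∨ u = a' ∨ u = w3 then 1 else 0 := by
      intro u hu
      rw [← Bm_row x' (r - 1) hu, ← Bm_row x r hu, ← hrowsum u, ← Finset.sum_sub_distrib]
      exact Finset.sum_congr rfl fun v _ => hBx u v
    have hxo : ∀ u ∈ W, x' u o = x u o - if u = w3 then 1 else 0 := by
      intro u hu
      have h2 := hBx u o
      have h3 : Bm x' (r - 1) W u o = x' u o := by simp [Bm, hu, ho]
      have h4 : Bm x r W u o = x u o := by simp [Bm, hu, ho]
      rw [h3, h4] at h2
      rw [h2]
      congr 1
      have h5 : (∃ i : Fin 3, u = (![a, a', w3] : Fin 3 → V) i ∧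
          o = (![c, c', o] : Fin 3 → V) i) ↔ u = w3 := by
        rw [hex]
        constructor
        · rintro (⟨_, h⟩ | ⟨_, h⟩ | ⟨h, _⟩)
          · exact absurd h.symm hco
          · exact absurd h.symm hco'
          · exact h
        · intro h
          exact Or.inr (Or.inr ⟨h, rfl⟩)
      by_cases h6 : u = w3
      · rw [if_pos h6, if_pos (h5.2 h6)]
      · rw [if_neg h6, if_neg (fun h => h6 (h5.1 h))]
    have hout : ∀ v, v ∉ W → x' o v = x o v := fun v hv => hpl.out o v ho hv
    have hr1 : (r - ((1 : ℕ) : ℤ)) = r - 1 := by norm_num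
    obtain ⟨x'', hst'', hpl'', hdeg'', hcol''⟩ := ih hst (fun u v => (hle u v).trans (hμ u v))
      (by rw [hdino]; linarith)
      (by
        rw [hdino]
        have e : ∑ v ∈ Wᶜ, x' o v = ∑ v ∈ Wᶜ, x o v :=
          Finset.sum_congr rfl fun v hv => hout v (Finset.mem_compl.1 hv)
        rw [e]; linarith)
      (by
        intro w hw
        rw [hends w hw, hdino, hxo w hw]
        have h2 := h_row w hw
        by_cases hwa : w = a
        · have h3 : w ≠ w3 := by rw [hwa]; exact hw3a.symm
          rw [if_pos (Or.inl hwa), if_neg h3]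
          linarith
        · by_cases hwa' : w = a'
          · have h3 : w ≠ w3 := by rw [hwa']; exact hw3a'.symm
            rw [if_pos (Or.inr (Or.inl hwa')), if_neg h3]
            linarith
          · have h3 : ends x r W w + din x W o - x w o ≠ r + ((k : ℤ) + 1) := by
              intro h4
              have h5 := htr w (by
                show ∑ f, (if f = o then 0 else Bm x r W w f) = D + ((k : ℤ) + 1)
                rw [hrow w hw, hD]; linarith)
              rcases h5 with h5 | h5
              · exact hwa h5
              · exact hwa' h5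
            have h4 : ends x r W w + din x W o - x w o ≤ r + (k : ℤ) := by omega
            by_cases hw3' : w = w3
            · rw [if_pos (Or.inr (Or.inr hw3')), if_pos hw3']
              linarith
            · have h5 : ¬ (w = a ∨ w = a' ∨ w = w3) := by tauto
              rw [if_neg h5, if_neg hw3']
              linarith)
      (by
        intro v hv hvo
        rw [hdin v hv, hdino, hout v hv]
        have h2 := h_col v hv hvo
        by_cases hvc : v = c ∨ v = c'
        · have h3 : v = c ∨ v = c' ∨ v = o := by tauto
          rw [if_pos h3]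
          linarith
        · have h3 : ¬ (v = c ∨ v = c' ∨ v = o) := by tauto
          rw [if_neg h3]
          have h4 : din x W v + x o v + din x W o ≠ r + ((k : ℤ) + 1) := by
            intro h5
            apply hvc
            apply htc v
            show ∑ e, (if v = o then 0 else Bm x r W e v) + (if v ∈ W then 0 else x o v) =
              D + ((k : ℤ) + 1)
            rw [hcol v hv hvo, if_neg hv, hD]; linarith
          have h5 : din x W v + x o v + din x W o ≤ r + (k : ℤ) := by omega
          linarith)
    have hrk : r - 1 - (k : ℤ) = r - ((k + 1 : ℕ) : ℤ) := by push_cast; ring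
    rw [hrk] at hst'' hdeg'' hcol''
    refine ⟨x'', hst'', ?_, hdeg'', hcol''⟩
    have h2 := peeled_trans (l := 1) (l' := k) hpl (by rw [hr1]; exact hpl'')
    rwa [Nat.add_comm 1 k] at h2

end Pool.Agent.H44T
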