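import Pool.Agent.Lib.H44T.F3
import Pool.Agent.Lib.H44T.F4
import Pool.Agent.Lib.H44T.F6

/-!
# Chunk F9 (M/L): peeling with a dominant row

`w0 ∈ W` is the dominant row, `D = r - ends x r W w0 = din x W w0 ≥ 0` (it does not change). Induction on `k` with `x, r` generalised. Step `k + 1`: the table
`B u c := if u = w0 then 0 else Bm x r W u c`, `m = 0`, satisfies `Tab B m D (k + 1)`: total `r + 2 (k + 1) - ends w0 = D + 2 (k + 1)`; rows: `h_row`; columns `c ∉ W`: `din x W c - x w0 c ≤ D + k + 1`
(`h_col`); columns `c ∈ W`, `c ≠ w0`: `r - dg x c ≤ ends x r W c ≤ D + k + 1` (row `c`; `din x Wᶜ c ≥ 0`); the column `w0` is zero.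
`two_entries` gives `(a, c), (a', c')` with `a, a' ≠ w0`, and `c, c' ≠ w0` (their column sums are positive). Third entry `(w0, w0)`: the deficiency
`r - dg x w0 ≥ k + 1 ≥ 1` (`h_def`). `hM` for `F = {a, a', w0}`, `triple`. In the new state (`r - 1`, `k`): `ends` decreases by one at `a, a', w0`; rows: `ends w + ends w0 ≤ r + (k + 1)` becomes
`≤ (r - 1) + k`: the left side decreases by two for `w = a, a'` and by one for all others, which are not tight; columns in the same way (`din x W c - x w0 c` decreases by one
exactly at `c, c'`). `r - dg x w0` decreases by one.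
-/

namespace Pool.Agent.H44T

open Finset Pool.Agent.H44O
open scoped Classical

variable {V : Type*} [Fintype V]

theorem f9_row {w c : Fin 3 → V} (iw : Function.Injective w) (u : V) :
    ∑ v, (if ∃ i, u = w i ∧ v = c i then (1 : ℤ) else 0) = if ∃ i, u = w i then 1 else 0 := by
  by_cases h : ∃ i, u = w i
  · rw [if_pos h]
    obtain ⟨i, rfl⟩ := h
    have : ∀ v, (if ∃ j, w i = w j ∧ v = c j then (1 : ℤ) else 0) = if v = c i then 1 else 0 := by
      intro v
      by_cases hv : v = c i
      · rw [if_pos hv, if_pos ⟨i, rfl, hv⟩]
      · rw [if_neg hv, if_neg]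
        rintro ⟨j, hj, hj'⟩
        rw [← iw hj] at hj'
        exact hv hj'
    simp only [this]
    simp
  · rw [if_neg h]
    refine Finset.sum_eq_zero fun v _ => ?_
    rw [if_neg]
    rintro ⟨i, hi, _⟩
    exact h ⟨i, hi⟩

theorem f9_col {w c : Fin 3 → V} (ic : Function.Injective c) (v : V) :
    ∑ u, (if ∃ i, u = w i ∧ v = c i then (1 : ℤ) else 0) = if ∃ i, v = c i then 1 else 0 := by
  have h := f9_row (w := c) (c := w) ic v
  rw [← h]
  refine Finset.sum_congr rfl fun u _ => ?_
  congr 1
  simp only [and_comm]

theorem peel_row {W : Finset V} {H : SimpleGraph V} {w0 : V} (hw0 : w0 ∈ W)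
    (hM : ∀ F : Finset V, F ⊆ W → F.card = 3 → w0 ∈ F →
      ∃ ρ : Equiv.Perm V, (∀ v, ρ (ρ v) = v) ∧ (∀ v, ρ v ≠ v ↔ v ∈ W \ F) ∧
        ∀ v ∈ W \ F, H.Adj v (ρ v)) (k : ℕ) {x : V → V → ℤ} {r : ℤ}
    (hs : St x r W k H) (h_def : dg x w0 + k ≤ r)
    (h_row : ∀ w ∈ W, w ≠ w0 → ends x r W w + ends x r W w0 ≤ r + k)
    (h_col : ∀ c, c ∉ W → din x W c - x w0 c + ends x r W w0 ≤ r + k) :
    ∃ x', St x' (r - k) W 0 H ∧ Peeled x x' r W k := by
  induction k generalizing x r with
  | zero =>
    refine ⟨x, ?_, peeled_refl x r W⟩
    simpa using hs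
  | succ k ih =>
    have hD0 : 0 ≤ din x W w0 := Finset.sum_nonneg fun w _ => hs.isW.nonneg _ _
    have hE0 : ends x r W w0 = r - din x W w0 := rfl
    have hBn : ∀ u c, 0 ≤ Bm x r W u c := fun u c => Bm_nonneg hs.isW hs.degW u c
    have hBo : ∀ u c, u ∉ W → Bm x r W u c = 0 := fun u c hu => by simp [Bm, hu]
    set B : V → V → ℤ := fun u c => if u = w0 then 0 else Bm x r W u c with hB
    have hcols : ∀ c, ∑ u, B u c = (∑ u, Bm x r W u c) - Bm x r W w0 c := by
      intro c
      rw [eq_sub_iff_add_eq]
      have h1 : Bm x r W w0 c = ∑ u, if u = w0 then Bm x r W u c else 0 := by simp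
      rw [h1, ← Finset.sum_add_distrib]
      refine Finset.sum_congr rfl fun u _ => ?_
      by_cases hu : u = w0 <;> simp [hB, hu]
    have hrow' : ∀ u, u ≠ w0 → ∑ c, B u c = ∑ c, Bm x r W u c := by
      intro u hu
      exact Finset.sum_congr rfl fun c _ => by simp [hB, hu]
    have hrow0 : ∑ c, B w0 c = 0 := Finset.sum_eq_zero fun c _ => by simp [hB]
    have hins : inW x W = r * ((W.card : ℤ) - 1) - 2 * ((k : ℤ) + 1) := by
      have := hs.ins
      push_cast at this
      exact this
    have hTab : Tab B (fun _ => 0) (din x W w0) ((k : ℤ) + 1) := by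
      refine ⟨?_, fun _ => le_rfl, by simpa using hD0, ?_, ?_, ?_, by omega⟩
      · intro u c
        by_cases hu : u = w0
        · simp [hB, hu]
        · simpa [hB, hu] using hBn u c
      · have h1 := Bm_total (x := x) (r := r) (k := (k : ℤ) + 1) (W := W) hins
        rw [Finset.sum_comm] at h1 ⊢
        simp only [hcols]
        rw [Finset.sum_sub_distrib, h1, Bm_row x r hw0, hE0]
        ring
      · intro u
        by_cases hu : u = w0
        · rw [hu, hrow0]
          positivity
        · rw [hrow' u hu]
          by_cases huW : u ∈ W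
          · rw [Bm_row x r huW]
            have := h_row u huW hu
            push_cast at this
            rw [hE0] at this
            linarith
          · rw [Finset.sum_eq_zero fun c _ => hBo u c huW]
            positivity
      · intro c
        rw [hcols c]
        by_cases hc : c ∈ W
        · rw [Bm_col_in x r hc]
          by_cases hc0 : c = w0
          · have : Bm x r W w0 c = r - dg x w0 := by simp [Bm, hw0, hc0]
            rw [this, hc0]
            have : (0 : ℤ) ≤ k := Int.natCast_nonneg k
            linarith
          · have h1 : Bm x r W w0 c = 0 := by simp [Bm, hw0, hc, hc0]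
            rw [h1]
            have h2 := h_row c hc hc0
            push_cast at h2
            rw [hE0] at h2
            have h3 : din x W c ≤ dg x c :=
              Finset.sum_le_sum_of_subset_of_nonneg (Finset.subset_univ _)
                (fun v _ _ => hs.isW.nonneg _ _)
            have h4 : ends x r W c = r - din x W c := rfl
            linarith
        · rw [Bm_col hs.isW r hc]
          have h1 : Bm x r W w0 c = x w0 c := by simp [Bm, hw0, hc]
          rw [h1]
          have h2 := h_col c hc
          push_cast at h2
          rw [hE0] at h2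
          linarith
    obtain ⟨a, a', c, c', haa, hcc, h1, h1', htr, htc⟩ := two_entries hTab
    have ha0 : a ≠ w0 := by
      rintro rfl
      simp [hB] at h1
    have ha0' : a' ≠ w0 := by
      rintro rfl
      simp [hB] at h1'
    have hBa : 1 ≤ Bm x r W a c := by simpa [hB, ha0] using h1
    have hBa' : 1 ≤ Bm x r W a' c' := by simpa [hB, ha0'] using h1'
    have haW : a ∈ W := by
      by_contra hh
      rw [hBo a c hh] at hBa
      omega
    have haW' : a' ∈ W := by
      by_contra hh
      rw [hBo a' c' hh] at hBa'
      omega
    have hc0 : c ≠ w0 := by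
      rintro rfl
      simp [Bm, haW, hw0, ha0.symm] at hBa
    have hc0' : c' ≠ w0 := by
      rintro rfl
      simp [Bm, haW', hw0, ha0'.symm] at hBa'
    have hB00 : 1 ≤ Bm x r W w0 w0 := by
      simp only [Bm, hw0, if_true]
      push_cast at h_def
      have : (0 : ℤ) ≤ k := Int.natCast_nonneg k
      linarith
    have hF := hM {a, a', w0} (by
        intro v hv
        simp only [Finset.mem_insert, Finset.mem_singleton] at hv
        rcases hv with rfl | rfl | rfl
        · exact haW
        · exact haW'
        · exact hw0) (by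
        rw [Finset.card_insert_of_notMem, Finset.card_insert_of_notMem, Finset.card_singleton]
        · simpa using ha0'
        · simp [haa, ha0]) (by simp)
    obtain ⟨ρ, hρ1, hρ2, hρ3⟩ := hF
    set w : Fin 3 → V := ![a, a', w0] with hw
    set cc : Fin 3 → V := ![c, c', w0] with hcd
    have iw : Function.Injective w := by
      intro i j hij
      fin_cases i <;> fin_cases j <;> simp_all [hw]
      all_goals first | exact absurd hij haa | exact absurd hij.symm haa | skip
    have ic : Function.Injective cc := by
      intro i j hij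
      fin_cases i <;> fin_cases j <;> simp_all [hcd]
      all_goals first | exact absurd hij hcc | exact absurd hij.symm hcc | skip
    have hmem : ∀ v, v ∈ W \ ({a, a', w0} : Finset V) ↔ v ∈ W ∧ ∀ i, v ≠ w i := by
      intro v
      simp only [Finset.mem_sdiff, Finset.mem_insert, Finset.mem_singleton, hw]
      constructor
      · rintro ⟨h1, h2⟩
        push Not at h2
        refine ⟨h1, fun i => ?_⟩
        fin_cases i
        · exact h2.1
        · exact h2.2.1
        · exact h2.2.2
      · rintro ⟨h1, h2⟩
        refine ⟨h1, ?_⟩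
        push Not
        exact ⟨h2 0, h2 1, h2 2⟩
    have hex : ∀ v, (∃ i, v = w i) ↔ v = a ∨ v = a' ∨ v = w0 := by
      intro v
      constructor
      · rintro ⟨i, hi⟩
        fin_cases i
        · exact Or.inl hi
        · exact Or.inr (Or.inl hi)
        · exact Or.inr (Or.inr hi)
      · rintro (h | h | h)
        · exact ⟨0, h⟩
        · exact ⟨1, h⟩
        · exact ⟨2, h⟩
    have hexc : ∀ v, (∃ i, v = cc i) ↔ v = c ∨ v = c' ∨ v = w0 := by
      intro v
      constructor
      · rintro ⟨i, hi⟩
        fin_cases i
        · exact Or.inl hi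
        · exact Or.inr (Or.inl hi)
        · exact Or.inr (Or.inr hi)
      · rintro (h | h | h)
        · exact ⟨0, h⟩
        · exact ⟨1, h⟩
        · exact ⟨2, h⟩
    obtain ⟨x', hs', hp', htab⟩ := triple hs iw ic (by
        intro i
        fin_cases i
        · exact hBa
        · exact hBa'
        · exact hB00) hρ1 (fun v => (hρ2 v).trans (hmem v))
        (fun v hv hv' => hρ3 v ((hmem v).2 ⟨hv, hv'⟩))
    have hends : ∀ u ∈ W, ends x' (r - 1) W u =
        ends x r W u - if ∃ i, u = w i then 1 else 0 := by
      intro u hu
      rw [← Bm_row x' (r - 1) hu, ← Bm_row x r hu, ← f9_row (c := cc) iw u,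
        ← Finset.sum_sub_distrib]
      exact Finset.sum_congr rfl fun v _ => htab u v
    have hdin : ∀ v, v ∉ W → din x' W v = din x W v - if ∃ i, v = cc i then 1 else 0 := by
      intro v hv
      rw [← Bm_col hs'.isW (r - 1) hv, ← Bm_col hs.isW r hv, ← f9_col (w := w) ic v,
        ← Finset.sum_sub_distrib]
      exact Finset.sum_congr rfl fun u _ => htab u v
    have hE0' : ends x' (r - 1) W w0 = ends x r W w0 - 1 := by
      rw [hends w0 hw0, if_pos ((hex w0).2 (Or.inr (Or.inr rfl)))]
    have h00 : dg x' w0 = dg x w0 := by
      have h := htab w0 w0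
      rw [if_pos ⟨2, rfl, rfl⟩] at h
      simp only [Bm, hw0, if_true] at h
      linarith
    have ih' := ih (x := x') (r := r - 1) hs' (by
        rw [h00]
        push_cast at h_def
        linarith) (by
        intro u hu hu0
        rw [hends u hu, hE0']
        have h2 := h_row u hu hu0
        push_cast at h2
        by_cases hua : u = a ∨ u = a'
        · rw [if_pos ((hex u).2 (hua.elim Or.inl (fun h => Or.inr (Or.inl h))))]
          linarith
        · have hnex : ¬ ∃ i, u = w i := by
            rw [hex u]
            push Not at hua ⊢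
            exact ⟨hua.1, hua.2, hu0⟩
          rw [if_neg hnex]
          have hnt : ∑ f, B u f ≠ din x W w0 + ((k : ℤ) + 1) := fun h => hua (htr u h)
          rw [hrow' u hu0, Bm_row x r hu] at hnt
          have h3 : ends x r W u ≤ din x W w0 + ((k : ℤ) + 1) := by
            rw [hE0] at h2
            linarith
          have h4 : ends x r W u < din x W w0 + ((k : ℤ) + 1) := lt_of_le_of_ne h3 hnt
          rw [hE0]
          omega) (by
        intro v hv
        have hv0 : v ≠ w0 := fun h => hv (h ▸ hw0)
        have hx' : x' w0 v = x w0 v := by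
          have h := htab w0 v
          have hn : ¬ ∃ i, w0 = w i ∧ v = cc i := by
            rintro ⟨i, hi, hi'⟩
            have : i = 2 := iw (by rw [← hi]; rfl)
            rw [this] at hi'
            exact hv0 hi'
          rw [if_neg hn] at h
          simpa [Bm, hw0, hv] using h
        rw [hdin v hv, hx', hE0']
        have h2 := h_col v hv
        push_cast at h2
        by_cases hva : v = c ∨ v = c'
        · rw [if_pos ((hexc v).2 (hva.elim Or.inl (fun h => Or.inr (Or.inl h))))]
          linarith
        · have hnex : ¬ ∃ i, v = cc i := by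
            rw [hexc v]
            push Not at hva ⊢
            exact ⟨hva.1, hva.2, hv0⟩
          rw [if_neg hnex]
          have hnt : (∑ e, B e v) + 0 ≠ din x W w0 + ((k : ℤ) + 1) := fun h => hva (htc v h)
          rw [add_zero, hcols v, Bm_col hs.isW r hv] at hnt
          have h1 : Bm x r W w0 v = x w0 v := by simp [Bm, hw0, hv]
          rw [h1] at hnt
          have h3 : din x W v - x w0 v ≤ din x W w0 + ((k : ℤ) + 1) := by
            rw [hE0] at h2
            linarith
          have h4 := lt_of_le_of_ne h3 hnt
          rw [hE0]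
          omega)
    obtain ⟨x'', hs'', hp''⟩ := ih'
    refine ⟨x'', ?_, ?_⟩
    · have : r - ((k + 1 : ℕ) : ℤ) = r - 1 - k := by push_cast; ring
      rw [this]
      exact hs''
    · have hr1 : r - ((1 : ℕ) : ℤ) = r - 1 := by norm_num
      have := peeled_trans hp' (by rw [hr1]; exact hp'')
      rw [add_comm] at this
      exact this

end Pool.Agent.H44T
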