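import Pool.Agent.Lib.H44T.TDefs

/-!
# Chunk G1 (M): colouring a star (Hall)

`ι` colours. `A` the colours allowed at the centre, `N` the other ends, `h v` the number of edges to `v`, `F v` the colours forbidden at `v`. Apply Hall's theorem
(`Finset.all_card_le_biUnion_card_iff_exists_injective`) to the index type `Σ v : N, Fin (h v)` (or `{v // v ∈ N}`) with the sets `A \ F v`. For a finite set `X` of indices let `P` be its
projection to `N`; if `P` is not empty: `|X| ≤ ∑ v ∈ P, h v ≤ |A| - |A ∩ ⋂_P F v| = |⋃_{v ∈ P} (A \ F v)|`. `S v` = the image of the indices over `v`.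
-/

namespace Pool.Agent.H44T

open Finset Pool.Agent.H44O
open scoped Classical

theorem star {V ι : Type*} [Fintype V] [Fintype ι] (A : Finset ι) (N : Finset V) (h : V → ℕ)
    (F : V → Finset ι)
    (hall : ∀ P : Finset V, P ⊆ N → P.Nonempty →
      ∑ v ∈ P, h v + (A.filter (fun i => ∀ v ∈ P, i ∈ F v)).card ≤ A.card) :
    ∃ S : V → Finset ι, (∀ v ∈ N, S v ⊆ A ∧ Disjoint (S v) (F v) ∧ (S v).card = h v) ∧
      (∀ v, v ∉ N → S v = ∅) ∧ ∀ v v', v ≠ v' → Disjoint (S v) (S v') := by
  have key : ∀ s : Finset {x : V × ℕ // x.1 ∈ N ∧ x.2 < h x.1},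
      s.card ≤ (s.biUnion (fun x => A \ F x.1.1)).card := by
    intro s
    rcases s.eq_empty_or_nonempty with hs | hs
    · rw [hs]
      simp
    · set P : Finset V := s.image (fun x => x.1.1) with hP
      have hPN : P ⊆ N := by
        intro v hv
        rw [hP, Finset.mem_image] at hv
        obtain ⟨x, _, rfl⟩ := hv
        exact x.2.1
      have hPne : P.Nonempty := hs.image _
      have h1 : s.card ≤ ∑ v ∈ P, h v := by
        rw [Finset.card_eq_sum_card_image (fun x : {x : V × ℕ // x.1 ∈ N ∧ x.2 < h x.1} => x.1.1) s]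
        refine Finset.sum_le_sum fun v _ => ?_
        have : (s.filter (fun x => x.1.1 = v)).card ≤ (Finset.range (h v)).card := by
          refine Finset.card_le_card_of_injOn (fun x => x.1.2) ?_ ?_
          · intro x hx
            have hx' := (Finset.mem_filter.mp (Finset.mem_coe.mp hx)).2
            rw [Finset.mem_coe, Finset.mem_range, ← hx']
            exact x.2.2
          · intro x hx y hy hxy
            have hx' := (Finset.mem_filter.mp (Finset.mem_coe.mp hx)).2
            have hy' := (Finset.mem_filter.mp (Finset.mem_coe.mp hy)).2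
            apply Subtype.ext
            exact Prod.ext (hx'.trans hy'.symm) hxy
        rwa [Finset.card_range] at this
      have h2 := hall P hPN hPne
      have h3 : (A.filter (fun i => ¬ ∀ v ∈ P, i ∈ F v)) ⊆ s.biUnion (fun x => A \ F x.1.1) := by
        intro i hi
        rw [Finset.mem_filter] at hi
        obtain ⟨hiA, hi2⟩ := hi
        push Not at hi2
        obtain ⟨v, hv, hiv⟩ := hi2
        rw [hP, Finset.mem_image] at hv
        obtain ⟨x, hx, rfl⟩ := hv
        rw [Finset.mem_biUnion]
        exact ⟨x, hx, Finset.mem_sdiff.mpr ⟨hiA, hiv⟩⟩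
      have h4 := Finset.card_le_card h3
      have h5 := Finset.card_filter_add_card_filter_not (s := A) (fun i => ∀ v ∈ P, i ∈ F v)
      omega
  obtain ⟨f, hf, hfm⟩ := (Finset.all_card_le_biUnion_card_iff_exists_injective _).mp key
  refine ⟨fun v => if hv : v ∈ N then
      (Finset.univ : Finset (Fin (h v))).image
        (fun j : Fin (h v) => f ⟨(v, (j : ℕ)), ⟨hv, j.2⟩⟩) else ∅,
    ?_, ?_, ?_⟩
  · intro v hv
    simp only [dif_pos hv]
    refine ⟨?_, ?_, ?_⟩
    · intro i hi
      rw [Finset.mem_image] at hi
      obtain ⟨j, _, rfl⟩ := hi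
      exact (Finset.mem_sdiff.mp (hfm _)).1
    · rw [Finset.disjoint_left]
      intro i hi
      rw [Finset.mem_image] at hi
      obtain ⟨j, _, rfl⟩ := hi
      exact (Finset.mem_sdiff.mp (hfm _)).2
    · rw [Finset.card_image_of_injective, Finset.card_univ, Fintype.card_fin]
      intro j j' hjj
      have := hf hjj
      have := congrArg (fun x : {x : V × ℕ // x.1 ∈ N ∧ x.2 < h x.1} => x.1.2) this
      exact Fin.ext this
  · intro v hv
    simp only [dif_neg hv]
  · intro v v' hvv
    by_cases hv : v ∈ N
    · by_cases hv' : v' ∈ N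
      · simp only [dif_pos hv, dif_pos hv']
        rw [Finset.disjoint_left]
        intro i hi hi'
        rw [Finset.mem_image] at hi hi'
        obtain ⟨j, _, rfl⟩ := hi
        obtain ⟨j', _, hj'⟩ := hi'
        have := hf hj'
        have := congrArg (fun x : {x : V × ℕ // x.1 ∈ N ∧ x.2 < h x.1} => x.1.1) this
        exact hvv this.symm
      · simp only [dif_neg hv']
        exact Finset.disjoint_empty_right _
    · simp only [dif_neg hv]
      exact Finset.disjoint_empty_left _

end Pool.Agent.H44T
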