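import Pool.Agent.Lib.H44T.G1

/-!
# Chunk G2 (M): one more vertex

`PartCol h C J S`: the pairs that meet `J` are coloured. `o ∉ J`. Let `C' v := C v ∪ ⋃_{u ∈ J} S v u` (colours used or forbidden at `v`), `A := univ \ C' o`, `N := univ \ insert o J`. `hall` is the
hypothesis of `star` for `A`, `N`, `h o`, `C'`. Let `T` be the result; `S' u v := S u v` if `u ∈ J` or `v ∈ J`; `S' o v = S' v o := T v` for `v ∈ N`; `∅` otherwise.
-/

namespace Pool.Agent.H44T

open Finset Pool.Agent.H44O
open scoped Classical

variable {V ι : Type*} [Fintype V] [Fintype ι]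

/-- The edges that meet `J` are coloured with colours not forbidden at their ends. -/
structure PartCol (h : V → V → ℕ) (C : V → Finset ι) (J : Finset V) (S : V → V → Finset ι) : Prop where
  /-- symmetric -/
  symm : ∀ u v, S u v = S v u
  /-- the right number of colours -/
  card : ∀ u v, (S u v).card = if u ∈ J ∨ v ∈ J then h u v else 0
  /-- not forbidden -/
  forb : ∀ u v, Disjoint (S u v) (C u)
  /-- proper -/
  prop : ∀ u v v', v ≠ v' → Disjoint (S u v) (S u v')

/-- The colours used or forbidden at `v`. -/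
noncomputable def used (C : V → Finset ι) (J : Finset V) (S : V → V → Finset ι) (v : V) : Finset ι :=
  C v ∪ J.biUnion (fun u => S v u)

theorem add_vertex {h : V → V → ℕ} (hsym : ∀ u v, h u v = h v u) (hdiag : ∀ v, h v v = 0)
    {C : V → Finset ι} {J : Finset V} {S : V → V → Finset ι} (hS : PartCol h C J S) {o : V}
    (ho : o ∉ J)
    (hall : ∀ P : Finset V, P ⊆ univ \ insert o J → P.Nonempty →
      ∑ v ∈ P, h o v + ((univ \ used C J S o).filter (fun i => ∀ v ∈ P, i ∈ used C J S v)).card
        ≤ (univ \ used C J S o).card) :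
    ∃ S', PartCol h C (insert o J) S' := by
  obtain ⟨T, hT1, hT2, hT3⟩ := star (univ \ used C J S o) (univ \ insert o J) (fun v => h o v)
    (fun v => used C J S v) hall
  -- pairs inside the uncoloured part carry nothing
  have hS0 : ∀ u v, u ∉ J → v ∉ J → S u v = ∅ := by
    intro u v hu hv
    have := hS.card u v
    rw [if_neg (by tauto)] at this
    exact Finset.card_eq_zero.mp this
  have hT2' : ∀ v, v = o ∨ v ∈ J → T v = ∅ := by
    intro v hv
    apply hT2
    rw [Finset.mem_sdiff, Finset.mem_insert]
    tauto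
  have hTU : ∀ v i, i ∈ T v → i ∉ used C J S o ∧ i ∉ used C J S v ∧ v ≠ o ∧ v ∉ J := by
    intro v i hi
    have hvN : v ∈ univ \ insert o J := by
      by_contra hcon
      rw [hT2 v hcon] at hi
      exact absurd hi (Finset.notMem_empty i)
    obtain ⟨h1, h2, _⟩ := hT1 v hvN
    have h3 := (Finset.mem_sdiff.mp (h1 hi)).2
    have h4 := Finset.disjoint_left.mp h2 hi
    rw [Finset.mem_sdiff, Finset.mem_insert] at hvN
    exact ⟨h3, h4, by tauto, by tauto⟩
  -- the new colouring
  set S' : V → V → Finset ι := fun u v =>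
    if u ∈ J ∨ v ∈ J then S u v else if u = o then T v else if v = o then T u else ∅ with hS'
  have hE1 : ∀ u v, u ∈ J ∨ v ∈ J → S' u v = S u v := by
    intro u v huv
    simp only [hS', if_pos huv]
  have hE2 : ∀ v, v ∉ J → S' o v = T v := by
    intro v hv
    simp only [hS', if_neg (show ¬ (o ∈ J ∨ v ∈ J) by tauto), if_true]
  have hE3 : ∀ u, u ∉ J → S' u o = T u := by
    intro u hu
    by_cases huo : u = o
    · rw [huo]
      exact hE2 o ho
    · simp only [hS', if_neg (show ¬ (u ∈ J ∨ o ∈ J) by tauto), if_neg huo, if_true]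
  have hE4 : ∀ u v, u ∉ insert o J → v ∉ insert o J → S' u v = ∅ := by
    intro u v hu hv
    rw [Finset.mem_insert, not_or] at hu hv
    simp only [hS', if_neg (show ¬ (u ∈ J ∨ v ∈ J) by tauto), if_neg hu.1, if_neg hv.1]
  have hsub : ∀ u v, v ∈ J → ∀ i, i ∈ S u v → i ∈ used C J S u := by
    intro u v hv i hi
    rw [used, Finset.mem_union, Finset.mem_biUnion]
    exact Or.inr ⟨v, hv, hi⟩
  have hsubC : ∀ u i, i ∈ C u → i ∈ used C J S u := by
    intro u i hi
    rw [used, Finset.mem_union]
    exact Or.inl hi
  refine ⟨S', ⟨?_, ?_, ?_, ?_⟩⟩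
  · intro u v
    by_cases h1 : u ∈ J ∨ v ∈ J
    · rw [hE1 u v h1, hE1 v u h1.symm]
      exact hS.symm u v
    · rw [not_or] at h1
      by_cases h2 : u = o
      · rw [h2, hE2 v h1.2, hE3 v h1.2]
      · by_cases h3 : v = o
        · rw [h3, hE3 u h1.1, hE2 u h1.1]
        · rw [hE4 u v (by rw [Finset.mem_insert]; tauto) (by rw [Finset.mem_insert]; tauto),
            hE4 v u (by rw [Finset.mem_insert]; tauto) (by rw [Finset.mem_insert]; tauto)]
  · have hTc : ∀ v, v ∉ J → (T v).card = h o v := by
      intro v hv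
      by_cases hvo : v = o
      · rw [hvo, hT2' o (Or.inl rfl), hdiag o, Finset.card_empty]
      · refine (hT1 v ?_).2.2
        rw [Finset.mem_sdiff, Finset.mem_insert]
        exact ⟨Finset.mem_univ _, by tauto⟩
    intro u v
    by_cases h1 : u ∈ J ∨ v ∈ J
    · rw [hE1 u v h1, hS.card u v, if_pos h1,
        if_pos (by rw [Finset.mem_insert, Finset.mem_insert]; tauto)]
    · rw [not_or] at h1
      by_cases h2 : u = o
      · rw [h2, hE2 v h1.2, hTc v h1.2, if_pos (Or.inl (Finset.mem_insert_self _ _))]
      · by_cases h3 : v = o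
        · rw [h3, hE3 u h1.1, hTc u h1.1, if_pos (Or.inr (Finset.mem_insert_self _ _)), hsym o u]
        · rw [hE4 u v (by rw [Finset.mem_insert]; tauto) (by rw [Finset.mem_insert]; tauto),
            if_neg (by rw [Finset.mem_insert, Finset.mem_insert]; tauto), Finset.card_empty]
  · intro u v
    by_cases h1 : u ∈ J ∨ v ∈ J
    · rw [hE1 u v h1]
      exact hS.forb u v
    · rw [not_or] at h1
      rw [Finset.disjoint_left]
      intro i hi hiC
      by_cases h2 : u = o
      · subst h2
        rw [hE2 v h1.2] at hi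
        exact (hTU v i hi).1 (hsubC _ i hiC)
      · by_cases h3 : v = o
        · subst h3
          rw [hE3 u h1.1] at hi
          exact (hTU u i hi).2.1 (hsubC _ i hiC)
        · rw [hE4 u v (by rw [Finset.mem_insert]; tauto) (by rw [Finset.mem_insert]; tauto)] at hi
          exact absurd hi (Finset.notMem_empty i)
  · intro u v v' hvv
    rw [Finset.disjoint_left]
    intro i hi hi'
    by_cases hu : u ∈ J
    · rw [hE1 u v (Or.inl hu)] at hi
      rw [hE1 u v' (Or.inl hu)] at hi'
      exact Finset.disjoint_left.mp (hS.prop u v v' hvv) hi hi'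
    · by_cases h2 : u = o
      · rw [h2] at hi hi' hu
        by_cases hv : v ∈ J
        · rw [hE1 o v (Or.inr hv)] at hi
          by_cases hv' : v' ∈ J
          · rw [hE1 o v' (Or.inr hv')] at hi'
            exact Finset.disjoint_left.mp (hS.prop o v v' hvv) hi hi'
          · rw [hE2 v' hv'] at hi'
            exact (hTU v' i hi').1 (hsub o v hv i hi)
        · rw [hE2 v hv] at hi
          by_cases hv' : v' ∈ J
          · rw [hE1 o v' (Or.inr hv')] at hi'
            exact (hTU v i hi).1 (hsub o v' hv' i hi')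
          · rw [hE2 v' hv'] at hi'
            exact Finset.disjoint_left.mp (hT3 v v' hvv) hi hi'
      · have hcase : ∀ w, i ∈ S' u w → w ∉ J → w = o ∧ i ∈ T u := by
          intro w hw hwJ
          by_cases h3 : w = o
          · refine ⟨h3, ?_⟩
            rw [h3, hE3 u hu] at hw
            exact hw
          · rw [hE4 u w (by rw [Finset.mem_insert]; tauto) (by rw [Finset.mem_insert]; tauto)] at hw
            exact absurd hw (Finset.notMem_empty i)
        by_cases hv : v ∈ J
        · rw [hE1 u v (Or.inr hv)] at hi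
          by_cases hv' : v' ∈ J
          · rw [hE1 u v' (Or.inr hv')] at hi'
            exact Finset.disjoint_left.mp (hS.prop u v v' hvv) hi hi'
          · obtain ⟨_, h4⟩ := hcase v' hi' hv'
            exact (hTU u i h4).2.1 (hsub u v hv i hi)
        · obtain ⟨h5, h4⟩ := hcase v hi hv
          by_cases hv' : v' ∈ J
          · rw [hE1 u v' (Or.inr hv')] at hi'
            exact (hTU u i h4).2.1 (hsub u v' hv' i hi')
          · obtain ⟨h6, _⟩ := hcase v' hi' hv'
            exact hvv (h5.trans h6.symm)

end Pool.Agent.H44T
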