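import Pool.Agent.Lib.H44T.G2

/-!
# Chunk G3 (M/L): colouring the outside

Process the vertices in an order `o1, ...` with decreasing `|C v|` after `o1`. Induction: for every `j ≤ |V|` there are `J` with `|J| = j` (`o1 ∈ J` if `j ≥ 1`), `S` with `PartCol h C J S`, and
`|C v| ≤ |C u|` for `u ∈ J \ {o1}`, `v ∉ J`.
First step `J = ∅`, `o = o1`: `used = C`. For `|P| = 1`, `P = {v}`: `(i)` gives `h o1 v ≤ |univ| - |C o1| - |C v|`; for `|P| ≥ 2` the sets `C v`, `v ∈ P`, are disjoint, so the intersection is empty, and `(ii)`.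
Step `J ∋ o1`, `o ∉ J` with `|C o|` largest: `|used v| ≤ |C v| + |J| μ`. Let `j = |J|`, `q = |V|`. For `P` nonempty, `v ∈ P`:
`|P| = 1`: needed `h o v + |used o| + |used v| ≤ ρ`: `μ + |C o| + |C v| + 2 j μ ≤ ρ` (`num1`).
`|P| ≥ 2`, `v ≠ v'` in `P`: `∑ ≤ (q - j - 1) μ`, `|used o| ≤ |C o| + j μ`, and the common colours of `P` are at most `|used v| ≤ |C v| + j μ`, and also at most
`|used v ∩ used v'| ≤ 2 j μ` (`C v ∩ C v' = ∅`, so a common colour is in `⋃ S v u` or in `⋃ S v' u`). So `num2` suffices:
`(q - 1) μ + |C o| + min (2 j μ) (|C v| + j μ) ≤ ρ`.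
The numerical hypotheses `num1`, `num2` are used for `j`, and `o, v ∉ J` with: `(j + 1) |C o| ≤ ρ + κ`, `(j + 2) |C v| ≤ ρ + κ` (`hord`: the `|C u|`, `u ∈ J`, are at least `|C o|`, for `u = o1` up to `κ`, and
`∑ |C u| ≤ ρ`; `|C v| ≤ |C o|`).
-/

namespace Pool.Agent.H44T

open Finset Pool.Agent.H44O
open scoped Classical

variable {V ι : Type*} [Fintype V] [Fintype ι]

theorem g3_card_S {h : V → V → ℕ} {C : V → Finset ι} {J : Finset V} {S : V → V → Finset ι}
    (hS : PartCol h C J S) {μ : ℕ} (hμ : ∀ u v, h u v ≤ μ) (v : V) :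
    (J.biUnion (fun u => S v u)).card ≤ J.card * μ := by
  refine card_biUnion_le.trans ?_
  have h1 : ∀ u ∈ J, (S v u).card ≤ μ := by
    intro u hu
    rw [hS.card, if_pos (Or.inr hu)]
    exact hμ v u
  have h2 := sum_le_card_nsmul J _ _ h1
  rwa [smul_eq_mul] at h2

theorem g3_used {h : V → V → ℕ} {C : V → Finset ι} {J : Finset V} {S : V → V → Finset ι}
    (hS : PartCol h C J S) {μ : ℕ} (hμ : ∀ u v, h u v ≤ μ) (v : V) :
    (used C J S v).card ≤ (C v).card + J.card * μ := by
  unfold used
  exact (card_union_le _ _).trans (Nat.add_le_add_left (g3_card_S hS hμ v) _)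

theorem g3_inter {h : V → V → ℕ} {C : V → Finset ι} (hC : ∀ u v, u ≠ v → Disjoint (C u) (C v))
    {J : Finset V} {S : V → V → Finset ι} (hS : PartCol h C J S) {μ : ℕ} (hμ : ∀ u v, h u v ≤ μ)
    {v v' : V} (hne : v ≠ v') : (used C J S v ∩ used C J S v').card ≤ 2 * J.card * μ := by
  have h1 : used C J S v ∩ used C J S v' ⊆ J.biUnion (fun u => S v u) ∪ J.biUnion (fun u => S v' u) := by
    intro i hi
    rw [mem_inter] at hi
    unfold used at hi
    rw [mem_union, mem_union] at hi
    rw [mem_union]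
    obtain ⟨h2, h3⟩ := hi
    rcases h2 with h2 | h2
    · rcases h3 with h3 | h3
      · exact absurd h3 (disjoint_left.mp (hC v v' hne) h2)
      · exact Or.inr h3
    · exact Or.inl h2
  refine (card_le_card h1).trans ((card_union_le _ _).trans ?_)
  have h2 := g3_card_S hS hμ v
  have h3 := g3_card_S hS hμ v'
  calc _ ≤ J.card * μ + J.card * μ := add_le_add h2 h3
    _ = 2 * J.card * μ := by ring

theorem g3_compl (U : Finset ι) : (univ \ U).card + U.card = Fintype.card ι := by
  rw [card_sdiff_add_card_eq_card (subset_univ U), card_univ]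

/-- the sum of the sizes of disjoint sets -/
theorem g3_disj {C : V → Finset ι} (hC : ∀ u v, u ≠ v → Disjoint (C u) (C v)) (J : Finset V) :
    ∑ u ∈ J, (C u).card ≤ Fintype.card ι := by
  have h1 : ∀ u ∈ J, ∀ v ∈ J, u ≠ v → Disjoint (C u) (C v) := fun u _ v _ h => hC u v h
  rw [← card_biUnion h1]
  exact card_le_univ _

theorem g3_order {C : V → Finset ι} {o1 : V} {κ : ℕ} (hmax : ∀ v, (C v).card ≤ (C o1).card + κ)
    {J : Finset V} (ho1 : o1 ∈ J) {v : V} (hv : ∀ u ∈ J, u ≠ o1 → (C v).card ≤ (C u).card) :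
    J.card * (C v).card ≤ ∑ u ∈ J, (C u).card + κ := by
  have h1 : ∀ u ∈ J, (C v).card ≤ (C u).card + (if u = o1 then κ else 0) := by
    intro u hu
    by_cases h : u = o1
    · rw [if_pos h, h]
      exact hmax v
    · rw [if_neg h, add_zero]
      exact hv u hu h
  have h2 := sum_le_sum h1
  rw [sum_add_distrib, sum_ite_eq', if_pos ho1, sum_const, smul_eq_mul] at h2
  exact h2

/-- the Hall condition in one step -/
theorem g3_step {h : V → V → ℕ} {C : V → Finset ι} (hC : ∀ u v, u ≠ v → Disjoint (C u) (C v)) {μ κ : ℕ}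
    (hμ : ∀ u v, h u v ≤ μ) {o1 : V} (hmax : ∀ v, (C v).card ≤ (C o1).card + κ)
    (num1 : ∀ j co cv : ℕ, 1 ≤ j → j + 2 ≤ Fintype.card V → (j + 1) * co ≤ Fintype.card ι + κ →
      (j + 2) * cv ≤ Fintype.card ι + κ → (2 * j + 1) * μ + co + cv ≤ Fintype.card ι)
    (num2 : ∀ j co cv : ℕ, 1 ≤ j → j + 2 ≤ Fintype.card V → (j + 1) * co ≤ Fintype.card ι + κ →
      (j + 2) * cv ≤ Fintype.card ι + κ →
      (Fintype.card V - 1) * μ + co + min (2 * j * μ) (cv + j * μ) ≤ Fintype.card ι)
    {J : Finset V} {S : V → V → Finset ι} (hS : PartCol h C J S) (ho1 : o1 ∈ J)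
    (hord : ∀ u ∈ J, u ≠ o1 → ∀ v, v ∉ J → (C v).card ≤ (C u).card) {o : V} (ho : o ∉ J)
    (homax : ∀ v, v ∉ J → (C v).card ≤ (C o).card) {P : Finset V} (hP : P ⊆ univ \ insert o J)
    (hPne : P.Nonempty) :
    ∑ v ∈ P, h o v + ((univ \ used C J S o).filter (fun i => ∀ v ∈ P, i ∈ used C J S v)).card
        ≤ (univ \ used C J S o).card := by
  obtain ⟨v, hv⟩ := hPne
  have hPmem : ∀ v ∈ P, v ∉ J ∧ v ≠ o := by
    intro v hv
    have h1 := (mem_sdiff.mp (hP hv)).2
    rw [mem_insert, not_or] at h1
    exact ⟨h1.2, h1.1⟩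
  have hj : 1 ≤ J.card := card_pos.mpr ⟨o1, ho1⟩
  have hcardoJ : (insert o J).card = J.card + 1 := card_insert_of_notMem ho
  have hPc : P.card + (J.card + 1) ≤ Fintype.card V := by
    have h1 := card_le_card hP
    have h2 : (univ \ insert o J).card + (insert o J).card = Fintype.card V := by
      rw [card_sdiff_add_card_eq_card (subset_univ _), card_univ]
    omega
  have hP1 : 1 ≤ P.card := card_pos.mpr ⟨v, hv⟩
  have hq : J.card + 2 ≤ Fintype.card V := by omega
  have hco : (J.card + 1) * (C o).card ≤ Fintype.card ι + κ := by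
    have h1 := g3_order hmax ho1 (fun u hu hne => hord u hu hne o ho)
    have h2 := g3_disj hC (insert o J)
    rw [sum_insert ho] at h2
    rw [add_mul, one_mul]
    omega
  have hcv : ∀ v ∈ P, (J.card + 2) * (C v).card ≤ Fintype.card ι + κ := by
    intro v hv
    obtain ⟨hvJ, hvo⟩ := hPmem v hv
    have h1 := g3_order hmax ho1 (fun u hu hne => hord u hu hne v hvJ)
    have h2 := g3_disj hC (insert v (insert o J))
    have h3 : v ∉ insert o J := by
      rw [mem_insert, not_or]
      exact ⟨hvo, hvJ⟩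
    rw [sum_insert h3, sum_insert ho] at h2
    have h4 := homax v hvJ
    rw [add_mul]
    omega
  have hcomp := g3_compl (used C J S o)
  have huo := g3_used hS hμ o
  have huv := g3_used hS hμ v
  have hfv : ((univ \ used C J S o).filter (fun i => ∀ v ∈ P, i ∈ used C J S v)).card ≤ (used C J S v).card := by
    apply card_le_card
    intro i hi
    exact (mem_filter.mp hi).2 v hv
  have hsum : ∑ v ∈ P, h o v ≤ P.card * μ := by
    have h1 := sum_le_card_nsmul P (fun v => h o v) μ (fun v _ => hμ o v)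
    rwa [smul_eq_mul] at h1
  by_cases hP2 : P.card = 1
  · have h1 := num1 J.card (C o).card (C v).card hj hq hco (hcv v hv)
    have e1 : (2 * J.card + 1) * μ = J.card * μ + J.card * μ + μ := by ring
    rw [e1] at h1
    rw [hP2, one_mul] at hsum
    omega
  · obtain ⟨v', hv', hne⟩ := exists_mem_ne (show 1 < P.card by omega) v
    have hfi : ((univ \ used C J S o).filter (fun i => ∀ v ∈ P, i ∈ used C J S v)).card ≤
        (used C J S v ∩ used C J S v').card := by
      apply card_le_card
      intro i hi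
      exact mem_inter.mpr ⟨(mem_filter.mp hi).2 v hv, (mem_filter.mp hi).2 v' hv'⟩
    have h2 := g3_inter hC hS hμ (Ne.symm hne)
    have h1 := num2 J.card (C o).card (C v).card hj hq hco (hcv v hv)
    have h3 : ((univ \ used C J S o).filter (fun i => ∀ v ∈ P, i ∈ used C J S v)).card ≤
        min (2 * J.card * μ) ((C v).card + J.card * μ) := le_min (hfi.trans h2) (hfv.trans huv)
    have h4 : P.card * μ + J.card * μ ≤ (Fintype.card V - 1) * μ := by
      rw [← add_mul]
      exact Nat.mul_le_mul_right μ (by omega)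
    omega

theorem outside {h : V → V → ℕ} (hsym : ∀ u v, h u v = h v u) (hdiag : ∀ v, h v v = 0)
    {C : V → Finset ι} (hC : ∀ u v, u ≠ v → Disjoint (C u) (C v)) {μ κ : ℕ}
    (hμ : ∀ u v, h u v ≤ μ) {o1 : V} (hmax : ∀ v, (C v).card ≤ (C o1).card + κ)
    (h1 : ∀ v, v ≠ o1 → h o1 v + (C o1).card + (C v).card ≤ Fintype.card ι)
    (h2 : ∑ v, h o1 v + (C o1).card ≤ Fintype.card ι)
    (num1 : ∀ j co cv : ℕ, 1 ≤ j → j + 2 ≤ Fintype.card V → (j + 1) * co ≤ Fintype.card ι + κ →
      (j + 2) * cv ≤ Fintype.card ι + κ → (2 * j + 1) * μ + co + cv ≤ Fintype.card ι)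
    (num2 : ∀ j co cv : ℕ, 1 ≤ j → j + 2 ≤ Fintype.card V → (j + 1) * co ≤ Fintype.card ι + κ →
      (j + 2) * cv ≤ Fintype.card ι + κ →
      (Fintype.card V - 1) * μ + co + min (2 * j * μ) (cv + j * μ) ≤ Fintype.card ι) :
    ∃ S, PartCol h C univ S := by
  have key : ∀ j ≤ Fintype.card V, ∃ J : Finset V, J.card = j ∧ (1 ≤ j → o1 ∈ J) ∧
      (∃ S, PartCol h C J S) ∧ ∀ u ∈ J, u ≠ o1 → ∀ v, v ∉ J → (C v).card ≤ (C u).card := by
    intro j
    induction j with
    | zero =>
      intro _
      refine ⟨∅, card_empty, fun h => absurd h (by norm_num), ⟨fun _ _ => ∅, ?_⟩, fun u hu => absurd hu (notMem_empty u)⟩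
      exact ⟨fun _ _ => rfl, fun u v => by simp, fun _ _ => disjoint_empty_left _, fun _ _ _ _ => disjoint_empty_left _⟩
    | succ j ih =>
      intro hj
      obtain ⟨J, hJc, hJo, ⟨S, hS⟩, hord⟩ := ih (by omega)
      rcases Nat.eq_zero_or_pos j with rfl | hj0
      · have hJ : J = ∅ := card_eq_zero.mp hJc
        subst hJ
        have hused : ∀ v, used C ∅ S v = C v := by
          intro v
          unfold used
          rw [biUnion_empty, union_empty]
        obtain ⟨S', hS'⟩ := add_vertex hsym hdiag hS (notMem_empty o1) (fun P hP hPne => by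
          obtain ⟨v, hv⟩ := hPne
          have hvo : v ≠ o1 := by
            intro h3
            have h4 := (mem_sdiff.mp (hP hv)).2
            rw [h3] at h4
            exact h4 (mem_insert_self _ _)
          simp only [hused]
          have hcomp := g3_compl (C o1)
          by_cases hP2 : P.card = 1
          · obtain ⟨w, hw⟩ := card_eq_one.mp hP2
            have hvw : v = w := by
              rw [hw] at hv
              exact mem_singleton.mp hv
            have h3 : ((univ \ C o1).filter (fun i => ∀ v ∈ P, i ∈ C v)).card ≤ (C v).card := by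
              apply card_le_card
              intro i hi
              exact (mem_filter.mp hi).2 v hv
            have h4 := h1 v hvo
            rw [hw, sum_singleton, ← hvw]
            rw [hw, ← hvw] at h3
            omega
          · have hP1 : 1 ≤ P.card := card_pos.mpr ⟨v, hv⟩
            obtain ⟨v', hv', hne⟩ := exists_mem_ne (show 1 < P.card by omega) v
            have h3 : (univ \ C o1).filter (fun i => ∀ v ∈ P, i ∈ C v) = ∅ := by
              rw [eq_empty_iff_forall_notMem]
              intro i hi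
              have h4 := (mem_filter.mp hi).2 v hv
              have h5 := (mem_filter.mp hi).2 v' hv'
              exact disjoint_left.mp (hC v' v hne) h5 h4
            have h4 : ∑ v ∈ P, h o1 v ≤ ∑ v, h o1 v := sum_le_univ_sum_of_nonneg (fun _ => Nat.zero_le _)
            rw [h3, card_empty]
            omega)
        refine ⟨insert o1 ∅, ?_, fun _ => mem_insert_self _ _, ⟨S', hS'⟩, ?_⟩
        · rw [card_insert_of_notMem (notMem_empty _), card_empty]
        · intro u hu hne
          rw [insert_empty_eq, mem_singleton] at hu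
          exact absurd hu hne
      · have ho1 := hJo hj0
        obtain ⟨o, ho, homax⟩ := exists_max_image (univ \ J) (fun v => (C v).card) (card_pos.mp (by
          have h3 : (univ \ J).card + J.card = Fintype.card V := by
            rw [card_sdiff_add_card_eq_card (subset_univ _), card_univ]
          omega))
        have ho' : o ∉ J := (mem_sdiff.mp ho).2
        have homax' : ∀ v, v ∉ J → (C v).card ≤ (C o).card := fun v hv =>
          homax v (mem_sdiff.mpr ⟨mem_univ v, hv⟩)
        obtain ⟨S', hS'⟩ := add_vertex hsym hdiag hS ho' (fun P hP hPne =>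
          g3_step hC hμ hmax num1 num2 hS ho1 hord ho' homax' hP hPne)
        refine ⟨insert o J, by rw [card_insert_of_notMem ho', hJc], fun _ => mem_insert_of_mem ho1, ⟨S', hS'⟩, ?_⟩
        intro u hu hne v hv
        rw [mem_insert, not_or] at hv
        rcases mem_insert.mp hu with h3 | h3
        · rw [h3]
          exact homax' v hv.2
        · exact hord u h3 hne v hv.2
  obtain ⟨J, hJc, -, ⟨S, hS⟩, -⟩ := key _ le_rfl
  have hJ : J = univ := (card_eq_iff_eq_univ J).mp hJc
  rw [hJ] at hS
  exact ⟨S, hS⟩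

end Pool.Agent.H44T
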