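import Pool.Agent.Lib.H44T.TDefs

/-!
# Chunk G4 (M): the numerical conditions

`q` outer vertices, `ρ` colours, `1 ≤ j`, `j + 2 ≤ q`. Hypotheses: `J0 ≥ 2` a natural number;
(a) `2 q μ + (2 (ρ + κ)) / (J0 + 2) ≤ ρ` written as `(J0 + 2) * (2 q μ) + 2 (ρ + κ) ≤ (J0 + 2) * ρ`;
(b) `6 ((2 J0 + 1) μ + κ) ≤ ρ`; (c) `2 ((q + 2 J0) μ + κ) ≤ ρ`.
* `num1`: `j ≤ J0`: `co ≤ (ρ + κ) / 2`, `cv ≤ (ρ + κ) / 3` (as `j ≥ 1`), so `co + cv ≤ 5 (ρ + κ) / 6` and (b). `j > J0`: `co, cv ≤ (ρ + κ) / (J0 + 2)`, `2 j + 1 ≤ 2 q - 3`, and (a).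
* `num2`: `j ≤ J0`: `min ≤ 2 J0 μ`, `co ≤ (ρ + κ) / 2`, and (c). `j > J0`: `min ≤ cv + j μ`, `(q - 1) + j ≤ 2 q - 3`, and (a).
-/

namespace Pool.Agent.H44T

theorem num_one {q ρ μ κ J0 j co cv : ℕ} (ha : (J0 + 2) * (2 * q * μ) + 2 * (ρ + κ) ≤ (J0 + 2) * ρ)
    (hb : 6 * ((2 * J0 + 1) * μ + κ) ≤ ρ) (hj : 1 ≤ j) (hjq : j + 2 ≤ q)
    (hco : (j + 1) * co ≤ ρ + κ) (hcv : (j + 2) * cv ≤ ρ + κ) :
    (2 * j + 1) * μ + co + cv ≤ ρ := by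
  rcases Nat.lt_or_ge J0 j with h | h
  · have h1 : (J0 + 2) * co ≤ (j + 1) * co := Nat.mul_le_mul_right _ (by omega)
    have h2 : (J0 + 2) * cv ≤ (j + 2) * cv := Nat.mul_le_mul_right _ (by omega)
    have h3 : (J0 + 2) * ((2 * j + 1) * μ) ≤ (J0 + 2) * (2 * q * μ) :=
      Nat.mul_le_mul_left _ (Nat.mul_le_mul_right _ (by omega))
    have h4 : (J0 + 2) * ((2 * j + 1) * μ + co + cv) ≤ (J0 + 2) * ρ := by
      rw [mul_add, mul_add]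
      omega
    exact Nat.le_of_mul_le_mul_left h4 (by omega)
  · have h1 : 2 * co ≤ (j + 1) * co := Nat.mul_le_mul_right _ (by omega)
    have h2 : 3 * cv ≤ (j + 2) * cv := Nat.mul_le_mul_right _ (by omega)
    have h3 : (2 * j + 1) * μ ≤ (2 * J0 + 1) * μ := Nat.mul_le_mul_right _ (by omega)
    omega

theorem num_two {q ρ μ κ J0 j co cv : ℕ} (ha : (J0 + 2) * (2 * q * μ) + 2 * (ρ + κ) ≤ (J0 + 2) * ρ)
    (hc : 2 * ((q + 2 * J0) * μ + κ) ≤ ρ) (hj : 1 ≤ j) (hjq : j + 2 ≤ q)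
    (hco : (j + 1) * co ≤ ρ + κ) (hcv : (j + 2) * cv ≤ ρ + κ) :
    (q - 1) * μ + co + min (2 * j * μ) (cv + j * μ) ≤ ρ := by
  rcases Nat.lt_or_ge J0 j with h | h
  · have h1 : (J0 + 2) * co ≤ (j + 1) * co := Nat.mul_le_mul_right _ (by omega)
    have h2 : (J0 + 2) * cv ≤ (j + 2) * cv := Nat.mul_le_mul_right _ (by omega)
    have h3 : (J0 + 2) * ((q - 1 + j) * μ) ≤ (J0 + 2) * (2 * q * μ) :=
      Nat.mul_le_mul_left _ (Nat.mul_le_mul_right _ (by omega))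
    have h4 : (J0 + 2) * ((q - 1 + j) * μ + co + cv) ≤ (J0 + 2) * ρ := by
      rw [mul_add, mul_add]
      omega
    have h5 := Nat.le_of_mul_le_mul_left h4 (by omega)
    have h6 : min (2 * j * μ) (cv + j * μ) ≤ cv + j * μ := min_le_right _ _
    rw [add_mul] at h5
    omega
  · have h1 : 2 * co ≤ (j + 1) * co := Nat.mul_le_mul_right _ (by omega)
    have h3 : (q - 1 + 2 * j) * μ ≤ (q + 2 * J0) * μ := Nat.mul_le_mul_right _ (by omega)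
    have h6 : min (2 * j * μ) (cv + j * μ) ≤ 2 * j * μ := min_le_left _ _
    rw [add_mul] at h3
    omega

end Pool.Agent.H44T
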