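import Pool.Agent.Lib.H44T.TDefs

/-!
# Chunk G5 (S/M): distributing the ends

`w : ι → A` with at least `∑ o, t a o` indices over `a`. For every `a` choose an injection of `Σ o : O, Fin (t a o)` into `{i // w i = a}` (cardinalities; `Function.Embedding.nonempty_of_card_le`), and let
`e i := some o` if `i` is the image of `(o, _)`, `none` if it is not in the image.
-/

namespace Pool.Agent.H44T

open Finset Pool.Agent.H44O
open scoped Classical

theorem assign {ι A O : Type*} [Fintype ι] [Fintype A] [Fintype O] (w : ι → A) (t : A → O → ℕ)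
    (h : ∀ a, ∑ o, t a o ≤ (univ.filter (fun i => w i = a)).card) :
    ∃ e : ι → Option O, ∀ a o, (univ.filter (fun i => w i = a ∧ e i = some o)).card = t a o := by
  have h1 : ∀ a, Nonempty ((Σ o : O, Fin (t a o)) ↪ {i // w i = a}) := by
    intro a
    apply Function.Embedding.nonempty_of_card_le
    rw [Fintype.card_sigma, Fintype.card_subtype]
    simp only [Fintype.card_fin]
    exact h a
  let g : ∀ a, (Σ o : O, Fin (t a o)) ↪ {i // w i = a} := fun a => (h1 a).some
  let e : ι → Option O := fun i =>
    if hx : ∃ s : (Σ o : O, Fin (t (w i) o)), (g (w i) s : ι) = i then some hx.choose.1 else none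
  have key : ∀ (i : ι) (a : A) (o : O), w i = a →
      (e i = some o ↔ ∃ k : Fin (t a o), (g a ⟨o, k⟩ : ι) = i) := by
    intro i a o hi
    subst hi
    constructor
    · intro he
      by_cases hx : ∃ s : (Σ o : O, Fin (t (w i) o)), (g (w i) s : ι) = i
      · have h2 : e i = some hx.choose.1 := dif_pos hx
        rw [h2] at he
        have h3 : hx.choose.1 = o := Option.some_injective _ he
        have h4 := hx.choose_spec
        generalize hx.choose = s at h3 h4
        obtain ⟨o', k⟩ := s
        simp only at h3
        subst h3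
        exact ⟨k, h4⟩
      · have h2 : e i = none := dif_neg hx
        rw [h2] at he
        exact absurd he (by simp)
    · rintro ⟨k, hk⟩
      have hx : ∃ s : (Σ o : O, Fin (t (w i) o)), (g (w i) s : ι) = i := ⟨⟨o, k⟩, hk⟩
      have h2 : e i = some hx.choose.1 := dif_pos hx
      have h4 := hx.choose_spec
      have h5 : hx.choose = ⟨o, k⟩ := by
        apply (g (w i)).injective
        apply Subtype.ext
        rw [h4, hk]
      rw [h2, h5]
  refine ⟨e, fun a o => ?_⟩
  have h6 : (univ.filter (fun i => w i = a ∧ e i = some o)) =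
      (univ : Finset (Fin (t a o))).map
        ⟨fun k => (g a ⟨o, k⟩ : ι), by
          intro k k' hkk
          have h7 := (g a).injective (Subtype.ext hkk)
          simpa using h7⟩ := by
    ext i
    rw [Finset.mem_filter, Finset.mem_map]
    constructor
    · rintro ⟨_, hi, he⟩
      obtain ⟨k, hk⟩ := (key i a o hi).1 he
      exact ⟨k, Finset.mem_univ _, hk⟩
    · rintro ⟨k, _, hk⟩
      have hk' : (g a ⟨o, k⟩ : ι) = i := hk
      have hi : w i = a := by
        rw [← hk']
        exact (g a ⟨o, k⟩).2
      exact ⟨Finset.mem_univ _, hi, (key i a o hi).2 ⟨k, hk'⟩⟩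
  rw [h6, Finset.card_map, Finset.card_univ, Fintype.card_fin]

end Pool.Agent.H44T
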