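import Pool.Agent.Lib.H44T.E4

/-!
# Chunk G6 (M/L): gluing the inner and the outer colouring

For every colour `i` define `f i : V → V`: `v ∈ W`, `v ≠ w i`: the vertex `u ∈ W` with `c i (some v) = some u`; `v = w i`: `e i` if it is `some o`, otherwise `v`; `v ∉ W`: `w i` if `e i = some v`;
otherwise the `o'` with `i ∈ S v o'`, if there is one (unique by `hprop`; then `e i ≠ some v`, and also `e i ≠ some o'`), otherwise `v`. `f i` is an involution (`hSsymm`; `c i` is a perfect matching of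
`Option W` with `c i none = some (w i)`, so `c i (some v)` is `none` exactly for `v = w i`). `τ i := toPerm`. Count: for `u ≠ v` the number of `i` with `τ i u = v` is `x u v`:
both in `W`: `hin`; `u ∈ W`, `v ∉ W`: `hend`; both outside: `hScard`. `Cov x (card ι)`: `a τ := ` the number of `i` with `τ i = τ`.
-/

namespace Pool.Agent.H44T

open Finset Pool.Agent.H44O
open scoped Classical

variable {V : Type*} [Fintype V]

/-- the involution of one colour -/
noncomputable def g6_f {W : Finset V} (c : Equiv.Perm (Option {v : V // v ∈ W})) (w : {v : V // v ∈ W})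
    (e : Option {v : V // v ∉ W}) (T : {v : V // v ∉ W} → {v : V // v ∉ W} → Prop) (v : V) : V :=
  if hv : v ∈ W then (c (some ⟨v, hv⟩)).elim (e.elim v (fun o => (o : V))) (fun u => (u : V))
  else if e = some ⟨v, hv⟩ then (w : V)
  else if h : ∃ o', T ⟨v, hv⟩ o' then (h.choose : V) else v

section

variable {W : Finset V} {c : Equiv.Perm (Option {v : V // v ∈ W})} {w : {v : V // v ∈ W}}
    {e : Option {v : V // v ∉ W}} {T : {v : V // v ∉ W} → {v : V // v ∉ W} → Prop}

theorem g6_in {v u : {v : V // v ∈ W}} (h : c (some v) = some u) : g6_f c w e T v = u := by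
  unfold g6_f
  rw [dif_pos v.2]
  have h1 : c (some ⟨(v : V), v.2⟩) = some u := h
  rw [h1]
  rfl

theorem g6_w {v : {v : V // v ∈ W}} {o : {v : V // v ∉ W}} (h : c (some v) = none) (he : e = some o) :
    g6_f c w e T v = o := by
  unfold g6_f
  rw [dif_pos v.2]
  have h1 : c (some ⟨(v : V), v.2⟩) = none := h
  rw [h1, he]
  rfl

theorem g6_w' {v : {v : V // v ∈ W}} (h : c (some v) = none) (he : e = none) :
    g6_f c w e T v = v := by
  unfold g6_f
  rw [dif_pos v.2]
  have h1 : c (some ⟨(v : V), v.2⟩) = none := h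
  rw [h1, he]
  rfl

theorem g6_out1 {v : {v : V // v ∉ W}} (he : e = some v) : g6_f c w e T v = w := by
  unfold g6_f
  rw [dif_neg v.2, if_pos he]

theorem g6_out2 {v o : {v : V // v ∉ W}} (he : e ≠ some v) (hT : T v o) (hu : ∀ o', T v o' → o' = o) :
    g6_f c w e T v = o := by
  unfold g6_f
  have h1 : ∃ o', T ⟨(v : V), v.2⟩ o' := ⟨o, hT⟩
  rw [dif_neg v.2, if_neg he, dif_pos h1, hu _ h1.choose_spec]

theorem g6_out3 {v : {v : V // v ∉ W}} (he : e ≠ some v) (hT : ∀ o', ¬ T v o') :
    g6_f c w e T v = v := by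
  unfold g6_f
  have h1 : ¬ ∃ o', T ⟨(v : V), v.2⟩ o' := by
    rintro ⟨o', ho'⟩
    exact hT o' ho'
  rw [dif_neg v.2, if_neg he, dif_neg h1]

theorem g6_inv (hc : IsPM c) (hw : c none = some w) (hsymm : ∀ u v, T u v → T v u)
    (hforb : ∀ u v, T u v → e ≠ some u) (huniq : ∀ u v v', T u v → T u v' → v = v') (v : V) :
    g6_f c w e T (g6_f c w e T v) = v := by
  have hcw : c (some w) = none := by
    rw [← hw]
    exact hc.1 none
  by_cases hv : v ∈ W
  · obtain ⟨v, rfl⟩ : ∃ v' : {v : V // v ∈ W}, (v' : V) = v := ⟨⟨v, hv⟩, rfl⟩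
    cases h : c (some v) with
    | some u =>
      have h1 : c (some u) = some v := by
        rw [← h]
        exact hc.1 _
      rw [g6_in h, g6_in h1]
    | none =>
      have hvw : w = v := by
        have h1 : c none = some v := by
          rw [← h]
          exact hc.1 _
        rw [hw] at h1
        exact Option.some.inj h1
      cases he : e with
      | some o =>
        rw [← he, g6_w h he, g6_out1 he, hvw]
      | none =>
        rw [← he, g6_w' h he, g6_w' h he]
  · obtain ⟨v, rfl⟩ : ∃ v' : {v : V // v ∉ W}, (v' : V) = v := ⟨⟨v, hv⟩, rfl⟩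
    by_cases he : e = some v
    · rw [g6_out1 he, g6_w hcw he]
    · by_cases hT : ∃ o, T v o
      · obtain ⟨o, ho⟩ := hT
        have h1 : T o v := hsymm _ _ ho
        rw [g6_out2 he ho (fun o' ho' => huniq _ _ _ ho' ho),
          g6_out2 (hforb _ _ h1) h1 (fun o' ho' => huniq _ _ _ ho' h1)]
      · have hT' : ∀ o', ¬ T v o' := fun o' ho' => hT ⟨o', ho'⟩
        rw [g6_out3 he hT', g6_out3 he hT']

end

theorem glue_col {ι : Type*} [Fintype ι] {x : V → V → ℤ} (hx : IsW x) {W : Finset V}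
    {c : ι → Equiv.Perm (Option {v : V // v ∈ W})} (hc : ∀ i, IsPM (c i))
    (hin : ∀ u v : {v : V // v ∈ W}, x u v ≤ ∑ i, chi (c i) (some u) (some v))
    {w : ι → {v : V // v ∈ W}} (hw : ∀ i, c i none = some (w i)) {e : ι → Option {v : V // v ∉ W}}
    (hend : ∀ (a : {v : V // v ∈ W}) (o : {v : V // v ∉ W}),
      x a o ≤ (univ.filter (fun i => w i = a ∧ e i = some o)).card)
    {S : {v : V // v ∉ W} → {v : V // v ∉ W} → Finset ι} (hSsymm : ∀ u v, S u v = S v u)
    (hScard : ∀ u v : {v : V // v ∉ W}, x u v ≤ (S u v).card)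
    (hSforb : ∀ u v, ∀ i ∈ S u v, e i ≠ some u) (hSd : ∀ u, S u u = ∅)
    (hprop : ∀ u v v', v ≠ v' → Disjoint (S u v) (S u v')) : Cov x (Fintype.card ι) := by
  have huniq : ∀ i u v v', i ∈ S u v → i ∈ S u v' → v = v' := by
    intro i u v v' h1 h2
    by_contra hne
    exact disjoint_left.mp (hprop u v v' hne) h1 h2
  have hinv : ∀ i, Function.Involutive (g6_f (c i) (w i) (e i) (fun u v => i ∈ S u v)) := fun i v =>
    g6_inv (hc i) (hw i) (fun u v h => by rw [hSsymm]; exact h) (fun u v h => hSforb u v i h)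
      (fun u v v' h1 h2 => huniq i u v v' h1 h2) v
  obtain ⟨τ, hτ⟩ : ∃ τ : ι → Equiv.Perm V, ∀ i v, τ i v = g6_f (c i) (w i) (e i) (fun u v => i ∈ S u v) v :=
    ⟨fun i => (hinv i).toPerm, fun i v => rfl⟩
  have hcw : ∀ i, c i (some (w i)) = none := by
    intro i
    rw [← hw i]
    exact (hc i).1 none
  have hchi : ∀ i u v, u ≠ v → τ i u = v → chi (τ i) u v = 1 := by
    intro i u v hne h
    unfold chi
    rw [if_pos ⟨h, hne⟩]
  have hchi0 : ∀ i u v, 0 ≤ chi (τ i) u v := by
    intro i u v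
    unfold chi
    split_ifs
    · exact zero_le_one
    · exact le_rfl
  have hcount : ∀ (A : Finset ι) (u v : V), u ≠ v → (∀ i ∈ A, τ i u = v) → (A.card : ℤ) ≤ ∑ i, chi (τ i) u v := by
    intro A u v hne hA
    calc (A.card : ℤ) = ∑ i ∈ A, chi (τ i) u v := by
          rw [sum_congr rfl (fun i hi => hchi i u v hne (hA i hi)), sum_const, nsmul_eq_mul, mul_one]
      _ ≤ ∑ i, chi (τ i) u v := sum_le_univ_sum_of_nonneg (fun i => hchi0 i u v)
  refine ⟨f6_a τ (fun _ => 1), ?_, ?_, ?_⟩
  · have h1 := f6_push τ (fun _ => 1) (fun _ => (1 : ℤ))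
    simp only [mul_one, Nat.cast_one, sum_const, card_univ, nsmul_eq_mul] at h1
    push_cast
    exact h1
  · intro σ hσ v
    obtain ⟨i, rfl, -⟩ := f6_ne τ (fun _ => 1) σ hσ
    rw [hτ, hτ]
    exact hinv i v
  · intro u v hne
    rw [f6_push]
    simp only [Nat.cast_one, one_mul]
    by_cases hu : u ∈ W
    · obtain ⟨u, rfl⟩ : ∃ u' : {v : V // v ∈ W}, (u' : V) = u := ⟨⟨u, hu⟩, rfl⟩
      by_cases hv : v ∈ W
      · obtain ⟨v, rfl⟩ : ∃ v' : {v : V // v ∈ W}, (v' : V) = v := ⟨⟨v, hv⟩, rfl⟩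
        refine (hin u v).trans (sum_le_sum (fun i _ => ?_))
        by_cases h : c i (some u) = some v
        · rw [hchi i u v hne (by rw [hτ, g6_in h])]
          unfold chi
          split_ifs
          · exact le_rfl
          · exact zero_le_one
        · have h2 : chi (c i) (some u) (some v) = 0 := by
            unfold chi
            rw [if_neg (fun h3 => h h3.1)]
          rw [h2]
          exact hchi0 i u v
      · obtain ⟨v, rfl⟩ : ∃ v' : {v : V // v ∉ W}, (v' : V) = v := ⟨⟨v, hv⟩, rfl⟩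
        refine (hend u v).trans (hcount _ _ _ hne (fun i hi => ?_))
        obtain ⟨h1, h2⟩ := (mem_filter.mp hi).2
        rw [hτ]
        apply g6_w _ h2
        rw [← h1]
        exact hcw i
    · obtain ⟨u, rfl⟩ : ∃ u' : {v : V // v ∉ W}, (u' : V) = u := ⟨⟨u, hu⟩, rfl⟩
      by_cases hv : v ∈ W
      · obtain ⟨v, rfl⟩ : ∃ v' : {v : V // v ∈ W}, (v' : V) = v := ⟨⟨v, hv⟩, rfl⟩
        rw [hx.symm]
        refine (hend v u).trans (hcount _ _ _ hne (fun i hi => ?_))
        obtain ⟨h1, h2⟩ := (mem_filter.mp hi).2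
        rw [hτ, g6_out1 h2, h1]
      · obtain ⟨v, rfl⟩ : ∃ v' : {v : V // v ∉ W}, (v' : V) = v := ⟨⟨v, hv⟩, rfl⟩
        refine (hScard u v).trans (hcount _ _ _ hne (fun i hi => ?_))
        rw [hτ]
        exact g6_out2 (hSforb u v i hi) hi (fun o' ho' => huniq i u o' v ho' hi)

end Pool.Agent.H44T
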