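import Pool.Agent.Lib.H44T.TDefs

/-!
# Chunk H1 (M): the numerical facts (pure integer arithmetic)

`n = m + q`, `n ≥ 2400 (J + 1) ^ 2`, `J ≥ 1`, `100 (n + 1) (k + L + 1) (J + 1) ≤ μ`, `(2 J + 3) μ n ≤ 3 J r`, `r ≤ μ m + k`. Put `P = μ n`, `Q = q μ` (so `μ m = P - Q`).
* `2 P ≤ 3 r`: `2 J P ≤ 3 J r - 3 P ≤ 3 J r`, divide by `J ≥ 1`. As `n ≥ 9600`: `6400 μ ≤ r`, also `1600 (J + 1) ^ 2 μ ≤ r`.
* small quantities: `200 n k ≤ μ`, `200 n L ≤ μ`, `200 k ≤ μ`, `200 L ≤ μ` (`J + 1 ≥ 2`), `100 (J + 1) k (n + 1) ≤ μ`.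
* `key`: `Q ≤ P - r + k`, so `(2 J + 3) Q ≤ 3 J r - (2 J + 3) r + (2 J + 3) k = (J - 3) r + (2 J + 3) k`.
* `num_m`: `2 μ n ≤ 3 r ≤ 3 μ m + 3 k < 3 μ m + μ`, so `2 n < 3 m + 1`.
* `num_1`: `3 (4 μ (n + 50) + 8 K n + 7 k) = 12 P + 600 μ + 24 K n + 21 k ≤ 14 P ≤ 21 r` for `K = k` and for `K = L`.
* `num_2`, `num_b`: from `1600 (J + 1) ^ 2 μ ≤ r`.
* `num_3`: `(2 J + 3) (2 Q + 2 k) ≤ (2 J - 6) r + 4 (2 J + 3) k ≤ (2 J + 3) r`.
* `num_a`: multiply by `2 J + 3` and use `key`: it is enough that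
  `(2 J + 3) (3 (J + 2) k + 2 k n) ≤ (5 J + 12) r` (as `(J + 2) (2 J + 3) - (J + 2) (2 J - 6) - 2 (2 J + 3) = 5 J + 12`).
* `num_c`: multiply by `2 J + 3` and use `key`: it is enough that `(2 J + 3) (4 J μ + 2 k n + 3 k) ≤ 9 r`.
-/

namespace Pool.Agent.H44T

/-- the numerical situation -/
structure Num (n m q μ k L J : ℕ) (r : ℤ) : Prop where
  /-- order -/
  nbig : 2400 * (J + 1) ^ 2 ≤ n
  /-- epsilon -/
  jpos : 1 ≤ J
  /-- outside -/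
  nmq : n = m + q
  /-- multiplicity -/
  mubig : 100 * (n + 1) * (k + L + 1) * (J + 1) ≤ μ
  /-- degree -/
  rbig : (2 * (J : ℤ) + 3) * (μ * n) ≤ 3 * J * r
  /-- inside -/
  rm : r ≤ μ * m + k

theorem h1_mu {n m q μ k L J : ℕ} {r : ℤ} (h : Num n m q μ k L J r) :
    200 * ((n : ℤ) + 1) * ((k : ℤ) + L + 1) ≤ μ ∧ 100 * ((n : ℤ) + 1) * ((J + 1) * k) ≤ μ := by
  have h1 : (100 * ((n : ℤ) + 1) * ((k : ℤ) + L + 1) * ((J : ℤ) + 1)) ≤ μ := by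
    exact_mod_cast h.mubig
  have hJ : (1 : ℤ) ≤ J := by exact_mod_cast h.jpos
  have hn : (0 : ℤ) ≤ n := Int.natCast_nonneg n
  have hk : (0 : ℤ) ≤ k := Int.natCast_nonneg k
  have hL : (0 : ℤ) ≤ L := Int.natCast_nonneg L
  constructor
  · refine le_trans ?_ h1
    have h2 : (0 : ℤ) ≤ 100 * ((n : ℤ) + 1) * ((k : ℤ) + L + 1) := by positivity
    nlinarith
  · refine le_trans ?_ h1
    have h2 : (0 : ℤ) ≤ 100 * ((n : ℤ) + 1) * (((J : ℤ) + 1) * (L + 1)) := by positivity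
    nlinarith

theorem h1_small {n m q μ k L J : ℕ} {r : ℤ} (h : Num n m q μ k L J r) :
    200 * ((k : ℤ) * n) + 200 * ((L : ℤ) * n) + 200 * k + 200 * L + 200 ≤ μ ∧
      100 * (((J : ℤ) + 1) * k * n) + 100 * (((J : ℤ) + 1) * k) ≤ μ := by
  obtain ⟨h1, h2⟩ := h1_mu h
  have hn : (0 : ℤ) ≤ n := Int.natCast_nonneg n
  constructor <;> nlinarith

theorem h1_P {n m q μ k L J : ℕ} {r : ℤ} (h : Num n m q μ k L J r) :
    2 * ((μ : ℤ) * n) ≤ 3 * r ∧ 2400 * (((J : ℤ) + 1) ^ 2 * μ) ≤ (μ : ℤ) * n ∧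
      4 * (μ : ℤ) ≤ ((J : ℤ) + 1) ^ 2 * μ ∧ (2 * (J : ℤ) + 1) * μ ≤ ((J : ℤ) + 1) ^ 2 * μ := by
  have hJ : (1 : ℤ) ≤ J := by exact_mod_cast h.jpos
  have hmu : (0 : ℤ) ≤ μ := Int.natCast_nonneg μ
  have hP : (0 : ℤ) ≤ (μ : ℤ) * n := by positivity
  have hn : 2400 * ((J : ℤ) + 1) ^ 2 ≤ n := by exact_mod_cast h.nbig
  refine ⟨?_, ?_, ?_, ?_⟩
  · have h1 := h.rbig
    have h2 : (J : ℤ) * (2 * ((μ : ℤ) * n)) ≤ J * (3 * r) := by nlinarith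
    exact le_of_mul_le_mul_left h2 (by linarith)
  · have h1 := mul_le_mul_of_nonneg_left hn hmu
    linarith
  · have h1 : (4 : ℤ) ≤ ((J : ℤ) + 1) ^ 2 := by nlinarith
    exact mul_le_mul_of_nonneg_right h1 hmu
  · have h1 : 2 * (J : ℤ) + 1 ≤ ((J : ℤ) + 1) ^ 2 := by nlinarith
    exact mul_le_mul_of_nonneg_right h1 hmu

theorem h1_key {n m q μ k L J : ℕ} {r : ℤ} (h : Num n m q μ k L J r) :
    (2 * (J : ℤ) + 3) * ((q : ℤ) * μ) ≤ (J - 3) * r + (2 * J + 3) * k := by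
  have h1 : (n : ℤ) = m + q := by exact_mod_cast h.nmq
  have h2 := h.rm
  have h3 := h.rbig
  have h4 : (q : ℤ) * μ ≤ μ * n - r + k := by
    rw [h1]
    linarith
  have hJ : (0 : ℤ) ≤ 2 * (J : ℤ) + 3 := by positivity
  have h5 := mul_le_mul_of_nonneg_left h4 hJ
  linarith

theorem num_m {n m q μ k L J : ℕ} {r : ℤ} (h : Num n m q μ k L J r) : 40 ≤ m := by
  obtain ⟨a1, a2, a3, -⟩ := h1_P h
  obtain ⟨b1, -⟩ := h1_small h
  have h2 := h.rm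
  have hk : (0 : ℤ) ≤ k := Int.natCast_nonneg k
  have hL : (0 : ℤ) ≤ L := Int.natCast_nonneg L
  have hkn : (0 : ℤ) ≤ (k : ℤ) * n := by positivity
  have hLn : (0 : ℤ) ≤ (L : ℤ) * n := by positivity
  have hmu : (0 : ℤ) < μ := by linarith
  have h3 : (μ : ℤ) * 9600 ≤ μ * n := by linarith
  have h4 : (9600 : ℤ) ≤ n := le_of_mul_le_mul_left h3 hmu
  have h5 : (μ : ℤ) * (2 * n) < μ * (3 * m + 1) := by linarith
  have h6 : 2 * (n : ℤ) < 3 * m + 1 := lt_of_mul_lt_mul_left h5 hmu.le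
  omega

theorem num_mu {n m q μ k L J : ℕ} {r : ℤ} (h : Num n m q μ k L J r) :
    2 * k + 1 ≤ μ ∧ 0 ≤ r - k := by
  obtain ⟨a1, a2, a3, -⟩ := h1_P h
  obtain ⟨b1, -⟩ := h1_small h
  have hk : (0 : ℤ) ≤ k := Int.natCast_nonneg k
  have hL : (0 : ℤ) ≤ L := Int.natCast_nonneg L
  have hkn : (0 : ℤ) ≤ (k : ℤ) * n := by positivity
  have hLn : (0 : ℤ) ≤ (L : ℤ) * n := by positivity
  constructor
  · have : 2 * (k : ℤ) + 1 ≤ μ := by linarith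
    exact_mod_cast this
  · linarith

theorem num_1 {n m q μ k L J : ℕ} {r : ℤ} (h : Num n m q μ k L J r) :
    4 * (μ : ℤ) * (n + 50) + 8 * k * n ≤ 7 * r ∧ 4 * (μ : ℤ) * (n + 50) + 8 * L * n ≤ 7 * (r - k) := by
  obtain ⟨a1, a2, a3, -⟩ := h1_P h
  obtain ⟨b1, -⟩ := h1_small h
  have hk : (0 : ℤ) ≤ k := Int.natCast_nonneg k
  have hL : (0 : ℤ) ≤ L := Int.natCast_nonneg L
  have hkn : (0 : ℤ) ≤ (k : ℤ) * n := by positivity
  have hLn : (0 : ℤ) ≤ (L : ℤ) * n := by positivity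
  constructor <;> linarith

theorem num_2 {n m q μ k L J : ℕ} {r : ℤ} (h : Num n m q μ k L J r) :
    66 * (μ : ℤ) + 2 * k * (n + 8) < r ∧ 60 * (μ : ℤ) + 2 * L * n + L < r - k := by
  obtain ⟨a1, a2, a3, -⟩ := h1_P h
  obtain ⟨b1, -⟩ := h1_small h
  have hk : (0 : ℤ) ≤ k := Int.natCast_nonneg k
  have hL : (0 : ℤ) ≤ L := Int.natCast_nonneg L
  have hkn : (0 : ℤ) ≤ (k : ℤ) * n := by positivity
  have hLn : (0 : ℤ) ≤ (L : ℤ) * n := by positivity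
  constructor <;> linarith

theorem num_3 {n m q μ k L J : ℕ} {r : ℤ} (h : Num n m q μ k L J r) :
    2 * (q : ℤ) * μ + 2 * k ≤ r := by
  obtain ⟨a1, a2, a3, -⟩ := h1_P h
  obtain ⟨-, b2⟩ := h1_small h
  have c := h1_key h
  have hJ : (1 : ℤ) ≤ J := by exact_mod_cast h.jpos
  have hk : (0 : ℤ) ≤ k := Int.natCast_nonneg k
  have hT : (0 : ℤ) ≤ ((J : ℤ) + 1) * k * n := by positivity
  have hT' : (0 : ℤ) ≤ ((J : ℤ) + 1) * k := by positivity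
  have h1 : (2 * (J : ℤ) + 3) * (2 * (q : ℤ) * μ + 2 * k) ≤ (2 * (J : ℤ) + 3) * r := by
    have h2 : 4 * ((2 * (J : ℤ) + 3) * k) ≤ 12 * (((J : ℤ) + 1) * k) := by nlinarith
    linarith
  exact le_of_mul_le_mul_left h1 (by linarith)

theorem num_a {n m q μ k L J : ℕ} {r : ℤ} (h : Num n m q μ k L J r) :
    ((J : ℤ) + 2) * (2 * q * μ) + 2 * ((r - k) + k * n) ≤ (J + 2) * (r - k) := by
  obtain ⟨a1, a2, a3, -⟩ := h1_P h
  obtain ⟨b1, b2⟩ := h1_small h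
  have c := h1_key h
  have hJ : (1 : ℤ) ≤ J := by exact_mod_cast h.jpos
  have hk : (0 : ℤ) ≤ k := Int.natCast_nonneg k
  have hL : (0 : ℤ) ≤ L := Int.natCast_nonneg L
  have hkn : (0 : ℤ) ≤ (k : ℤ) * n := by positivity
  have hLn : (0 : ℤ) ≤ (L : ℤ) * n := by positivity
  have hT : (0 : ℤ) ≤ ((J : ℤ) + 1) * k * n := by positivity
  have hT' : (0 : ℤ) ≤ ((J : ℤ) + 1) * k := by positivity
  have h3 : 3 * (((J : ℤ) + 2) * k) + 2 * (k * n) ≤ r := by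
    have h4 : ((J : ℤ) + 2) * k ≤ 3 * (((J : ℤ) + 1) * k) := by nlinarith
    linarith
  have h5 : 0 ≤ 3 * (((J : ℤ) + 2) * k) + 2 * (k * n) := by positivity
  have h6 : (2 * (J : ℤ) + 3) * (3 * (((J : ℤ) + 2) * k) + 2 * (k * n)) ≤ (5 * J + 12) * r :=
    mul_le_mul (by linarith) h3 h5 (by linarith)
  have h7 : ((J : ℤ) + 2) * 2 * ((2 * (J : ℤ) + 3) * ((q : ℤ) * μ)) ≤
      ((J : ℤ) + 2) * 2 * ((J - 3) * r + (2 * J + 3) * k) :=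
    mul_le_mul_of_nonneg_left c (by linarith)
  have h8 : 0 ≤ (2 * (J : ℤ) + 3) * k := by positivity
  have h1 : (2 * (J : ℤ) + 3) * (((J : ℤ) + 2) * (2 * q * μ) + 2 * ((r - k) + k * n)) ≤
      (2 * (J : ℤ) + 3) * ((J + 2) * (r - k)) := by
    have e : (2 * (J : ℤ) + 3) * ((J + 2) * (r - k)) -
        (2 * (J : ℤ) + 3) * (((J : ℤ) + 2) * (2 * q * μ) + 2 * ((r - k) + k * n)) =
        (((J : ℤ) + 2) * 2 * ((J - 3) * r + (2 * J + 3) * k) -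
          ((J : ℤ) + 2) * 2 * ((2 * (J : ℤ) + 3) * ((q : ℤ) * μ))) +
        ((5 * J + 12) * r -
          (2 * (J : ℤ) + 3) * (3 * (((J : ℤ) + 2) * k) + 2 * (k * n))) +
        2 * ((2 * (J : ℤ) + 3) * k) := by ring
    linarith
  exact le_of_mul_le_mul_left h1 (by linarith)

theorem num_b {n m q μ k L J : ℕ} {r : ℤ} (h : Num n m q μ k L J r) :
    6 * ((2 * (J : ℤ) + 1) * μ + k * n) ≤ r - k := by
  obtain ⟨a1, a2, a3, a4⟩ := h1_P h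
  obtain ⟨b1, -⟩ := h1_small h
  have hk : (0 : ℤ) ≤ k := Int.natCast_nonneg k
  have hL : (0 : ℤ) ≤ L := Int.natCast_nonneg L
  have hkn : (0 : ℤ) ≤ (k : ℤ) * n := by positivity
  have hLn : (0 : ℤ) ≤ (L : ℤ) * n := by positivity
  linarith

theorem num_c {n m q μ k L J : ℕ} {r : ℤ} (h : Num n m q μ k L J r) :
    2 * (((q : ℤ) + 2 * J) * μ + k * n) ≤ r - k := by
  obtain ⟨a1, a2, a3, -⟩ := h1_P h
  obtain ⟨b1, b2⟩ := h1_small h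
  have c := h1_key h
  have hJ : (1 : ℤ) ≤ J := by exact_mod_cast h.jpos
  have hk : (0 : ℤ) ≤ k := Int.natCast_nonneg k
  have hmu : (0 : ℤ) ≤ μ := Int.natCast_nonneg μ
  have hT : (0 : ℤ) ≤ ((J : ℤ) + 1) * k * n := by positivity
  have hT' : (0 : ℤ) ≤ ((J : ℤ) + 1) * k := by positivity
  have h2 : (2 * (J : ℤ) + 3) * (4 * J * μ) ≤ 12 * (((J : ℤ) + 1) ^ 2 * μ) := by nlinarith
  have h3 : (2 * (J : ℤ) + 3) * (2 * (k * n)) ≤ 6 * (((J : ℤ) + 1) * k * n) := by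
    have : (0 : ℤ) ≤ (J : ℤ) * (k * n) := by positivity
    nlinarith
  have h4 : (2 * (J : ℤ) + 3) * (3 * k) ≤ 9 * (((J : ℤ) + 1) * k) := by nlinarith
  have h1 : (2 * (J : ℤ) + 3) * (2 * (((q : ℤ) + 2 * J) * μ + k * n)) ≤
      (2 * (J : ℤ) + 3) * (r - k) := by
    have e : (2 * (J : ℤ) + 3) * (r - k) -
        (2 * (J : ℤ) + 3) * (2 * (((q : ℤ) + 2 * J) * μ + k * n)) =
        2 * (((J - 3) * r + (2 * J + 3) * k) - (2 * (J : ℤ) + 3) * ((q : ℤ) * μ)) +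
        (9 * r - ((2 * (J : ℤ) + 3) * (4 * J * μ) + (2 * (J : ℤ) + 3) * (2 * (k * n)) +
          (2 * (J : ℤ) + 3) * (3 * k))) := by ring
    linarith
  exact le_of_mul_le_mul_left h1 (by linarith)

end Pool.Agent.H44T
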