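import Pool.Agent.Lib.H44T.E4
import Pool.Agent.Lib.H44S.A2

/-!
# Chunk H6 (M): the inner side of a full set is a sum of perfect matchings

`L` from `H44S.uniform_dec (card V + 1)`; `A = Option {v // v ∈ W}` has `|W| + 1` elements (even). `y = inn x r W`: `inn_isW`, `inn_dg_some`, `inn_dg_none` (`= r |W| - r (|W| - 1) = r`).
Cuts: `inn_cut` if `none ∉ U`; otherwise pass to the complement (`cutW_compl`, odd). `Closable (heavy y L)`: `inn_closable` with `k = 0`, `K = L`, `Λ = 2 (L + 1) (n + 1)`.
(`ends x r W w ≥ r - dg x w ≥ 0`.) For the instance mismatch of the complement in `Option` do not use the terms with convert; see how `min_degree_odd` in `H44O/G5` does it.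
-/

namespace Pool.Agent.H44T

open Finset Pool.Agent.H44O
open scoped Classical

theorem inner_dec (V : Type) [Fintype V] :
    ∃ L : ℕ, 1 ≤ L ∧ ∀ (x : V → V → ℤ) (r : ℤ) (μ : ℕ) (W : Finset V), IsW x →
      (∀ u v, x u v ≤ μ) → Odd W.card → 40 ≤ W.card → inW x W = r * ((W.card : ℤ) - 1) →
      (∀ w ∈ W, dg x w ≤ r) →
      (∀ Z : Finset V, Odd Z.card → 3 ≤ Z.card → Z.card < W.card →
        2 * ((L : ℤ) + 1) * (Fintype.card V + 1) ≤ slk x r Z) → 0 < μ →
      4 * (μ : ℤ) * (Fintype.card V + 50) + 8 * L * Fintype.card V ≤ 7 * r →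
      60 * (μ : ℤ) + 2 * L * Fintype.card V + L < r → Dec (inn x r W) := by
  obtain ⟨L, hL1, hL⟩ := H44S.uniform_dec (Fintype.card V + 1)
  refine ⟨L, hL1, ?_⟩
  intro x r μ W hx hxμ hWodd hW40 hins hdeg hslk hμ0 hr1 hr2
  have hn : ∀ w ∈ W, 0 ≤ ends x r W w := by
    intro w hw
    have h1 := hdeg w hw
    have h2 : din x W w ≤ dg x w := by
      unfold din dg
      exact sum_le_sum_of_subset_of_nonneg (subset_univ _) (fun v _ _ => hx.nonneg _ _)
    unfold ends
    linarith
  have hy := inn_isW hx hn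
  have hcard : Fintype.card (Option {v : V // v ∈ W}) = W.card + 1 := by
    rw [Fintype.card_option, Fintype.card_coe]
  have hWn : W.card ≤ Fintype.card V := card_le_univ W
  have hΛ : (L : ℤ) < 2 * ((L : ℤ) + 1) * (Fintype.card V + 1) := by
    have h1 : (0 : ℤ) ≤ Fintype.card V := Nat.cast_nonneg _
    have h2 : (0 : ℤ) ≤ L := Nat.cast_nonneg _
    nlinarith
  have hcut : ∀ U : Finset (Option {v : V // v ∈ W}), none ∉ U → Odd U.card → 3 ≤ U.card →
      U.card + 3 ≤ W.card + 1 → r + L ≤ cutW (inn x r W) U := by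
    intro U hU ho h3 h4
    obtain ⟨Z', hZW, hZc, hcu⟩ := inn_cut hx (r := r) (W := W) hU
    have h5 := hslk Z' (hZc ▸ ho) (hZc ▸ h3) (by omega)
    rw [hcu]
    linarith
  have hnone : dg (inn x r W) none = r := by
    rw [inn_dg_none, hins]
    ring
  have hclos : Closable (heavy (inn x r W) L) := by
    refine inn_closable (k := 0) (Λ := 2 * (L + 1) * (Fintype.card V + 1)) hx hxμ hWodd hW40
      (by rw [hins]; simp) hn (fun Z h1 h2 h3 => ?_) ?_ hμ0 hr1 (by simpa using hr2) ?_
    · have := hslk Z h1 h2 h3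
      push_cast
      exact this
    · have h1 : 0 < Fintype.card V + 1 := Nat.succ_pos _
      nlinarith
    · have h2 : (0 : ℤ) ≤ L := Nat.cast_nonneg _
      have h3 : (0 : ℤ) ≤ μ := Nat.cast_nonneg _
      have h4 : (0 : ℤ) ≤ Fintype.card V := Nat.cast_nonneg _
      have h5 : (0 : ℤ) ≤ 2 * (L : ℤ) * Fintype.card V := by positivity
      simp only [Nat.cast_zero, mul_zero]
      linarith
  refine hL (Option {v : V // v ∈ W}) ?_ ?_ (inn x r W) r hy ?_ ?_ ?_
  · rw [hcard]
    exact hWodd.add_one
  · rw [hcard]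
    omega
  · intro u
    cases u with
    | none => exact hnone
    | some w => exact inn_dg_some x r W w
  · intro U ho h3 h4
    rw [hcard] at h4
    by_cases hU : none ∈ U
    · obtain ⟨C, hCm, hCc⟩ : ∃ C : Finset (Option {v : V // v ∈ W}), (∀ o, o ∈ C ↔ o ∉ U) ∧
          cutW (inn x r W) C = cutW (inn x r W) U := by
        refine ⟨_, ?_, cutW_compl hy U⟩
        intro o
        exact @mem_compl _ _ _ (fun a b => Classical.propDecidable (a = b)) _
      have hdisj : Disjoint C U := by
        rw [disjoint_left]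
        intro o ho1
        exact (hCm o).1 ho1
      have hun : C ∪ U = univ := by
        ext o
        simp only [mem_union, hCm, mem_univ, iff_true]
        exact (em (o ∈ U)).symm
      have hc1 : C.card + U.card = W.card + 1 := by
        rw [← hcard, ← card_univ, ← hun, card_union_of_disjoint hdisj]
      have hc2 : none ∉ C := fun h => (hCm _).1 h hU
      rw [← hCc]
      refine hcut C hc2 ?_ ?_ ?_
      · obtain ⟨a, ha⟩ := hWodd
        obtain ⟨b, hb⟩ := ho
        exact ⟨a - b, by omega⟩
      · omega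
      · omega
    · exact hcut U hU ho h3 h4
  · exact hclos

end Pool.Agent.H44T
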