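import Pool.Agent.Lib.H44T.E4
import Pool.Agent.Lib.H44T.G5
import Pool.Agent.Lib.H44S.E1

/-!
# Chunk H7 (M): the inner colouring and the distribution of the ends

* `ends_fam`: `H44S.fam_of_dec` for `inn x r W` (on `Option {v // v ∈ W}`): `ι`, `c`. `c i none ≠ none`, so `c i none = some (w i)`. `x u v = inn (some u) (some v)`. For `a`:
  `|{i | w i = a}| = ∑ i, chi (c i) none (some a) = inn none (some a) = ends` (`inn_none`). `card ι = ∑ i, dg (chi (c i)) none = dg (inn x r W) none = r |W| - inW x W = r` (`inn_dg_none`, `dg_chi`).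
* `ends_out`: `assign` with `A = {v // v ∈ W}`, `O = {v // v ∉ W}`, `t a o = (x a o).toNat`: `∑ o, x a o = dg x a - din x W a ≤ r - din x W a = ends` (natural numbers as integers).
  The last statement: `|{i | e i = some o}| = ∑ a, |{i | w i = a ∧ e i = some o}| = ∑ a, x a o = din x W o`.
-/

namespace Pool.Agent.H44T

open Finset Pool.Agent.H44O
open scoped Classical

variable {V : Type} [Fintype V]

theorem ends_fam {x : V → V → ℤ} {r : ℤ} {W : Finset V} (hins : inW x W = r * ((W.card : ℤ) - 1))
    (hdec : Dec (inn x r W)) :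
    ∃ (ι : Type) (_ : Fintype ι) (c : ι → Equiv.Perm (Option {v : V // v ∈ W}))
      (w : ι → {v : V // v ∈ W}), (∀ i, IsPM (c i)) ∧ (∀ i, c i none = some (w i)) ∧
      (∀ u v : {v : V // v ∈ W}, x u v = ∑ i, chi (c i) (some u) (some v)) ∧
      (∀ a, ((univ.filter (fun i => w i = a)).card : ℤ) = ends x r W a) ∧
      (Fintype.card ι : ℤ) = r := by
  obtain ⟨ι, hι, c, hc, hx⟩ := H44S.fam_of_dec hdec
  have hw : ∀ i, ∃ w : {v : V // v ∈ W}, c i none = some w := by
    intro i
    exact Option.ne_none_iff_exists'.mp ((hc i).2 none)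
  choose w hw using hw
  refine ⟨ι, hι, c, w, hc, hw, fun u v => hx (some u) (some v), fun a => ?_, ?_⟩
  · rw [← inn_none x r W a, hx none (some a), card_filter]
    push_cast
    apply sum_congr rfl
    intro i _
    unfold chi
    by_cases h : w i = a
    · rw [if_pos h, if_pos ⟨by rw [hw i, h], by simp⟩]
    · rw [if_neg h, if_neg]
      rintro ⟨h1, -⟩
      rw [hw i] at h1
      exact h (Option.some.inj h1)
  · have h1 := inn_dg_none x r W
    rw [hins] at h1
    have h2 : dg (inn x r W) none = ∑ i : ι, dg (chi (c i)) none := by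
      unfold dg
      rw [sum_comm]
      exact sum_congr rfl (fun v _ => hx none v)
    rw [sum_congr rfl (fun i _ => dg_chi (hc i) none), sum_const, card_univ, nsmul_eq_mul, mul_one] at h2
    rw [← h2, h1]
    ring

theorem ends_out {x : V → V → ℤ} (hx : IsW x) {r : ℤ} {W : Finset V} (hdeg : ∀ w ∈ W, dg x w ≤ r)
    {ι : Type} [Fintype ι] {w : ι → {v : V // v ∈ W}}
    (hw : ∀ a, ((univ.filter (fun i => w i = a)).card : ℤ) = ends x r W a) :
    ∃ e : ι → Option {v : V // v ∉ W},
      (∀ (a : {v : V // v ∈ W}) (o : {v : V // v ∉ W}),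
        ((univ.filter (fun i => w i = a ∧ e i = some o)).card : ℤ) = x a o) ∧
      ∀ o : {v : V // v ∉ W}, ((univ.filter (fun i => e i = some o)).card : ℤ) = din x W o := by
  have hnn : ∀ u v, (((x u v).toNat : ℕ) : ℤ) = x u v := fun u v => Int.toNat_of_nonneg (hx.nonneg u v)
  obtain ⟨e, he⟩ := assign w (fun (a : {v : V // v ∈ W}) (o : {v : V // v ∉ W}) => (x a o).toNat) (by
    intro a
    have h2 : ((∑ v ∈ Wᶜ, (x (a : V) v).toNat : ℕ) : ℤ) = ∑ v ∈ Wᶜ, x (a : V) v := by
      rw [Nat.cast_sum]
      exact sum_congr rfl (fun o _ => hnn _ _)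
    have h3 : dg x (a : V) = din x W a + ∑ v ∈ Wᶜ, x (a : V) v := by
      unfold dg din
      exact (sum_add_sum_compl W _).symm
    have h4 := hdeg a a.2
    have h5 : ends x r W a = r - din x W a := rfl
    have h6 : ((∑ v ∈ Wᶜ, (x (a : V) v).toNat : ℕ) : ℤ) ≤
        ((univ.filter (fun i => w i = a)).card : ℤ) := by
      rw [h2, hw a, h5]
      linarith
    have h7 := Int.ofNat_le.mp h6
    refine le_trans (le_of_eq ?_) (le_trans h7 (le_of_eq (congrArg card ?_)))
    · symm
      exact sum_subtype Wᶜ (fun v => mem_compl) (fun v => (x (a : V) v).toNat)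
    · ext i
      simp only [mem_filter, mem_univ, true_and])
  have he' : ∀ (a : {v : V // v ∈ W}) (o : {v : V // v ∉ W}),
      (univ.filter (fun i => w i = a ∧ e i = some o)).card = (x a o).toNat := by
    intro a o
    refine Eq.trans (congrArg card ?_) (he a o)
    ext i
    simp only [mem_filter, mem_univ, true_and]
  refine ⟨e, fun a o => ?_, fun o => ?_⟩
  · rw [he' a o, hnn]
  · have h1 : (univ.filter (fun i => e i = some o)).card =
        ∑ a : {v : V // v ∈ W}, (univ.filter (fun i => w i = a ∧ e i = some o)).card := by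
      rw [card_eq_sum_card_fiberwise (f := w) (t := univ) (fun i _ => mem_univ _)]
      apply sum_congr rfl
      intro a _
      rw [filter_filter]
      refine congrArg card ?_
      ext i
      simp only [mem_filter, mem_univ, true_and]
      exact and_comm
    rw [h1, Nat.cast_sum]
    have h2 : ∀ a ∈ (univ : Finset {v : V // v ∈ W}), (((univ.filter (fun i => w i = a ∧ e i = some o)).card : ℕ) : ℤ) =
        x (o : V) (a : V) := by
      intro a _
      rw [he' a o, hnn, hx.symm]
    rw [sum_congr rfl h2]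
    unfold din
    exact sum_coe_sort W (fun v => x (o : V) v)

end Pool.Agent.H44T
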