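import Pool.Agent.Lib.H44T.G3
import Pool.Agent.Lib.H44T.G4
import Pool.Agent.Lib.H44T.G6
import Pool.Agent.Lib.H44T.H7

/-!
# Chunk H8 (M/L): a full set with decomposed inner side

`ends_fam`, `ends_out`. `O = {v // v ∉ W}`, `|O| = |Wᶜ| = q`, `ρ = card ι = r`. `h u v = (x u v).toNat` (so `(h u v : ℤ) = x u v`), `C v = {i | e i = some v}`: disjoint, `|C v| = din x W v`.
`outside` with `o1 = ⟨o, ho⟩`: `hmax`, `h1` (`h1` here), `h2` (`∑ v : O, x o v = ∑ c ∈ Wᶜ, x o c`), `num1`: `num_one`, `num2`: `num_two` with `J0 = J` (`ha`, `hb`, `hc` as natural numbers).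
`S` with `PartCol h C univ S`. `glue_col`: `hin`, `hw`, `hend` from above; `hSsymm`, `hScard` (`card`, `u ∈ univ`), `hSforb` (`forb`: `i ∈ S u v` is not in `C u`), `hSd` (`card` for `u = v`: `h u u = 0`),
`hprop`. `Cov x (card ι)` and `card ι = r`.
`tight_cov_empty`: the same with `e i = none` (there are no outer vertices) and `S = ∅`; `x a o` does not occur (`{v // v ∉ W}` is empty).
-/

namespace Pool.Agent.H44T

open Finset Pool.Agent.H44O
open scoped Classical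

variable {V : Type} [Fintype V]

theorem tight_cov {x : V → V → ℤ} (hx : IsW x) {r : ℤ} {W : Finset V}
    (hdeg : ∀ w ∈ W, dg x w ≤ r) (hins : inW x W = r * ((W.card : ℤ) - 1))
    (hdec : Dec (inn x r W)) {μ κ J : ℕ} (hμ : ∀ u v, x u v ≤ μ) {o : V} (ho : o ∉ W)
    (hmax : ∀ c, c ∉ W → din x W c ≤ din x W o + κ)
    (h2 : ∑ c ∈ Wᶜ, x o c + din x W o ≤ r)
    (h1 : ∀ c, c ∉ W → c ≠ o → din x W c + x o c + din x W o ≤ r)
    (ha : ((J : ℤ) + 2) * (2 * (Wᶜ.card : ℕ) * μ) + 2 * (r + κ) ≤ (J + 2) * r)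
    (hb : 6 * ((2 * (J : ℤ) + 1) * μ + κ) ≤ r)
    (hc : 2 * ((((Wᶜ.card : ℕ) : ℤ) + 2 * J) * μ + κ) ≤ r) : Cov x r := by
  obtain ⟨ι, _, c, w, hcP, hcw, hin, hwc, hcard⟩ := ends_fam hins hdec
  obtain ⟨e, he1, he2⟩ := ends_out hx hdeg hwc
  subst hcard
  obtain ⟨h, hh⟩ : ∃ h : {v : V // v ∉ W} → {v : V // v ∉ W} → ℕ, ∀ u v, (h u v : ℤ) = x u v :=
    ⟨fun u v => (x u v).toNat, fun u v => Int.toNat_of_nonneg (hx.nonneg _ _)⟩
  obtain ⟨C, hCd⟩ : ∃ C : {v : V // v ∉ W} → Finset ι, ∀ v i, i ∈ C v ↔ e i = some v :=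
    ⟨fun v => univ.filter (fun i => e i = some v), fun v i => by
      rw [mem_filter]; exact ⟨fun t => t.2, fun t => ⟨mem_univ _, t⟩⟩⟩
  have hCc : ∀ v : {v : V // v ∉ W}, ((C v).card : ℤ) = din x W v := by
    intro v
    rw [← he2 v]
    have t : C v = univ.filter (fun i => e i = some v) := by
      ext i
      rw [hCd, mem_filter]
      exact ⟨fun t => ⟨mem_univ _, t⟩, fun t => t.2⟩
    rw [t]
  have hq : Fintype.card {v : V // v ∉ W} = Wᶜ.card := by
    rw [Fintype.card_subtype]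
    refine congrArg Finset.card ?_
    ext v
    rw [mem_filter, mem_compl]
    exact ⟨fun t => t.2, fun t => ⟨mem_univ _, t⟩⟩
  have hsym : ∀ u v, h u v = h v u := by
    intro u v
    have t : (h u v : ℤ) = h v u := by rw [hh, hh, hx.symm]
    exact_mod_cast t
  have hdiag : ∀ v, h v v = 0 := by
    intro v
    have t : (h v v : ℤ) = 0 := by rw [hh, hx.diag]
    exact_mod_cast t
  have hC : ∀ u v, u ≠ v → Disjoint (C u) (C v) := by
    intro u v huv
    rw [Finset.disjoint_left]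
    intro i hi hi'
    rw [hCd] at hi hi'
    exact huv (Option.some.inj (hi.symm.trans hi'))
  have hμ' : ∀ u v, h u v ≤ μ := by
    intro u v
    have t : (h u v : ℤ) ≤ μ := by rw [hh]; exact hμ _ _
    exact_mod_cast t
  have hmax' : ∀ v, (C v).card ≤ (C ⟨o, ho⟩).card + κ := by
    intro v
    have t : ((C v).card : ℤ) ≤ (C ⟨o, ho⟩).card + κ := by
      rw [hCc, hCc]
      exact hmax v v.2
    exact_mod_cast t
  have h1' : ∀ v, v ≠ ⟨o, ho⟩ → h ⟨o, ho⟩ v + (C ⟨o, ho⟩).card + (C v).card ≤ Fintype.card ι := by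
    intro v hv
    have t : (h ⟨o, ho⟩ v : ℤ) + (C ⟨o, ho⟩).card + (C v).card ≤ Fintype.card ι := by
      rw [hCc, hCc, hh]
      have t2 := h1 v v.2 (fun t3 => hv (Subtype.ext t3))
      have t4 : x (⟨o, ho⟩ : {v : V // v ∉ W}) v + din x W (⟨o, ho⟩ : {v : V // v ∉ W}) + din x W v
        = din x W v + x o v + din x W o := by
        show x o v + din x W o + din x W v = _
        ring
      rw [t4]
      exact t2
    exact_mod_cast t
  have h2' : ∑ v, h ⟨o, ho⟩ v + (C ⟨o, ho⟩).card ≤ Fintype.card ι := by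
    have t : ((∑ v, h ⟨o, ho⟩ v : ℕ) : ℤ) + (C ⟨o, ho⟩).card ≤ Fintype.card ι := by
      rw [hCc, Nat.cast_sum, Finset.sum_congr rfl fun v _ => hh ⟨o, ho⟩ v]
      have t5 : ∑ c ∈ Wᶜ, x o c = ∑ c : {v : V // v ∉ W}, x o c :=
        Finset.sum_subtype Wᶜ (fun v => mem_compl) (fun c => x o c)
      rw [t5] at h2
      exact h2
    exact_mod_cast t
  have ha' : (J + 2) * (2 * Wᶜ.card * μ) + 2 * (Fintype.card ι + κ) ≤ (J + 2) * Fintype.card ι := by
    exact_mod_cast ha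
  have hb' : 6 * ((2 * J + 1) * μ + κ) ≤ Fintype.card ι := by exact_mod_cast hb
  have hc' : 2 * ((Wᶜ.card + 2 * J) * μ + κ) ≤ Fintype.card ι := by exact_mod_cast hc
  obtain ⟨S, hS⟩ := outside (h := h) hsym hdiag hC hμ' hmax' h1' h2'
    (fun j co cv t1 t2 t3 t4 => num_one ha' hb' t1 (by rw [← hq]; exact t2) t3 t4)
    (fun j co cv t1 t2 t3 t4 => by
      rw [hq]
      exact num_two ha' hc' t1 (by rw [← hq]; exact t2) t3 t4)
  refine glue_col hx hcP (fun u v => (hin u v).le) hcw (fun a o => (he1 a o).ge) hS.symm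
    (fun u v => ?_) (fun u v i hi t => ?_) (fun u => ?_) hS.prop
  · rw [hS.card, if_pos (Or.inl (mem_univ _)), hh]
  · exact Finset.disjoint_left.1 (hS.forb u v) hi ((hCd u i).2 t)
  · apply Finset.card_eq_zero.1
    rw [hS.card, if_pos (Or.inl (mem_univ _)), hdiag]

theorem tight_cov_empty {x : V → V → ℤ} (hx : IsW x) {r : ℤ} {W : Finset V} (hW : Wᶜ = ∅)
    (hins : inW x W = r * ((W.card : ℤ) - 1)) (hdec : Dec (inn x r W)) : Cov x r := by
  obtain ⟨ι, _, c, w, hcP, hcw, hin, hwc, hcard⟩ := ends_fam hins hdec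
  subst hcard
  have em : ∀ o : {v : V // v ∉ W}, False := by
    intro o
    have t : (o : V) ∈ Wᶜ := mem_compl.2 o.2
    rw [hW] at t
    exact absurd t (Finset.notMem_empty _)
  exact glue_col hx hcP (fun u v => (hin u v).le) hcw (e := fun _ => none)
    (fun a o => (em o).elim) (S := fun _ _ => ∅) (fun u v => rfl) (fun u _ => (em u).elim)
    (fun u _ _ _ => (em u).elim) (fun u => rfl) (fun u _ _ _ => (em u).elim)

end Pool.Agent.H44T
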