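import Pool.Agent.Lib.H44T.H2
import Pool.Agent.Lib.H44T.F7
import Pool.Agent.Lib.H44T.F9

/-!
# Chunk H4 (M): no dominant outer vertex

`2 din x W c < r - 2 μ` for all `c ∉ W`.
* If some `w0 ∈ W` has `r + μ < 2 ends x r W w0`: `peel_row`. A weak vertex `w` (`nbi (heavy x k) W w < 30`) is `w0`: otherwise `nf_weak`, `nf_pair`:
  `2 (r - 30 μ - k n) + r + μ < 2 (r - k)`: contradiction to `n2`. So `hM` from `nf_match` (`w0 ∈ F`). `h_def`: `ends w0 = (r - dg x w0) + ∑ c ∉ W, x w0 c ≤ (r - dg x w0) + |Wᶜ| μ`,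
  so `2 (r - dg x w0) > r + μ - 2 |Wᶜ| μ ≥ 2 k` (`n3`). `h_row`: `nf_pair`. `h_col`: `row_col`.
* Otherwise `2 ends ≤ r + μ` for all `w ∈ W`: `peel_none` with `q = r - k`: no weak vertices (`2 (r - 30 μ - k n) ≤ r + μ` contradicts `n2`); `hrr`: `nf_pair`; `hr1`, `hcc`,
  `hrc`: from the bounds and `2 k + 1 ≤ μ`.
-/

namespace Pool.Agent.H44T

open Finset Pool.Agent.H44O
open scoped Classical

variable {V : Type*} [Fintype V]

theorem regime_ac {x : V → V → ℤ} {r : ℤ} {μ k Λ : ℕ} {W : Finset V} (h : NF x r μ k Λ W)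
    (hb : ∀ c, c ∉ W → 2 * din x W c < r - 2 * μ) :
    ∃ x', St x' (r - k) W 0 (heavy x k) ∧ Peeled x x' r W k := by
  have hμ0 : (0 : ℤ) ≤ μ := Int.natCast_nonneg _
  have hk0 : (0 : ℤ) ≤ k := Int.natCast_nonneg _
  have hN0 : (0 : ℤ) ≤ Fintype.card V := Int.natCast_nonneg _
  have hkN : (0 : ℤ) ≤ k * Fintype.card V := mul_nonneg hk0 hN0
  have hmu : (2 * (k : ℤ) + 1) ≤ μ := by exact_mod_cast h.mu
  have hn2 : 66 * (μ : ℤ) + 2 * (k * Fintype.card V) + 16 * k < r := by
    have h2 := h.n2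
    have e : 66 * (μ : ℤ) + 2 * k * (Fintype.card V + 8) = 66 * (μ : ℤ) + 2 * (k * Fintype.card V) + 16 * k := by
      ring
    rw [e] at h2
    exact h2
  have hne : W.Nonempty := card_pos.mp (by
    have := h.card
    omega)
  by_cases hw : ∃ w0 ∈ W, r + μ < 2 * ends x r W w0
  · obtain ⟨w0, hw0, hbig⟩ := hw
    apply peel_row hw0 ?_ k (nf_st h) ?_ ?_ ?_
    · intro F hF hF3 hw0F
      apply nf_match h hF hF3
      intro v hv hvF
      by_contra hlt
      push Not at hlt
      have h1 := nf_weak h hlt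
      have hne' : v ≠ w0 := by
        intro h2
        exact hvF (h2 ▸ hw0F)
      have h2 := nf_pair h hv hw0 hne'
      linarith
    · have h1 : dg x w0 = din x W w0 + ∑ c ∈ Wᶜ, x w0 c := by
        unfold dg din
        exact (sum_add_sum_compl W _).symm
      have h2 : ∑ c ∈ Wᶜ, x w0 c ≤ Wᶜ.card • (μ : ℤ) :=
        sum_le_card_nsmul _ _ _ (fun c _ => h.le w0 c)
      rw [nsmul_eq_mul] at h2
      have h3 := h.n3
      have h4 : ends x r W w0 = r - din x W w0 := rfl
      linarith
    · intro w hwW hwne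
      have h1 := nf_pair h hwW hw0 hwne
      linarith
    · intro c hc
      have h1 := row_col h.isW h.ok h.odd h.ins hw0 hc
      linarith
  · push Not at hw
    apply peel_none (q := r - k) ?_ hne k (nf_st h) (by linarith) ?_ ?_ ?_ ?_
    · intro F hF hF3
      apply nf_match h hF hF3
      intro v hv _
      by_contra hlt
      push Not at hlt
      have h1 := nf_weak h hlt
      have h2 := hw v hv
      linarith
    · intro w hwW w' hw'W hne'
      exact nf_pair h hwW hw'W hne'
    · intro w hwW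
      have h1 := hw w hwW
      linarith
    · intro c hc c' hc'
      have h1 := hb c hc
      have h2 := hb c' hc'
      linarith
    · intro w hwW c hc
      have h1 := hw w hwW
      have h2 := hb c hc
      omega

end Pool.Agent.H44T
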