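import Pool.Agent.Lib.H44T.F6

/-!
# Chunk H5 (M): facts about peelings

* `peeled_le`: `chi ≥ 0`.
* `cov_of_peeled`: let `M` be the list. `b τ := M.count τ`; `a` from `Cov x' (r - l)`; use `a τ + M.count τ`. `∑ τ, M.count τ = M.length` (`Finset.sum_list_count`-like; or induction on the
  list `M`), and `(M.map (fun τ => chi τ u v)).sum = ∑ τ, (M.count τ) * chi τ u v` (induction on `M`).
* `slk_peeled`: `slk x' (r - l) Z = (r - l) (|Z| - 1) - inW x' Z ≥ r (|Z| - 1) - l n - inW x Z` (`x' ≤ x`, `|Z| - 1 ≤ n`).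
* `peeled_din`: for `c ∉ W`: `Bm_col` for both weights, and sum `tab` over `u ∈ W` (`Bm` is zero for `u ∉ W`).
-/

namespace Pool.Agent.H44T

open Finset Pool.Agent.H44O
open scoped Classical

variable {V : Type*} [Fintype V]

theorem h5_chi (τ : Equiv.Perm V) (u v : V) : 0 ≤ chi τ u v := by
  unfold chi
  split_ifs
  · exact zero_le_one
  · exact le_rfl

theorem h5_count (M : List (Equiv.Perm V)) (f : Equiv.Perm V → ℤ) :
    (M.map f).sum = ∑ τ, ((M.count τ : ℕ) : ℤ) * f τ := by
  induction M with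
  | nil => simp
  | cons σ M ih =>
    rw [List.map_cons, List.sum_cons, ih]
    have h1 : ∀ τ ∈ (univ : Finset (Equiv.Perm V)), (((σ :: M).count τ : ℕ) : ℤ) * f τ =
        (if τ = σ then f τ else 0) + ((M.count τ : ℕ) : ℤ) * f τ := by
      intro τ _
      by_cases h : τ = σ
      · rw [if_pos h, h, List.count_cons_self]
        push_cast
        ring
      · rw [if_neg h, List.count_cons_of_ne (Ne.symm h)]
        ring
    rw [sum_congr rfl h1, sum_add_distrib, sum_ite_eq', if_pos (mem_univ σ)]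

theorem peeled_le {x x' : V → V → ℤ} {r : ℤ} {W : Finset V} {l : ℕ} (h : Peeled x x' r W l)
    (u v : V) : x' u v ≤ x u v := by
  obtain ⟨M, -, -, hM⟩ := h.mats
  rw [hM u v]
  have h1 : 0 ≤ (M.map (fun τ => chi τ u v)).sum := by
    apply List.sum_nonneg
    intro z hz
    obtain ⟨τ, -, rfl⟩ := List.mem_map.mp hz
    exact h5_chi τ u v
  linarith

theorem cov_of_peeled {x x' : V → V → ℤ} {r : ℤ} {W : Finset V} {l : ℕ} (h : Peeled x x' r W l)
    (hc : Cov x' (r - l)) : Cov x r := by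
  obtain ⟨M, hl, hinv, hM⟩ := h.mats
  obtain ⟨a, ha, hainv, hax⟩ := hc
  refine ⟨fun τ => a τ + M.count τ, ?_, ?_, ?_⟩
  · have h1 := h5_count M (fun _ => (1 : ℤ))
    simp only [mul_one, List.map_const', List.sum_replicate, nsmul_eq_mul] at h1
    rw [hl] at h1
    rw [sum_add_distrib]
    push_cast at ha ⊢
    rw [ha, ← h1]
    ring
  · intro τ hτ
    by_cases h0 : a τ = 0
    · apply hinv
      rw [← List.count_pos_iff]
      simp only [h0, zero_add] at hτ
      exact Nat.pos_of_ne_zero hτ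
    · exact hainv τ h0
  · intro u v huv
    rw [hM u v, h5_count M (fun τ => chi τ u v)]
    have h1 := hax u v huv
    have h2 : ∑ τ, (((a τ + M.count τ : ℕ)) : ℤ) * chi τ u v =
        ∑ τ, (a τ : ℤ) * chi τ u v + ∑ τ, ((M.count τ : ℕ) : ℤ) * chi τ u v := by
      rw [← sum_add_distrib]
      apply sum_congr rfl
      intro τ _
      push_cast
      ring
    rw [h2]
    linarith

theorem slk_peeled {x x' : V → V → ℤ} {r : ℤ} {W : Finset V} {l : ℕ} (h : Peeled x x' r W l)
    (Z : Finset V) : slk x r Z ≤ slk x' (r - l) Z + l * Fintype.card V := by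
  have h1 : inW x' Z ≤ inW x Z := sum_le_sum (fun u _ => sum_le_sum (fun v _ => peeled_le h u v))
  have h2 : (Z.card : ℤ) - 1 ≤ Fintype.card V := by
    have : (Z.card : ℤ) ≤ Fintype.card V := by exact_mod_cast card_le_univ Z
    linarith
  have h3 : (l : ℤ) * ((Z.card : ℤ) - 1) ≤ l * Fintype.card V :=
    mul_le_mul_of_nonneg_left h2 (Int.natCast_nonneg _)
  unfold slk
  linarith

theorem peeled_din {x x' : V → V → ℤ} (hx : IsW x) (hx' : IsW x') {r : ℤ} {W : Finset V} {l : ℕ}
    (h : Peeled x x' r W l) {c : V} (hc : c ∉ W) :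
    din x' W c ≤ din x W c ∧ din x W c ≤ din x' W c + l * Fintype.card V := by
  rw [← Bm_col hx r hc, ← Bm_col hx' (r - l) hc]
  refine ⟨sum_le_sum (fun w _ => (h.tab w c).1), ?_⟩
  have h1 := sum_le_sum (fun w (_ : w ∈ (univ : Finset V)) => (h.tab w c).2)
  rw [sum_add_distrib, sum_const, card_univ, nsmul_eq_mul] at h1
  linarith

end Pool.Agent.H44T
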