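import Pool.Agent.Lib.H44T.H3
import Pool.Agent.Lib.H44T.H4
import Pool.Agent.Lib.H44T.H5

/-!
# Chunk H9 (M): peeling a nearly full set

If `Wᶜ = ∅`: `regime_ac` (no `c ∉ W`). Otherwise let `o ∉ W` have the largest `din x W o` (`Finset.exists_max_image`). If `r - 2 μ ≤ 2 din x W o`: `regime_beta`. Otherwise
`2 din x W c ≤ 2 din x W o < r - 2 μ` for all `c ∉ W`: `regime_ac`, and the two inequalities: `x' ≤ x ≤ μ` (`peeled_le`), `din x' ≤ din x` (`peeled_din`, `St.isW`):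
`2 (∑ c ∈ Wᶜ, x' o c + din x' W o) ≤ 2 |Wᶜ| μ + (r - 2 μ) ≤ 2 r - 2 k - 2 μ` (`n3`), and `2 (din x' W c + x' o c + din x' W o) ≤ 2 (r - 2 μ) + 2 μ ≤ 2 (r - k)` (`mu`).
-/

namespace Pool.Agent.H44T

open Finset Pool.Agent.H44O
open scoped Classical

variable {V : Type*} [Fintype V]

theorem regime {x : V → V → ℤ} {r : ℤ} {μ k Λ : ℕ} {W : Finset V} (h : NF x r μ k Λ W) :
    ∃ x', St x' (r - k) W 0 (heavy x k) ∧ Peeled x x' r W k ∧ (Wᶜ = ∅ ∨
      ∃ o, o ∉ W ∧ (∀ c, c ∉ W → din x W c ≤ din x W o) ∧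
        ∑ c ∈ Wᶜ, x' o c + din x' W o ≤ r - k ∧
        ∀ c, c ∉ W → c ≠ o → din x' W c + x' o c + din x' W o ≤ r - k) := by
  by_cases hW : Wᶜ = ∅
  · obtain ⟨x', h1, h2⟩ := regime_ac h (fun c hc => by
      exfalso
      have hc' : c ∈ Wᶜ := mem_compl.2 hc
      rw [hW] at hc'
      exact absurd hc' (Finset.notMem_empty c))
    exact ⟨x', h1, h2, Or.inl hW⟩
  · obtain ⟨o, ho, hmax⟩ := Finset.exists_max_image Wᶜ (fun c => din x W c)
      (Finset.nonempty_iff_ne_empty.2 hW)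
    have ho' : o ∉ W := mem_compl.1 ho
    have hm : ∀ c, c ∉ W → din x W c ≤ din x W o := fun c hc => hmax c (mem_compl.2 hc)
    by_cases hb : r - 2 * μ ≤ 2 * din x W o
    · obtain ⟨x', h1, h2, h3, h4⟩ := regime_beta h ho' hb
      exact ⟨x', h1, h2, Or.inr ⟨o, ho', hm, h3, h4⟩⟩
    · push Not at hb
      have hb' : ∀ c, c ∉ W → 2 * din x W c < r - 2 * μ := fun c hc =>
        lt_of_le_of_lt (by linarith [hm c hc]) hb
      obtain ⟨x', h1, h2⟩ := regime_ac h hb'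
      have le : ∀ u v, x' u v ≤ μ := fun u v => (peeled_le h2 u v).trans (h.le u v)
      have hd : ∀ c, c ∉ W → din x' W c ≤ din x W c := fun c hc =>
        (peeled_din h.isW h1.isW h2 hc).1
      have hmu : (2 * k + 1 : ℤ) ≤ μ := by exact_mod_cast h.mu
      refine ⟨x', h1, h2, Or.inr ⟨o, ho', hm, ?_, ?_⟩⟩
      · have hs : ∑ c ∈ Wᶜ, x' o c ≤ (Wᶜ.card : ℤ) * μ := by
          calc ∑ c ∈ Wᶜ, x' o c ≤ ∑ c ∈ Wᶜ, (μ : ℤ) := sum_le_sum fun c _ => le o c
            _ = (Wᶜ.card : ℤ) * μ := by rw [sum_const, nsmul_eq_mul]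
        have n3 := h.n3
        have h5 := hd o ho'
        linarith
      · intro c hc _
        have h5 := hd o ho'
        have h6 := hd c hc
        have h7 := hb' c hc
        have h8 := le o c
        linarith

end Pool.Agent.H44T
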