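import Pool.Agent.Lib.H44T.H1
import Pool.Agent.Lib.H44T.H6
import Pool.Agent.Lib.H44T.H8
import Pool.Agent.Lib.H44T.H9

/-!
# Chunk H10 (M): nearly full sets

`n = card V`, `L` from `inner_dec V`, `C := 2 (L + 1) (n + 1) + n + 4`, `μ1 := 100 (n + 1) (K + L + 1) (J + 1)`. Given the data let `m = |W|`, `q = |Wᶜ|`: `Num n m q μ k L J r` (`size_ge` gives `rm`;
`Finset.card_add_card_compl`). `NF x r μ k Λ W` with `Λ = C (k + 1)` (`num_m`, `num_mu`, `num_1`, `num_2`, `num_3`; `4 k ≤ C (k + 1)`). `regime` gives `x'`. Let `r' = r - k`.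
`St.ins` (with `k = 0`), `St.degW`, `x' ≤ μ` (`peeled_le`). Smaller odd sets: `slk x' r' Z ≥ C (k + 1) - k n ≥ 2 (L + 1) (n + 1)` (`slk_peeled`). `inner_dec`: `Dec (inn x' r' W)` (`num_1`, `num_2`).
`Wᶜ = ∅`: `tight_cov_empty`. Otherwise `tight_cov` with `κ = k n`: `din x' W c ≤ din x W c ≤ din x W o ≤ din x' W o + k n` (`peeled_din`); `num_a`, `num_b`, `num_c`. Finally `cov_of_peeled`.
-/

namespace Pool.Agent.H44T

open Finset Pool.Agent.H44O
open scoped Classical

theorem near_full (V : Type) [Fintype V] {J : ℕ} (hJ : 1 ≤ J)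
    (hn : 2400 * (J + 1) ^ 2 ≤ Fintype.card V) :
    ∃ C : ℕ, 1 ≤ C ∧ ∀ K : ℕ, ∃ μ1 : ℕ, ∀ (x : V → V → ℤ) (r : ℤ) (μ k : ℕ) (W : Finset V),
      μ1 ≤ μ → IsW x → Ok x r → (∀ u v, x u v ≤ μ) →
      (2 * (J : ℤ) + 3) * (μ * Fintype.card V) ≤ 3 * J * r → Odd W.card → 3 ≤ W.card → k ≤ K →
      inW x W = r * ((W.card : ℤ) - 1) - 2 * k →
      (∀ Z : Finset V, Odd Z.card → 3 ≤ Z.card → Z.card < W.card →
        (C : ℤ) * (k + 1) ≤ slk x r Z) → Cov x r := by
  obtain ⟨L, hL, hdec⟩ := inner_dec V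
  obtain ⟨C, hC⟩ : ∃ C, C = 2 * (L + 1) * (Fintype.card V + 1) + Fintype.card V + 4 := ⟨_, rfl⟩
  refine ⟨C, by omega, fun K => ⟨100 * (Fintype.card V + 1) * (K + L + 1) * (J + 1), ?_⟩⟩
  intro x r μ k W hμ1 hx hok hμ hbig hodd h3 hkK hins hsmall
  have hnum : Num (Fintype.card V) W.card Wᶜ.card μ k L J r := by
    refine ⟨hn, hJ, (card_add_card_compl W).symm, le_trans ?_ hμ1, hbig, ?_⟩
    · gcongr
    · exact size_ge hx hμ h3 (Int.natCast_nonneg k) hins
  have hnf : NF x r μ k (C * (k + 1)) W := by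
    refine ⟨hx, hok, hμ, hodd, num_m hnum, hins, ?_, ?_, (num_mu hnum).1, (num_1 hnum).1,
      (num_2 hnum).1, num_3 hnum⟩
    · intro Z hZ1 hZ2 hZ3
      have := hsmall Z hZ1 hZ2 hZ3
      push_cast
      exact this
    · have h1 : 4 * (k + 1) ≤ C * (k + 1) := Nat.mul_le_mul_right _ (by omega)
      omega
  obtain ⟨x', hst, hpe, hcase⟩ := regime hnf
  have hins' : inW x' W = (r - k) * ((W.card : ℤ) - 1) := by
    have h1 := hst.ins
    push_cast at h1
    linarith
  have hμ' : ∀ u v, x' u v ≤ μ := fun u v => (peeled_le hpe u v).trans (hμ u v)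
  have hmu := num_mu hnum
  have hdec' : Dec (inn x' (r - k) W) := by
    refine hdec x' (r - k) μ W hst.isW hμ' hodd (num_m hnum) hins' hst.degW ?_ (by omega)
      (num_1 hnum).2 (num_2 hnum).2
    intro Z hZ1 hZ2 hZ3
    have h1 := hsmall Z hZ1 hZ2 hZ3
    have h2 := slk_peeled hpe Z
    have h4 : (Fintype.card V : ℤ) * k ≤ (C : ℤ) * k := by
      refine mul_le_mul_of_nonneg_right ?_ (Int.natCast_nonneg k)
      exact_mod_cast (by omega : Fintype.card V ≤ C)
    have h5 : 2 * ((L : ℤ) + 1) * ((Fintype.card V : ℤ) + 1) ≤ (C : ℤ) := by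
      rw [hC]
      push_cast
      linarith [Int.natCast_nonneg (Fintype.card V)]
    linarith
  refine cov_of_peeled hpe ?_
  rcases hcase with hW | ⟨o, ho, hmax, h2, h1⟩
  · exact tight_cov_empty hst.isW hW hins' hdec'
  · refine tight_cov (μ := μ) (κ := k * Fintype.card V) (J := J) hst.isW hst.degW hins' hdec' hμ'
      ho ?_ h2 h1 ?_ ?_ ?_
    · intro c hc
      have e1 := (peeled_din hx hst.isW hpe hc).1
      have e2 := (peeled_din hx hst.isW hpe ho).2
      have e3 := hmax c hc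
      push_cast
      linarith
    · have := num_a hnum
      push_cast
      exact this
    · have := num_b hnum
      push_cast
      exact this
    · have := num_c hnum
      push_cast
      exact this

end Pool.Agent.H44T
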