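import Pool.Agent.Lib.H44T.E3
import Pool.Agent.Lib.H44T.E6
import Pool.Agent.Lib.H44T.F5

/-!
# Chunk H2 (M): matchings inside a nearly full set

* `nf_ends`: `ends x r W w = r - din ≥ r - dg x w ≥ 0` (`din ≤ dg`: `x ≥ 0`).
* `nf_sum`: `sum_ends` and `ins`.
* `nf_st`: from the fields; `H.Adj u v` gives `k ≤ x u v` for `H = heavy x k`.
* `nf_pair`: `pair_in` for `w ≠ w'` in `W`: `(W.erase w).erase w'` is odd with `|W| - 2` elements.
* `nf_weak`: `weak_ends` with `K = k`.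
* `nf_match`: `three_out` with `H = heavy x k`, `G = {w ∈ W | 8 ends ≤ r}`: `good_nb` (`n1`), `bad_card` (`16 k ≤ r` from `n2`).
-/

namespace Pool.Agent.H44T

open Finset Pool.Agent.H44O
open scoped Classical

variable {V : Type*} [Fintype V]

/-- A nearly full set `W` with slack `2 k`; all smaller odd sets have slack at least `Λ`. -/
structure NF (x : V → V → ℤ) (r : ℤ) (μ k Λ : ℕ) (W : Finset V) : Prop where
  /-- weight -/
  isW : IsW x
  /-- Edmonds -/
  ok : Ok x r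
  /-- multiplicity -/
  le : ∀ u v, x u v ≤ μ
  /-- odd -/
  odd : Odd W.card
  /-- large -/
  card : 40 ≤ W.card
  /-- slack -/
  ins : inW x W = r * ((W.card : ℤ) - 1) - 2 * k
  /-- smaller sets -/
  small : ∀ Z : Finset V, Odd Z.card → 3 ≤ Z.card → Z.card < W.card → (Λ : ℤ) ≤ slk x r Z
  /-- much larger slack -/
  lam : 4 * k ≤ Λ
  /-- large multiplicity -/
  mu : 2 * k + 1 ≤ μ
  /-- first numerical condition -/
  n1 : 4 * (μ : ℤ) * (Fintype.card V + 50) + 8 * k * Fintype.card V ≤ 7 * r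
  /-- second numerical condition -/
  n2 : 66 * (μ : ℤ) + 2 * k * (Fintype.card V + 8) < r
  /-- third numerical condition -/
  n3 : 2 * ((Wᶜ.card : ℕ) : ℤ) * μ + 2 * k ≤ r

theorem nf_ends {x : V → V → ℤ} {r : ℤ} {μ k Λ : ℕ} {W : Finset V} (h : NF x r μ k Λ W) {w : V}
    (hw : w ∈ W) : 0 ≤ ends x r W w := by
  have h1 : din x W w ≤ dg x w :=
    Finset.sum_le_sum_of_subset_of_nonneg (Finset.subset_univ W) fun v _ _ => h.isW.nonneg w v
  have h2 := h.ok.1 w
  unfold ends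
  linarith

theorem nf_sum {x : V → V → ℤ} {r : ℤ} {μ k Λ : ℕ} {W : Finset V} (h : NF x r μ k Λ W) :
    ∑ w ∈ W, ends x r W w = r + 2 * k := by
  rw [sum_ends, h.ins]
  ring

theorem nf_st {x : V → V → ℤ} {r : ℤ} {μ k Λ : ℕ} {W : Finset V} (h : NF x r μ k Λ W) :
    St x r W k (heavy x k) := by
  exact ⟨h.isW, fun w _ => h.ok.1 w, h.ins, fun u v huv => huv.2.1⟩

theorem nf_pair {x : V → V → ℤ} {r : ℤ} {μ k Λ : ℕ} {W : Finset V} (h : NF x r μ k Λ W)
    {w w' : V} (hw : w ∈ W) (hw' : w' ∈ W) (hne : w ≠ w') :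
    ends x r W w + ends x r W w' ≤ r - k := by
  have hw2 : w' ∈ W.erase w := Finset.mem_erase.2 ⟨hne.symm, hw'⟩
  have hc1 : (W.erase w).card = W.card - 1 := Finset.card_erase_of_mem hw
  have hc2 : ((W.erase w).erase w').card = (W.erase w).card - 1 := Finset.card_erase_of_mem hw2
  have hc := h.card
  have hodd : Odd ((W.erase w).erase w').card := by
    obtain ⟨j, hj⟩ := h.odd
    exact ⟨j - 1, by omega⟩
  have hs := h.small _ hodd (by omega) (by omega)
  have h1 := pair_in h.isW h.ins hw hw' hne hs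
  have h2 := h.isW.nonneg w w'
  have h3 : (4 : ℤ) * k ≤ Λ := by exact_mod_cast h.lam
  linarith

theorem nf_weak {x : V → V → ℤ} {r : ℤ} {μ k Λ : ℕ} {W : Finset V} (h : NF x r μ k Λ W) {w : V}
    (hw : nbi (heavy x k) W w < 30) : r ≤ ends x r W w + 30 * μ + k * Fintype.card V := by
  exact weak_ends h.isW h.le hw

theorem nf_match {x : V → V → ℤ} {r : ℤ} {μ k Λ : ℕ} {W : Finset V} (h : NF x r μ k Λ W)
    {F : Finset V} (hF : F ⊆ W) (hF3 : F.card = 3)
    (hdeg : ∀ v ∈ W, v ∉ F → 30 ≤ nbi (heavy x k) W v) :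
    ∃ ρ : Equiv.Perm V, (∀ v, ρ (ρ v) = v) ∧ (∀ v, ρ v ≠ v ↔ v ∈ W \ F) ∧
      ∀ v ∈ W \ F, (heavy x k).Adj v (ρ v) := by
  have hμ : 0 < μ := by
    have := h.mu
    omega
  have hn : (0 : ℤ) ≤ Fintype.card V := Int.natCast_nonneg _
  have hk0 : (0 : ℤ) ≤ k := Int.natCast_nonneg _
  have hk16 : 16 * (k : ℤ) ≤ r := by
    have h2 := h.n2
    have h3 : (0 : ℤ) ≤ (k : ℤ) * Fintype.card V := mul_nonneg hk0 hn
    have h4 : (0 : ℤ) ≤ μ := Int.natCast_nonneg _
    have h5 : 2 * (k : ℤ) * (Fintype.card V + 8) = 2 * ((k : ℤ) * Fintype.card V) + 16 * k := by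
      ring
    rw [h5] at h2
    linarith
  refine three_out (G := W.filter (fun w => 8 * ends x r W w ≤ r)) h.odd
    (Finset.filter_subset _ _) ?_ ?_ hF hF3 hdeg
  · intro v hv
    exact good_nb h.isW hμ h.le h.n1 (Finset.mem_filter.1 hv).2
  · refine le_trans (Finset.card_le_card ?_)
      (bad_card (nf_sum h) (fun w hw => nf_ends h hw) hk16)
    intro v hv
    rw [Finset.mem_sdiff, Finset.mem_filter] at hv
    rw [Finset.mem_filter]
    refine ⟨hv.1, ?_⟩
    by_contra hcon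
    exact hv.2 ⟨hv.1, not_lt.1 hcon⟩

end Pool.Agent.H44T
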