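import Pool.Agent.Lib.H44T.H2
import Pool.Agent.Lib.H44T.F8

/-!
# Chunk H3 (M): a dominant outer vertex

`r - 2 μ ≤ 2 din x W o`. No vertex of `W` is weak: if `nbi (heavy x k) W w < 30` then (`nf_weak`) `ends ≥ r - 30 μ - k n` and (`row_col`)
`ends + din x W o ≤ r + k + x w o ≤ r + k + μ`, so `2 (r - 30 μ - k n) + (r - 2 μ) ≤ 2 r + 2 k + 2 μ`: contradiction to `n2`. So `nf_match` gives `hM` of `peel_col` for
`H = heavy x k`. The other hypotheses: `h_big`: `2 din ≥ r - 2 μ ≥ 4 μ + 2 k` (`n2`); `h_deg`: the sum is `dg x o ≤ r` (`∑ c ∈ Wᶜ, x o c + ∑ c ∈ W, x o c`);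
`h_row`: `row_col`; `h_col`: `pair_out` (with `x c o = x o c`).
-/

namespace Pool.Agent.H44T

open Finset Pool.Agent.H44O
open scoped Classical

variable {V : Type*} [Fintype V]

theorem regime_beta {x : V → V → ℤ} {r : ℤ} {μ k Λ : ℕ} {W : Finset V} (h : NF x r μ k Λ W) {o : V}
    (ho : o ∉ W) (hb : r - 2 * μ ≤ 2 * din x W o) :
    ∃ x', St x' (r - k) W 0 (heavy x k) ∧ Peeled x x' r W k ∧
      ∑ c ∈ Wᶜ, x' o c + din x' W o ≤ r - k ∧
      ∀ c, c ∉ W → c ≠ o → din x' W c + x' o c + din x' W o ≤ r - k := by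
  have hμ0 : (0 : ℤ) ≤ μ := Int.natCast_nonneg _
  have hk0 : (0 : ℤ) ≤ k := Int.natCast_nonneg _
  have hn : (0 : ℤ) ≤ Fintype.card V := Int.natCast_nonneg _
  have hkn : (0 : ℤ) ≤ (k : ℤ) * Fintype.card V := mul_nonneg hk0 hn
  have h2 := h.n2
  have h2' : 66 * (μ : ℤ) + 2 * ((k : ℤ) * Fintype.card V) + 16 * k < r := by
    have e : 2 * (k : ℤ) * (Fintype.card V + 8) = 2 * ((k : ℤ) * Fintype.card V) + 16 * k := by
      ring
    rw [e] at h2
    linarith
  have hrow : ∀ w ∈ W, ends x r W w + din x W o - x w o ≤ r + k := fun w hw =>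
    row_col h.isW h.ok h.odd h.ins hw ho
  have hdeg : ∀ v ∈ W, 30 ≤ nbi (heavy x k) W v := by
    intro v hv
    by_contra hcon
    have h3 := nf_weak h (not_le.1 hcon)
    have h4 := hrow v hv
    have h5 := h.le v o
    linarith
  refine peel_col (μ := (μ : ℤ)) (fun F hF hF3 => nf_match h hF hF3 fun v hv _ => hdeg v hv) ho k
    (nf_st h) h.le ?_ ?_ hrow ?_
  · linarith
  · have h6 := h.ok.1 o
    have h7 : ∑ c ∈ Wᶜ, x o c + din x W o = dg x o := by
      unfold din dg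
      exact Finset.sum_compl_add_sum W _
    rw [h7]
    exact h6
  · intro c hc hne
    have h8 := pair_out h.isW h.ok h.odd h.ins hc ho hne
    rw [h.isW.symm o c]
    linarith

end Pool.Agent.H44T
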