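import Pool.Agent.Lib.H44T.D5
import Pool.Agent.Lib.H44O.F6

/-!
# Chunk I1 (M): graphs without nearly full sets, both parities

`zext x` on `Option V`: one more vertex without edges.
* `zext_isW`; `zext_in`: for `U : Finset (Option V)` there is `A : Finset V` (the vertices `v` with `some v ∈ U`) with `inW (zext x) U = inW x A` and `|U| = |A|` if `none ∉ U`, `|U| = |A| + 1` if `none ∈ U`.
* `zext_ok`: degrees: `dg (zext x) none = 0 ≤ r`, `dg (zext x) (some v) = dg x v`. Odd `U`: `none ∉ U`: from `Ok x r`. `none ∈ U`: `inW x A ≤ ∑ v ∈ A, dg x v ≤ r |A|`. (`0 ≤ r`: some degree is `≥ 0`, or `V` is empty, then everything is `0`: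
  take `hr` as a hypothesis.)
* `zext_slk`: odd `U`, `3 ≤ |U|`: `none ∉ U`: from the hypothesis. `none ∈ U`: `|A| ≥ 2` even, `slk = r |A| - inW x A`. If `|A| = 2`, `A = {a, b}`: `2 r - 2 x a b ≥ 2 r - 2 μ ≥ LI`. If `|A| ≥ 4`: take `v ∈ A`, `A' = A.erase v` (odd, `≥ 3`):
  `inW x A ≤ inW x A' + 2 dg x v ≤ r (|A| - 2) - LI + 2 r`.
* `case_one_cov`: `n` even: `case_one` and `out_of_dec` (`Comp.le`, `Comp.reg`; `V` is nonempty). `n` odd: `case_one` for `Option V` (`n + 1` vertices), `LI`, `μ0`; take `max μ0 LI`; `y` on `Option V`, `out_of_dec_ext`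
  (`x u v = zext x (some u) (some v) ≤ y (some u) (some v)`). The condition `(N + 1) μ ≤ 2 r` is `(n + 2) μ ≤ 2 r`, so `2 r - 2 μ ≥ n μ ≥ LI`.
-/

namespace Pool.Agent.H44T

open Finset Pool.Agent.H44O
open scoped Classical

/-- One more vertex without edges. -/
def zext {V : Type*} (x : V → V → ℤ) : Option V → Option V → ℤ
  | some u, some v => x u v
  | _, _ => 0

variable {V : Type*} [Fintype V]

theorem zext_isW {x : V → V → ℤ} (hx : IsW x) : IsW (zext x) := by
  refine ⟨?_, ?_, ?_⟩
  · rintro (_ | u) (_ | v)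
    · rfl
    · rfl
    · rfl
    · exact hx.symm u v
  · rintro (_ | v)
    · rfl
    · exact hx.diag v
  · rintro (_ | u) (_ | v)
    · exact le_rfl
    · exact le_rfl
    · exact le_rfl
    · exact hx.nonneg u v

theorem i1_some {U : Finset (Option V)} (hn : none ∉ U) :
    U = (univ.filter (fun v : V => some v ∈ U)).map Function.Embedding.some := by
  ext o
  rw [mem_map]
  constructor
  · intro h
    rcases o with _ | v
    · exact absurd h hn
    · exact ⟨v, mem_filter.2 ⟨mem_univ _, h⟩, rfl⟩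
  · rintro ⟨v, hv, rfl⟩
    exact (mem_filter.1 hv).2

theorem i1_none {U : Finset (Option V)} (hn : none ∈ U) :
    U = Finset.insertNone (univ.filter (fun v : V => some v ∈ U)) := by
  ext o
  rcases o with _ | v
  · exact ⟨fun _ => Finset.none_mem_insertNone, fun _ => hn⟩
  · rw [Finset.some_mem_insertNone, mem_filter]
    exact ⟨fun h => ⟨mem_univ _, h⟩, fun h => h.2⟩

theorem i1_sum (U : Finset (Option V)) (f : Option V → ℤ) (hf : f none = 0) :
    ∑ o ∈ U, f o = ∑ v ∈ univ.filter (fun v : V => some v ∈ U), f (some v) := by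
  by_cases hn : none ∈ U
  · conv_lhs => rw [i1_none hn]
    rw [Finset.sum_insertNone, hf, zero_add]
  · conv_lhs => rw [i1_some hn]
    rw [sum_map]
    rfl

theorem i1_split {x : V → V → ℤ} (hx : IsW x) {A : Finset V} {v : V} (hv : v ∈ A) :
    inW x A = inW x (A.erase v) + 2 * ∑ u ∈ A.erase v, x v u := by
  unfold inW
  have e : ∀ u, ∑ w ∈ A, x u w = x u v + ∑ w ∈ A.erase v, x u w := fun u =>
    (Finset.add_sum_erase A (fun w => x u w) hv).symm
  rw [← Finset.add_sum_erase A (fun u => ∑ w ∈ A, x u w) hv]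
  rw [Finset.sum_congr rfl fun u _ => e u, e v, hx.diag, sum_add_distrib,
    Finset.sum_congr rfl fun u (_ : u ∈ A.erase v) => hx.symm u v]
  ring

theorem i1_le {x : V → V → ℤ} (hx : IsW x) (A : Finset V) (v : V) : ∑ u ∈ A, x v u ≤ dg x v :=
  sum_le_sum_of_subset_of_nonneg (subset_univ _) fun u _ _ => hx.nonneg v u

theorem zext_in (x : V → V → ℤ) (U : Finset (Option V)) :
    ∃ A : Finset V, inW (zext x) U = inW x A ∧ U.card = A.card + if none ∈ U then 1 else 0 := by
  refine ⟨univ.filter (fun v => some v ∈ U), ?_, ?_⟩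
  · unfold inW
    rw [i1_sum U _ (Finset.sum_eq_zero fun o _ => rfl)]
    exact Finset.sum_congr rfl fun u _ => i1_sum U _ rfl
  · by_cases hn : none ∈ U
    · conv_lhs => rw [i1_none hn]
      rw [Finset.card_insertNone, if_pos hn]
    · conv_lhs => rw [i1_some hn]
      rw [card_map, if_neg hn, add_zero]

theorem zext_ok {x : V → V → ℤ} (hx : IsW x) {r : ℤ} (hr : 0 ≤ r) (hok : Ok x r) :
    Ok (zext x) r := by
  refine ⟨?_, ?_⟩
  · rintro (_ | v)
    · have e : dg (zext x) none = 0 := Finset.sum_eq_zero fun o _ => rfl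
      rw [e]
      exact hr
    · have e : dg (zext x) (some v) = dg x v := by
        unfold dg
        rw [Fintype.sum_option]
        exact zero_add _
      rw [e]
      exact hok.1 v
  · intro U hU
    obtain ⟨A, h1, h2⟩ := zext_in x U
    rw [h1, h2]
    rw [h2] at hU
    by_cases hn : none ∈ U
    · rw [if_pos hn] at hU ⊢
      have e : (((A.card + 1 : ℕ) : ℤ) - 1) = A.card := by push_cast; ring
      rw [e]
      calc inW x A ≤ ∑ u ∈ A, dg x u := sum_le_sum fun u _ => i1_le hx A u
        _ ≤ ∑ u ∈ A, r := sum_le_sum fun u _ => hok.1 u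
        _ = r * A.card := by rw [sum_const, nsmul_eq_mul, mul_comm]
    · rw [if_neg hn, add_zero] at hU ⊢
      exact hok.2 A hU

theorem zext_slk {x : V → V → ℤ} (hx : IsW x) {r : ℤ} (hok : Ok x r) {μ LI : ℕ}
    (hμ : ∀ u v, x u v ≤ μ) (h2 : 2 * (μ : ℤ) + LI ≤ 2 * r)
    (h : ∀ U : Finset V, Odd U.card → 3 ≤ U.card → (LI : ℤ) ≤ slk x r U)
    (U : Finset (Option V)) (hU : Odd U.card) (h3 : 3 ≤ U.card) : (LI : ℤ) ≤ slk (zext x) r U := by
  obtain ⟨A, h1, h4⟩ := zext_in x U
  unfold slk
  rw [h1, h4]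
  rw [h4] at hU h3
  by_cases hn : none ∈ U
  · rw [if_pos hn] at hU h3 ⊢
    have e : (((A.card + 1 : ℕ) : ℤ) - 1) = A.card := by push_cast; ring
    rw [e]
    have hA : 2 ≤ A.card := by omega
    by_cases hA2 : A.card = 2
    · obtain ⟨a, b, hab, rfl⟩ := Finset.card_eq_two.1 hA2
      rw [hA2]
      have e2 : inW x {a, b} = 2 * x a b := by
        unfold inW
        rw [Finset.sum_pair hab, Finset.sum_pair hab, Finset.sum_pair hab, hx.diag, hx.diag,
          hx.symm b a]
        ring
      rw [e2]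
      have := hμ a b
      push_cast
      linarith
    · obtain ⟨v, hv⟩ : A.Nonempty := Finset.card_pos.1 (by omega)
      have hc : (A.erase v).card = A.card - 1 := Finset.card_erase_of_mem hv
      have hA3 : A.card ≠ 3 := by
        intro t
        rw [t] at hU
        exact absurd hU (by decide)
      have ho : Odd (A.erase v).card := by
        rw [hc]
        rcases hU with ⟨m, hm⟩
        exact ⟨m - 1, by omega⟩
      have t1 := h (A.erase v) ho (by omega)
      unfold slk at t1
      rw [hc] at t1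
      have e3 : ((A.card - 1 : ℕ) : ℤ) = A.card - 1 := by
        rw [Nat.cast_sub (by omega)]
        rfl
      rw [e3] at t1
      have t2 := i1_split hx hv
      have t3 := i1_le hx (A.erase v) v
      have t4 := hok.1 v
      rw [t2]
      nlinarith
  · rw [if_neg hn, add_zero] at hU h3 ⊢
    exact h A hU h3

theorem case_one_cov (h6 : 6 ≤ Fintype.card V) :
    ∃ LI μ0 : ℕ, ∀ (x : V → V → ℤ) (r : ℤ) (μ : ℕ), μ0 ≤ μ → IsW x → Ok x r →
      (∀ u v, x u v ≤ μ) → ((Fintype.card V : ℤ) + 2) * μ ≤ 2 * r →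
      (∀ U : Finset V, Odd U.card → 3 ≤ U.card → (LI : ℤ) ≤ slk x r U) → Cov x r := by
  rcases Nat.even_or_odd (Fintype.card V) with hV | hV
  · obtain ⟨LI, μ0, h⟩ := case_one (V := V) hV h6
    refine ⟨LI, μ0, fun x r μ h0 hx hok hμ hr hs => ?_⟩
    have hμ0 : (0 : ℤ) ≤ μ := Int.natCast_nonneg _
    obtain ⟨y, hy, hd⟩ := h x r μ h0 hx hok hμ (by linarith) hs
    haveI : Nonempty V := Fintype.card_pos_iff.1 (by omega)
    exact out_of_dec hy.le hy.reg hd
  · have e : Fintype.card (Option V) = Fintype.card V + 1 := Fintype.card_option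
    obtain ⟨LI, μ0, h⟩ := case_one (V := Option V) (by rw [e]; exact hV.add_one) (by omega)
    refine ⟨LI, max μ0 LI, fun x r μ h0 hx hok hμ hr hs => ?_⟩
    have hμ0 : (0 : ℤ) ≤ μ := Int.natCast_nonneg _
    have hn : (6 : ℤ) ≤ Fintype.card V := by exact_mod_cast h6
    have hLI : (LI : ℤ) ≤ μ := by exact_mod_cast (le_max_right μ0 LI).trans h0
    have h8 : 8 * (μ : ℤ) ≤ 2 * r := by nlinarith
    have hle : ∀ u v, zext x u v ≤ μ := by
      rintro (_ | u) (_ | v)
      · exact hμ0
      · exact hμ0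
      · exact hμ0
      · exact hμ u v
    obtain ⟨y, hy, hd⟩ := h (zext x) r μ ((le_max_left μ0 LI).trans h0) (zext_isW hx)
      (zext_ok hx (by linarith) hok) hle (by rw [e]; push_cast; linarith)
      (zext_slk hx hok hμ (by linarith) hs)
    exact out_of_dec_ext (fun u v => hy.le (some u) (some v)) hy.reg hd

end Pool.Agent.H44T
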