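import Pool.Agent.Lib.H44T.H10
import Pool.Agent.Lib.H44T.I1

/-!
# Chunk I2 (M): the weight theorem

`LI`, `μ0'` from `case_one_cov`; `C` from `near_full`; `lam j := (LI + 2) * C ^ (n - j)` (natural subtraction), `K := (LI + 2) * C ^ n`, `μ1` from `near_full` for `K`; `μ0 := max μ0' μ1`. Let `x, r, μ` be given. `select x r lam`:
* all odd sets with at least three elements have slack at least `lam ≥ LI`: `case_one_cov`; `(n + 2) μ ≤ 2 r`: `2 J μ n ≤ 3 J r`, so `2 μ n ≤ 3 r` and `3 (n + 2) μ ≤ 4 μ n ≤ 6 r`.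
* otherwise `W`: `slk x r W` is even (`slk_parity`) and nonnegative (`slk_nonneg`): `= 2 k`, so `inW x W = r (|W| - 1) - 2 k`. `2 k < lam |W|`, so `k ≤ K`, `k + 1 ≤ lam |W|` (`lam ≥ 2`), and for odd `Z` with `3 ≤ |Z| < |W| ≤ n`:
  `C (k + 1) ≤ C lam |W| = (LI + 2) C ^ (n - |W| + 1) ≤ lam |Z| ≤ slk x r Z`.
-/

namespace Pool.Agent.H44T

open Finset Pool.Agent.H44O
open scoped Classical

theorem main_weight (V : Type) [Fintype V] {J : ℕ} (hJ : 1 ≤ J)
    (hn : 2400 * (J + 1) ^ 2 ≤ Fintype.card V) :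
    ∃ μ0 : ℕ, ∀ (x : V → V → ℤ) (r : ℤ) (μ : ℕ), μ0 ≤ μ → IsW x → Ok x r →
      (∀ u v, x u v ≤ μ) → (2 * (J : ℤ) + 3) * (μ * Fintype.card V) ≤ 3 * J * r → Cov x r := by
  have hn6 : 9600 ≤ Fintype.card V := by
    have h1 : 2400 * (1 + 1) ^ 2 ≤ 2400 * (J + 1) ^ 2 :=
      Nat.mul_le_mul_left _ (Nat.pow_le_pow_left (by omega) 2)
    omega
  obtain ⟨LI, m0, hI⟩ := case_one_cov (V := V) (by omega)
  obtain ⟨C, hC1, hC⟩ := near_full V hJ hn
  set n := Fintype.card V with hndef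
  let lam : ℕ → ℕ := fun j => (LI + 2) * C ^ (n - j)
  have hpow : ∀ j, 1 ≤ C ^ j := fun j => Nat.one_le_pow _ _ hC1
  have hlam : ∀ j, LI + 2 ≤ lam j := fun j => Nat.le_mul_of_pos_right _ (hpow _)
  obtain ⟨m1, hm1⟩ := hC ((LI + 2) * C ^ n)
  refine ⟨max m0 m1, fun x r μ hμ0 hx hok hμ hr => ?_⟩
  rcases select x r (fun j => (lam j : ℤ)) with h | ⟨W, hW, hW3, hWs, hWm⟩
  · refine hI x r μ ((le_max_left _ _).trans hμ0) hx hok hμ ?_ fun U hU h3 => ?_
    · have hP : (0 : ℤ) ≤ (μ : ℤ) * n := by positivity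
      have h1 : (J : ℤ) * (2 * ((μ : ℤ) * n)) ≤ J * (3 * r) := by
        have : (2 * (J : ℤ) + 3) * (μ * n) = J * (2 * ((μ : ℤ) * n)) + 3 * ((μ : ℤ) * n) := by ring
        nlinarith
      have h2 : 2 * ((μ : ℤ) * n) ≤ 3 * r :=
        le_of_mul_le_mul_left h1 (by exact_mod_cast hJ)
      have h3 : (6 : ℤ) ≤ n := by exact_mod_cast (by omega : 6 ≤ n)
      have h4 : (μ : ℤ) * 6 ≤ μ * n := mul_le_mul_of_nonneg_left h3 (by positivity)
      nlinarith
    · refine le_trans ?_ (h U hU h3)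
      exact_mod_cast (by have := hlam U.card; omega : LI ≤ lam U.card)
  · obtain ⟨k', hk'⟩ := slk_parity hx r hW
    have h0 := slk_nonneg hok hW
    obtain ⟨k, rfl⟩ : ∃ k : ℕ, k' = k := ⟨k'.toNat, by omega⟩
    have hWn : W.card ≤ n := Finset.card_le_univ W
    have hkl : 2 * k < lam W.card := by
      have : ((2 * k : ℕ) : ℤ) < (lam W.card : ℤ) := by push_cast; linarith
      exact_mod_cast this
    have hlamW := hlam W.card
    have hlK : lam W.card ≤ (LI + 2) * C ^ n :=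
      Nat.mul_le_mul_left _ (Nat.pow_le_pow_right hC1 (Nat.sub_le _ _))
    refine hm1 x r μ k W ((le_max_right _ _).trans hμ0) hx hok hμ hr hW hW3 (by omega) ?_ ?_
    · unfold slk at hk'
      linarith
    · intro Z hZ hZ3 hZW
      refine le_trans ?_ (hWm Z hZ hZ3 hZW)
      have h5 : C * (k + 1) ≤ lam Z.card := by
        calc C * (k + 1) ≤ C * lam W.card := Nat.mul_le_mul_left _ (by omega)
          _ = (LI + 2) * C ^ (n - W.card + 1) := by
            show C * ((LI + 2) * C ^ (n - W.card)) = _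
            ring
          _ ≤ (LI + 2) * C ^ (n - Z.card) :=
            Nat.mul_le_mul_left _ (Nat.pow_le_pow_right hC1 (by omega))
      exact_mod_cast h5

end Pool.Agent.H44T
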