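import Pool.Agent.Lib.H44T.I2
import Pool.Agent.Lib.H44O.H2
import Pool.Agent.Lib.H44O.H3
import Pool.Agent.Lib.H44O.H4
import Pool.Agent.Lib.H44O.H5

/-!
# Chunk I3 (S/M): the final theorem

`J` with `1 ≤ J`, `1 / J ≤ ε` (`exists_nat_one_div_lt` or `⌈1 / ε⌉₊`), `n0 = 2400 (J + 1) ^ 2`. For `n ≥ n0` take `μ0` from `main_weight (Fin n)`. Let `G` be given, `r = max Δ w`, `f : Fin n ≃ V` (cardinalities); `x i j = G.wgt (f i) (f j)`:
`isW_comap`, `ok_comap`, `ok_max`, `wgt_le`. `(2 J + 3) μ n ≤ 3 J r`: `3 J * (2 / 3 + 1 / J) μ n ≤ 3 J Δ ≤ 3 J r`. `Cov`; back to `V` with `cov_comap f.symm`; `chromaticIndex_le_of_cov`; the other inequality is `le_chromaticIndex`.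
(As `min_degree` in `H44O/H6`.)
-/

namespace Pool.Agent.H44T

open Finset Pool.Agent.H44O
open scoped Classical

theorem large_max_degree (ε : ℝ) (hε : 0 < ε) : ∃ n0 : ℕ, ∀ n : ℕ, n0 ≤ n →
    ∃ μ0 : ℕ, ∀ (V E : Type) [Fintype V] [Fintype E] (G : MGraph V E), Fintype.card V = n →
      μ0 ≤ G.maxMult → (2 / 3 + ε) * (G.maxMult * n) ≤ (G.maxDeg : ℝ) →
      G.chromaticIndex = max G.maxDeg G.dens := by
  obtain ⟨j, hj⟩ := exists_nat_one_div_lt hε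
  refine ⟨2400 * (j + 1 + 1) ^ 2, fun n hn => ?_⟩
  obtain ⟨m, hm⟩ := main_weight (Fin n) (J := j + 1) (by omega)
    (by rw [Fintype.card_fin]; exact hn)
  refine ⟨m, fun V E _ _ G hV hμ hdeg => ?_⟩
  refine le_antisymm ?_ G.le_chromaticIndex
  let f : V ≃ Fin n := Fintype.equivFinOfCardEq hV
  have hkey : (2 * ((j + 1 : ℕ) : ℤ) + 3) * (G.maxMult * Fintype.card (Fin n)) ≤
      3 * ((j + 1 : ℕ) : ℤ) * ((max G.maxDeg G.dens : ℕ) : ℤ) := by
    rw [Fintype.card_fin]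
    have h1 : (G.maxDeg : ℝ) ≤ ((max G.maxDeg G.dens : ℕ) : ℝ) := by
      exact_mod_cast le_max_left _ _
    have hj0 : (0 : ℝ) < (j : ℝ) + 1 := by positivity
    have hP : (0 : ℝ) ≤ (G.maxMult : ℝ) * n := by positivity
    have h2 : (2 / 3 + 1 / ((j : ℝ) + 1)) * ((G.maxMult : ℝ) * n) ≤
        ((max G.maxDeg G.dens : ℕ) : ℝ) :=
      (mul_le_mul_of_nonneg_right (by linarith) hP).trans (hdeg.trans h1)
    have h3 : (2 * ((j : ℝ) + 1) + 3) * ((G.maxMult : ℝ) * n) ≤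
        3 * ((j : ℝ) + 1) * ((max G.maxDeg G.dens : ℕ) : ℝ) := by
      have h4 := mul_le_mul_of_nonneg_left h2 (show (0 : ℝ) ≤ 3 * ((j : ℝ) + 1) by positivity)
      have h5 : 3 * ((j : ℝ) + 1) * ((2 / 3 + 1 / ((j : ℝ) + 1)) * ((G.maxMult : ℝ) * n)) =
          (2 * ((j : ℝ) + 1) + 3) * ((G.maxMult : ℝ) * n) := by
        field_simp
      rw [h5] at h4
      exact h4
    have h6 : ((((2 * ((j + 1 : ℕ) : ℤ) + 3) * (G.maxMult * n) : ℤ)) : ℝ) ≤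
        ((3 * ((j + 1 : ℕ) : ℤ) * ((max G.maxDeg G.dens : ℕ) : ℤ) : ℤ) : ℝ) := by
      push_cast at h3 ⊢
      exact h3
    exact_mod_cast h6
  have hx : Cov (fun i j => G.wgt (f.symm i) (f.symm j)) (max G.maxDeg G.dens : ℕ) :=
    hm _ _ G.maxMult hμ (isW_comap f.symm G.isW_wgt) (ok_comap f.symm G.ok_max)
      (fun u v => G.wgt_le _ _) hkey
  have h2 := cov_comap f hx
  simp only [Equiv.symm_apply_apply] at h2
  exact G.chromaticIndex_le_of_cov h2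

end Pool.Agent.H44T
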