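import Pool.Agent.Lib.H44O.E4
import Pool.Agent.Lib.H44O.F4
import Pool.Agent.Lib.H44O.F5
import Pool.Agent.Lib.H44O.F6
import Pool.Agent.Lib.H44O.G2
import Pool.Agent.Lib.H44O.H5

/-!
# Definitions for H44T
-/

namespace Pool.Agent.H44T

open Finset Pool.Agent.H44O
open scoped Classical

variable {V : Type*} [Fintype V]

/-- Every pair of vertices can be removed: a perfect matching of the rest exists. -/
def NearP (H : SimpleGraph V) : Prop := ∀ a b : V, a ≠ b → ∃ τ : Equiv.Perm V, IsNear H a b τ

/-- The matching lattice contains all regular integral vectors supported on the graph. -/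
def LatP (H : SimpleGraph V) : Prop :=
  ∀ (y : V → V → ℤ) (ρ : ℤ), (∀ u v, y u v = y v u) → (∀ u, dg y u = ρ) →
    (∀ u v, y u v ≠ 0 → H.Adj u v) → y ∈ lat H

/-- Both properties for `H` and for all larger graphs. -/
def Nice (H : SimpleGraph V) : Prop := ∀ H' : SimpleGraph V, H ≤ H' → NearP H' ∧ LatP H'

/-- `H` contains all pairs inside `C` and all pairs outside `C`. -/
def TwoC (H : SimpleGraph V) (C : Finset V) : Prop :=
  ∀ u v, u ≠ v → (u ∈ C ↔ v ∈ C) → H.Adj u v

/-- Three disjoint edges of `H` between `C` and its complement. -/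
def Three (H : SimpleGraph V) (C : Finset V) (a b : Fin 3 → V) : Prop :=
  Function.Injective a ∧ Function.Injective b ∧ ∀ i, a i ∈ C ∧ b i ∉ C ∧ H.Adj (a i) (b i)

/-- How far the set `U` is from being full: `r (|U| - 1) - 2 e(U)`. -/
noncomputable def slk (x : V → V → ℤ) (r : ℤ) (U : Finset V) : ℤ :=
  r * ((U.card : ℤ) - 1) - inW x U

/-- `y` is a regular completion of `x` that satisfies the inequalities of Edmonds. -/
structure Comp (x y : V → V → ℤ) (r : ℤ) : Prop where
  /-- a weight -/
  isW : IsW y
  /-- contains `x` -/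
  le : ∀ u v, x u v ≤ y u v
  /-- regular -/
  reg : ∀ u, dg y u = r
  /-- Edmonds -/
  ok : Ok y r

/-- The number of edges from `v` to `W`. -/
noncomputable def din (x : V → V → ℤ) (W : Finset V) (v : V) : ℤ := ∑ w ∈ W, x v w

/-- The number of colours at `w ∈ W` which are not used inside `W`. -/
noncomputable def ends (x : V → V → ℤ) (r : ℤ) (W : Finset V) (w : V) : ℤ := r - din x W w

/-- The table of the ends: row `w ∈ W`; the column `c ∉ W` counts the edges `wc`, the column
`c = w` counts the missing colours at `w`. -/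
noncomputable def Bm (x : V → V → ℤ) (r : ℤ) (W : Finset V) (w c : V) : ℤ :=
  if w ∈ W then (if c ∈ W then (if c = w then r - dg x w else 0) else x w c) else 0

/-- The number of neighbours of `a` in `H` that lie in `W`. -/
noncomputable def nbi (H : SimpleGraph V) (W : Finset V) (a : V) : ℕ :=
  (W.filter (fun v => H.Adj a v)).card

end Pool.Agent.H44T
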